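import Pool.Agent.Lib.MP_b525bf_ag_W.Defs

/-!
# W1: homogeneous localisation at a prime (blueprint 0.1)
-/

set_option autoImplicit false

namespace Pool.Agent.MP_b525bf_ag_W

open Pool.Agent.MP_b525bf_ag AddMonoidAlgebra

variable {k K ι ι' : Type} [Field k] [Field K] [Algebra k K] [AddCommGroup ι] [AddCommGroup ι']

/-! ### Units of a family -/

theorem IsU.mul {N : Fam k K ι} {d e : ι} {x y : K} (hx : IsU N d x) (hy : IsU N e y) :
    IsU N (d + e) (x * y) := by
  refine ⟨mul_ne_zero hx.1 hy.1, N.mul' hx.2.1 hy.2.1, ?_⟩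
  have h := N.mul' hx.2.2 hy.2.2
  rwa [← mul_inv, ← neg_add] at h

theorem IsU.inv {N : Fam k K ι} {d : ι} {x : K} (hx : IsU N d x) : IsU N (-d) x⁻¹ :=
  ⟨inv_ne_zero hx.1, hx.2.2, by rw [inv_inv, neg_neg]; exact hx.2.1⟩

theorem IsU.of_mul_left {N : Fam k K ι} {d e : ι} {x y : K} (hx : x ∈ N.s d) (hy : y ∈ N.s e)
    (h : IsU N (d + e) (x * y)) : IsU N d x := by
  have hx0 : x ≠ 0 := left_ne_zero_of_mul h.1
  have hy0 : y ≠ 0 := right_ne_zero_of_mul h.1
  refine ⟨hx0, hx, ?_⟩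
  have h1 := N.mul' hy h.2.2
  have e1 : y * (x * y)⁻¹ = x⁻¹ := by field_simp
  have e2 : e + -(d + e) = -d := by abel
  rwa [e1, e2] at h1

theorem IsU.of_mul_right {N : Fam k K ι} {d e : ι} {x y : K} (hx : x ∈ N.s d) (hy : y ∈ N.s e)
    (h : IsU N (d + e) (x * y)) : IsU N e y := by
  refine IsU.of_mul_left (e := d) (y := x) hy hx ?_
  rwa [mul_comm, add_comm]

/-! ### The localisation -/

section

variable (M : Fam k K ι) (q : Ideal M.alg) [q.IsPrime]

theorem le_atP (d : ι) : M.s d ≤ (atP M q).s d := by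
  intro y hy
  refine ⟨0, 1, M.one', ?_, by rw [one_mul, zero_add]; exact hy⟩
  rw [M.el_one]
  exact (Ideal.ne_top_iff_one q).1 (Ideal.IsPrime.ne_top ‹_›)

/-- A homogeneous element outside the prime is not zero. -/
theorem ne_zero_of_el_notMem {d : ι} {x : K} {hx : x ∈ M.s d} (h : M.el hx ∉ q) : x ≠ 0 := by
  rintro rfl
  apply h
  have : M.el hx = 0 := Subtype.ext (by simp)
  rw [this]
  exact Ideal.zero_mem _

theorem isU_atP_iff {d : ι} {x : K} (hx : x ∈ M.s d) : IsU (atP M q) d x ↔ M.el hx ∉ q := by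
  constructor
  · rintro ⟨hx0, -, c, f, hf, hfq, h⟩ hxq
    apply hfq
    have e : M.el hf = M.el h * M.el hx := by
      refine Subtype.ext ?_
      change single c f = single (c + -d) (f * x⁻¹) * single d x
      rw [single_mul_single, mul_assoc, inv_mul_cancel₀ hx0, mul_one, neg_add_cancel_right]
    rw [e]
    exact Ideal.mul_mem_left _ _ hxq
  · intro h
    have hx0 := ne_zero_of_el_notMem M q h
    refine ⟨hx0, le_atP M q d hx, d, x, hx, h, ?_⟩
    rw [mul_inv_cancel₀ hx0, add_neg_cancel]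
    exact M.one'

theorem isU_add {d : ι} {x y : K} (hx : x ∈ (atP M q).s d) (hy : y ∈ (atP M q).s d)
    (hU : IsU (atP M q) d (x + y)) : IsU (atP M q) d x ∨ IsU (atP M q) d y := by
  obtain ⟨c, f, hf, hfq, hfx⟩ := hx
  obtain ⟨c', f', hf', hfq', hfy⟩ := hy
  have hx : x ∈ (atP M q).s d := ⟨c, f, hf, hfq, hfx⟩
  have hy : y ∈ (atP M q).s d := ⟨c', f', hf', hfq', hfy⟩
  have hg : f * f' ∈ M.s (c + c') := M.mul' hf hf'
  have hgq : M.el hg ∉ q := by
    rw [← M.el_mul hf hf']; exact (Ideal.IsPrime.mul_notMem ‹_› hfq hfq')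
  have hgU : IsU (atP M q) (c + c') (f * f') := (isU_atP_iff M q hg).2 hgq
  have h1 : f * f' * x ∈ M.s (c + c' + d) := by
    have := M.mul' hf' hfx
    have e1 : c' + (c + d) = c + c' + d := by abel
    rw [e1] at this
    convert this using 1
    ring
  have h2 : f * f' * y ∈ M.s (c + c' + d) := by
    have := M.mul' hf hfy
    have e1 : c + (c' + d) = c + c' + d := by abel
    rw [e1] at this
    convert this using 1
    ring
  have h3 : f * f' * (x + y) ∈ M.s (c + c' + d) := by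
    rw [mul_add]; exact Submodule.add_mem _ h1 h2
  have h4 : M.el h3 ∉ q := (isU_atP_iff M q h3).1 (hgU.mul hU)
  have h5 : M.el h3 = M.el h1 + M.el h2 := by
    refine Subtype.ext ?_
    change single _ _ = single _ _ + single _ _
    rw [← single_add, mul_add]
  by_cases h6 : M.el h1 ∈ q
  · right
    have h7 : M.el h2 ∉ q := fun h7 => h4 (by rw [h5]; exact Ideal.add_mem _ h6 h7)
    exact IsU.of_mul_right hgU.2.1 hy ((isU_atP_iff M q h2).2 h7)
  · left
    exact IsU.of_mul_right hgU.2.1 hx ((isU_atP_iff M q h1).2 h6)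

/-- The non-units of a given degree form a subspace. -/
theorem exists_isU_of_span {d : ι} {T : Set K} (hT : ∀ t ∈ T, t ∈ (atP M q).s d) {y : K}
    (hy : y ∈ Submodule.span k T) (hU : IsU (atP M q) d y) : ∃ t ∈ T, IsU (atP M q) d t := by
  have key : ∀ z ∈ Submodule.span k T, z ∈ (atP M q).s d ∧
      (IsU (atP M q) d z → ∃ t ∈ T, IsU (atP M q) d t) := by
    intro z hz
    induction hz using Submodule.span_induction with
    | mem t ht => exact ⟨hT t ht, fun h => ⟨t, ht, h⟩⟩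
    | zero => exact ⟨Submodule.zero_mem _, fun h => absurd rfl h.1⟩
    | add x y _ _ ihx ihy =>
      refine ⟨Submodule.add_mem _ ihx.1 ihy.1, fun h => ?_⟩
      rcases isU_add M q ihx.1 ihy.1 h with h | h
      · exact ihx.2 h
      · exact ihy.2 h
    | smul c x _ ih =>
      refine ⟨Submodule.smul_mem _ _ ih.1, fun h => ih.2 ?_⟩
      have hx0 : x ≠ 0 := by
        rintro rfl
        exact h.1 (smul_zero c)
      have hc0 : c ≠ 0 := by
        rintro rfl
        exact h.1 (zero_smul k x)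
      refine ⟨hx0, ih.1, ?_⟩
      have h1 := Submodule.smul_mem ((atP M q).s (-d)) c h.2.2
      have e1 : c • (c • x)⁻¹ = x⁻¹ := by
        rw [Algebra.smul_def, Algebra.smul_def, mul_inv, ← mul_assoc, mul_inv_cancel₀, one_mul]
        exact (map_ne_zero (algebraMap k K)).2 hc0
      rwa [e1] at h1
  exact (key y hy).2 hU

/-- Finitely many fractions have a common denominator. -/
theorem exists_common {σ : Type} (d : σ → ι) (x : σ → K) (hx : ∀ i, x i ∈ (atP M q).s (d i))
    (s : Finset σ) :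
    ∃ (c : ι) (f : K) (hf : f ∈ M.s c), M.el hf ∉ q ∧ ∀ i ∈ s, f * x i ∈ M.s (c + d i) := by
  classical
  induction s using Finset.induction_on with
  | empty =>
    refine ⟨0, 1, M.one', ?_, by simp⟩
    rw [M.el_one]
    exact (Ideal.ne_top_iff_one q).1 (Ideal.IsPrime.ne_top ‹_›)
  | insert i s _ ih =>
    obtain ⟨c, f, hf, hfq, h⟩ := ih
    obtain ⟨c', f', hf', hfq', h'⟩ := hx i
    refine ⟨c + c', f * f', M.mul' hf hf', ?_, ?_⟩
    · rw [← M.el_mul hf hf']; exact (Ideal.IsPrime.mul_notMem ‹_› hfq hfq')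
    · intro j hj
      rcases Finset.mem_insert.1 hj with rfl | hj
      · have := M.mul' hf h'
        have e1 : c + (c' + d j) = c + c' + d j := by abel
        rw [e1] at this
        convert this using 1
        ring
      · have := M.mul' hf' (h j hj)
        have e1 : c' + (c + d j) = c + c' + d j := by abel
        rw [e1] at this
        convert this using 1
        ring

/-- Blueprint 0.1 (f). -/
theorem exists_loc_le (C : Fam k K ι) (hC : C.alg.FG) (h : ∀ d, C.s d ≤ (atP M q).s d) :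
    ∃ (c : ι) (f : K) (hf : f ∈ M.s c), M.el hf ∉ q ∧ ∀ d, C.s d ≤ (M.loc hf).s d := by
  obtain ⟨r, d, x, hx, hgen⟩ := C.exists_generators hC
  obtain ⟨c, f, hf, hfq, hfx⟩ := exists_common M q d x (fun i => h _ (hx i)) Finset.univ
  refine ⟨c, f, hf, hfq, ?_⟩
  have hle : C.alg ≤ (M.loc hf).alg := by
    rw [hgen]
    refine Algebra.adjoin_le ?_
    rintro _ ⟨i, rfl⟩
    refine Fam.single_mem_alg.2 ⟨1, ?_⟩
    rw [pow_one, one_nsmul]
    exact hfx i (Finset.mem_univ i)
  intro e y hy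
  exact Fam.single_mem_alg.1 (hle (Fam.single_mem_alg.2 hy))

/-- Every element of the localisation is a fraction. -/
theorem exists_frac {d : ι} {y : K} (hy : y ∈ (atP M q).s d) :
    ∃ (c : ι) (f : K) (hf : f ∈ M.s c), M.el hf ∉ q ∧ f ≠ 0 ∧ f * y ∈ M.s (c + d) := by
  obtain ⟨c, f, hf, hfq, h⟩ := hy
  exact ⟨c, f, hf, hfq, ne_zero_of_el_notMem M q hfq, h⟩

end

/-! ### Inertia -/

section

variable {G : Type} [Group G] [Finite G] (φ : G →* (K ≃ₐ[k] K)) (M : Fam k K ι)
  (q : Ideal M.alg) [q.IsPrime]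

omit [q.IsPrime] in
/-- An element of the inertia group preserves the homogeneous elements outside the prime. -/
theorem inertia_el {g : G} (hg : g ∈ inertia φ M q) {c : ι} {f : K} (hf : f ∈ M.s c)
    (hfq : M.el hf ∉ q) : ∃ h : φ g f ∈ M.s c, M.el h ∉ q := by
  obtain ⟨h1, h1q⟩ := hg c f hf
  have h2 : φ g f ∈ M.s c := by
    have h3 := Submodule.add_mem _ h1 hf
    rwa [sub_add_cancel] at h3
  refine ⟨h2, fun h4 => hfq ?_⟩
  have e : M.el hf = M.el h2 - M.el h1 := by
    refine Subtype.ext ?_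
    change single c _ = single c _ - single c _
    rw [← single_sub, sub_sub_cancel]
  rw [e]
  exact Ideal.sub_mem _ h4 h1q

theorem inertia_mem {g : G} (hg : g ∈ inertia φ M q) {d : ι} {y : K} (hy : y ∈ (atP M q).s d) :
    φ g y ∈ (atP M q).s d := by
  obtain ⟨c, f, hf, hfq, hy⟩ := hy
  obtain ⟨hgf, hgfq⟩ := inertia_el φ M q hg hf hfq
  obtain ⟨h2, -⟩ := hg (c + d) (f * y) hy
  refine ⟨c, φ g f, hgf, hgfq, ?_⟩
  rw [← map_mul]
  have h3 := Submodule.add_mem _ h2 hy
  rwa [sub_add_cancel] at h3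

/-- Blueprint 0.1 (e). -/
theorem inertia_not_isU {g : G} (hg : g ∈ inertia φ M q) {d : ι} {y : K}
    (hy : y ∈ (atP M q).s d) : ¬ IsU (atP M q) d (φ g y - y) := by
  intro hU
  obtain ⟨c, f, hf, hfq, hy⟩ := hy
  obtain ⟨hgf, hgfq⟩ := inertia_el φ M q hg hf hfq
  obtain ⟨h1, h1q⟩ := hg c f hf
  obtain ⟨h2, h2q⟩ := hg (c + d) (f * y) hy
  have hFU : IsU (atP M q) (c + c) (f * φ g f) :=
    ((isU_atP_iff M q hf).2 hfq).mul ((isU_atP_iff M q hgf).2 hgfq)
  have hFz : IsU (atP M q) (c + c + d) (f * φ g f * (φ g y - y)) := hFU.mul hU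
  have e : f * φ g f * (φ g y - y) = f * (φ g (f * y) - f * y) - (f * y) * (φ g f - f) := by
    rw [map_mul]; ring
  have m1 := M.mul' hf h2
  have m2 := M.mul' hy h1
  have e1 : c + (c + d) = c + c + d := by abel
  have e2 : c + d + c = c + c + d := by abel
  have hm1 : M.el m1 ∈ q := by
    rw [← M.el_mul hf h2]; exact Ideal.mul_mem_left _ _ h2q
  have hm2 : M.el m2 ∈ q := by
    rw [← M.el_mul hy h1]; exact Ideal.mul_mem_left _ _ h1q
  have m3 : f * φ g f * (φ g y - y) ∈ M.s (c + c + d) := by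
    rw [e]
    refine Submodule.sub_mem _ ?_ ?_
    · rw [← e1]; exact m1
    · rw [← e2]; exact m2
  refine (isU_atP_iff M q m3).1 hFz ?_
  have e3 : M.el m3 = M.el m1 - M.el m2 := by
    refine Subtype.ext ?_
    change single (c + c + d) _ = single (c + (c + d)) _ - single (c + d + c) _
    rw [e1, e2, ← single_sub, e]
  rw [e3]
  exact Ideal.sub_mem _ hm1 hm2

theorem mem_inertia_iff (hst : ∀ g d x, x ∈ M.s d → φ g x ∈ M.s d) {g : G} :
    g ∈ inertia φ M q ↔ ∀ (d : ι) (x : K), x ∈ M.s d → ¬ IsU (atP M q) d (φ g x - x) := by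
  constructor
  · intro hg d x hx
    exact inertia_not_isU φ M q hg (le_atP M q d hx)
  · intro h d x hx
    have h1 : φ g x - x ∈ M.s d := Submodule.sub_mem _ (hst g d x hx) hx
    refine ⟨h1, ?_⟩
    by_contra h2
    exact h d x hx ((isU_atP_iff M q h1).2 h2)

end

/-! ### Primes over primes -/

section

variable {M : Fam k K ι} {M' : Fam k K ι'} {j : ι →+ ι'}

theorem mapDomain_mem_alg (hle : ∀ d, M.s d ≤ M'.s (j d)) (F : M.alg) :
    AddMonoidAlgebra.mapDomainAlgHom k K j (F : AddMonoidAlgebra K ι) ∈ M'.alg := by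
  induction F using Fam.alg_induction with
  | h0 => rw [ZeroMemClass.coe_zero, map_zero]; exact zero_mem _
  | hadd F G hF hG => rw [AddMemClass.coe_add, map_add]; exact add_mem hF hG
  | hel a x hx =>
    have : AddMonoidAlgebra.mapDomainAlgHom k K j ((M.el hx : M.alg) : AddMonoidAlgebra K ι) =
        single (j a) x := by
      simp
    rw [this]
    exact Fam.single_mem_alg.2 (hle a hx)

/-- The inclusion of graded algebras. -/
noncomputable def inclAlg (j : ι →+ ι') (hle : ∀ d, M.s d ≤ M'.s (j d)) : M.alg →ₐ[k] M'.alg :=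
  ((AddMonoidAlgebra.mapDomainAlgHom k K j).comp M.alg.val).codRestrict M'.alg
    (fun F => mapDomain_mem_alg hle F)

theorem inclAlg_el (hle : ∀ d, M.s d ≤ M'.s (j d)) {d : ι} {x : K} (hx : x ∈ M.s d)
    (hx' : x ∈ M'.s (j d)) : inclAlg j hle (M.el hx) = M'.el hx' := by
  refine Subtype.ext ?_
  change AddMonoidAlgebra.mapDomainAlgHom k K j (single d x) = single (j d) x
  simp

theorem exists_over (hj : Function.Injective j) (hle : ∀ d, M.s d ≤ M'.s (j d))
    (q' : Ideal M'.alg) [q'.IsPrime] : ∃ q : Ideal M.alg, q.IsPrime ∧ Over M M' j q q' := by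
  refine ⟨q'.comap (inclAlg j hle), inferInstance, ?_⟩
  intro d x hx hx'
  rw [Ideal.mem_comap, inclAlg_el hle hx hx']

variable {q : Ideal M.alg} [q.IsPrime] {q' : Ideal M'.alg} [q'.IsPrime]

theorem Over.degs (hle : ∀ d, M.s d ≤ M'.s (j d)) (h : Over M M' j q q') {d : ι}
    (hd : d ∈ M.degs q) : j d ∈ M'.degs q' := by
  obtain ⟨x, hx, hxq⟩ := hd
  exact ⟨x, hle d hx, fun h1 => hxq ((h d x hx (hle d hx)).2 h1)⟩

theorem Over.atP (hle : ∀ d, M.s d ≤ M'.s (j d)) (h : Over M M' j q q') (d : ι) :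
    (MP_b525bf_ag_W.atP M q).s d ≤ (MP_b525bf_ag_W.atP M' q').s (j d) := by
  rintro y ⟨c, f, hf, hfq, hy⟩
  refine ⟨j c, f, hle c hf, fun h1 => hfq ((h c f hf (hle c hf)).2 h1), ?_⟩
  rw [← map_add]
  exact hle _ hy

theorem Over.isU (hle : ∀ d, M.s d ≤ M'.s (j d)) (h : Over M M' j q q') {d : ι} {y : K}
    (hy : y ∈ (MP_b525bf_ag_W.atP M q).s d) :
    IsU (MP_b525bf_ag_W.atP M q) d y ↔ IsU (MP_b525bf_ag_W.atP M' q') (j d) y := by
  constructor
  · rintro ⟨h0, h1, h2⟩
    refine ⟨h0, Over.atP hle h d h1, ?_⟩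
    rw [← map_neg]
    exact Over.atP hle h (-d) h2
  · intro hU
    obtain ⟨c, f, hf, hfq, hfy⟩ := hy
    have hf' : f ∈ M'.s (j c) := hle c hf
    have hfq' : M'.el hf' ∉ q' := fun h1 => hfq ((h c f hf hf').2 h1)
    have h1 : IsU (MP_b525bf_ag_W.atP M' q') (j c) f := (isU_atP_iff M' q' hf').2 hfq'
    have h2 := h1.mul hU
    rw [← map_add] at h2
    have hfy' : f * y ∈ M'.s (j (c + d)) := hle _ hfy
    have h3 := (isU_atP_iff M' q' hfy').1 h2
    have h4 : M.el hfy ∉ q := fun h5 => h3 ((h (c + d) (f * y) hfy hfy').1 h5)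
    have h5 := (isU_atP_iff M q hfy).2 h4
    exact IsU.of_mul_right (le_atP M q c hf) ⟨c, f, hf, hfq, hfy⟩ h5

theorem Over.inertia_le {G : Type} [Group G] [Finite G] (φ : G →* (K ≃ₐ[k] K))
    (hst : ∀ g d x, x ∈ M.s d → φ g x ∈ M.s d)
    (hle : ∀ d, M.s d ≤ M'.s (j d)) (h : Over M M' j q q') :
    inertia φ M' q' ≤ inertia φ M q := by
  intro g hg d x hx
  obtain ⟨h1, h2⟩ := hg (j d) x (hle d hx)
  have h3 : φ g x - x ∈ M.s d := Submodule.sub_mem _ (hst g d x hx) hx
  exact ⟨h3, (h d _ h3 h1).2 h2⟩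

end

end Pool.Agent.MP_b525bf_ag_W
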