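import Pool.Agent.Lib.MP_b525bf_ag_W.Defs
import Pool.Agent.Lib.MP_b525bf_ag_h52d.Destack

/-!
# Theorem W: destackification

Blueprint 7.
-/

set_option autoImplicit false

namespace Pool.Agent.MP_b525bf_ag_W

open Pool.Agent.MP_b525bf_ag

variable {k K ι : Type} [Field k] [Field K] [Algebra k K] [AddCommGroup ι]

/-- Destackification: a good multigraded family can be replaced by a family graded by `ℤ` with
trivial stabilisers and with the same piece of degree zero. -/
theorem GoodM.exists_goodC [Module.Free ℤ ι] [Module.Finite ℤ ι] {M : Fam k K ι} {a : ι}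
    (h : GoodM M a) : ∃ M' : Fam k K ℤ, GoodC M' 1 ∧ M'.s 0 = M.s 0 :=
  destack M a h.fg h.smooth h.idx h.neg h.nontriv h.gen

end Pool.Agent.MP_b525bf_ag_W
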