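import Pool.Agent.Lib.MP_b525bf_ag_W.Inv
import Pool.Agent.Lib.MP_b525bf_ag_W.Destack
import Pool.Agent.Lib.MP_b525bf_ag.GroupB
import Pool.Agent.Lib.MP_b525bf_ag_h42.LinAct

/-!
# W13: Theorem W
-/

set_option autoImplicit false

namespace Pool.Agent.MP_b525bf_ag_W

open Pool.Agent.MP_b525bf_ag Pool.Agent.MPb525bf Module MvPolynomial

theorem exists_goodC {k U K G : Type} [Field k] [Infinite k] [AddCommGroup U] [Module k U]
    [FiniteDimensional k U] [Field K] [Algebra k K] [Group G] [Finite G] {p : ℕ} [CharP k p]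
    {L : Lin k U K} {ρ : Representation k G U} {φ : G →* (K ≃ₐ[k] K)} (hc : Ctx L ρ φ p) :
    ∃ M : Fam k K ℤ, GoodC M 1 ∧ ∀ x, x ∈ M.s 0 ↔ x ∈ L.B ∧ ∀ g, φ g x = x := by
  obtain ⟨ι, i1, i2, i3, N, a, hN, h0⟩ := exists_goodM hc
    (hasFin hc (hasSt2_final hc (hasSt2_empty hc (hasSt1_final hc))))
  obtain ⟨M, hM, hM0⟩ := hN.exists_goodC
  exact ⟨M, hM, fun x => by rw [hM0, h0]⟩

section Poly

variable (k : Type) [Field k] (n : ℕ)

/-- The linear polynomial with given coefficients. -/
noncomputable def linP : (Fin n → k) →ₗ[k] MvPolynomial (Fin n) k :=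
  Fintype.linearCombination k (fun i : Fin n => (X i : MvPolynomial (Fin n) k))

theorem linP_apply (u : Fin n → k) : linP k n u = ∑ i, MvPolynomial.C (u i) * X i := by
  rw [linP, Fintype.linearCombination_apply]
  simp only [MvPolynomial.smul_eq_C_mul]

theorem linP_single (i : Fin n) : linP k n (Pi.single i 1) = X i := by
  rw [linP, Fintype.linearCombination_apply_single, one_smul]

theorem indep_linP {κ : Type} (b : Module.Basis κ k (Fin n → k)) :
    AlgebraicIndependent k fun i => linP k n (b i) := by
  classical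
  let g : MvPolynomial (Fin n) k →ₐ[k] MvPolynomial κ k :=
    aeval fun j => Finsupp.linearCombination k (fun i : κ => (X i : MvPolynomial κ k))
      (b.repr (Pi.single j 1))
  have h1 : g.toLinearMap ∘ₗ linP k n =
      Finsupp.linearCombination k (fun i : κ => (X i : MvPolynomial κ k)) ∘ₗ
        (b.repr : (Fin n → k) →ₗ[k] κ →₀ k) := by
    refine LinearMap.pi_ext' fun j => LinearMap.ext_ring ?_
    change g (linP k n (Pi.single j 1)) = _
    rw [linP_single]
    exact aeval_X _ _
  rw [AlgebraicIndependent]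
  have h2 : g.comp (aeval fun i => linP k n (b i)) = AlgHom.id k _ := by
    ext i : 1
    rw [AlgHom.comp_apply, aeval_X]
    have := LinearMap.congr_fun h1 (b i)
    change g (linP k n (b i)) = Finsupp.linearCombination k _ (b.repr (b i)) at this
    rw [this, b.repr_self, Finsupp.linearCombination_single, one_smul]
    rfl
  intro x y hxy
  have h3 := congrArg g hxy
  have h4 : ∀ z, g (aeval (fun i => linP k n (b i)) z) = z := fun z => DFunLike.congr_fun h2 z
  rwa [h4, h4] at h3

/-- The linear forms of the polynomial ring. -/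
noncomputable def linPoly :
    (Fin n → k) →ₗ[k] FractionRing (MvPolynomial (Fin n) k) :=
  (IsScalarTower.toAlgHom k (MvPolynomial (Fin n) k)
    (FractionRing (MvPolynomial (Fin n) k))).toLinearMap ∘ₗ linP k n

theorem linPoly_apply (u : Fin n → k) :
    linPoly k n u = algebraMap (MvPolynomial (Fin n) k) _ (linP k n u) := rfl

theorem mem_adjoin_linPoly {z : FractionRing (MvPolynomial (Fin n) k)} :
    z ∈ Algebra.adjoin k (Set.range (linPoly k n)) ↔
      ∃ x, algebraMap (MvPolynomial (Fin n) k) _ x = z := by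
  constructor
  · intro h
    have : Algebra.adjoin k (Set.range (linPoly k n)) ≤
        (IsScalarTower.toAlgHom k (MvPolynomial (Fin n) k)
          (FractionRing (MvPolynomial (Fin n) k))).range := by
      rw [Algebra.adjoin_le_iff]
      rintro _ ⟨u, rfl⟩
      exact ⟨linP k n u, rfl⟩
    obtain ⟨x, hx⟩ := this h
    exact ⟨x, hx⟩
  · rintro ⟨x, rfl⟩
    have hx : x ∈ Algebra.adjoin k (Set.range (X : Fin n → MvPolynomial (Fin n) k)) := by
      rw [MvPolynomial.adjoin_range_X]; trivial
    have h1 : (Algebra.adjoin k (Set.range (X : Fin n → MvPolynomial (Fin n) k))).map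
        (IsScalarTower.toAlgHom k (MvPolynomial (Fin n) k)
          (FractionRing (MvPolynomial (Fin n) k))) ≤
        Algebra.adjoin k (Set.range (linPoly k n)) := by
      rw [AlgHom.map_adjoin, Algebra.adjoin_le_iff]
      rintro _ ⟨_, ⟨i, rfl⟩, rfl⟩
      apply Algebra.subset_adjoin
      exact ⟨Pi.single i 1, by rw [linPoly_apply, linP_single]; rfl⟩
    exact h1 ⟨x, hx, rfl⟩

/-- The polynomial ring as a symmetric algebra. -/
noncomputable def LPoly : Lin k (Fin n → k) (FractionRing (MvPolynomial (Fin n) k)) where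
  lin := linPoly k n
  indep := by
    intro κ b
    have h := (indep_linP k n b).map' (f := IsScalarTower.toAlgHom k (MvPolynomial (Fin n) k)
      (FractionRing (MvPolynomial (Fin n) k))) (IsFractionRing.injective _ _)
    exact h
  frac := by
    intro z
    obtain ⟨x, y, hy, rfl⟩ := IsFractionRing.div_surjective (A := MvPolynomial (Fin n) k) z
    refine ⟨algebraMap _ _ x, (mem_adjoin_linPoly k n).2 ⟨x, rfl⟩, algebraMap _ _ y,
      (mem_adjoin_linPoly k n).2 ⟨y, rfl⟩, ?_, ?_⟩
    · exact IsFractionRing.to_map_ne_zero_of_mem_nonZeroDivisors hy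
    · exact div_mul_cancel₀ _ (IsFractionRing.to_map_ne_zero_of_mem_nonZeroDivisors hy)

theorem mem_LPoly_B {z : FractionRing (MvPolynomial (Fin n) k)} :
    z ∈ (LPoly k n).B ↔ ∃ x, algebraMap (MvPolynomial (Fin n) k) _ x = z :=
  mem_adjoin_linPoly k n

end Poly

section Act

variable {k : Type} [Field k] {n : ℕ}

theorem sub_linP (M : Matrix (Fin n) (Fin n) k) (u : Fin n → k) :
    sub M (linP k n u) = linP k n (M.mulVec u) := by
  have h : (sub M).toLinearMap ∘ₗ linP k n = linP k n ∘ₗ M.mulVecLin := by
    refine LinearMap.pi_ext' fun j => LinearMap.ext_ring ?_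
    change sub M (linP k n (Pi.single j 1)) = linP k n (M.mulVec (Pi.single j 1))
    rw [linP_single, sub_X, linP_apply]
    refine Finset.sum_congr rfl fun i _ => ?_
    rw [Matrix.mulVec_single_one]
    rfl
  exact LinearMap.congr_fun h u

/-- The substitutions as a monoid homomorphism. -/
noncomputable def subHom : Matrix (Fin n) (Fin n) k →*
    (MvPolynomial (Fin n) k →ₐ[k] MvPolynomial (Fin n) k) where
  toFun := sub
  map_one' := sub_one
  map_mul' := sub_mul

/-- The action of the linear group on the polynomial ring. -/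
noncomputable def glPoly : Matrix.GeneralLinearGroup (Fin n) k →*
    (MvPolynomial (Fin n) k ≃ₐ[k] MvPolynomial (Fin n) k) :=
  (AlgEquiv.algHomUnitsEquiv k (MvPolynomial (Fin n) k)).toMonoidHom.comp (Units.map subHom)

theorem glPoly_apply (g : Matrix.GeneralLinearGroup (Fin n) k) (x : MvPolynomial (Fin n) k) :
    glPoly g x = sub (g : Matrix (Fin n) (Fin n) k) x := rfl

/-- The action of the linear group on linear forms. -/
noncomputable def glRep : Representation k (Matrix.GeneralLinearGroup (Fin n) k) (Fin n → k) where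
  toFun g := (g : Matrix (Fin n) (Fin n) k).mulVecLin
  map_one' := by
    rw [Units.val_one, Matrix.mulVecLin_one]; rfl
  map_mul' g h := by
    rw [Units.val_mul, Matrix.mulVecLin_mul]; rfl

theorem glRep_apply (g : Matrix.GeneralLinearGroup (Fin n) k) (u : Fin n → k) :
    glRep g u = (g : Matrix (Fin n) (Fin n) k).mulVec u := rfl

theorem glRep_injective : Function.Injective (glRep (k := k) (n := n)) := by
  intro g h hgh
  apply Units.ext
  apply Matrix.toLin'.injective
  exact hgh

end Act

/-- Theorem W. -/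
theorem hasResolution_linear (p : ℕ) [Fact p.Prime] (k : Type) [Field k] [Infinite k] [CharP k p]
    (n : ℕ) (G : Subgroup (Matrix.GeneralLinearGroup (Fin n) k)) [Finite G]
    (hG : ¬ p ^ 2 ∣ Nat.card G) :
    HasResolution k (invRing {M : Matrix (Fin n) (Fin n) k | ∃ g ∈ G, M = g}) := by
  let K := FractionRing (MvPolynomial (Fin n) k)
  let φ : G →* (K ≃ₐ[k] K) := (fracHom.comp glPoly).comp G.subtype
  let ρ : Representation k G (Fin n → k) := glRep.comp G.subtype
  have hφ : ∀ (g : G) (x : MvPolynomial (Fin n) k), φ g (algebraMap _ K x) =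
      algebraMap _ K (sub ((g : Matrix.GeneralLinearGroup (Fin n) k) : Matrix (Fin n) (Fin n) k) x) := by
    intro g x
    change fracEquiv (glPoly (g : Matrix.GeneralLinearGroup (Fin n) k)) (algebraMap _ K x) = _
    rw [fracEquiv_algebraMap]
    rfl
  have hc : Ctx (LPoly k n) ρ φ p :=
    { hp := Fact.out
      hG := hG
      hφ := by
        intro g u
        change φ g (algebraMap _ K (linP k n u)) = algebraMap _ K (linP k n _)
        rw [hφ, sub_linP]
        rfl
      hρ := glRep_injective.comp Subtype.val_injective }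
  obtain ⟨M, hM, h0⟩ := exists_goodC hc
  refine hasResolution_of_goodC_one k _ K ?_ M hM ?_
  · exact (IsFractionRing.injective (MvPolynomial (Fin n) k) K).comp Subtype.val_injective
  · intro z
    rw [h0, mem_LPoly_B]
    constructor
    · rintro ⟨⟨x, rfl⟩, hx⟩
      refine ⟨⟨x, ?_⟩, rfl⟩
      rintro _ ⟨g, hg, rfl⟩
      apply IsFractionRing.injective (MvPolynomial (Fin n) k) K
      rw [← hφ ⟨g, hg⟩]
      exact hx _
    · rintro ⟨⟨x, hx⟩, rfl⟩
      refine ⟨⟨x, rfl⟩, fun g => ?_⟩
      change φ g (algebraMap _ K x) = algebraMap _ K x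
      rw [hφ, hx _ ⟨g, g.2, rfl⟩]

end Pool.Agent.MP_b525bf_ag_W
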