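import Pool.Agent.Lib.MP_b525bf_ag.FamLoc

/-!
# W3, auxiliary file: smoothness of monoid algebras
-/

set_option autoImplicit false

namespace Pool.Agent.MP_b525bf_ag_W

open AddMonoidAlgebra

/-- Homomorphisms out of the monoid `Γ` lift along square zero extensions of rings. -/
def Lft (Γ : Type) [AddCommMonoid Γ] : Prop :=
  ∀ (B : Type) [CommRing B] (I : Ideal B), I ^ 2 = ⊥ → ∀ f : Multiplicative Γ →* B ⧸ I,
    ∃ g : Multiplicative Γ →* B, ∀ x, Ideal.Quotient.mk I (g x) = f x

theorem formallySmooth_of_lft (k Γ : Type) [Field k] [AddCommMonoid Γ] (h : Lft Γ) :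
    Algebra.FormallySmooth k (AddMonoidAlgebra k Γ) := by
  refine Algebra.FormallySmooth.of_comp_surjective fun B _ _ I hI f => ?_
  obtain ⟨g, hg⟩ := h B I hI ((f : AddMonoidAlgebra k Γ →* B ⧸ I).comp (AddMonoidAlgebra.of k Γ))
  refine ⟨AddMonoidAlgebra.lift k B Γ g, ?_⟩
  refine AddMonoidAlgebra.algHom_ext' (MonoidHom.ext fun x => ?_) (AlgHom.ext fun x => ?_)
  · have := hg x
    simp only [MonoidHom.coe_comp, Function.comp_apply, MonoidHom.coe_coe] at this ⊢
    rw [AlgHom.comp_apply, AddMonoidAlgebra.lift_of]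
    exact this
  · exact ((AlgHom.commutes _ x).trans (AlgHom.commutes _ x).symm)

theorem Lft.prod {Γ Γ' : Type} [AddCommMonoid Γ] [AddCommMonoid Γ'] (h : Lft Γ) (h' : Lft Γ') :
    Lft (Γ × Γ') := by
  intro B _ I hI f
  obtain ⟨g, hg⟩ := h B I hI (f.comp (AddMonoidHom.toMultiplicative (AddMonoidHom.inl Γ Γ')))
  obtain ⟨g', hg'⟩ := h' B I hI (f.comp (AddMonoidHom.toMultiplicative (AddMonoidHom.inr Γ Γ')))
  refine ⟨(g.comp (AddMonoidHom.toMultiplicative (AddMonoidHom.fst Γ Γ'))) *
    (g'.comp (AddMonoidHom.toMultiplicative (AddMonoidHom.snd Γ Γ'))), fun x => ?_⟩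
  rw [MonoidHom.mul_apply, map_mul, MonoidHom.comp_apply, MonoidHom.comp_apply, hg, hg',
    MonoidHom.comp_apply, MonoidHom.comp_apply, ← map_mul]
  congr 1
  change Multiplicative.ofAdd _ = _
  have : ((Multiplicative.toAdd x).1, (0 : Γ')) + ((0 : Γ), (Multiplicative.toAdd x).2) =
    Multiplicative.toAdd x := by simp
  exact congrArg Multiplicative.ofAdd this

theorem Lft.finsupp (σ : Type) : Lft (σ →₀ ℕ) := by
  intro B _ I hI f
  have hs : ∀ i : σ, ∃ s : B, Ideal.Quotient.mk I s = f (Multiplicative.ofAdd (Finsupp.single i 1)) :=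
    fun i => Ideal.Quotient.mk_surjective _
  choose s hs using hs
  refine ⟨AddMonoidHom.toMultiplicativeLeft (Finsupp.liftAddHom fun i =>
    multiplesHom (Additive B) (Additive.ofMul (s i))), fun x => ?_⟩
  induction x using Multiplicative.rec with
  | ofAdd a =>
    induction a using Finsupp.induction_linear with
    | zero => rw [ofAdd_zero, map_one, map_one, map_one]
    | add a b ha hb => rw [ofAdd_add, map_mul, map_mul, map_mul, ha, hb]
    | single i n =>
      have h1 : Multiplicative.ofAdd (Finsupp.single i n) =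
          Multiplicative.ofAdd (Finsupp.single i 1) ^ n := by
        rw [← ofAdd_nsmul, Finsupp.smul_single, smul_eq_mul, mul_one]
      rw [h1, map_pow, map_pow, map_pow, ← hs]
      congr 2
      simp

theorem Lft.free (Z : Type) [AddCommGroup Z] [Module.Free ℤ Z] : Lft Z := by
  intro B _ I hI f
  let φ : Additive Bˣ →+ Additive (B ⧸ I)ˣ :=
    MonoidHom.toAdditive (Units.map (Ideal.Quotient.mk I : B →* B ⧸ I))
  have hφ : Function.Surjective φ.toIntLinearMap := by
    intro u
    obtain ⟨s, hs⟩ := Ideal.Quotient.mk_surjective (I := I) (u.toMul : B ⧸ I)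
    have hu : IsUnit s := by
      rw [← IsNilpotent.isUnit_quotient_mk_iff (I := I) ⟨2, hI⟩, hs]
      exact Units.isUnit _
    obtain ⟨v, rfl⟩ := hu
    refine ⟨Additive.ofMul v, ?_⟩
    change Additive.ofMul (Units.map (Ideal.Quotient.mk I : B →* B ⧸ I) v) = u
    have : Units.map (Ideal.Quotient.mk I : B →* B ⧸ I) v = u.toMul := Units.ext hs
    rw [this]
    rfl
  let ψ : Z →+ Additive (B ⧸ I)ˣ := MonoidHom.toAdditiveRight f.toHomUnits
  obtain ⟨g, hg⟩ := Module.projective_lifting_property φ.toIntLinearMap ψ.toIntLinearMap hφ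
  refine ⟨(Units.coeHom B).comp (AddMonoidHom.toMultiplicativeLeft g.toAddMonoidHom), fun x => ?_⟩
  have h1 := LinearMap.congr_fun hg x.toAdd
  have h2 : Units.map (Ideal.Quotient.mk I : B →* B ⧸ I) (g x.toAdd).toMul = f.toHomUnits x := by
    have := congrArg Additive.toMul h1
    exact this
  have h3 := congrArg (fun u : (B ⧸ I)ˣ => (u : B ⧸ I)) h2
  exact h3

end Pool.Agent.MP_b525bf_ag_W
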