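import Pool.Agent.Lib.MP_b525bf_ag_W.Defs
import Pool.Agent.Lib.MP_b525bf_h41.Chains

/-!
# W2b: two chains of subspaces have a common adapted basis (blueprint 5.4)
-/

set_option autoImplicit false

namespace Pool.Agent.MP_b525bf_ag_W

open Module

variable {k U : Type} [Field k] [AddCommGroup U] [Module k U]

theorem finite_of_isChain [FiniteDimensional k U] {C : Set (Submodule k U)}
    (h : IsChain (· ≤ ·) C) : C.Finite := by
  have h1 : Set.InjOn (fun W : Submodule k U => finrank k W) C := by
    intro W hW W' hW' he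
    by_cases h2 : W = W'
    · exact h2
    · rcases h hW hW' h2 with h3 | h3
      · exact Submodule.eq_of_le_of_finrank_eq h3 he
      · exact (Submodule.eq_of_le_of_finrank_eq h3 he.symm).symm
  refine Set.Finite.of_finite_image ?_ h1
  refine (Set.finite_Iic (finrank k U)).subset ?_
  rintro _ ⟨W, _, rfl⟩
  exact Submodule.finrank_le W

/-- Two chains of subspaces have a common adapted basis (blueprint 5.4). -/
theorem exists_adapted_two_aux [FiniteDimensional k U] {C₁ C₂ : Set (Submodule k U)}
    (h₁ : IsChain (· ≤ ·) C₁) (h₂ : IsChain (· ≤ ·) C₂) :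
    ∃ β : Set U, IsBasis k β ∧ ∀ W ∈ C₁ ∪ C₂, Adapted β W := by
  obtain ⟨β, hβ, hs, hb1, hb2⟩ := ResW.exists_adapted_two_chains
    (finite_of_isChain h₁).toFinset (finite_of_isChain h₂).toFinset
    (by simpa using h₁) (by simpa using h₂)
  refine ⟨β, ⟨hβ, hs.ge⟩, ?_⟩
  rintro W (hW | hW)
  · exact (hb1 W (by simpa using hW)).le
  · exact (hb2 W (by simpa using hW)).le

end Pool.Agent.MP_b525bf_ag_W
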