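import Pool.Agent.Lib.MP_b525bf_ag_W.Defs
import Pool.Agent.Lib.MP_b525bf_ag_W.Flag_aux_h41
import Mathlib.RingTheory.MvPowerSeries.NoZeroDivisors

/-!
# W2: valuations of flags (blueprint 0.2)
-/

set_option autoImplicit false

namespace Pool.Agent.MP_b525bf_ag_W

open Pool.Agent.MP_b525bf_ag Module

variable {k U K : Type} [Field k] [AddCommGroup U] [Module k U] [Field K] [Algebra k K]
  (L : Lin k U K)

theorem lin_mem_B (u : U) : L.lin u ∈ L.B := Algebra.subset_adjoin ⟨u, rfl⟩

theorem prod_mem_B (l : List (ℕ × U)) : (l.map fun x => L.lin x.2).prod ∈ L.B := by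
  refine Subalgebra.list_prod_mem _ ?_
  intro y hy
  obtain ⟨x, _, rfl⟩ := List.mem_map.1 hy
  exact lin_mem_B L x.2

theorem fil_le_B (v : ℕ → Submodule k U) (m : ℤ) :
    L.Fil v m ≤ Subalgebra.toSubmodule L.B := by
  refine Submodule.span_le.2 ?_
  rintro y ⟨l, _, _, rfl⟩
  exact prod_mem_B L l

theorem prod_mem_fil {v : ℕ → Submodule k U} {m : ℤ} (l : List (ℕ × U))
    (hl : ∀ x ∈ l, x.2 ∈ v x.1) (hm : m ≤ ((l.map Prod.fst).sum : ℕ)) :
    (l.map fun x => L.lin x.2).prod ∈ L.Fil v m :=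
  Submodule.subset_span ⟨l, hl, hm, rfl⟩

theorem fil_of_nonpos {v : ℕ → Submodule k U} (hv : IsFlag v) {m : ℤ} (hm : m ≤ 0) :
    L.Fil v m = Subalgebra.toSubmodule L.B := by
  refine le_antisymm (fil_le_B L v m) ?_
  rw [Lin.B, Algebra.adjoin_eq_span]
  refine Submodule.span_le.2 ?_
  intro y hy
  have key : ∃ l : List U, y = (l.map L.lin).prod := by
    induction hy using Submonoid.closure_induction with
    | mem x hx => obtain ⟨u, rfl⟩ := hx; exact ⟨[u], by simp⟩
    | one => exact ⟨[], by simp⟩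
    | mul x y _ _ hx hy =>
      obtain ⟨l, rfl⟩ := hx
      obtain ⟨l', rfl⟩ := hy
      exact ⟨l ++ l', by simp⟩
  obtain ⟨l, rfl⟩ := key
  have h := prod_mem_fil L (v := v) (m := m) (l.map fun u => ((0 : ℕ), u)) (by
    intro x hx
    obtain ⟨u, _, rfl⟩ := List.mem_map.1 hx
    simp [hv.zero]) (hm.trans (by positivity))
  simpa [List.map_map, Function.comp_def] using h

theorem fil_anti (v : ℕ → Submodule k U) {m m' : ℤ} (h : m ≤ m') : L.Fil v m' ≤ L.Fil v m := by
  refine Submodule.span_mono ?_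
  rintro y ⟨l, hl, hm, rfl⟩
  exact ⟨l, hl, h.trans hm, rfl⟩

theorem fil_mul {v : ℕ → Submodule k U} {m m' : ℤ} {x y : K} (hx : x ∈ L.Fil v m)
    (hy : y ∈ L.Fil v m') : x * y ∈ L.Fil v (m + m') := by
  have h := Submodule.mul_mem_mul hx hy
  rw [Lin.Fil, Lin.Fil, Submodule.span_mul_span] at h
  refine Submodule.span_mono ?_ h
  rintro _ ⟨_, ⟨l, hl, hm, rfl⟩, _, ⟨l', hl', hm', rfl⟩, rfl⟩
  refine ⟨l ++ l', ?_, ?_, by simp⟩
  · intro x hx
    rcases List.mem_append.1 hx with h | h
    · exact hl x h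
    · exact hl' x h
  · rw [List.map_append, List.sum_append, Nat.cast_add]
    exact add_le_add hm hm'

theorem one_mem_fil (v : ℕ → Submodule k U) {m : ℤ} (hm : m ≤ 0) : (1 : K) ∈ L.Fil v m := by
  have h := prod_mem_fil L (v := v) (m := m) [] (by simp) (by simpa using hm)
  simpa using h

theorem lin_mem_fil {v : ℕ → Submodule k U} {m : ℕ} {z : U} (hz : z ∈ v m) :
    L.lin z ∈ L.Fil v m := by
  have h := prod_mem_fil L (v := v) (m := m) [(m, z)] (by simpa using hz) (by simp)
  simpa using h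

/-- A flag with larger subspaces has a larger valuation. -/
theorem fil_mono {v v' : ℕ → Submodule k U} (h : ∀ m, v m ≤ v' m) (m : ℤ) :
    L.Fil v m ≤ L.Fil v' m := by
  refine Submodule.span_mono ?_
  rintro y ⟨l, hl, hm, rfl⟩
  exact ⟨l, fun x hx => h _ (hl x hx), hm, rfl⟩

theorem mem_iff_le_lev {v : ℕ → Submodule k U} (hv : IsFlag v) {z : U} (hz : z ≠ 0) {m : ℕ} :
    z ∈ v m ↔ m ≤ lev v z := by
  obtain ⟨M, hM⟩ := hv.fin
  have hbdd : BddAbove {m | z ∈ v m} := by
    refine ⟨M, ?_⟩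
    intro m hm
    by_contra hlt
    push Not at hlt
    have := hv.anti hlt.le hm
    rw [hM] at this
    exact hz ((Submodule.mem_bot k).1 this)
  have hne : {m | z ∈ v m}.Nonempty := ⟨0, by simp [hv.zero]⟩
  constructor
  · intro h
    exact le_csSup hbdd h
  · intro h
    have h2 : z ∈ v (lev v z) := Nat.sSup_mem hne hbdd
    exact hv.anti h h2

/-! ### The polynomial ring of an adapted basis -/

section Poly

variable {β : Set U}

theorem IsBasis.ne_zero (hβ : IsBasis k β) {b : U} (hb : b ∈ β) : b ≠ 0 :=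
  hβ.1.ne_zero (⟨b, hb⟩ : β)

/-- The basis given by the set. -/
noncomputable def bas (hβ : IsBasis k β) : Basis β k U := Basis.mk hβ.1 (by
  rw [Subtype.range_coe]; exact hβ.2)

@[simp] theorem bas_apply (hβ : IsBasis k β) (i : β) : bas hβ i = (i : U) := by
  simp [bas]

/-- The map from the polynomial ring. -/
noncomputable def pol (β : Set U) : MvPolynomial β k →ₐ[k] K :=
  MvPolynomial.aeval fun i : β => L.lin (i : U)

theorem pol_inj (hβ : IsBasis k β) : Function.Injective (pol L β) := by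
  have h := L.indep (bas hβ)
  simp only [bas_apply] at h
  exact h

theorem pol_range (hβ : IsBasis k β) : (pol L β).range = L.B := by
  rw [pol, ← Algebra.adjoin_range_eq_range_aeval, Lin.B]
  refine le_antisymm (Algebra.adjoin_mono ?_) (Algebra.adjoin_le ?_)
  · rintro _ ⟨i, rfl⟩
    exact ⟨_, rfl⟩
  · rintro _ ⟨u, rfl⟩
    have hu : u ∈ Submodule.span k β := hβ.2 trivial
    have : Submodule.span k β ≤ (Subalgebra.toSubmodule
        (Algebra.adjoin k (Set.range fun i : β => L.lin (i : U)))).comap L.lin := by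
      refine Submodule.span_le.2 ?_
      intro b hb
      exact Algebra.subset_adjoin ⟨⟨b, hb⟩, rfl⟩
    exact this hu

/-- Polynomials all of whose monomials have weight at least `m`. -/
noncomputable def Wt (w : β → ℕ) (m : ℤ) : Submodule k (MvPolynomial β k) :=
  MvPolynomial.restrictSupport k {d | m ≤ (Finsupp.weight w d : ℕ)}

omit [AddCommGroup U] [Module k U] in
theorem mem_Wt (w : β → ℕ) (m : ℤ) (P : MvPolynomial β k) :
    P ∈ Wt w m ↔ ∀ d, P.coeff d ≠ 0 → m ≤ (Finsupp.weight w d : ℕ) := by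
  rw [Wt, MvPolynomial.mem_restrictSupport_iff]
  constructor
  · intro h d hd
    exact h (MvPolynomial.mem_support_iff.2 hd)
  · intro h d hd
    exact h d (MvPolynomial.mem_support_iff.1 hd)

omit [AddCommGroup U] [Module k U] in
theorem mem_Wt' (w : β → ℕ) (m : ℕ) (P : MvPolynomial β k) :
    P ∈ Wt w m ↔ (m : ℕ∞) ≤ (P : MvPowerSeries β k).weightedOrder w := by
  rw [mem_Wt]
  constructor
  · intro h
    refine MvPowerSeries.nat_le_weightedOrder w ?_
    intro d hd
    rw [MvPolynomial.coeff_coe]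
    by_contra h2
    have := h d h2
    omega
  · intro h d hd
    by_contra h2
    push Not at h2
    have h3 : ((Finsupp.weight w d : ℕ) : ℕ∞) < m := by
      have : Finsupp.weight w d < m := by exact_mod_cast h2
      exact_mod_cast this
    have := MvPowerSeries.coeff_eq_zero_of_lt_weightedOrder w (lt_of_lt_of_le h3 h)
    rw [MvPolynomial.coeff_coe] at this
    exact hd this

omit [AddCommGroup U] [Module k U] in
theorem Wt_of_nonpos (w : β → ℕ) {m : ℤ} (hm : m ≤ 0) (P : MvPolynomial β k) : P ∈ Wt w m := by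
  rw [mem_Wt]
  intro d _
  exact hm.trans (by positivity)

omit [AddCommGroup U] [Module k U] in
theorem Wt_mul (w : β → ℕ) {m m' : ℕ} {P Q : MvPolynomial β k} (hP : P ∈ Wt w m)
    (hQ : Q ∈ Wt w m') : P * Q ∈ Wt w (m + m' : ℕ) := by
  rw [mem_Wt'] at hP hQ ⊢
  rw [MvPolynomial.coe_mul, MvPowerSeries.weightedOrder_mul]
  push_cast
  exact add_le_add hP hQ

/-- The weights of an adapted basis. -/
noncomputable def wts (β : Set U) (v : ℕ → Submodule k U) : β → ℕ := fun i => lev v (i : U)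

theorem lin_eq_pol (hβ : IsBasis k β) {v : ℕ → Submodule k U} (hv : IsFlag v)
    {m : ℕ} (had : Adapted β (v m)) {z : U} (hz : z ∈ v m) :
    ∃ P ∈ Wt (k := k) (wts β v) m, pol L β P = L.lin z := by
  have h1 : Submodule.span k (β ∩ v m) ≤ ((Wt (k := k) (wts β v) m).map (pol L β).toLinearMap).comap
      L.lin := by
    refine Submodule.span_le.2 ?_
    rintro b ⟨hb, hbm⟩
    refine ⟨MvPolynomial.X ⟨b, hb⟩, ?_, ?_⟩
    · rw [SetLike.mem_coe, mem_Wt]
      intro d hd
      have : d = Finsupp.single ⟨b, hb⟩ 1 := by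
        classical
        by_contra hne
        rw [MvPolynomial.coeff_X] at hd
        exact hd (if_neg fun h => hne h.symm)
      rw [this, Finsupp.weight_single]
      have := (mem_iff_le_lev hv (hβ.ne_zero hb)).1 hbm
      simpa [wts] using this
    · simp [pol]
  obtain ⟨P, hP, hP'⟩ := h1 (had hz)
  exact ⟨P, hP, hP'⟩

theorem exists_list (d : β →₀ ℕ) : ∃ l : List U, (∀ b ∈ l, b ∈ β) ∧
    (∀ v : ℕ → Submodule k U, Finsupp.weight (wts β v) d = (l.map (lev v)).sum) ∧
    pol L β (MvPolynomial.monomial d 1) = (l.map L.lin).prod := by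
  induction d using Finsupp.induction_linear with
  | zero => exact ⟨[], by simp, by simp, by simp⟩
  | add d d' h h' =>
    obtain ⟨l, h1, h2, h3⟩ := h
    obtain ⟨l', h1', h2', h3'⟩ := h'
    refine ⟨l ++ l', ?_, ?_, ?_⟩
    · intro b hb
      rcases List.mem_append.1 hb with h | h
      · exact h1 b h
      · exact h1' b h
    · intro v
      rw [map_add, List.map_append, List.sum_append, h2, h2']
    · rw [List.map_append, List.prod_append, ← h3, ← h3', ← map_mul, MvPolynomial.monomial_mul,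
        mul_one]
  | single i n =>
    refine ⟨List.replicate n (i : U), ?_, ?_, ?_⟩
    · intro b hb
      rw [List.eq_of_mem_replicate hb]
      exact i.2
    · intro v
      rw [Finsupp.weight_single]
      simp [wts]
    · rw [List.map_replicate, List.prod_replicate, ← MvPolynomial.X_pow_eq_monomial, map_pow]
      simp [pol]

theorem exists_exp (l : List U) (hl : ∀ b ∈ l, b ∈ β) : ∃ d : β →₀ ℕ,
    (∀ v : ℕ → Submodule k U, Finsupp.weight (wts β v) d = (l.map (lev v)).sum) ∧
    pol L β (MvPolynomial.monomial d 1) = (l.map L.lin).prod := by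
  induction l with
  | nil => exact ⟨0, by simp, by simp⟩
  | cons b l ih =>
    obtain ⟨d, h1, h2⟩ := ih fun b' hb' => hl b' (List.mem_cons_of_mem _ hb')
    have hb : b ∈ β := hl b List.mem_cons_self
    refine ⟨Finsupp.single ⟨b, hb⟩ 1 + d, ?_, ?_⟩
    · intro v
      rw [map_add, h1, Finsupp.weight_single]
      simp [wts]
    · have : (MvPolynomial.monomial (Finsupp.single ⟨b, hb⟩ 1 + d) (1 : k)) =
          MvPolynomial.X ⟨b, hb⟩ * MvPolynomial.monomial d 1 := by
        rw [MvPolynomial.X, MvPolynomial.monomial_mul, mul_one]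
      rw [this, map_mul, h2]
      simp [pol]

theorem list_mem_fil (hβ : IsBasis k β) {v : ℕ → Submodule k U} (hv : IsFlag v)
    (l : List U) (hl : ∀ b ∈ l, b ∈ β) :
    (l.map L.lin).prod ∈ L.Fil v ((l.map (lev v)).sum : ℕ) := by
  have h := prod_mem_fil L (v := v) (m := ((l.map (lev v)).sum : ℕ))
    (l.map fun b => (lev v b, b)) (by
      intro x hx
      obtain ⟨b, hb, rfl⟩ := List.mem_map.1 hx
      exact (mem_iff_le_lev hv (hβ.ne_zero (hl b hb))).2 le_rfl)
    (by simp [List.map_map, Function.comp_def])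
  simpa [List.map_map, Function.comp_def] using h

theorem fil_iff (hβ : IsBasis k β) {v : ℕ → Submodule k U} (hv : IsFlag v)
    (had : ∀ m, Adapted β (v m)) (m : ℤ) (P : MvPolynomial β k) :
    pol L β P ∈ L.Fil v m ↔ P ∈ Wt (wts β v) m := by
  constructor
  · intro h
    have key : L.Fil v m ≤ (Wt (k := k) (wts β v) m).map (pol L β).toLinearMap := by
      refine Submodule.span_le.2 ?_
      rintro y ⟨l, hl, hm, rfl⟩
      have h2 : ∃ P ∈ Wt (k := k) (wts β v) ((l.map Prod.fst).sum : ℕ),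
          pol L β P = (l.map fun x => L.lin x.2).prod := by
        clear hm h
        induction l with
        | nil => exact ⟨1, Wt_of_nonpos _ (by simp) _, by simp⟩
        | cons x l ih =>
          obtain ⟨P, hP, hP'⟩ := ih fun x' hx' => hl x' (List.mem_cons_of_mem _ hx')
          obtain ⟨Q, hQ, hQ'⟩ := lin_eq_pol L hβ hv (had x.1) (hl x List.mem_cons_self)
          refine ⟨Q * P, ?_, ?_⟩
          · have := Wt_mul (wts β v) hQ hP
            simpa using this
          · rw [map_mul, hP', hQ', List.map_cons, List.prod_cons]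
      obtain ⟨P, hP, hP'⟩ := h2
      refine ⟨P, ?_, hP'⟩
      rw [SetLike.mem_coe, mem_Wt]
      intro d hd
      exact hm.trans ((mem_Wt _ _ _).1 hP d hd)
    obtain ⟨Q, hQ, hQ'⟩ := key h
    have := pol_inj L hβ hQ'
    rwa [← this]
  · intro h
    rw [mem_Wt] at h
    rw [MvPolynomial.as_sum P, map_sum]
    refine Submodule.sum_mem _ ?_
    intro d hd
    obtain ⟨l, h1, h2, h3⟩ := exists_list L d
    have h4 : MvPolynomial.monomial d (MvPolynomial.coeff d P) =
        MvPolynomial.coeff d P • MvPolynomial.monomial d (1 : k) := by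
      rw [MvPolynomial.smul_monomial, smul_eq_mul, mul_one]
    rw [h4, map_smul, h3]
    refine Submodule.smul_mem _ _ (fil_anti L v ?_ (list_mem_fil L hβ hv l h1))
    rw [← h2 v]
    exact h d (MvPolynomial.mem_support_iff.1 hd)

end Poly

/-- The valuation of a polynomial is read off from its monomials in an adapted basis;
simultaneously for several flags. `Ct` is a set of conditions `(v, m)`. -/
theorem fil_span [FiniteDimensional k U] {β : Set U} (hβ : IsBasis k β)
    (Ct : Set ((ℕ → Submodule k U) × ℤ)) (hflag : ∀ c ∈ Ct, IsFlag c.1)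
    (had : ∀ c ∈ Ct, ∀ m, Adapted β (c.1 m)) {y : K} (hyB : y ∈ L.B)
    (hy : ∀ c ∈ Ct, y ∈ L.Fil c.1 c.2) :
    y ∈ Submodule.span k {y1 | ∃ l : List U, (∀ b ∈ l, b ∈ β) ∧
      (∀ c ∈ Ct, c.2 ≤ ((l.map (lev c.1)).sum : ℕ)) ∧ y1 = (l.map L.lin).prod} := by
  rw [← pol_range L hβ] at hyB
  obtain ⟨P, rfl⟩ := hyB
  change pol L β P ∈ _
  rw [MvPolynomial.as_sum P, map_sum]
  refine Submodule.sum_mem _ ?_
  intro d hd
  obtain ⟨l, h1, h2, h3⟩ := exists_list L d
  have h4 : MvPolynomial.monomial d (MvPolynomial.coeff d P) =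
      MvPolynomial.coeff d P • MvPolynomial.monomial d (1 : k) := by
    rw [MvPolynomial.smul_monomial, smul_eq_mul, mul_one]
  rw [h4, map_smul, h3]
  refine Submodule.smul_mem _ _ (Submodule.subset_span ⟨l, h1, ?_, rfl⟩)
  intro c hc
  rw [← h2 c.1]
  exact (mem_Wt _ _ _).1 ((fil_iff L hβ (hflag c hc) (had c hc) c.2 P).1 (hy c hc)) d
    (MvPolynomial.mem_support_iff.1 hd)

/-- Monomials in an adapted basis have the expected value. -/
theorem monomial_mem_fil {β : Set U} (hβ : IsBasis k β) {v : ℕ → Submodule k U} (hv : IsFlag v)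
    (l : List U) (hl : ∀ b ∈ l, b ∈ β) : (l.map L.lin).prod ∈ L.Fil v ((l.map (lev v)).sum : ℕ) :=
  list_mem_fil L hβ hv l hl

theorem le_of_monomial_mem_fil [FiniteDimensional k U] {β : Set U} (hβ : IsBasis k β)
    {v : ℕ → Submodule k U} (hv : IsFlag v)
    (had : ∀ m, Adapted β (v m)) (l : List U) (hl : ∀ b ∈ l, b ∈ β) {m : ℤ}
    (h : (l.map L.lin).prod ∈ L.Fil v m) : m ≤ ((l.map (lev v)).sum : ℕ) := by
  classical
  obtain ⟨d, h1, h2⟩ := exists_exp L l hl
  rw [← h2, fil_iff L hβ hv had, mem_Wt] at h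
  rw [← h1]
  refine h d ?_
  rw [MvPolynomial.coeff_monomial, if_pos rfl]
  exact one_ne_zero

/-- Two chains of subspaces have a common adapted basis (blueprint 5.4). -/
theorem exists_adapted_two [FiniteDimensional k U] {C₁ C₂ : Set (Submodule k U)}
    (h₁ : IsChain (· ≤ ·) C₁) (h₂ : IsChain (· ≤ ·) C₂) :
    ∃ β : Set U, IsBasis k β ∧ ∀ W ∈ C₁ ∪ C₂, Adapted β W :=
  exists_adapted_two_aux h₁ h₂

/-- The flag defines a valuation: `v (f * y) ≥ c + m`, `v f ≤ c` imply `v y ≥ m`. -/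
theorem fil_cancel [FiniteDimensional k U] {v : ℕ → Submodule k U} (hv : IsFlag v) {c m : ℤ}
    {f y : K} (hf : f ∈ L.B) (hfc : f ∉ L.Fil v (c + 1)) (hy : y ∈ L.B)
    (hfy : f * y ∈ L.Fil v (c + m)) : y ∈ L.Fil v m := by
  have hch : IsChain (· ≤ ·) (Set.range v) := by
    rintro _ ⟨i, rfl⟩ _ ⟨j, rfl⟩ _
    rcases le_total i j with h | h
    · exact Or.inr (hv.anti h)
    · exact Or.inl (hv.anti h)
  obtain ⟨β, hβ, had⟩ := exists_adapted_two hch (C₂ := ∅) (by simp)
  have had' : ∀ m, Adapted β (v m) := fun m => had _ (Or.inl ⟨m, rfl⟩)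
  rw [← pol_range L hβ] at hf hy
  obtain ⟨F, rfl⟩ := hf
  obtain ⟨Y, rfl⟩ := hy
  change pol L β F ∉ _ at hfc
  change pol L β F * pol L β Y ∈ _ at hfy
  change pol L β Y ∈ _
  rw [← map_mul] at hfy
  rw [fil_iff L hβ hv had'] at hfc hfy ⊢
  rcases le_or_gt m 0 with hm | hm
  · exact Wt_of_nonpos _ hm _
  obtain ⟨d, hd, hdc⟩ : ∃ d, F.coeff d ≠ 0 ∧ ((Finsupp.weight (wts β v) d : ℕ) : ℤ) < c + 1 := by
    by_contra h
    push Not at h
    exact hfc ((mem_Wt _ _ _).2 h)
  have hc0 : 0 ≤ c := by omega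
  obtain ⟨c₀, rfl⟩ := Int.eq_ofNat_of_zero_le hc0
  obtain ⟨m₀, rfl⟩ := Int.eq_ofNat_of_zero_le hm.le
  have hF : (F : MvPowerSeries β k).weightedOrder (wts β v) ≤ c₀ := by
    have h1 : MvPowerSeries.coeff d (F : MvPowerSeries β k) ≠ 0 := by
      rwa [MvPolynomial.coeff_coe]
    refine (MvPowerSeries.weightedOrder_le (wts β v) h1).trans ?_
    have : Finsupp.weight (wts β v) d ≤ c₀ := by omega
    exact_mod_cast this
  have hFY : F * Y ∈ Wt (wts β v) ((c₀ + m₀ : ℕ) : ℤ) := by exact_mod_cast hfy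
  rw [mem_Wt', MvPolynomial.coe_mul, MvPowerSeries.weightedOrder_mul] at hFY
  rw [mem_Wt']
  have h2 := hFY.trans (add_le_add_left hF _)
  push_cast at h2
  exact (ENat.add_le_add_iff_left (ENat.natCast_ne_top _)).1 h2

/-! ### Automorphisms -/

theorem map_lin_prod (ψ : K ≃ₐ[k] K) (γ : U →ₗ[k] U) (hψ : ∀ u, ψ (L.lin u) = L.lin (γ u))
    (l : List (ℕ × U)) : ψ (l.map fun x => L.lin x.2).prod =
      ((l.map fun x => (x.1, γ x.2)).map fun x => L.lin x.2).prod := by
  rw [_root_.map_list_prod, List.map_map, List.map_map]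
  congr 1
  refine List.map_congr_left ?_
  intro x _
  exact hψ x.2

/-- Transport of the filtration. -/
theorem fil_map {v v' : ℕ → Submodule k U} (ψ : K ≃ₐ[k] K) (γ : U →ₗ[k] U)
    (hψ : ∀ u, ψ (L.lin u) = L.lin (γ u)) (h : ∀ m, ∀ z ∈ v m, γ z ∈ v' m) {m : ℤ} {y : K}
    (hy : y ∈ L.Fil v m) : ψ y ∈ L.Fil v' m := by
  have key : L.Fil v m ≤ (L.Fil v' m).comap ψ.toLinearMap := by
    refine Submodule.span_le.2 ?_
    rintro y ⟨l, hl, hm, rfl⟩
    change ψ _ ∈ L.Fil v' m
    rw [map_lin_prod L ψ γ hψ]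
    refine prod_mem_fil L _ ?_ ?_
    · intro x hx
      obtain ⟨x, hx', rfl⟩ := List.mem_map.1 hx
      exact h _ _ (hl x hx')
    · rw [List.map_map]
      exact hm
  exact key hy

/-- If `γ - 1` raises the level by one, then `ψ y - y` has larger value than `y`. -/
theorem fil_diff {v : ℕ → Submodule k U} (hv : IsFlag v) (ψ : K ≃ₐ[k] K) (γ : U →ₗ[k] U)
    (hψ : ∀ u, ψ (L.lin u) = L.lin (γ u)) (h : ∀ m, ∀ z ∈ v m, γ z - z ∈ v (m + 1)) {m : ℤ} {y : K}
    (hy : y ∈ L.Fil v m) : ψ y - y ∈ L.Fil v (m + 1) := by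
  have hγ : ∀ m, ∀ z ∈ v m, γ z ∈ v m := by
    intro m z hz
    have h1 := hv.anti (Nat.le_succ m) (h m z hz)
    have h2 := Submodule.add_mem _ h1 hz
    rwa [sub_add_cancel] at h2
  have key : L.Fil v m ≤ (L.Fil v (m + 1)).comap (ψ.toLinearMap - LinearMap.id) := by
    refine Submodule.span_le.2 ?_
    rintro y ⟨l, hl, hm, rfl⟩
    change ψ (l.map fun x => L.lin x.2).prod - (l.map fun x => L.lin x.2).prod ∈ L.Fil v (m + 1)
    refine fil_anti L v (add_le_add_left hm 1) ?_
    clear hm hy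
    induction l with
    | nil =>
      simp
    | cons x l ih =>
      have ih' := ih fun x' hx' => hl x' (List.mem_cons_of_mem _ hx')
      have hx := hl x List.mem_cons_self
      have hP : (l.map fun x => L.lin x.2).prod ∈ L.Fil v ((l.map Prod.fst).sum : ℕ) :=
        prod_mem_fil L l (fun x' hx' => hl x' (List.mem_cons_of_mem _ hx')) le_rfl
      have hψP := fil_map L (v := v) (v' := v) ψ γ hψ hγ hP
      set P := (l.map fun x => L.lin x.2).prod with hPdef
      have e : ψ ((x :: l).map fun x => L.lin x.2).prod - ((x :: l).map fun x => L.lin x.2).prod =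
          L.lin (γ x.2 - x.2) * ψ P + L.lin x.2 * (ψ P - P) := by
        rw [List.map_cons, List.prod_cons, map_mul, hψ, map_sub, ← hPdef]
        ring
      rw [e]
      refine Submodule.add_mem _ ?_ ?_
      · have h1 := fil_mul L (lin_mem_fil L (h x.1 x.2 hx)) hψP
        convert h1 using 1
        simp
        ring_nf
      · have h1 := fil_mul L (lin_mem_fil L hx) ih'
        convert h1 using 1
        simp
        ring_nf
  exact key hy

theorem map_mem_B (ψ : K ≃ₐ[k] K) (γ : U →ₗ[k] U) (hψ : ∀ u, ψ (L.lin u) = L.lin (γ u)) {y : K}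
    (hy : y ∈ L.B) : ψ y ∈ L.B := by
  have key : L.B ≤ L.B.comap (ψ : K →ₐ[k] K) := by
    refine Algebra.adjoin_le ?_
    rintro _ ⟨u, rfl⟩
    change ψ (L.lin u) ∈ L.B
    rw [hψ]
    exact lin_mem_B L _
  exact key hy

/-- If `(γ - 1) U ≤ v 1`, then `ψ y - y` has value at least one. -/
theorem fil_diff_one {v : ℕ → Submodule k U} (hv : IsFlag v) (ψ : K ≃ₐ[k] K) (γ : U →ₗ[k] U)
    (hψ : ∀ u, ψ (L.lin u) = L.lin (γ u)) (h : ∀ z, γ z - z ∈ v 1) {y : K}
    (hy : y ∈ L.B) : ψ y - y ∈ L.Fil v 1 := by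
  have hB : ∀ {y}, y ∈ L.B → y ∈ L.Fil v 0 := by
    intro y hy
    rw [fil_of_nonpos L hv le_rfl]
    exact hy
  have key : L.Fil v 0 ≤ (L.Fil v 1).comap (ψ.toLinearMap - LinearMap.id) := by
    refine Submodule.span_le.2 ?_
    rintro y ⟨l, -, -, rfl⟩
    change ψ (l.map fun x => L.lin x.2).prod - (l.map fun x => L.lin x.2).prod ∈ L.Fil v 1
    induction l with
    | nil =>
      simp
    | cons x l ih =>
      set P := (l.map fun x => L.lin x.2).prod with hPdef
      have hψP : ψ P ∈ L.B := map_mem_B L ψ γ hψ (prod_mem_B L l)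
      have e : ψ ((x :: l).map fun x => L.lin x.2).prod - ((x :: l).map fun x => L.lin x.2).prod =
          L.lin (γ x.2 - x.2) * ψ P + L.lin x.2 * (ψ P - P) := by
        rw [List.map_cons, List.prod_cons, map_mul, hψ, map_sub, ← hPdef]
        ring
      rw [e]
      refine Submodule.add_mem _ ?_ ?_
      · have h1 := fil_mul L (lin_mem_fil L (h x.2)) (hB hψP)
        simpa using h1
      · have h1 := fil_mul L (hB (lin_mem_B L x.2)) ih
        simpa using h1
  exact key (hB hy)

end Pool.Agent.MP_b525bf_ag_W
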