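import Pool.Agent.Lib.MP_b525bf_ag_W.AtP
import Pool.Agent.Lib.MP_b525bf_ag_W.Flag
import Pool.Agent.Lib.MP_b525bf_ag_W.Chart_aux

/-!
# W3: charts (blueprint 0.3, 0.4)
-/

set_option autoImplicit false

namespace Pool.Agent.MP_b525bf_ag_W

open Pool.Agent.MP_b525bf_ag Module AddMonoidAlgebra

section Aux

variable {k U K ι Ix : Type} [Field k] [AddCommGroup U] [Module k U] [Field K] [Algebra k K]
  [AddCommGroup ι]

/-- The value of a monomial. -/
noncomputable def wh (v : ℕ → Submodule k U) (β : Set U) : (β →₀ ℕ) →+ ℕ :=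
  Finsupp.liftAddHom fun b => multiplesHom ℕ (lev v (b : U))

/-- The monomial as an element of `K`. -/
noncomputable def xh (L : Lin k U K) (β : Set U) : Multiplicative (β →₀ ℕ) →* K :=
  AddMonoidHom.toMultiplicativeLeft
    (Finsupp.liftAddHom fun b : β => multiplesHom (Additive K) (Additive.ofMul (L.lin b)))

theorem wh_single (v : ℕ → Submodule k U) (β : Set U) (b : β) (n : ℕ) :
    wh v β (Finsupp.single b n) = n * lev v (b : U) := by
  simp [wh]

theorem xh_single (L : Lin k U K) (β : Set U) (b : β) (n : ℕ) :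
    xh L β (Multiplicative.ofAdd (Finsupp.single b n)) = L.lin b ^ n := by
  simp [xh]

theorem xh_eq_prod (L : Lin k U K) (β : Set U) (α : β →₀ ℕ) :
    xh L β (Multiplicative.ofAdd α) = α.prod fun b n => L.lin b ^ n := by
  induction α using Finsupp.induction_linear with
  | zero => rw [ofAdd_zero, map_one, Finsupp.prod_zero_index]
  | add a b ha hb =>
    rw [ofAdd_add, map_mul, ha, hb, Finsupp.prod_add_index' (by simp) (by intro _ _ _; rw [pow_add])]
  | single b n => rw [xh_single, Finsupp.prod_single_index (by simp)]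

theorem xh_mem_fil {L : Lin k U K} {β : Set U} (hβ : IsBasis k β) {v : ℕ → Submodule k U}
    (hv : IsFlag v) (α : β →₀ ℕ) :
    xh L β (Multiplicative.ofAdd α) ∈ L.Fil v (wh v β α : ℕ) := by
  induction α using Finsupp.induction_linear with
  | zero => rw [ofAdd_zero, map_one, map_zero]; exact one_mem_fil L _ (by simp)
  | add a b ha hb =>
    rw [ofAdd_add, map_mul, map_add, Nat.cast_add]
    exact fil_mul L ha hb
  | single b n =>
    have := monomial_mem_fil L hβ hv (List.replicate n (b : U)) (by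
      intro c hc
      rw [List.eq_of_mem_replicate hc]
      exact b.2)
    rw [xh_single, wh_single]
    simpa [List.map_replicate, List.prod_replicate, List.sum_replicate] using this

theorem xh_mem_B (L : Lin k U K) (β : Set U) (α : β →₀ ℕ) :
    xh L β (Multiplicative.ofAdd α) ∈ L.B := by
  induction α using Finsupp.induction_linear with
  | zero => rw [ofAdd_zero, map_one]; exact L.B.one_mem
  | add a b ha hb => rw [ofAdd_add, map_mul]; exact L.B.mul_mem ha hb
  | single b n =>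
    rw [xh_single]
    exact L.B.pow_mem (Algebra.subset_adjoin ⟨_, rfl⟩) n

theorem xh_list (L : Lin k U K) (β : Set U) (t : List β) :
    xh L β (Multiplicative.ofAdd ((t.map fun b => Finsupp.single b 1).sum)) =
      (t.map fun b : β => L.lin (b : U)).prod := by
  induction t with
  | nil => simp
  | cons b t ih =>
    rw [List.map_cons, List.sum_cons, ofAdd_add, map_mul, ih, xh_single, List.map_cons,
      List.prod_cons, pow_one]

theorem wh_list (v : ℕ → Submodule k U) (β : Set U) (t : List β) :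
    wh v β ((t.map fun b => Finsupp.single b 1).sum) = (t.map fun b : β => lev v (b : U)).sum := by
  induction t with
  | nil => simp
  | cons b t ih =>
    rw [List.map_cons, List.sum_cons, map_add, ih, wh_single, List.map_cons, List.sum_cons, one_mul]

/-- The monomials in a basis are linearly independent. -/
theorem linearIndependent_xh (L : Lin k U K) {β : Set U} (hβ : IsBasis k β) :
    LinearIndependent k fun α : β →₀ ℕ => xh L β (Multiplicative.ofAdd α) := by
  let b : Basis β k U := Basis.mk hβ.1 (by rw [Subtype.range_coe]; exact hβ.2)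
  have h1 := L.indep b
  have h2 : (fun i => L.lin (b i)) = fun i : β => L.lin i := by
    funext i
    rw [Basis.mk_apply]
  rw [h2, AlgebraicIndependent] at h1
  have h3 := (MvPolynomial.basisMonomials β k).linearIndependent.map' 
    (MvPolynomial.aeval (R := k) fun i : β => L.lin (i : U)).toLinearMap
    (LinearMap.ker_eq_bot.2 h1)
  have h4 : (fun α : β →₀ ℕ => xh L β (Multiplicative.ofAdd α)) =
      (MvPolynomial.aeval (R := k) fun i : β => L.lin (i : U)).toLinearMap ∘
        (MvPolynomial.basisMonomials β k) := by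
    funext α
    rw [Function.comp_apply, MvPolynomial.coe_basisMonomials, AlgHom.toLinearMap_apply,
      MvPolynomial.aeval_monomial, map_one, one_mul, xh_eq_prod]
  rw [h4]
  exact h3

/-- The elements of degree zero for all `l E`, `E ∈ S`. -/
def ZZ (l : Ix → ι →+ ℤ) (S : Set Ix) : AddSubgroup ι where
  carrier := {z | ∀ E ∈ S, l E z = 0}
  add_mem' := by
    intro a b ha hb E hE
    rw [map_add, ha E hE, hb E hE, add_zero]
  zero_mem' := by intro E _; rw [map_zero]
  neg_mem' := by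
    intro a ha E hE
    rw [map_neg, ha E hE, neg_zero]

/-- The degree of a monomial. -/
noncomputable def dh (fl : Ix → ℕ → Submodule k U) (e : Ix → ι) (S : Set Ix) [Fintype S]
    (β : Set U) : (β →₀ ℕ) →+ ι :=
  ∑ E : S, (multiplesHom ι (e E)).comp (wh (fl E) β)

/-- The degree of a product of sections. -/
noncomputable def sh (e : Ix → ι) (S : Set Ix) : (S →₀ ℕ) →+ ι :=
  Finsupp.liftAddHom fun E : S => multiplesHom ι (e E)

theorem l_dh {l : Ix → ι →+ ℤ} {e : Ix → ι} {S : Set Ix} [Fintype S] (hdual : Dual l e S)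
    (fl : Ix → ℕ → Submodule k U) (β : Set U) {E : Ix} (hE : E ∈ S) (α : β →₀ ℕ) :
    l E (dh fl e S β α) = (wh (fl E) β α : ℕ) := by
  rw [dh, AddMonoidHom.finsetSum_apply, map_sum, Finset.sum_eq_single ⟨E, hE⟩]
  · simp [hdual.self E hE]
  · rintro ⟨E', hE'⟩ _ hne
    have : E ≠ E' := fun h => hne (Subtype.ext h.symm)
    simp [hdual.ne E hE E' hE' this]
  · intro h; exact absurd (Finset.mem_univ _) h

theorem l_sh {l : Ix → ι →+ ℤ} {e : Ix → ι} {S : Set Ix} (hdual : Dual l e S)
    {E : Ix} (hE : E ∈ S) (b : S →₀ ℕ) : l E (sh e S b) = (b ⟨E, hE⟩ : ℕ) := by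
  classical
  induction b using Finsupp.induction_linear with
  | zero => simp
  | add a b ha hb => rw [map_add, map_add, ha, hb]; simp
  | single E' n =>
    obtain ⟨E', hE'⟩ := E'
    rw [sh, Finsupp.liftAddHom_apply_single, multiplesHom_apply, map_nsmul, Finsupp.single_apply]
    split_ifs with h
    · have : E' = E := congrArg Subtype.val h
      subst this
      simp [hdual.self _ hE']
    · have : E ≠ E' := fun h' => h (Subtype.ext h'.symm)
      simp [hdual.ne E hE E' hE' this]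

/-- The degree homomorphism. -/
noncomputable def dg (fl : Ix → ℕ → Submodule k U) (l : Ix → ι →+ ℤ) (e : Ix → ι) (S : Set Ix)
    [Fintype S] (β : Set U) : (β →₀ ℕ) × (S →₀ ℕ) × ZZ l S →+ ι :=
  (dh fl e S β).coprod ((-sh e S).coprod (ZZ l S).subtype)

theorem dg_apply (fl : Ix → ℕ → Submodule k U) (l : Ix → ι →+ ℤ) (e : Ix → ι) (S : Set Ix)
    [Fintype S] (β : Set U) (γ : (β →₀ ℕ) × (S →₀ ℕ) × ZZ l S) :
    dg fl l e S β γ = dh fl e S β γ.1 + (- sh e S γ.2.1 + γ.2.2) := rfl

theorem l_dg {l : Ix → ι →+ ℤ} {e : Ix → ι} {S : Set Ix} [Fintype S] (hdual : Dual l e S)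
    (fl : Ix → ℕ → Submodule k U) (β : Set U) {E : Ix} (hE : E ∈ S)
    (γ : (β →₀ ℕ) × (S →₀ ℕ) × ZZ l S) :
    l E (dg fl l e S β γ) = (wh (fl E) β γ.1 : ℕ) - (γ.2.1 ⟨E, hE⟩ : ℕ) := by
  rw [dg_apply, map_add, map_add, map_neg, l_dh hdual fl β hE, l_sh hdual hE, γ.2.2.2 E hE]
  ring

theorem dg_injective {l : Ix → ι →+ ℤ} {e : Ix → ι} {S : Set Ix} [Fintype S] (hdual : Dual l e S)
    (fl : Ix → ℕ → Submodule k U) (β : Set U) {γ γ' : (β →₀ ℕ) × (S →₀ ℕ) × ZZ l S}
    (h1 : γ.1 = γ'.1) (h : dg fl l e S β γ = dg fl l e S β γ') : γ = γ' := by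
  have h2 : γ.2.1 = γ'.2.1 := by
    refine Finsupp.ext ?_
    rintro ⟨E, hE⟩
    have := congrArg (l E) h
    rw [l_dg hdual fl β hE, l_dg hdual fl β hE, h1] at this
    omega
  have h3 : (γ.2.2 : ι) = γ'.2.2 := by
    rw [dg_apply, dg_apply, h1, h2] at h
    exact add_left_cancel (add_left_cancel h)
  exact Prod.ext h1 (Prod.ext h2 (Subtype.ext h3))

/-- The homogeneous element of a monomial. -/
noncomputable def mon (L : Lin k U K) (fl : Ix → ℕ → Submodule k U) (l : Ix → ι →+ ℤ) (e : Ix → ι)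
    (S : Set Ix) [Fintype S] (β : Set U) :
    Multiplicative ((β →₀ ℕ) × (S →₀ ℕ) × ZZ l S) →* AddMonoidAlgebra K ι where
  toFun γ := single (dg fl l e S β γ.toAdd) (xh L β (Multiplicative.ofAdd γ.toAdd.1))
  map_one' := by
    rw [toAdd_one, map_zero, Prod.fst_zero, ofAdd_zero, map_one]
    rfl
  map_mul' γ γ' := by
    rw [toAdd_mul, map_add, Prod.fst_add, ofAdd_add, map_mul, single_mul_single]

/-- The homomorphism from the monoid algebra. -/
noncomputable def gh (L : Lin k U K) (fl : Ix → ℕ → Submodule k U) (l : Ix → ι →+ ℤ) (e : Ix → ι)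
    (S : Set Ix) [Fintype S] (β : Set U) :
    AddMonoidAlgebra k ((β →₀ ℕ) × (S →₀ ℕ) × ZZ l S) →ₐ[k] AddMonoidAlgebra K ι :=
  AddMonoidAlgebra.lift k _ _ (mon L fl l e S β)

theorem gh_single (L : Lin k U K) (fl : Ix → ℕ → Submodule k U) (l : Ix → ι →+ ℤ) (e : Ix → ι)
    (S : Set Ix) [Fintype S] (β : Set U) (γ : (β →₀ ℕ) × (S →₀ ℕ) × ZZ l S) (c : k) :
    gh L fl l e S β (single γ c) =
      single (dg fl l e S β γ) (c • xh L β (Multiplicative.ofAdd γ.1)) := by
  rw [gh, AddMonoidAlgebra.lift_single, ← smul_single]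
  rfl

theorem gh_coeff (L : Lin k U K) (fl : Ix → ℕ → Submodule k U) (l : Ix → ι →+ ℤ) (e : Ix → ι)
    (S : Set Ix) [Fintype S] (β : Set U)
    (F : AddMonoidAlgebra k ((β →₀ ℕ) × (S →₀ ℕ) × ZZ l S)) :
    (gh L fl l e S β F).coeff = Finsupp.linearCombination k (fun γ =>
      (Finsupp.single (dg fl l e S β γ) (xh L β (Multiplicative.ofAdd γ.1)) : ι →₀ K)) F.coeff := by
  induction F using AddMonoidAlgebra.induction_linear with
  | zero => simp
  | add F G hF hG => rw [map_add, coeff_add, hF, hG, coeff_add, map_add]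
  | single γ c =>
    rw [gh_single, coeff_single, coeff_single, Finsupp.linearCombination_single,
      Finsupp.smul_single]

theorem gh_injective (L : Lin k U K) (fl : Ix → ℕ → Submodule k U) {l : Ix → ι →+ ℤ} {e : Ix → ι}
    {S : Set Ix} [Fintype S] {β : Set U} (hβ : IsBasis k β) (hdual : Dual l e S) :
    Function.Injective (gh L fl l e S β) := by
  have h1 : LinearIndependent k fun ix : Σ _ : ι, (β →₀ ℕ) =>
      (Finsupp.single ix.1 (xh L β (Multiplicative.ofAdd ix.2)) : ι →₀ K) :=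
    Finsupp.linearIndependent_single (fun _ (α : β →₀ ℕ) => xh L β (Multiplicative.ofAdd α))
      fun _ => linearIndependent_xh L hβ
  have h2 : Function.Injective fun γ : (β →₀ ℕ) × (S →₀ ℕ) × ZZ l S =>
      (⟨dg fl l e S β γ, γ.1⟩ : Σ _ : ι, (β →₀ ℕ)) := by
    intro γ γ' h
    simp only [Sigma.mk.injEq, heq_eq_eq] at h
    exact dg_injective hdual fl β h.2 h.1
  have h3 := h1.comp _ h2
  rw [injective_iff_map_eq_zero]
  intro F hF
  have h4 : (gh L fl l e S β F).coeff = 0 := by rw [hF, coeff_zero]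
  rw [gh_coeff] at h4
  have h5 := linearIndependent_iff.1 h3 F.coeff h4
  exact AddMonoidAlgebra.ext h5

end Aux

variable {k U K ι Ix : Type} [Field k] [AddCommGroup U] [Module k U] [Field K] [Algebra k K]
  [AddCommGroup ι] (L : Lin k U K) (fl : Ix → ℕ → Submodule k U) (l : Ix → ι →+ ℤ) (S : Set Ix)

/-- The family `C_S`. -/
def CS : Fam k K ι where
  s := CSs L fl l S
  one' := by
    refine ⟨L.B.one_mem, ?_⟩
    simp only [Submodule.mem_iInf, SetLike.mem_coe]
    intro E _
    exact one_mem_fil L _ (by rw [map_zero])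
  mul' := by
    rintro a b x y ⟨hx, hx'⟩ ⟨hy, hy'⟩
    refine ⟨L.B.mul_mem hx hy, ?_⟩
    simp only [Submodule.mem_iInf, SetLike.mem_coe] at hx' hy' ⊢
    intro E hE
    rw [map_add]
    exact fil_mul L (hx' E hE) (hy' E hE)

@[simp] theorem CS_s (d : ι) : (CS L fl l S).s d = CSs L fl l S d := rfl

theorem mem_CSs {d : ι} {y : K} :
    y ∈ CSs L fl l S d ↔ y ∈ L.B ∧ ∀ E ∈ S, y ∈ L.Fil (fl E) (l E d) := by
  simp [CSs, Subalgebra.mem_toSubmodule]

variable {L fl l S}

/-- Monomials in the pieces of `C_S` come from the monoid. -/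
theorem single_mem_range [Fintype S] {β : Set U} {e : Ix → ι} (hdual : Dual l e S) {d : ι}
    (α : β →₀ ℕ) (h : ∀ E ∈ S, l E d ≤ (wh (fl E) β α : ℕ)) :
    (single d (xh L β (Multiplicative.ofAdd α)) : AddMonoidAlgebra K ι) ∈
      (gh L fl l e S β).range := by
  classical
  let b : S →₀ ℕ := Finsupp.equivFunOnFinite.symm fun E => ((wh (fl E) β α : ℕ) - l E d).toNat
  have hb : ∀ E (hE : E ∈ S), ((b ⟨E, hE⟩ : ℕ) : ℤ) = (wh (fl E) β α : ℕ) - l E d := by
    intro E hE
    have := h E hE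
    simp only [b, Finsupp.equivFunOnFinite_symm_apply_apply]
    rw [Int.toNat_of_nonneg (by omega)]
  have hz : d - dh fl e S β α + sh e S b ∈ ZZ l S := by
    intro E hE
    rw [map_add, map_sub, l_dh hdual fl β hE, l_sh hdual hE, hb E hE]
    ring
  refine ⟨single (α, b, ⟨_, hz⟩) 1, ?_⟩
  change gh L fl l e S β _ = _
  rw [gh_single, one_smul, dg_apply]
  have key : ∀ x y z : ι, x + (-y + (z - x + y)) = z := by intro x y z; abel
  rw [key]

/-- An element of `C_S` is a combination of monomials. -/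
theorem CSs_le_span [FiniteDimensional k U] (hfl : ∀ E ∈ S, IsFlag (fl E))
    {β : Set U} (hβ : IsBasis k β) (had : ∀ E ∈ S, ∀ m, Adapted β (fl E m)) {d : ι} {y : K}
    (hy : y ∈ CSs L fl l S d) :
    y ∈ Submodule.span k {y1 | ∃ α : β →₀ ℕ, (∀ E ∈ S, l E d ≤ (wh (fl E) β α : ℕ)) ∧
      y1 = xh L β (Multiplicative.ofAdd α)} := by
  rw [mem_CSs] at hy
  have h1 := fil_span L hβ {c | ∃ E ∈ S, c = (fl E, l E d)} (by
      rintro _ ⟨E, hE, rfl⟩; exact hfl E hE) (by
      rintro _ ⟨E, hE, rfl⟩; exact had E hE) hy.1 (by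
      rintro _ ⟨E, hE, rfl⟩; exact hy.2 E hE)
  refine Submodule.span_mono ?_ h1
  rintro _ ⟨t, ht, hc, rfl⟩
  lift t to List β using ht
  refine ⟨(t.map fun b => Finsupp.single b 1).sum, fun E hE => ?_, ?_⟩
  · have := hc _ ⟨E, hE, rfl⟩
    rw [wh_list]
    simpa [List.map_map, Function.comp_def] using this
  · rw [xh_list, List.map_map]
    rfl

theorem range_gh [FiniteDimensional k U] [Fintype S] (hfl : ∀ E ∈ S, IsFlag (fl E))
    {β : Set U} (hβ : IsBasis k β) (had : ∀ E ∈ S, ∀ m, Adapted β (fl E m)) {e : Ix → ι}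
    (hdual : Dual l e S) : (gh L fl l e S β).range = (CS L fl l S).alg := by
  apply le_antisymm
  · rintro _ ⟨F, rfl⟩
    change gh L fl l e S β F ∈ _
    induction F using AddMonoidAlgebra.induction_linear with
    | zero => rw [map_zero]; exact Subalgebra.zero_mem _
    | add F G hF hG => rw [map_add]; exact Subalgebra.add_mem _ hF hG
    | single γ c =>
      rw [gh_single, Fam.single_mem_alg]
      refine Submodule.smul_mem _ _ ?_
      rw [CS_s, mem_CSs]
      refine ⟨xh_mem_B L β _, fun E hE => ?_⟩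
      refine fil_anti L _ ?_ (xh_mem_fil hβ (hfl E hE) γ.1)
      rw [l_dg hdual fl β hE]
      omega
  · intro F hF
    rw [Fam.eq_sum F]
    refine Subalgebra.sum_mem _ fun d _ => ?_
    have h1 := CSs_le_span hfl hβ had (hF d)
    have h2 : ∀ y ∈ Submodule.span k {y1 | ∃ α : β →₀ ℕ, (∀ E ∈ S, l E d ≤ (wh (fl E) β α : ℕ)) ∧
      y1 = xh L β (Multiplicative.ofAdd α)}, (single d y : AddMonoidAlgebra K ι) ∈
        (gh L fl l e S β).range := by
      intro y hy
      induction hy using Submodule.span_induction with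
      | mem y hy =>
        obtain ⟨α, hα, rfl⟩ := hy
        exact single_mem_range hdual α hα
      | zero => rw [single_zero]; exact Subalgebra.zero_mem _
      | add x y _ _ hx hy => rw [single_add]; exact Subalgebra.add_mem _ hx hy
      | smul c x _ hx => rw [← smul_single]; exact Subalgebra.smul_mem _ hx c
    exact h2 _ h1

theorem addMonoid_fg_of_finite [FiniteDimensional k U] [Module.Free ℤ ι] [Module.Finite ℤ ι]
    [Fintype S] {β : Set U} (hβ : IsBasis k β) :
    AddMonoid.FG ((β →₀ ℕ) × (S →₀ ℕ) × ZZ l S) := by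
  have h1 : Finite β := hβ.1.finite
  have h2 : Module.Finite ℤ (ZZ l S) :=
    inferInstanceAs (Module.Finite ℤ (AddSubgroup.toIntSubmodule (ZZ l S)))
  have h3 : AddGroup.FG (ZZ l S) := Module.Finite.iff_addGroup_fg.1 h2
  have h4 : AddMonoid.FG (ZZ l S) := AddGroup.fg_iff_addMonoid_fg.1 h3
  have h5 : Module.Finite ℕ (ZZ l S) := Module.Finite.iff_addMonoid_fg.2 h4
  exact Module.Finite.iff_addMonoid_fg.1 inferInstance

/-- Lemma C. -/
theorem fg_CS [FiniteDimensional k U] [Module.Free ℤ ι] [Module.Finite ℤ ι] (hS : S.Finite)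
    (hfl : ∀ E ∈ S, IsFlag (fl E)) (had : AdaptedTo fl S) (e : Ix → ι)
    (hdual : Dual l e S) :
    (CS L fl l S).alg.FG := by
  have := hS.fintype
  obtain ⟨β, hβ, had⟩ := had
  rw [← range_gh hfl hβ had hdual, Subalgebra.fg_iff_finiteType]
  have h1 : AddMonoid.FG ((β →₀ ℕ) × (S →₀ ℕ) × ZZ l S) := addMonoid_fg_of_finite hβ
  exact Algebra.FiniteType.of_surjective (gh L fl l e S β).rangeRestrict
    (gh L fl l e S β).rangeRestrict_surjective

/-- Lemma C. -/
theorem smooth_CS [FiniteDimensional k U] [Module.Free ℤ ι] [Module.Finite ℤ ι] (hS : S.Finite)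
    (hfl : ∀ E ∈ S, IsFlag (fl E)) (had : AdaptedTo fl S) (e : Ix → ι)
    (hdual : Dual l e S) :
    Algebra.FormallySmooth k (CS L fl l S).alg := by
  have := hS.fintype
  obtain ⟨β, hβ, had⟩ := had
  rw [← range_gh hfl hβ had hdual]
  have h2 : Module.Free ℤ (ZZ l S) :=
    inferInstanceAs (Module.Free ℤ (AddSubgroup.toIntSubmodule (ZZ l S)))
  have h3 := formallySmooth_of_lft k ((β →₀ ℕ) × (S →₀ ℕ) × ZZ l S)
    ((Lft.finsupp β).prod ((Lft.finsupp S).prod (Lft.free (ZZ l S))))
  exact Algebra.FormallySmooth.of_equiv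
    (AlgEquiv.ofInjective (gh L fl l e S β) (gh_injective L fl hβ hdual))

theorem loc_congr (M : Fam k K ι) {a b : ι} {x y : K} (hx : x ∈ M.s a) (hy : y ∈ M.s b)
    (hab : a = b) (hxy : x = y) : M.loc hx = M.loc hy := by
  subst hab hxy; rfl

/-- Sandwiched families have the same localisation. -/
theorem loc_eq_of_le {M C : Fam k K ι} {c : ι} {f : K} (hf : f ∈ M.s c) (hle : ∀ d, M.s d ≤ C.s d)
    (h : ∀ d, C.s d ≤ (M.loc hf).s d) : C.loc (hle c hf) = M.loc hf := by
  ext d y
  constructor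
  · rintro ⟨m, hm⟩
    obtain ⟨m', hm'⟩ := h _ hm
    refine ⟨m' + m, ?_⟩
    have e1 : m' • c + (m • c + d) = (m' + m) • c + d := by rw [add_nsmul]; abel
    rw [e1] at hm'
    convert hm' using 1
    ring
  · rintro ⟨m, hm⟩
    exact ⟨m, hle _ hm⟩

/-- Corollary of Lemma C: smoothness from charts. -/
theorem smooth_of_charts [FiniteDimensional k U] [Module.Free ℤ ι] [Module.Finite ℤ ι]
    (M : Fam k K ι) (a : ι) (hfg : M.alg.FG) (e : Ix → ι)
    (hch : ∀ (q : Ideal M.alg) [q.IsPrime], Semi M a q → ∃ S : Set Ix, S.Finite ∧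
      (∀ E ∈ S, IsFlag (fl E)) ∧ AdaptedTo fl S ∧
      Dual l e S ∧
      (∀ d, M.s d ≤ CSs L fl l S d) ∧ ∀ d, CSs L fl l S d ≤ (atP M q).s d) :
    ∀ n : ℕ, 0 < n → ∀ (x : K) (hx : x ∈ M.s (n • a)), x ≠ 0 →
      Algebra.FormallySmooth k (M.loc hx).alg := by
  intro n hn x hx hx0
  refine M.formallySmooth_loc_of_cover hfg hx hx0 fun q _ hq => ?_
  obtain ⟨S, hS, hfl, had, hdual, hle, hle'⟩ := hch q ⟨n, hn, x, hx, hq⟩
  obtain ⟨c, f, hf, hfq, hf'⟩ := exists_loc_le M q (CS L fl l S) (fg_CS hS hfl had e hdual) hle'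
  refine ⟨c, f, hf, hfq, ?_⟩
  have hf0 : f ≠ 0 := by
    rintro rfl
    apply hfq
    have : M.el hf = 0 := Subtype.ext (by simp)
    rw [this]; exact Ideal.zero_mem _
  have h1 : Algebra.FormallySmooth k (M.loc hf).alg := by
    rw [← loc_eq_of_le (C := CS L fl l S) hf hle hf']
    exact Fam.formallySmooth_loc _ _ hf0 (smooth_CS hS hfl had e hdual)
  rw [loc_congr M (M.mul' hx hf) (M.mul' hf hx) (add_comm _ _) (mul_comm _ _)]
  exact Fam.formallySmooth_loc_mul M hf hx hx0 h1

/-- Blueprint 0.4. -/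
theorem chart_drop {M : Fam k K ι} {q : Ideal M.alg} [q.IsPrime] {e : Ix → ι}
    (hfl : ∀ E ∈ S, IsFlag (fl E))
    (hdual : Dual l e S)
    (hch : ∀ d, CSs L fl l S d ≤ (atP M q).s d) (T : Set Ix)
    (hT : ∀ E ∈ S, E ∉ T → (1 : K) ∈ (atP M q).s (e E)) (hS : S.Finite) (d : ι) :
    CSs L fl l (S ∩ T) d ≤ (atP M q).s d := by
  classical
  intro y hy
  rw [mem_CSs] at hy
  let F : Finset Ix := hS.toFinset.filter (· ∉ T)
  have hF : ∀ {E}, E ∈ F ↔ E ∈ S ∧ E ∉ T := by intro E; simp [F]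
  let c : ι := ∑ E ∈ F, (l E d).natAbs • e E
  have h1 : (1 : K) ∈ (atP M q).s c := by
    refine Finset.sum_induction _ (fun c => (1 : K) ∈ (atP M q).s c) ?_ (atP M q).one' ?_
    · intro a b ha hb
      simpa using (atP M q).mul' ha hb
    · intro E hE
      simpa using (atP M q).pow' (hT E (hF.1 hE).1 (hF.1 hE).2) (l E d).natAbs
  have hlc : ∀ E ∈ S, l E c = if E ∈ T then 0 else ((l E d).natAbs : ℤ) := by
    intro E hE
    rw [map_sum]
    split_ifs with hET
    · refine Finset.sum_eq_zero fun E' hE' => ?_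
      have hne : E ≠ E' := by rintro rfl; exact (hF.1 hE').2 hET
      rw [map_nsmul, hdual.ne E hE E' (hF.1 hE').1 hne, smul_zero]
    · rw [Finset.sum_eq_single E]
      · rw [map_nsmul, hdual.self E hE]; simp
      · intro E' hE' hne
        rw [map_nsmul, hdual.ne E hE E' (hF.1 hE').1 hne.symm, smul_zero]
      · intro h; exact absurd (hF.2 ⟨hE, hET⟩) h
  have h2 : y ∈ CSs L fl l S (d - c) := by
    rw [mem_CSs]
    refine ⟨hy.1, fun E hE => ?_⟩
    rw [map_sub, hlc E hE]
    split_ifs with hET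
    · rw [sub_zero]; exact hy.2 E ⟨hE, hET⟩
    · rw [fil_of_nonpos L (hfl E hE) (by omega)]
      exact hy.1
  have h3 := (atP M q).mul' (hch _ h2) h1
  rwa [mul_one, sub_add_cancel] at h3

/-- Monomials in a chart: an element of `C_S` is a combination of monomials in a common adapted
basis, each of which is in `C_S`; with an additional condition for one more flag. -/
theorem chart_span [FiniteDimensional k U] (hfl : ∀ E ∈ S, IsFlag (fl E)) {v : ℕ → Submodule k U}
    (hv : IsFlag v) {β : Set U} (hβ : IsBasis k β) (had : ∀ E ∈ S, ∀ m, Adapted β (fl E m))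
    (hadv : ∀ m, Adapted β (v m)) {d : ι} {m : ℤ} {y : K} (hy : y ∈ CSs L fl l S d)
    (hyv : y ∈ L.Fil v m) :
    y ∈ Submodule.span k {y1 | ∃ t : List U, (∀ b ∈ t, b ∈ β) ∧
      (∀ E ∈ S, l E d ≤ ((t.map (lev (fl E))).sum : ℕ)) ∧ m ≤ ((t.map (lev v)).sum : ℕ) ∧
      y1 = (t.map L.lin).prod} := by
  rw [mem_CSs] at hy
  have h1 := fil_span L hβ ({c | ∃ E ∈ S, c = (fl E, l E d)} ∪ {(v, m)}) (by
      rintro _ (⟨E, hE, rfl⟩ | rfl)
      · exact hfl E hE
      · exact hv) (by
      rintro _ (⟨E, hE, rfl⟩ | rfl)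
      · exact had E hE
      · exact hadv) hy.1 (by
      rintro _ (⟨E, hE, rfl⟩ | rfl)
      · exact hy.2 E hE
      · exact hyv)
  refine Submodule.span_mono ?_ h1
  rintro _ ⟨t, ht, hc, rfl⟩
  exact ⟨t, ht, fun E hE => hc _ (Or.inl ⟨E, hE, rfl⟩), hc _ (Or.inr rfl), rfl⟩

end Pool.Agent.MP_b525bf_ag_W
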