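import Pool.Agent.Lib.MP_b525bf_ag_h42.KL

/-!
# W10, part B: descent of formal smoothness to the ring of invariants, given a generator with
interpolation polynomials at every prime (blueprint 6 (4))
-/

set_option autoImplicit false
set_option linter.style.haveILetI false

open Polynomial Pointwise

namespace Pool.Agent.MP_b525bf_ag_W

namespace ThmE

section gen

variable {k R B : Type} [CommRing k] [CommRing R] [CommRing B] [Algebra k R] [Algebra k B]
  [Algebra R B] [IsScalarTower k R B]

/-- If `B` is generated by `x` over `R`, with a monic equation and uniqueness of representations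
of smaller degree, then formal smoothness of `B` descends to `R`. -/
theorem formallySmooth_of_gen [Nontrivial R] (x : B) (F : R[X]) (hF : F.Monic)
    (hdeg : 0 < F.natDegree)
    (hroot : aeval x F = 0) (hgen : ∀ b : B, ∃ P : R[X], aeval x P = b)
    (huniq : ∀ P : R[X], P.degree < F.degree → aeval x P = 0 → P = 0)
    [Algebra.FormallySmooth k B] : Algebra.FormallySmooth k R := by
  have hroot' : F.eval₂ ((Algebra.ofId R B : R →ₐ[R] B) : R →+* B) x = 0 := hroot
  have hbij : Function.Bijective (AdjoinRoot.liftAlgHom F (Algebra.ofId R B) x hroot') := by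
    constructor
    · rw [injective_iff_map_eq_zero]
      intro z hz
      obtain ⟨P, rfl⟩ := AdjoinRoot.mk_surjective z
      rw [AdjoinRoot.liftAlgHom_mk] at hz
      have e1 : P = P %ₘ F + F * (P /ₘ F) := (modByMonic_add_div P F).symm
      have e2 : aeval x (P %ₘ F) = 0 := by
        have : aeval x P = 0 := hz
        rw [e1, map_add, map_mul, hroot, zero_mul, add_zero] at this
        exact this
      have e3 : P %ₘ F = 0 := huniq _ (degree_modByMonic_lt P hF) e2
      rw [AdjoinRoot.mk_eq_zero, ← Polynomial.modByMonic_eq_zero_iff_dvd hF]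
      exact e3
    · intro b
      obtain ⟨P, hP⟩ := hgen b
      refine ⟨AdjoinRoot.mk F P, ?_⟩
      rw [AdjoinRoot.liftAlgHom_mk]
      exact hP
  let e : AdjoinRoot F ≃ₐ[R] B := AlgEquiv.ofBijective _ hbij
  have : Algebra.FormallySmooth k (AdjoinRoot F) :=
    Algebra.FormallySmooth.of_equiv (e.symm.restrictScalars k)
  exact Pool.Agent.MPb525bf.formallySmooth_of_adjoinRoot F hF hdeg

end gen

section away

variable {k A : Type} [Field k] [CommRing A] [IsDomain A] [Algebra k A]

/-- The localized version of `formallySmooth_of_gen`. -/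
theorem formallySmooth_away [Algebra.FormallySmooth k A] (A0 : Subalgebra k A) (h : A0)
    (hh : h ≠ 0) (y : A) (F : A0[X]) (hF : F.Monic) (hdeg : 0 < F.natDegree)
    (hroot : aeval y F = 0)
    (hgen : ∀ a : A, ∃ P : A0[X], aeval y P = (h : A) * a)
    (huniq : ∀ P : A0[X], P.degree < F.degree → aeval y P = 0 → P = 0) :
    Algebra.FormallySmooth k (Localization.Away h) := by
  let R := Localization.Away h
  let B := Localization.Away (algebraMap A0 A h)
  have hh' : algebraMap A0 A h ≠ 0 := fun e => hh (Subtype.ext e)
  letI : Algebra R B := (IsLocalization.Away.map R B (algebraMap A0 A) h).toAlgebra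
  have hmap : ∀ a : A0, algebraMap R B (algebraMap A0 R a) = algebraMap A B (algebraMap A0 A a) := by
    intro a
    exact IsLocalization.map_eq (M := Submonoid.powers h) (S := R)
      (T := Submonoid.powers (algebraMap A0 A h)) (Q := B) (g := algebraMap A0 A)
      (by rintro _ ⟨n, rfl⟩; exact ⟨n, by simp⟩) a
  haveI : IsScalarTower A0 R B := by
    apply IsScalarTower.of_algebraMap_eq
    intro a
    rw [hmap]
    rfl
  haveI : IsScalarTower k R B := by
    apply IsScalarTower.of_algebraMap_eq
    intro a
    rw [IsScalarTower.algebraMap_apply k A0 R, hmap]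
    rfl
  haveI : IsDomain R := IsLocalization.isDomain_localization
    (powers_le_nonZeroDivisors_of_noZeroDivisors hh)
  haveI : IsDomain B := IsLocalization.isDomain_localization
    (powers_le_nonZeroDivisors_of_noZeroDivisors hh')
  haveI : Algebra.FormallySmooth k B := by
    haveI : Algebra.FormallySmooth A B :=
      Algebra.FormallySmooth.of_isLocalization (Submonoid.powers (algebraMap A0 A h))
    exact Algebra.FormallySmooth.comp k A B
  have hinjA : Function.Injective (algebraMap A B) :=
    IsLocalization.injective B (powers_le_nonZeroDivisors_of_noZeroDivisors hh')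
  have hev : ∀ P : A0[X], aeval (algebraMap A B y) (P.map (algebraMap A0 R)) =
      algebraMap A B (aeval y P) := by
    intro P
    rw [aeval_map_algebraMap, aeval_algebraMap_apply]
  have hhu : IsUnit (algebraMap A B (h : A)) :=
    IsLocalization.Away.algebraMap_isUnit (S := B) (algebraMap A0 A h)
  have hhR : IsUnit (algebraMap A0 R h) := IsLocalization.Away.algebraMap_isUnit (S := R) h
  refine formallySmooth_of_gen (k := k) (R := R) (B := B) (algebraMap A B y)
    (F.map (algebraMap A0 R)) (hF.map _) (by rw [hF.natDegree_map]; exact hdeg) ?_ ?_ ?_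
  · rw [hev, hroot, map_zero]
  · intro b
    obtain ⟨⟨a, s⟩, hs⟩ := IsLocalization.surj (Submonoid.powers (algebraMap A0 A h)) b
    obtain ⟨_, m, rfl⟩ := s
    obtain ⟨P, hP⟩ := hgen a
    obtain ⟨v, hv⟩ := (hhR.pow (m + 1)).exists_left_inv
    refine ⟨C v * P.map (algebraMap A0 R), ?_⟩
    rw [map_mul, aeval_C, hev, hP]
    have hs' : b * algebraMap A B (h : A) ^ m = algebraMap A B a := by
      simpa using hs
    have hv' : algebraMap R B v * algebraMap A B (h : A) ^ (m + 1) = 1 := by
      have := congrArg (algebraMap R B) hv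
      rw [map_mul, map_pow, hmap, map_one] at this
      exact this
    rw [map_mul, ← hs']
    linear_combination b * hv'
  · intro P hPd hP0
    -- clear denominators
    obtain ⟨s, Q, hQ⟩ : ∃ (m : ℕ) (Q : A0[X]), Q.map (algebraMap A0 R) =
        C (algebraMap A0 R h ^ m) * P := by
      obtain ⟨b, hbm, hb⟩ := IsLocalization.integerNormalization_spec
        (Submonoid.powers h) (S := R) P
      obtain ⟨m, rfl⟩ := hbm
      refine ⟨m, IsLocalization.integerNormalization (Submonoid.powers h) P, ?_⟩
      rw [hb]
      ext n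
      simp [Algebra.smul_def]
    have hinjR : Function.Injective (algebraMap A0 R) :=
      IsLocalization.injective R (powers_le_nonZeroDivisors_of_noZeroDivisors hh)
    have hQ0 : Q = 0 := by
      apply huniq
      · rw [← degree_map_eq_of_injective hinjR Q, hQ, degree_C_mul (hhR.pow s).ne_zero]
        rwa [degree_map_eq_of_injective hinjR] at hPd
      · apply hinjA
        rw [← hev, hQ, map_mul, hP0, mul_zero, map_zero]
    rw [hQ0, Polynomial.map_zero] at hQ
    have := mul_eq_zero.1 hQ.symm
    rcases this with h1 | h1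
    · exact absurd (C_eq_zero.1 h1) (hhR.pow s).ne_zero
    · exact h1

end away

section main

variable {k A G : Type} [Field k] [CommRing A] [IsDomain A] [Algebra k A] [Group G] [Finite G]
  [MulSemiringAction G A]

/-- A polynomial of degree smaller than the order of the group, vanishing on a free orbit, is
zero. -/
theorem eq_zero_of_eval (y : A) (hy : ∀ g : G, g • y = y → g = 1) (H : A[X])
    (hH : H.degree < Nat.card G) (h0 : ∀ g : G, H.eval (g • y) = 0) : H = 0 := by
  classical
  cases nonempty_fintype G
  apply Polynomial.eq_zero_of_degree_lt_of_eval_index_eq_zero (s := (Finset.univ : Finset G))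
    (v := fun g => g • y)
  · intro a _ b _ hab
    have h1 : (b⁻¹ * a) • y = y := by
      have hab' : a • y = b • y := hab
      rw [mul_smul, hab', inv_smul_smul]
    have h2 := hy _ h1
    exact (inv_mul_eq_one.1 h2).symm
  · rw [Finset.card_univ, ← Nat.card_eq_fintype_card]
    exact hH
  · intro g _
    exact h0 g


/-- For every prime of the ring of invariants there is a basic open neighbourhood which is
formally smooth. -/
theorem exists_away [Algebra.FormallySmooth k A] (A0 : Subalgebra k A)
    (hA0 : ∀ x, x ∈ A0 ↔ ∀ g : G, g • x = x) [Module.Finite A0 A]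
    (q0 : Ideal A0) [q0.IsPrime] (q : Ideal A) [q.IsPrime] (hq : q.comap (algebraMap A0 A) = q0)
    (y : A) (hy : ∀ g : G, g • y = y → g = 1)
    (hint : ∀ g : G, ∀ x : A, ∃ f : A, g • f ∉ q ∧ ∃ H : A[X], H.degree < Nat.card G ∧
      ∀ g' : G, H.eval (g' • y) = f * g' • x) :
    ∃ h : A0, h ∉ q0 ∧ Algebra.FormallySmooth k (Localization.Away h) := by
  classical
  have hfix : ∀ (g : G) (a : A0), g • (a : A) = a := fun g a => (hA0 _).1 a.2 g
  haveI : SMulCommClass G A0 A := by
    constructor
    intro g a x
    rw [Algebra.smul_def, Algebra.smul_def, smul_mul']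
    congr 1
    exact hfix g a
  haveI : Algebra.IsInvariant A0 A G := by
    constructor
    intro b hb
    exact ⟨⟨b, (hA0 b).2 hb⟩, rfl⟩
  haveI : Algebra.IsIntegral A0 A := Algebra.IsInvariant.isIntegral A0 A G
  -- step 1
  have step1 : ∀ x : A, ∃ h : A0, h ∉ q0 ∧ ∃ H : A[X], H.degree < Nat.card G ∧
      ∀ g' : G, H.eval (g' • y) = (h : A) * g' • x := by
    intro x
    let J : Ideal A :=
      { carrier := {a | ∃ H : A[X], H.degree < Nat.card G ∧
          ∀ g' : G, H.eval (g' • y) = a * g' • x}
        add_mem' := by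
          rintro a b ⟨H1, h1, h1'⟩ ⟨H2, h2, h2'⟩
          refine ⟨H1 + H2, lt_of_le_of_lt (degree_add_le _ _) (max_lt h1 h2), fun g' => ?_⟩
          rw [eval_add, h1', h2', add_mul]
        zero_mem' := ⟨0, by rw [degree_zero]; exact WithBot.bot_lt_coe _, fun g' => by simp⟩
        smul_mem' := by
          rintro c a ⟨H, h1, h1'⟩
          refine ⟨c • H, lt_of_le_of_lt (degree_smul_le _ _) h1, fun g' => ?_⟩
          rw [eval_smul, h1', smul_eq_mul, smul_eq_mul, mul_assoc] }
    by_contra hcon
    push Not at hcon
    have hle : J.comap (algebraMap A0 A) ≤ q0 := by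
      intro a ha
      by_contra haq
      obtain ⟨H, h1, h2⟩ := ha
      obtain ⟨g', hg'⟩ := hcon a haq H h1
      exact hg' (h2 g')
    obtain ⟨Q, hQJ, hQp, hQc⟩ := Ideal.exists_ideal_over_prime_of_isIntegral q0 J hle
    obtain ⟨g, hg⟩ := Algebra.IsInvariant.exists_smul_of_under_eq A0 A G q Q
      (by rw [Ideal.under_def, Ideal.under_def, hq, hQc])
    obtain ⟨f, hf, H, hH, hH'⟩ := hint g⁻¹ x
    have hfJ : f ∈ J := ⟨H, hH, hH'⟩
    have hfQ : f ∈ g • q := hg ▸ hQJ hfJ
    rw [Ideal.mem_pointwise_smul_iff_inv_smul_mem] at hfQ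
    exact hf hfQ
  -- step 2: the coefficients are invariant
  have hmap : ∀ (g : G) (P : A[X]) (z : A),
      (P.map (MulSemiringAction.toRingHom G A g)).eval (g • z) = g • P.eval z := by
    intro g P z
    exact Polynomial.eval_map_apply (MulSemiringAction.toRingHom G A g) z
  have step2 : ∀ x : A, ∃ h : A0, h ∉ q0 ∧ ∃ P : A0[X], aeval y P = (h : A) * x := by
    intro x
    obtain ⟨h, hh, H, hH, hH'⟩ := step1 x
    have hcoef : ∀ g : G, H.map (MulSemiringAction.toRingHom G A g) = H := by
      intro g
      rw [← sub_eq_zero]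
      refine eq_zero_of_eval y hy _ ?_ ?_
      · refine lt_of_le_of_lt (degree_sub_le _ _) (max_lt (lt_of_le_of_lt degree_map_le hH) hH)
      · intro g'
        have h1 := hmap g H ((g⁻¹ * g') • y)
        rw [← mul_smul, mul_inv_cancel_left, hH', smul_mul', hfix, ← mul_smul,
          mul_inv_cancel_left] at h1
        rw [eval_sub, h1, hH', sub_self]
    have hlift : H ∈ Polynomial.lifts (algebraMap A0 A) := by
      rw [Polynomial.lifts_iff_coeff_lifts]
      intro n
      refine ⟨⟨H.coeff n, (hA0 _).2 fun g => ?_⟩, rfl⟩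
      have := congrArg (fun P => P.coeff n) (hcoef g)
      simpa using this
    obtain ⟨P, hP⟩ := hlift
    refine ⟨h, hh, P, ?_⟩
    have h1 := hH' 1
    rw [one_smul, one_smul] at h1
    rw [← h1, ← hP, Polynomial.coe_mapRingHom, eval_map_algebraMap]
  -- step 3: one element for all x
  obtain ⟨S, hS⟩ := Module.Finite.fg_top (R := A0) (M := A)
  choose hx hxq Px hPx using step2
  let h : A0 := ∏ s ∈ S, hx s
  have hhq : h ∉ q0 := by
    intro hm
    obtain ⟨s, -, hs⟩ := (Ideal.IsPrime.prod_mem_iff (p := q0)).1 hm
    exact hxq s hs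
  have hgen : ∀ a : A, ∃ P : A0[X], aeval y P = (h : A) * a := by
    intro a
    have ha : a ∈ Submodule.span A0 (S : Set A) := by rw [hS]; trivial
    induction ha using Submodule.span_induction with
    | mem s hs =>
      obtain ⟨c, hc⟩ := Finset.dvd_prod_of_mem hx (Finset.mem_coe.1 hs)
      refine ⟨C c * Px s, ?_⟩
      rw [map_mul, aeval_C, hPx]
      have : (h : A) = (hx s : A) * (c : A) := congrArg (fun z : A0 => (z : A)) hc
      rw [this]
      change (c : A) * _ = _
      ring
    | zero => exact ⟨0, by simp⟩
    | add a b _ _ iha ihb =>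
      obtain ⟨P, hP⟩ := iha
      obtain ⟨Q, hQ⟩ := ihb
      exact ⟨P + Q, by rw [map_add, hP, hQ, mul_add]⟩
    | smul c a _ iha =>
      obtain ⟨P, hP⟩ := iha
      refine ⟨C c * P, ?_⟩
      rw [map_mul, aeval_C, hP, Algebra.smul_def]
      ring
  -- step 4: the characteristic polynomial
  cases nonempty_fintype G
  have hcard : (MulSemiringAction.charpoly G y).natDegree = Nat.card G := by
    rw [MulSemiringAction.charpoly_eq, natDegree_prod_of_monic _ _ (fun _ _ => monic_X_sub_C _)]
    simp
  obtain ⟨F, hF1, hF2, hF3⟩ := Polynomial.lifts_and_natDegree_eq_and_monic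
    (Algebra.IsInvariant.charpoly_mem_lifts A0 A G y) (MulSemiringAction.monic_charpoly G y)
  refine ⟨h, hhq, formallySmooth_away A0 h (fun e => hhq (e ▸ q0.zero_mem)) y F hF3 ?_ ?_ hgen ?_⟩
  · rw [hF2, hcard]
    exact Nat.card_pos
  · rw [← eval_map_algebraMap, hF1, MulSemiringAction.eval_charpoly]
  · intro P hP hP0
    have hinj : Function.Injective (algebraMap A0 A) := Subtype.val_injective
    have h1 : P.map (algebraMap A0 A) = 0 := by
      refine eq_zero_of_eval y hy _ ?_ ?_
      · rw [degree_map_eq_of_injective hinj]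
        refine lt_of_lt_of_le hP ?_
        rw [degree_eq_natDegree hF3.ne_zero, hF2, hcard]
      · intro g
        have h2 := hmap g (P.map (algebraMap A0 A)) y
        rw [eval_map_algebraMap, hP0, smul_zero, Polynomial.map_map] at h2
        have h3 : (MulSemiringAction.toRingHom G A g).comp (algebraMap A0 A) =
            algebraMap A0 A := by
          ext a
          exact hfix g a
        rw [h3] at h2
        exact h2
    exact (Polynomial.map_eq_zero_iff hinj).1 h1

end main

end ThmE

end Pool.Agent.MP_b525bf_ag_W
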