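import Pool.Agent.Lib.MP_b525bf_ag_W.ThmE_aux
import Pool.Agent.Lib.MP_b525bf_ag_W.ThmE_B
import Pool.Agent.Lib.MP_b525bf_ag.FamLoc

/-!
# W10: Theorem E (blueprint 6): invariants of a finite group with inertia groups of prime order and
principal augmentation ideals
-/

set_option autoImplicit false

namespace Pool.Agent.MP_b525bf_ag_W

/-- Noether: the algebra is finite over the invariants, which are of finite type over `k`. -/
theorem finiteType_fixed {k A G : Type} [Field k] [CommRing A] [Algebra k A]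
    [Algebra.FiniteType k A] [Group G] [Finite G] (psi : G →* (A ≃ₐ[k] A)) (A0 : Subalgebra k A)
    (hA0 : ∀ x, x ∈ A0 ↔ ∀ g, psi g x = x) : Module.Finite A0 A ∧ Algebra.FiniteType k A0 := by
  let _ : MulSemiringAction G A := MulSemiringAction.compHom A psi
  have : Algebra.IsInvariant A0 A G := ⟨fun b hb => ⟨⟨b, (hA0 b).2 hb⟩, rfl⟩⟩
  have : Algebra.IsIntegral A0 A := Algebra.IsInvariant.isIntegral A0 A G
  have : Algebra.FiniteType A0 A := Algebra.FiniteType.of_restrictScalars_finiteType k A0 A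
  have hfin : Module.Finite A0 A := Algebra.IsIntegral.finite
  refine ⟨hfin, ⟨fg_of_fg_of_fg k A0 A Algebra.FiniteType.out hfin.fg_top
    Subtype.val_injective⟩⟩

/-- Formal smoothness of a finitely generated algebra is local. -/
theorem formallySmooth_of_cover {k R : Type} [Field k] [CommRing R] [Algebra k R]
    [Algebra.FiniteType k R] (h : ∀ q0 : Ideal R, q0.IsPrime → ∃ h : R, h ∉ q0 ∧
      Algebra.FormallySmooth k (Localization.Away h)) : Algebra.FormallySmooth k R := by
  have : Algebra.FinitePresentation k R := Algebra.FinitePresentation.of_finiteType.1 inferInstance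
  rw [← Algebra.smoothLocus_eq_univ_iff, Set.eq_univ_iff_forall]
  intro p
  obtain ⟨f, hf, hs⟩ := h p.asIdeal p.isPrime
  exact Algebra.basicOpen_subset_smoothLocus_iff.2 hs hf

/-- Theorem E (blueprint 6). -/
theorem formallySmooth_fixed {k A G : Type} [Field k] [Infinite k] [CommRing A] [IsDomain A]
    [Algebra k A] [Algebra.FiniteType k A] [Algebra.FormallySmooth k A] [Group G] [Finite G]
    (ψ : G →* (A ≃ₐ[k] A)) (hfaith : Function.Injective ψ)
    (A0 : Subalgebra k A) (hA0 : ∀ x, x ∈ A0 ↔ ∀ g, ψ g x = x)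
    (h : ∀ q : Ideal A, q.IsPrime → ∀ s : G, s ≠ 1 → (∀ x, ψ s x - x ∈ q) →
      (∀ g : G, (∀ x, ψ g x - x ∈ q) → g ∈ Subgroup.zpowers s) ∧ (orderOf s).Prime ∧
      ∃ y : A, ∀ x : A, ∃ f ∉ q, ∃ z : A, f * (ψ s x - x) = z * (ψ s y - y)) :
    Algebra.FormallySmooth k A0 := by
  obtain ⟨hfin, hft⟩ := finiteType_fixed ψ A0 hA0
  let _ : MulSemiringAction G A := MulSemiringAction.compHom A ψ
  apply formallySmooth_of_cover
  intro q0 hq0
  have : Algebra.IsIntegral A0 A := inferInstance
  obtain ⟨q, -, hq, hqc⟩ := Ideal.exists_ideal_over_prime_of_isIntegral q0 (⊥ : Ideal A)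
    (by
      intro a ha
      have h1 : (a : A) = 0 := ha
      have h2 : a = 0 := Subtype.ext h1
      rw [h2]
      exact q0.zero_mem)
  obtain ⟨y, hy, hint⟩ := exists_gen_interp ψ hfaith h q hq
  refine ThmE.exists_away A0 hA0 q0 q hqc y hy (fun g x => ?_)
  obtain ⟨f, hf, H, hH, hH'⟩ := hint g x
  exact ⟨f, hf, H, hH, hH'⟩

end Pool.Agent.MP_b525bf_ag_W
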