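import Pool.Agent.Lib.MP_b525bf_ag_W.Step2
import Pool.Agent.Lib.MP_b525bf_ag_W.ThmE

/-!
# W11: invariants of the final stage (blueprint 6.1)
-/

set_option autoImplicit false
set_option linter.unusedSectionVars false

namespace Pool.Agent.MP_b525bf_ag_W

open Pool.Agent.MP_b525bf_ag Module AddMonoidAlgebra

variable {k U K G ι : Type} [Field k] [AddCommGroup U] [Module k U] [Field K] [Algebra k K]
  [Group G] [Finite G] [AddCommGroup ι]

/-- The family of invariants. -/
def fixFam (φ : G →* (K ≃ₐ[k] K)) (M : Fam k K ι) : Fam k K ι where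
  s d :=
    { carrier := {x | x ∈ M.s d ∧ ∀ g, φ g x = x}
      add_mem' := by
        rintro x y ⟨hx, hx'⟩ ⟨hy, hy'⟩
        exact ⟨Submodule.add_mem _ hx hy, fun g => by rw [map_add, hx', hy']⟩
      zero_mem' := ⟨Submodule.zero_mem _, fun g => map_zero _⟩
      smul_mem' := by
        rintro c x ⟨hx, hx'⟩
        exact ⟨Submodule.smul_mem _ _ hx, fun g => by rw [map_smul, hx']⟩ }
  one' := ⟨M.one', fun g => map_one _⟩
  mul' := by
    rintro a b x y ⟨hx, hx'⟩ ⟨hy, hy'⟩
    exact ⟨M.mul' hx hy, fun g => by rw [map_mul, hx', hy']⟩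

omit [Finite G] in
theorem mem_fixFam {φ : G →* (K ≃ₐ[k] K)} {M : Fam k K ι} {d : ι} {x : K} :
    x ∈ (fixFam φ M).s d ↔ x ∈ M.s d ∧ ∀ g, φ g x = x := Iff.rfl

variable {L : Lin k U K} {ρ : Representation k G U} {φ : G →* (K ≃ₐ[k] K)} {p : ℕ}
  {M : Fam k K ι} {a : ι} {EE : Set (Idx G)} {l : Idx G → ι →+ ℤ} {e : Idx G → ι}

/-! ### The action on the algebra of a stable family -/

/-- The action of a group element. -/
noncomputable def actHom (φ : G →* (K ≃ₐ[k] K)) (N : Fam k K ι)
    (hst : ∀ g d x, x ∈ N.s d → φ g x ∈ N.s d) (g : G) : N.alg →ₐ[k] N.alg :=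
  ((AddMonoidAlgebra.mapAlgHom ι ((φ g : K ≃ₐ[k] K) : K →ₐ[k] K)).comp N.alg.val).codRestrict N.alg
    (by
      intro F d
      rw [AlgHom.comp_apply, AddMonoidAlgebra.coeff_mapAlgHom]
      exact hst g d _ (F.2 d))

theorem coeff_actHom (N : Fam k K ι) (hst : ∀ g d x, x ∈ N.s d → φ g x ∈ N.s d) (g : G)
    (F : N.alg) (d : ι) :
    (actHom φ N hst g F : AddMonoidAlgebra K ι).coeff d = φ g ((F : AddMonoidAlgebra K ι).coeff d) :=
  AddMonoidAlgebra.coeff_mapAlgHom _ _ _

theorem alg_ext {N : Fam k K ι} {F F' : N.alg}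
    (h : ∀ d, (F : AddMonoidAlgebra K ι).coeff d = (F' : AddMonoidAlgebra K ι).coeff d) :
    F = F' := by
  apply Subtype.ext
  ext d
  exact h d

/-- The action of the group. -/
noncomputable def act (φ : G →* (K ≃ₐ[k] K)) (N : Fam k K ι)
    (hst : ∀ g d x, x ∈ N.s d → φ g x ∈ N.s d) : G →* (N.alg ≃ₐ[k] N.alg) where
  toFun g := AlgEquiv.ofAlgHom (actHom φ N hst g) (actHom φ N hst g⁻¹)
    (by
      ext1 F
      apply alg_ext
      intro d
      rw [AlgHom.comp_apply, coeff_actHom, coeff_actHom, ← AlgEquiv.mul_apply, ← map_mul,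
        mul_inv_cancel, map_one]
      rfl)
    (by
      ext1 F
      apply alg_ext
      intro d
      rw [AlgHom.comp_apply, coeff_actHom, coeff_actHom, ← AlgEquiv.mul_apply, ← map_mul,
        inv_mul_cancel, map_one]
      rfl)
  map_one' := by
    ext1 F
    apply alg_ext
    intro d
    show (actHom φ N hst 1 F : AddMonoidAlgebra K ι).coeff d = _
    rw [coeff_actHom, map_one]
    rfl
  map_mul' g h := by
    ext1 F
    apply alg_ext
    intro d
    show (actHom φ N hst (g * h) F : AddMonoidAlgebra K ι).coeff d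
      = (actHom φ N hst g (actHom φ N hst h F) : AddMonoidAlgebra K ι).coeff d
    rw [coeff_actHom, coeff_actHom, coeff_actHom, map_mul]
    rfl

theorem coeff_act (N : Fam k K ι) (hst : ∀ g d x, x ∈ N.s d → φ g x ∈ N.s d) (g : G)
    (F : N.alg) (d : ι) :
    (act φ N hst g F : AddMonoidAlgebra K ι).coeff d = φ g ((F : AddMonoidAlgebra K ι).coeff d) :=
  coeff_actHom N hst g F d

theorem act_el (N : Fam k K ι) (hst : ∀ g d x, x ∈ N.s d → φ g x ∈ N.s d) (g : G) {d : ι} {x : K}
    (hx : x ∈ N.s d) : act φ N hst g (N.el hx) = N.el (hst g d x hx) := by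
  classical
  apply alg_ext
  intro e
  rw [coeff_act, Fam.coe_el, Fam.coe_el, AddMonoidAlgebra.coeff_single,
    AddMonoidAlgebra.coeff_single, Finsupp.single_apply, Finsupp.single_apply]
  split_ifs
  · rfl
  · exact map_zero _

theorem fix_le (N : Fam k K ι) (d : ι) : (fixFam φ N).s d ≤ N.s d := fun _ hx => hx.1

theorem fixFam_alg_le (φ : G →* (K ≃ₐ[k] K)) (N : Fam k K ι) : (fixFam φ N).alg ≤ N.alg :=
  fun _ hF d => (hF d).1

/-- The inclusion of the invariants. -/
noncomputable def incF (φ : G →* (K ≃ₐ[k] K)) (N : Fam k K ι) : (fixFam φ N).alg →ₐ[k] N.alg :=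
  Subalgebra.inclusion (fixFam_alg_le φ N)

theorem incF_el (N : Fam k K ι) {d : ι} {x : K} (hx : x ∈ (fixFam φ N).s d) :
    incF φ N ((fixFam φ N).el hx) = N.el hx.1 := rfl

theorem exists_incF (N : Fam k K ι) (hst : ∀ g d x, x ∈ N.s d → φ g x ∈ N.s d) (F : N.alg)
    (hF : ∀ g, act φ N hst g F = F) : ∃ F0, incF φ N F0 = F := by
  refine ⟨⟨F, fun d => ⟨F.2 d, fun g => ?_⟩⟩, rfl⟩
  have h1 := coeff_act N hst g F d
  rw [hF g] at h1
  exact h1.symm

theorem act_incF (N : Fam k K ι) (hst : ∀ g d x, x ∈ N.s d → φ g x ∈ N.s d)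
    (F0 : (fixFam φ N).alg) (g : G) : act φ N hst g (incF φ N F0) = incF φ N F0 := by
  apply alg_ext
  intro d
  rw [coeff_act]
  exact (F0.2 d).2 g

/-- The subalgebra of fixed elements. -/
noncomputable def fixA (φ : G →* (K ≃ₐ[k] K)) (N : Fam k K ι) : Subalgebra k N.alg :=
  (incF φ N).range

theorem mem_fixA (N : Fam k K ι) (hst : ∀ g d x, x ∈ N.s d → φ g x ∈ N.s d) (F : N.alg) :
    F ∈ fixA φ N ↔ ∀ g, act φ N hst g F = F := by
  constructor
  · rintro ⟨F0, rfl⟩ g
    exact act_incF N hst F0 g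
  · intro h
    exact exists_incF N hst F h

/-- The two descriptions of the invariants. -/
noncomputable def fixEquiv (φ : G →* (K ≃ₐ[k] K)) (N : Fam k K ι) :
    (fixFam φ N).alg ≃ₐ[k] fixA φ N :=
  AlgEquiv.ofInjective (incF φ N) (Subalgebra.inclusion_injective _)

theorem fg_fixFam (hfg : M.alg.FG) (hst : ∀ g d x, x ∈ M.s d → φ g x ∈ M.s d) :
    (fixFam φ M).alg.FG := by
  have := M.finiteType_alg hfg
  have h := (finiteType_fixed (act φ M hst) (fixA φ M) (mem_fixA M hst)).2
  rw [Subalgebra.fg_iff_finiteType]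
  exact Algebra.FiniteType.equiv h (fixEquiv φ M).symm

/-- There is a prime over every prime of the invariants; semistability is preserved. -/
theorem exists_over_fixFam (hst : ∀ g d x, x ∈ M.s d → φ g x ∈ M.s d)
    (q0 : Ideal (fixFam φ M).alg) [q0.IsPrime] :
    ∃ q : Ideal M.alg, q.IsPrime ∧ Over (fixFam φ M) M (AddMonoidHom.id ι) q0 q := by
  let _ : MulSemiringAction G M.alg := MulSemiringAction.compHom M.alg (act φ M hst)
  let _ : Algebra (fixFam φ M).alg M.alg := (incF φ M).toRingHom.toAlgebra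
  have : Algebra.IsInvariant (fixFam φ M).alg M.alg G := ⟨fun b hb => exists_incF M hst b hb⟩
  have : SMulCommClass G (fixFam φ M).alg M.alg := ⟨fun g r m => by
    show act φ M hst g (incF φ M r * m) = incF φ M r * act φ M hst g m
    rw [map_mul, act_incF]⟩
  have : Algebra.IsIntegral (fixFam φ M).alg M.alg :=
    Algebra.IsInvariant.isIntegral (fixFam φ M).alg M.alg G
  obtain ⟨q, -, hq, hqc⟩ := Ideal.exists_ideal_over_prime_of_isIntegral q0 (⊥ : Ideal M.alg)
    (by
      intro a ha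
      have h1 : incF φ M a = 0 := ha
      have h2 : a = 0 := Subalgebra.inclusion_injective (fixFam_alg_le φ M)
        (h1.trans (map_zero (incF φ M)).symm)
      rw [h2]
      exact q0.zero_mem)
  refine ⟨q, hq, fun d x hx hx' => ?_⟩
  rw [← hqc, Ideal.mem_comap]
  rfl

/-- Norms: the degrees outside a prime of the invariants. -/
theorem degs_fixFam [Infinite k] (hst : ∀ g d x, x ∈ M.s d → φ g x ∈ M.s d)
    (q0 : Ideal (fixFam φ M).alg) [q0.IsPrime] (q : Ideal M.alg) [q.IsPrime]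
    (h : Over (fixFam φ M) M (AddMonoidHom.id ι) q0 q) {d : ι} (hd : d ∈ M.degs q) :
    Nat.card G • d ∈ (fixFam φ M).degs q0 := by
  obtain ⟨x, hx, hxq⟩ := hd
  have := Fintype.ofFinite G
  -- the bad subspaces
  let W : G → Submodule k (M.s d) := fun g =>
    { carrier := {y | M.el (hst g d y y.2) ∈ q}
      add_mem' := by
        intro y z hy hz
        have h1 := q.add_mem hy hz
        have h2 : M.el (hst g d _ (y + z).2) = M.el (hst g d y y.2) + M.el (hst g d z z.2) := by
          rw [← act_el M hst g y.2, ← act_el M hst g z.2, ← act_el M hst g (y + z).2, ← map_add]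
          congr 1
          apply Subtype.ext
          show single d ((y : K) + z) = single d (y : K) + single d (z : K)
          rw [single_add]
        show M.el (hst g d _ (y + z).2) ∈ q
        rw [h2]
        exact h1
      zero_mem' := by
        have h2 : M.el (hst g d _ (0 : M.s d).2) = 0 := by
          apply Subtype.ext
          show single d (φ g 0) = 0
          rw [map_zero, single_zero]
        show M.el (hst g d _ (0 : M.s d).2) ∈ q
        rw [h2]
        exact q.zero_mem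
      smul_mem' := by
        intro c y hy
        have h2 : M.el (hst g d _ (c • y).2) = c • M.el (hst g d y y.2) := by
          apply Subtype.ext
          show single d (φ g (c • (y : K))) = c • single d (φ g (y : K))
          rw [map_smul, smul_single]
        show M.el (hst g d _ (c • y).2) ∈ q
        rw [h2, Algebra.smul_def]
        exact q.mul_mem_left _ hy }
  obtain ⟨y, hy⟩ : ∃ y : M.s d, ∀ g, y ∉ W g := by
    by_contra hno
    push Not at hno
    obtain ⟨g, hg⟩ := Subspace.exists_eq_top_of_iUnion_eq_univ (p := W) (by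
      rw [Set.eq_univ_iff_forall]
      intro y
      obtain ⟨g, hg⟩ := hno y
      exact Set.mem_iUnion.2 ⟨g, hg⟩)
    have h1 : (⟨φ g⁻¹ x, hst g⁻¹ d x hx⟩ : M.s d) ∈ W g := by rw [hg]; trivial
    have h2 : M.el (hst g d _ (hst g⁻¹ d x hx)) ∈ q := h1
    apply hxq
    have h3 : φ g (φ g⁻¹ x) = x := by
      rw [← AlgEquiv.mul_apply, ← map_mul, mul_inv_cancel, map_one]; rfl
    rw [Fam.el_eq M hx (hst g d _ (hst g⁻¹ d x hx)) rfl h3.symm]
    exact h2
  -- the norm
  have key : ∀ s : Finset G, ∃ h : (∏ g ∈ s, φ g (y : K)) ∈ M.s (s.card • d), M.el h ∉ q := by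
    intro s
    classical
    induction s using Finset.induction_on with
    | empty =>
      have h1 : (∏ g ∈ (∅ : Finset G), φ g (y : K)) ∈ M.s ((∅ : Finset G).card • d) := by
        simpa using M.one'
      refine ⟨h1, ?_⟩
      rw [Fam.el_eq M h1 M.one' (by simp) (by simp), M.el_one]
      exact (Ideal.ne_top_iff_one q).1 (Ideal.IsPrime.ne_top inferInstance)
    | insert g s hg ih =>
      obtain ⟨h1, h2⟩ := ih
      have h3 := M.mul' (hst g d y y.2) h1
      have e1 : d + s.card • d = (insert g s).card • d := by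
        rw [Finset.card_insert_of_notMem hg, succ_nsmul']
      have h4 : (∏ g' ∈ insert g s, φ g' (y : K)) ∈ M.s ((insert g s).card • d) := by
        rw [Finset.prod_insert hg, ← e1]
        exact h3
      refine ⟨h4, ?_⟩
      rw [← Fam.el_eq M h3 h4 e1 (by rw [Finset.prod_insert hg]), ← M.el_mul (hst g d y y.2) h1]
      exact Ideal.IsPrime.mul_notMem inferInstance (hy g) h2
  obtain ⟨h1, h2⟩ := key Finset.univ
  rw [Finset.card_univ, ← Nat.card_eq_fintype_card] at h1
  have h3 : (∏ g, φ g (y : K)) ∈ (fixFam φ M).s (Nat.card G • d) := by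
    refine ⟨h1, fun g => ?_⟩
    rw [map_prod]
    have h4 : ∀ g', φ g (φ g' (y : K)) = φ (g * g') (y : K) := by
      intro g'
      rw [map_mul, AlgEquiv.mul_apply]
    simp_rw [h4]
    exact Equiv.prod_comp (Equiv.mulLeft g) (fun g' => φ g' (y : K))
  refine ⟨_, h3, ?_⟩
  rw [h _ _ h3 (by exact h1)]
  have h5 := Fam.el_eq M h1 (key Finset.univ).1 (by
    rw [Finset.card_univ, ← Nat.card_eq_fintype_card]) rfl
  intro h6
  apply (key Finset.univ).2
  rw [← h5]
  exact h6

/-- Smoothness of the localisations of the final stage. -/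
theorem smooth_final [FiniteDimensional k U] [Module.Free ℤ ι] [Module.Finite ℤ ι]
    (hG : Glob L ρ φ M a EE l e)
    (hloc : ∀ (q : Ideal M.alg) [q.IsPrime], Semi M a q → ∃ S, Loc L ρ φ p M EE l e q S) :
    ∀ n : ℕ, 0 < n → ∀ (x : K) (hx : x ∈ M.s (n • a)), x ≠ 0 →
      Algebra.FormallySmooth k (M.loc hx).alg := by
  refine smooth_of_charts (L := L) (fl := flg ρ) (l := l) M a hG.fg e fun q hq hs => ?_
  obtain ⟨S, hS⟩ := hloc q hs
  exact ⟨S, finite_idx_set S, fun E hE => hG.flag E (hS.sub hE), hS.adapt, dual_of_loc hG hS,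
    fun d x hx => (mem_CSs L _ _ _).2 ⟨hG.leB d hx, fun E hE => hG.val E (hS.sub hE) d hx⟩,
    hS.chart⟩

/-! ### Smoothness of the invariants -/

theorem isDomain_alg [Module.Free ℤ ι] (N : Fam k K ι) : IsDomain N.alg := by
  have : UniqueSums ι := UniqueSums.of_injective_addHom
    (Module.Free.chooseBasis ℤ ι).repr.toLinearMap.toAddMonoidHom.toAddHom
    (Module.Free.chooseBasis ℤ ι).repr.injective inferInstance
  have : NoZeroDivisors (AddMonoidAlgebra K ι) := inferInstance
  infer_instance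

/-- The difference operator of an element of the inertia group raises the degree by `eps`. -/
theorem diff_mem [FiniteDimensional k U] [CharP k p] (hc : Ctx L ρ φ p)
    (hG : Glob L ρ φ M a EE l e) (hw : ∀ P N, Idx.w P N ∈ EE → P ≤ N) {q : Ideal M.alg}
    [q.IsPrime] {S : Set (Idx G)} (hS : Loc L ρ φ p M EE l e q S) {s : G}
    (hs : s ∈ inertia φ M q) {d : ι} {y : K} (hy : y ∈ M.s d) :
    φ s y - y ∈ (atP M q).s (d + epsS e S) := by
  apply hS.chart
  have hd := dual_of_loc hG hS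
  have hyB : y ∈ L.B := hG.leB d hy
  rw [mem_CSs]
  refine ⟨Subalgebra.sub_mem _ (hG.leB d (hG.stable s d y hy)) hyB, fun E hE => ?_⟩
  rw [map_add, l_epsS hd hE]
  have hval := hG.val E (hS.sub hE) d hy
  cases E with
  | t N =>
    rw [show ((Idx.t N).wt : ℤ) = 0 from rfl, add_zero]
    refine Submodule.sub_mem _ ?_ hval
    have h1 := fil_cj hc.hφ s (Idx.t N) hval
    rwa [hS.fix s hs _ hE] at h1
  | w P N =>
    rw [show ((Idx.w P N).wt : ℤ) = 1 from rfl]
    exact fil_diff L (hG.flag _ (hS.sub hE)) (φ s) (ρ s) (hc.hφ s)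
      (fun m z hz => flg_w_diff ρ (hw P N (hS.sub hE)) (hS.wle P N hE hs) m hz) hval

/-- Goodness can be seen on elements of the family itself. -/
theorem good_in_M [FiniteDimensional k U] [CharP k p] (hc : Ctx L ρ φ p)
    (hG : Glob L ρ φ M a EE l e) (hw : ∀ P N, Idx.w P N ∈ EE → P ≤ N) {q : Ideal M.alg}
    [q.IsPrime] {S : Set (Idx G)} (hS : Loc L ρ φ p M EE l e q S) (hgood : Good φ M e q S)
    {s : G} (hs : s ∈ inertia φ M q) (hs1 : s ≠ 1) :
    ∃ (d : ι) (y : K), y ∈ M.s d ∧ IsU (atP M q) (d + epsS e S) (φ s y - y) := by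
  obtain ⟨d, y, hy, hyU⟩ := hgood s hs hs1
  obtain ⟨c, f, hf, hfq, hf0, hfy⟩ := exists_frac M q hy
  have hsf : φ s f ∈ M.s c := hG.stable s c f hf
  have hfU : IsU (atP M q) c f := (isU_atP_iff M q hf).2 hfq
  have hsfU : IsU (atP M q) c (φ s f) := by
    have h2 : IsU (atP M q) c (φ s f) ∨ IsU (atP M q) c (-(φ s f - f)) := by
      apply isU_add M q (le_atP M q c hsf) (Submodule.neg_mem _ (le_atP M q c
        (Submodule.sub_mem _ hsf hf)))
      rw [show φ s f + -(φ s f - f) = f by ring]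
      exact hfU
    rcases h2 with h2 | h2
    · exact h2
    · exfalso
      apply inertia_not_isU φ M q hs (le_atP M q c hf)
      refine ⟨fun h0 => h2.1 (by rw [h0, neg_zero]), le_atP M q c (Submodule.sub_mem _ hsf hf), ?_⟩
      have h3 := Submodule.neg_mem _ h2.2.2
      rwa [inv_neg, neg_neg] at h3
  set g0 : K := f * y with hg0
  have hh : f * (φ s g0 - g0) + -(g0 * (φ s f - f)) = φ s f * f * (φ s y - y) := by
    rw [hg0, map_mul]; ring
  have hhU : IsU (atP M q) (c + c + (d + epsS e S)) (f * (φ s g0 - g0) + -(g0 * (φ s f - f))) := by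
    rw [hh]
    exact (hsfU.mul hfU).mul hyU
  have m1 : f ∈ (atP M q).s c := le_atP M q c hf
  have m2 : φ s g0 - g0 ∈ (atP M q).s (c + d + epsS e S) := diff_mem hc hG hw hS hs hfy
  have m3 : g0 ∈ (atP M q).s (c + d) := le_atP M q _ hfy
  have m4 : φ s f - f ∈ (atP M q).s (c + epsS e S) := diff_mem hc hG hw hS hs hf
  have e1 : c + (c + d + epsS e S) = c + c + (d + epsS e S) := by abel
  have e2 : c + d + (c + epsS e S) = c + c + (d + epsS e S) := by abel
  have n1 : f * (φ s g0 - g0) ∈ (atP M q).s (c + c + (d + epsS e S)) := e1 ▸ (atP M q).mul' m1 m2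
  have n2 : g0 * (φ s f - f) ∈ (atP M q).s (c + c + (d + epsS e S)) := e2 ▸ (atP M q).mul' m3 m4
  rcases isU_add M q n1 (Submodule.neg_mem _ n2) hhU with h1 | h1
  · refine ⟨c + d, g0, hfy, ?_⟩
    rw [← e1] at h1
    exact IsU.of_mul_right m1 m2 h1
  · refine ⟨c, f, hf, ?_⟩
    have h2 : IsU (atP M q) (c + c + (d + epsS e S)) (g0 * (φ s f - f)) := by
      refine ⟨fun h0 => h1.1 (by rw [h0, neg_zero]), n2, ?_⟩
      have h3 := Submodule.neg_mem _ h1.2.2
      rwa [inv_neg, neg_neg] at h3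
    rw [← e2] at h2
    exact IsU.of_mul_right m3 m4 h2

theorem loc_stable (hst : ∀ g d x, x ∈ M.s d → φ g x ∈ M.s d) {b : ι} {x : K} (hx : x ∈ M.s b)
    (hfix : ∀ g, φ g x = x) : ∀ g d y, y ∈ (M.loc hx).s d → φ g y ∈ (M.loc hx).s d := by
  rintro g d y ⟨m, hm⟩
  refine ⟨m, ?_⟩
  have h1 := hst g _ _ hm
  rwa [map_mul, map_pow, hfix] at h1

theorem loc_fixFam {b : ι} {x : K} (hx : x ∈ (fixFam φ M).s b) (hx0 : x ≠ 0) :
    (fixFam φ M).loc hx = fixFam φ (M.loc hx.1) := by
  ext d y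
  constructor
  · rintro ⟨m, h1, h2⟩
    refine ⟨⟨m, h1⟩, fun g => ?_⟩
    have h3 := h2 g
    rw [map_mul, map_pow, hx.2 g] at h3
    exact mul_left_cancel₀ (pow_ne_zero m hx0) h3
  · rintro ⟨⟨m, h1⟩, h2⟩
    refine ⟨m, h1, fun g => ?_⟩
    rw [map_mul, map_pow, hx.2 g, h2 g]

theorem act_injective (hc : Ctx L ρ φ p) (hG : Glob L ρ φ M a EE l e) (N : Fam k K ι)
    (hMN : M.s 0 ≤ N.s 0) (hst : ∀ g d x, x ∈ N.s d → φ g x ∈ N.s d) :
    Function.Injective (act φ N hst) := by
  classical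
  rw [injective_iff_map_eq_one]
  intro g hg
  apply hc.hρ
  rw [map_one]
  apply LinearMap.ext
  intro u
  rw [Module.End.one_apply]
  have h0 : L.lin u ∈ N.s 0 := by
    apply hMN
    rw [hG.zero]
    exact Algebra.subset_adjoin ⟨u, rfl⟩
  have h1 := coeff_act N hst g (N.el h0) 0
  rw [hg] at h1
  have h2 : ((N.el h0 : N.alg) : AddMonoidAlgebra K ι).coeff 0 = L.lin u := by
    rw [Fam.coe_el, AddMonoidAlgebra.coeff_single, Finsupp.single_eq_same]
  have h3 : L.lin u = φ g (L.lin u) := by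
    rw [h2] at h1
    rw [← h1]
    exact h2.symm
  rw [hc.hφ] at h3
  by_contra h4
  have h5 : ρ g u - u ≠ 0 := sub_ne_zero.2 h4
  apply st_lin_ne_zero L h5
  rw [map_sub, ← h3, sub_self]

/-- Smoothness of the localisations of the invariants: Theorem E. -/
theorem smooth_fixFam [Infinite k] [FiniteDimensional k U] [CharP k p] [Module.Free ℤ ι]
    [Module.Finite ℤ ι] (hc : Ctx L ρ φ p) (hG : Glob L ρ φ M a EE l e)
    (hw : ∀ P N, Idx.w P N ∈ EE → P ≤ N)
    (hloc : ∀ (q : Ideal M.alg) [q.IsPrime], Semi M a q → ∃ S, Loc L ρ φ p M EE l e q S ∧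
      (inertia φ M q = ⊥ ∨ Nat.card (inertia φ M q) = p) ∧ Good φ M e q S) :
    ∀ n : ℕ, 0 < n → ∀ (x : K) (hx : x ∈ (fixFam φ M).s (n • a)), x ≠ 0 →
      Algebra.FormallySmooth k ((fixFam φ M).loc hx).alg := by
  intro n hn x hx hx0
  rw [loc_fixFam hx hx0]
  have hxM : x ∈ M.s (n • a) := hx.1
  have hst := hG.stable
  have hst' := loc_stable (φ := φ) hst hxM hx.2
  have := isDomain_alg (M.loc hxM)
  have := M.finiteType_loc hG.fg hxM hx0
  have := smooth_final hG (fun q hq hs => by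
    obtain ⟨S, hS, -⟩ := hloc q hs
    exact ⟨S, hS⟩) n hn x hxM hx0
  suffices h : Algebra.FormallySmooth k (fixA φ (M.loc hxM)) from
    Algebra.FormallySmooth.of_equiv (A := fixA φ (M.loc hxM)) (B := (fixFam φ (M.loc hxM)).alg)
      (fixEquiv φ (M.loc hxM)).symm
  refine formallySmooth_fixed (act φ (M.loc hxM) hst')
    (act_injective hc hG _ (M.le_loc hxM 0) hst') _ (mem_fixA _ hst') ?_
  intro q hq s hs1 hsq
  -- the prime below
  set q₁ : Ideal M.alg := q.comap (M.toLoc hxM) with hq₁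
  have hq₁p : q₁.IsPrime := Ideal.comap_isPrime _ _
  have hmem : ∀ {d : ι} {y : K} (hy : y ∈ M.s d),
      M.el hy ∈ q₁ ↔ (M.loc hxM).el (M.le_loc hxM d hy) ∈ q := fun hy => Iff.rfl
  have hunit : ∀ m : ℕ, (M.loc hxM).el (M.le_loc hxM _ (M.pow' hxM m)) ∉ q := by
    intro m hmem
    refine hq.ne_top (Ideal.eq_top_of_isUnit_mem _ hmem ?_)
    refine IsUnit.of_mul_eq_one ((M.loc hxM).el ((M.loc hxM).pow' (M.inv_mem_loc hxM hx0) m)) ?_
    rw [Fam.el_mul, ← Fam.el_one]
    refine Fam.el_eq _ _ _ (by simp) ?_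
    rw [inv_pow, mul_inv_cancel₀ (pow_ne_zero m hx0)]
  have hsemi : Semi M a q₁ := by
    refine ⟨n, hn, x, hxM, fun h => ?_⟩
    apply hunit 1
    rw [hmem] at h
    rwa [Fam.el_eq _ (M.le_loc hxM _ (M.pow' hxM 1)) (M.le_loc hxM _ hxM) (one_nsmul _)
      (pow_one x)]
  obtain ⟨S, hS, hin, hgood⟩ := hloc q₁ hsemi
  -- inertia
  have hinert : ∀ g : G, (∀ F, act φ (M.loc hxM) hst' g F - F ∈ q) → g ∈ inertia φ M q₁ := by
    intro g hg d y hy
    have h1 : φ g y - y ∈ M.s d := Submodule.sub_mem _ (hst g d y hy) hy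
    refine ⟨h1, ?_⟩
    rw [hmem]
    have h2 := hg ((M.loc hxM).el (M.le_loc hxM d hy))
    rw [act_el] at h2
    have h3 : (M.loc hxM).el (M.le_loc hxM d h1) = (M.loc hxM).el (hst' g d y (M.le_loc hxM d hy))
        - (M.loc hxM).el (M.le_loc hxM d hy) := by
      apply Subtype.ext
      show single d (φ g y - y) = single d (φ g y) - single d y
      rw [single_sub]
    rw [h3]
    exact h2
  have hsI := hinert s hsq
  have hcard : Nat.card (inertia φ M q₁) = p := by
    rcases hin with h1 | h1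
    · rw [h1, Subgroup.mem_bot] at hsI
      exact absurd hsI hs1
    · exact h1
  have hzle : Subgroup.zpowers s ≤ inertia φ M q₁ := by
    rw [Subgroup.zpowers_le]
    exact hsI
  have hos : orderOf s = p := by
    have h1 : orderOf s ∣ p := by
      rw [← hcard]
      exact Subgroup.orderOf_dvd_natCard _ hsI
    rcases (Nat.dvd_prime hc.hp).1 h1 with h2 | h2
    · exact absurd (orderOf_eq_one_iff.1 h2) hs1
    · exact h2
  have hzeq : Subgroup.zpowers s = inertia φ M q₁ :=
    eq_of_le_of_card (p := p) (by rw [Nat.card_zpowers, hos]) hcard hzle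
  refine ⟨fun g hg => ?_, ?_, ?_⟩
  · rw [hzeq]
    exact hinert g hg
  · rw [hos]
    exact hc.hp
  · obtain ⟨d', y', hy', hyU⟩ := good_in_M hc hG hw hS hgood hsI hs1
    set Y : (M.loc hxM).alg := (M.loc hxM).el (M.le_loc hxM d' hy') with hY
    set δ : (M.loc hxM).alg := act φ (M.loc hxM) hst' s Y - Y with hδ
    have hδ' : (δ : AddMonoidAlgebra K ι) = single d' (φ s y' - y') := by
      rw [hδ, hY, act_el]
      show single d' (φ s y') - single d' y' = _
      rw [← single_sub]
    refine ⟨Y, ?_⟩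
    intro F
    refine Fam.alg_induction (M.loc hxM) (p := fun F => ∃ f ∉ q, ∃ z : (M.loc hxM).alg,
      f * (act φ (M.loc hxM) hst' s F - F) = z * δ) ?_ ?_ ?_ F
    · exact ⟨1, (Ideal.ne_top_iff_one q).1 hq.ne_top, 0, by simp⟩
    · rintro F F' ⟨f, hf, z, hz⟩ ⟨f', hf', z', hz'⟩
      refine ⟨f * f', hq.mul_notMem hf hf', f' * z + f * z', ?_⟩
      rw [map_add]
      linear_combination f' * hz + f * hz'
    · intro b w hwb
      obtain ⟨m, hm⟩ := id hwb
      -- the difference of the numerator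
      have h1 : φ s (x ^ m * w) - x ^ m * w ∈ (atP M q₁).s (m • n • a + b + epsS e S) :=
        diff_mem hc hG hw hS hsI hm
      have h2 : (φ s (x ^ m * w) - x ^ m * w) * (φ s y' - y')⁻¹ ∈
          (atP M q₁).s (m • n • a + b + epsS e S + -(d' + epsS e S)) :=
        (atP M q₁).mul' h1 hyU.2.2
      have e1 : m • n • a + b + epsS e S + -(d' + epsS e S) = m • n • a + b - d' := by abel
      rw [e1] at h2
      obtain ⟨c, f, hf, hfq, hf0, hfz⟩ := exists_frac M q₁ h2
      have h3 : (M.loc hxM).el (M.le_loc hxM c hf) ∉ q := fun h => hfq ((hmem hf).2 h)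
      refine ⟨(M.loc hxM).el (M.le_loc hxM c hf) * (M.loc hxM).el (M.le_loc hxM _ (M.pow' hxM m)),
        hq.mul_notMem h3 (hunit m), (M.loc hxM).el (M.le_loc hxM _ hfz), ?_⟩
      apply Subtype.ext
      rw [MulMemClass.coe_mul, MulMemClass.coe_mul, MulMemClass.coe_mul, hδ', act_el]
      show single c f * single (m • n • a) (x ^ m) * (single b (φ s w) - single b w)
        = single (c + (m • n • a + b - d')) _ * single d' (φ s y' - y')
      rw [← single_sub, single_mul_single, single_mul_single, single_mul_single]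
      have e2 : c + m • n • a + b = c + (m • n • a + b - d') + d' := by abel
      rw [e2]
      congr 1
      rw [map_mul, map_pow, hx.2 s]
      have h4 : φ s y' - y' ≠ 0 := hyU.1
      field_simp

/-- The family of invariants satisfies the hypotheses of the destackification theorem. -/
theorem goodM_fixFam [Infinite k] [FiniteDimensional k U] [CharP k p] [Module.Free ℤ ι]
    [Module.Finite ℤ ι] (hc : Ctx L ρ φ p) (hG : Glob L ρ φ M a EE l e)
    (hw : ∀ P N, Idx.w P N ∈ EE → P ≤ N)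
    (hloc : ∀ (q : Ideal M.alg) [q.IsPrime], Semi M a q → ∃ S, Loc L ρ φ p M EE l e q S ∧
      (inertia φ M q = ⊥ ∨ Nat.card (inertia φ M q) = p) ∧ Good φ M e q S) :
    GoodM (fixFam φ M) a := by
  have hfg := fg_fixFam hG.fg hG.stable
  have hone : ∀ d : ι, (1 : K) ∈ M.s d → (1 : K) ∈ (fixFam φ M).s d := fun d h =>
    ⟨h, fun g => map_one _⟩
  have hcard : 0 < Nat.card G := Nat.card_pos
  have hint : ∀ (q0 : Ideal (fixFam φ M).alg) [q0.IsPrime], Semi (fixFam φ M) a q0 →
      IntA (fixFam φ M) a q0 := by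
    intro q0 hq0 hs d
    obtain ⟨q, hq, hov⟩ := exists_over_fixFam hG.stable q0
    have hs' : Semi M a q := by
      obtain ⟨n, hn, hna⟩ := hs
      exact ⟨n, hn, hov.degs (fun d => fix_le M d) hna⟩
    obtain ⟨m, hm, w, hw0, hmem⟩ := hG.int q hs' d
    refine ⟨m, hm, Nat.card G * w, Nat.mul_pos hcard hw0, ?_⟩
    rw [mul_nsmul']
    exact degs_fixFam hG.stable q0 q hov hmem
  refine ⟨hfg, smooth_fixFam hc hG hw hloc, exists_index _ a hfg hint, hint, ?_, ?_, ?_⟩
  · intro n
    exact hone _ (hG.neg n)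
  · obtain ⟨n, hn, x, hx, hx0⟩ := hG.nontriv
    classical
    have := Fintype.ofFinite G
    have key : ∀ s : Finset G, (∏ g ∈ s, φ g x) ∈ M.s (s.card • n • a) := by
      intro s
      induction s using Finset.induction_on with
      | empty => simpa using M.one'
      | insert g s hg ih =>
        rw [Finset.prod_insert hg, Finset.card_insert_of_notMem hg, succ_nsmul']
        exact M.mul' (hG.stable g _ x hx) ih
    refine ⟨Nat.card G * n, Nat.mul_pos hcard hn, ∏ g, φ g x, ⟨?_, ?_⟩, ?_⟩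
    · have h1 := key Finset.univ
      rw [Finset.card_univ, ← Nat.card_eq_fintype_card] at h1
      rwa [mul_nsmul']
    · intro g
      rw [map_prod]
      have h4 : ∀ g', φ g (φ g' x) = φ (g * g') x := by
        intro g'
        rw [map_mul, AlgEquiv.mul_apply]
      simp_rw [h4]
      exact Equiv.prod_comp (Equiv.mulLeft g) (fun g' => φ g' x)
    · rw [Finset.prod_ne_zero_iff]
      intro g _
      exact (map_ne_zero_iff _ (φ g).injective).2 hx0
  · intro d
    obtain ⟨c, h1, h2⟩ := hG.gen d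
    exact ⟨c, ⟨1, hone _ h1, one_ne_zero⟩, 1, hone _ h2, one_ne_zero⟩

theorem exists_goodM [Infinite k] [FiniteDimensional k U] [CharP k p] (hc : Ctx L ρ φ p)
    (h : HasFin L ρ φ p) :
    ∃ (ι : Type) (_ : AddCommGroup ι) (_ : Module.Free ℤ ι) (_ : Module.Finite ℤ ι)
      (N : Fam k K ι) (a : ι), GoodM N a ∧ ∀ x, x ∈ N.s 0 ↔ x ∈ L.B ∧ ∀ g, φ g x = x := by
  obtain ⟨ι, i1, i2, i3, M, a, EE, l, e, hG, hw, hloc⟩ := h
  refine ⟨ι, i1, i2, i3, fixFam φ M, a, goodM_fixFam hc hG hw hloc, fun x => ?_⟩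
  rw [mem_fixFam, hG.zero]
  rfl

end Pool.Agent.MP_b525bf_ag_W
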