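import Pool.Agent.Lib.MP_b525bf_ag_W.AtP

set_option autoImplicit false

namespace Pool.Agent.MP_b525bf_ag_W

open Pool.Agent.MP_b525bf_ag AddMonoidAlgebra

variable {k K ι : Type} [Field k] [Field K] [Algebra k K] [AddCommGroup ι]

/-- The subfamily of the elements which are in `q` or whose degree is in `C`. -/
def degFam (M : Fam k K ι) (q : Ideal M.alg) [hq : q.IsPrime] (C : AddSubmonoid ι) :
    Fam k K ι where
  s d :=
    { carrier := {z | ∃ h : z ∈ M.s d, d ∉ C → M.el h ∈ q}
      add_mem' := by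
        rintro y z ⟨hy, hy'⟩ ⟨hz, hz'⟩
        refine ⟨Submodule.add_mem _ hy hz, fun hd => ?_⟩
        have e : M.el (Submodule.add_mem _ hy hz) = M.el hy + M.el hz :=
          Subtype.ext (single_add _ _ _)
        rw [e]
        exact Ideal.add_mem _ (hy' hd) (hz' hd)
      zero_mem' := by
        refine ⟨Submodule.zero_mem _, fun _ => ?_⟩
        have e : M.el (Submodule.zero_mem (M.s d)) = 0 := Subtype.ext (single_zero _)
        rw [e]
        exact Ideal.zero_mem _
      smul_mem' := by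
        rintro r y ⟨hy, hy'⟩
        refine ⟨Submodule.smul_mem _ _ hy, fun hd => ?_⟩
        have e : M.el (Submodule.smul_mem _ r hy) = r • M.el hy :=
          Subtype.ext (smul_single _ _ _).symm
        rw [e, Algebra.smul_def]
        exact Ideal.mul_mem_left _ _ (hy' hd) }
  one' := ⟨M.one', fun h => absurd C.zero_mem h⟩
  mul' := by
    rintro a b x y ⟨hx, hx'⟩ ⟨hy, hy'⟩
    refine ⟨M.mul' hx hy, fun hd => ?_⟩
    rw [← M.el_mul hx hy]
    by_cases ha : a ∈ C
    · by_cases hb : b ∈ C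
      · exact absurd (C.add_mem ha hb) hd
      · exact Ideal.mul_mem_left _ _ (hy' hb)
    · exact Ideal.mul_mem_right _ _ (hx' ha)

/-- The degrees outside a prime are generated by the degrees of the generators outside it. -/
theorem degs_eq_closure (M : Fam k K ι) {r : ℕ} {δ : Fin r → ι} {x : Fin r → K}
    (hx : ∀ i, x i ∈ M.s (δ i))
    (hgen : M.alg = Algebra.adjoin k
      (Set.range fun i => (single (δ i) (x i) : AddMonoidAlgebra K ι)))
    (q : Ideal M.alg) [q.IsPrime] :
    M.degs q = AddSubmonoid.closure {c | ∃ i, c = δ i ∧ M.el (hx i) ∉ q} := by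
  set C := AddSubmonoid.closure {c | ∃ i, c = δ i ∧ M.el (hx i) ∉ q} with hC
  refine le_antisymm ?_ ?_
  · rintro d ⟨y, hy, hyq⟩
    have h1 : M.alg ≤ (degFam M q C).alg := by
      refine hgen.le.trans (Algebra.adjoin_le ?_)
      rintro _ ⟨i, rfl⟩
      refine Fam.single_mem_alg.2 ⟨hx i, fun h => ?_⟩
      by_contra h2
      exact h (AddSubmonoid.subset_closure ⟨i, rfl, h2⟩)
    obtain ⟨_, h2⟩ := (Fam.single_mem_alg (M := degFam M q C)).1 (h1 (Fam.single_mem_alg.2 hy))
    by_contra h3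
    exact hyq (h2 h3)
  · rw [hC, AddSubmonoid.closure_le]
    rintro _ ⟨i, rfl, hi⟩
    exact ⟨x i, hx i, hi⟩

theorem exists_mul_mem_grp {M : Fam k K ι} {a : ι} {q : Ideal M.alg} [q.IsPrime]
    (h : IntA M a q) (d : ι) : ∃ w : ℕ, 0 < w ∧ w • d ∈ M.grp q := by
  obtain ⟨m, hm, w, hw, h1⟩ := h d
  obtain ⟨m', hm', w', hw', h2⟩ := h 0
  rw [add_zero] at h2
  refine ⟨w' * m' * w, by positivity, ?_⟩
  have h3 := (M.grp q).nsmul_mem (M.degs_le_grp q h1) (w' * m')
  have h4 := (M.grp q).nsmul_mem (M.degs_le_grp q h2) (w * m)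
  have h5 := (M.grp q).sub_mem h3 h4
  convert h5 using 1
  rw [smul_add, smul_add, smul_smul, smul_smul, smul_smul, smul_smul, smul_smul]
  have e : w' * m' * w * m = w * m * w' * m' := by ring
  rw [e]
  abel

/-- `IntA` for all semistable primes implies a uniform bound for the index. -/
theorem exists_index [Module.Free ℤ ι] [Module.Finite ℤ ι] (M : Fam k K ι) (a : ι)
    (hfg : M.alg.FG)
    (hint : ∀ (q : Ideal M.alg) [q.IsPrime], Semi M a q → IntA M a q) :
    ∃ w : ℕ, 0 < w ∧ ∀ (q : Ideal M.alg) [q.IsPrime], Semi M a q → ∀ d : ι, w • d ∈ M.grp q := by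
  classical
  obtain ⟨r, δ, x, hx, hgen⟩ := M.exists_generators hfg
  obtain ⟨T, hT⟩ := (inferInstance : Module.Finite ℤ ι)
  -- one prime
  have h1 : ∀ (q : Ideal M.alg) [q.IsPrime], Semi M a q →
      ∃ w : ℕ, 0 < w ∧ ∀ d : ι, w • d ∈ M.grp q := by
    intro q hq hs
    choose w hw hw' using fun d => exists_mul_mem_grp (hint q hs) d
    refine ⟨∏ b ∈ T, w b, Finset.prod_pos fun b _ => hw b, ?_⟩
    intro d
    have hd : d ∈ Submodule.span ℤ (T : Set ι) := by rw [hT]; trivial
    induction hd using Submodule.span_induction with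
    | mem b hb =>
      rw [← Finset.mul_prod_erase T w hb, mul_comm, mul_smul]
      exact (M.grp q).nsmul_mem (hw' b) _
    | zero => rw [smul_zero]; exact zero_mem _
    | add y z _ _ hy hz => rw [smul_add]; exact add_mem hy hz
    | smul c y _ hy =>
      rw [smul_comm]
      exact (M.grp q).zsmul_mem hy c
  -- primes with the same set of generators outside
  have h2 : ∀ J : Set (Fin r), ∃ w : ℕ, 0 < w ∧ ∀ (q : Ideal M.alg) [q.IsPrime], Semi M a q →
      {i | M.el (hx i) ∉ q} = J → ∀ d : ι, w • d ∈ M.grp q := by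
    intro J
    by_cases h : ∃ (q : Ideal M.alg) (_ : q.IsPrime), Semi M a q ∧ {i | M.el (hx i) ∉ q} = J
    · obtain ⟨q, hq, hs, hJ⟩ := h
      obtain ⟨w, hw, hw'⟩ := h1 q hs
      refine ⟨w, hw, ?_⟩
      intro q2 hq2 hs2 hJ2 d
      have e : M.degs q2 = M.degs q := by
        rw [degs_eq_closure M hx hgen q2, degs_eq_closure M hx hgen q]
        congr 1
        have e2 : ∀ i, M.el (hx i) ∉ q2 ↔ M.el (hx i) ∉ q := by
          intro i
          exact Set.ext_iff.1 (hJ2.trans hJ.symm) i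
        ext c
        simp only [Set.mem_ofPred_eq, e2]
      have h3 := hw' d
      rw [Fam.mem_grp] at h3 ⊢
      rw [e]
      exact h3
    · refine ⟨1, one_pos, ?_⟩
      intro q hq hs hJ
      exact absurd ⟨q, hq, hs, hJ⟩ h
  choose w hw hw' using h2
  refine ⟨∏ J : Set (Fin r), w J, Finset.prod_pos fun J _ => hw J, ?_⟩
  intro q hq hs d
  have h3 := hw' {i | M.el (hx i) ∉ q} q hs rfl d
  rw [← Finset.mul_prod_erase Finset.univ w (Finset.mem_univ {i | M.el (hx i) ∉ q}), mul_comm,
    mul_smul]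
  exact (M.grp q).nsmul_mem h3 _

end Pool.Agent.MP_b525bf_ag_W
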