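import Mathlib

/-!
# W4, auxiliary: Gordan's lemma in coordinates
-/

set_option autoImplicit false

namespace Pool.Agent.MP_b525bf_ag_W

variable {ι : Type} [AddCommGroup ι]

/-- The monoid of nonnegative solutions of a homogeneous linear equation is finitely generated. -/
theorem exists_solution_generators_aux {r : ℕ} (δ : Fin r → ι) :
    ∃ (s : ℕ) (γ : Fin s → Fin r → ℕ), (∀ i, ∑ j, γ i j • δ j = 0) ∧
      ∀ α : Fin r → ℕ, ∑ j, α j • δ j = 0 → ∃ c : Fin s → ℕ, α = ∑ i, c i • γ i := by
  let f : (Fin r → ℕ) →+ ι :=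
    { toFun := fun α => ∑ j, α j • δ j
      map_zero' := by simp
      map_add' := fun α β => by simp [add_smul, Finset.sum_add_distrib] }
  obtain ⟨S, hS⟩ := AddSubmonoid.fg_eqLocusM f 0
  have hmem : ∀ α : Fin r → ℕ, α ∈ AddSubmonoid.closure (S : Set (Fin r → ℕ)) ↔
      ∑ j, α j • δ j = 0 := by
    intro α
    rw [hS]
    exact AddMonoidHom.mem_eqLocusM
  let e := S.equivFin.symm
  refine ⟨S.card, fun i => (e i : Fin r → ℕ), fun i => ?_, fun α hα => ?_⟩
  · exact (hmem _).1 (AddSubmonoid.subset_closure (e i).2)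
  · have hα' := (hmem α).2 hα
    induction hα' using AddSubmonoid.closure_induction with
    | mem x hx =>
      refine ⟨Pi.single (e.symm ⟨x, hx⟩) 1, ?_⟩
      rw [Finset.sum_eq_single (e.symm ⟨x, hx⟩)]
      · simp
      · intro b _ hb
        rw [Pi.single_eq_of_ne hb, zero_smul]
      · intro h
        exact absurd (Finset.mem_univ _) h
    | zero => exact ⟨0, by simp⟩
    | add x y hx hy ihx ihy =>
      obtain ⟨c, hc⟩ := ihx ((hmem x).1 hx)
      obtain ⟨d, hd⟩ := ihy ((hmem y).1 hy)
      refine ⟨c + d, ?_⟩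
      rw [hc, hd, ← Finset.sum_add_distrib]
      refine Finset.sum_congr rfl fun i _ => ?_
      rw [Pi.add_apply, add_smul]

end Pool.Agent.MP_b525bf_ag_W
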