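import Pool.Agent.Lib.MP_b525bf_ag_W.AtP
import Pool.Agent.Lib.MP_b525bf_ag_W.Sem_h62
import Pool.Agent.Lib.MP_b525bf_ag_W.Sem_h16

/-!
# W4: semistability for Rees families (blueprint 1.1, 1.2)

`degs_eq_closure` and `exists_index` are in `Sem_h16`.
-/

set_option autoImplicit false

namespace Pool.Agent.MP_b525bf_ag_W

open Pool.Agent.MP_b525bf_ag AddMonoidAlgebra

variable {k K ι : Type} [Field k] [Field K] [Algebra k K] [AddCommGroup ι]

/-- The inclusion of the degrees. -/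
def inlZ (ι : Type) [AddCommGroup ι] : ι →+ ι × ℤ := AddMonoidHom.inl ι ℤ

@[simp] theorem inlZ_apply (d : ι) : inlZ ι d = (d, 0) := rfl

/-- The monoid of nonnegative solutions of a homogeneous linear equation is finitely generated. -/
theorem exists_solution_generators [Module.Free ℤ ι] [Module.Finite ℤ ι] {r : ℕ} (δ : Fin r → ι) :
    ∃ (s : ℕ) (γ : Fin s → Fin r → ℕ), (∀ i, ∑ j, γ i j • δ j = 0) ∧
      ∀ α : Fin r → ℕ, ∑ j, α j • δ j = 0 → ∃ c : Fin s → ℕ, α = ∑ i, c i • γ i :=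
  exists_solution_generators_aux δ

/-- The version for arbitrary finite index types. -/
theorem exists_solution_generators' [Module.Free ℤ ι] [Module.Finite ℤ ι] {σ : Type} [Fintype σ]
    (δ : σ → ι) :
    ∃ (s : ℕ) (γ : Fin s → σ → ℕ), (∀ i, ∑ j, γ i j • δ j = 0) ∧
      ∀ α : σ → ℕ, ∑ j, α j • δ j = 0 → ∃ c : Fin s → ℕ, α = ∑ i, c i • γ i := by
  classical
  let e := Fintype.equivFin σ
  obtain ⟨s, γ, h1, h2⟩ := exists_solution_generators (fun i => δ (e.symm i))
  refine ⟨s, fun i j => γ i (e j), ?_, fun α hα => ?_⟩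
  · intro i
    rw [← h1 i]
    exact Fintype.sum_equiv e _ _ (fun j => by simp)
  · obtain ⟨c, hc⟩ := h2 (fun i => α (e.symm i)) (by
      rw [← hα]
      exact Fintype.sum_equiv e.symm _ _ (fun i => rfl))
    refine ⟨c, ?_⟩
    funext j
    have := congrFun hc (e j)
    simp only [Equiv.symm_apply_apply, Finset.sum_apply, Pi.smul_apply] at this ⊢
    exact this

/-- An element outside a prime has a monomial in the generators outside the prime. -/
theorem exists_monomial_notMem (N : Fam k K ι) {σ : Type} [Fintype σ] {D : σ → ι} {X : σ → K}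
    (hX : ∀ i, X i ∈ N.s (D i))
    (hgen : N.alg = Algebra.adjoin k
      (Set.range fun i => (single (D i) (X i) : AddMonoidAlgebra K ι)))
    (Q : Ideal N.alg) [hQ : Q.IsPrime] {c : ι} (hc : c ∈ N.degs Q) :
    ∃ α : σ → ℕ, ∑ i, α i • D i = c ∧ ∀ i, α i ≠ 0 → N.el (hX i) ∉ Q := by
  classical
  by_contra hcon
  push Not at hcon
  obtain ⟨y, hy, hyQ⟩ := hc
  have h1 : (single c y : AddMonoidAlgebra K ι) ∈ Algebra.adjoin k
      (Set.range fun i => (single (D i) (X i) : AddMonoidAlgebra K ι)) := by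
    rw [← hgen]; exact Fam.single_mem_alg.2 hy
  have h2 := Fam.mem_span_monomials D X h1
  have hprod : ∀ (α : σ → ℕ) (s : Finset σ), ∏ i ∈ s, X i ^ α i ∈ N.s (∑ i ∈ s, α i • D i) := by
    intro α s
    induction s using Finset.induction_on with
    | empty => simpa using N.one'
    | insert a s ha ih =>
      rw [Finset.prod_insert ha, Finset.sum_insert ha]
      exact N.mul' (N.pow' (hX a) _) ih
  have hmem : ∀ (α : σ → ℕ) (i : σ), α i ≠ 0 → N.el (hX i) ∈ Q →
      N.el (hprod α Finset.univ) ∈ Q := by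
    intro α i hi hiQ
    have h3 := N.mul' (N.pow' (hX i) (α i)) (hprod α (Finset.univ.erase i))
    have h4 : N.el (hprod α Finset.univ) = N.el h3 :=
      Fam.el_eq N _ _ (Finset.add_sum_erase _ _ (Finset.mem_univ i)).symm
        (Finset.mul_prod_erase _ _ (Finset.mem_univ i)).symm
    rw [h4, ← Fam.el_mul N (N.pow' (hX i) (α i)) (hprod α (Finset.univ.erase i)),
      ← Fam.el_pow N (hX i) (α i)]
    exact Ideal.mul_mem_right _ _ (Ideal.pow_mem_of_mem _ hiQ _ (Nat.pos_of_ne_zero hi))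
  have h5 : ∀ z ∈ Submodule.span k {y | ∃ α : σ → ℕ, ∑ i, α i • D i = c ∧ y = ∏ i, X i ^ α i},
      ∃ h : z ∈ N.s c, N.el h ∈ Q := by
    intro z hz
    induction hz using Submodule.span_induction with
    | mem z hz =>
      obtain ⟨α, hα, rfl⟩ := hz
      obtain ⟨i, hi, hiQ⟩ := hcon α hα
      have h6 : ∏ i, X i ^ α i ∈ N.s c := by rw [← hα]; exact hprod α Finset.univ
      refine ⟨h6, ?_⟩
      rw [Fam.el_eq N h6 (hprod α Finset.univ) hα.symm rfl]
      exact hmem α i hi hiQ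
    | zero =>
      refine ⟨Submodule.zero_mem _, ?_⟩
      have : N.el (Submodule.zero_mem (N.s c)) = 0 := Subtype.ext (by simp)
      rw [this]; exact Ideal.zero_mem _
    | add z w _ _ ihz ihw =>
      obtain ⟨hz, hz'⟩ := ihz
      obtain ⟨hw, hw'⟩ := ihw
      refine ⟨Submodule.add_mem _ hz hw, ?_⟩
      have : N.el (Submodule.add_mem _ hz hw) = N.el hz + N.el hw :=
        Subtype.ext (single_add _ _ _)
      rw [this]; exact Ideal.add_mem _ hz' hw'
    | smul t z _ ih =>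
      obtain ⟨hz, hz'⟩ := ih
      refine ⟨Submodule.smul_mem _ t hz, ?_⟩
      have : N.el (Submodule.smul_mem _ t hz) = t • N.el hz :=
        Subtype.ext (by simp [smul_single])
      rw [this]
      exact Submodule.smul_of_tower_mem Q t hz'
  obtain ⟨h7, h8⟩ := h5 y h2
  exact hyQ h8

/-- A uniform choice of the multiple in `IntA`. -/
theorem exists_uniform (M : Fam k K ι) (a : ι) {r t : ℕ} {δ : Fin r → ι} {x : Fin r → K}
    (hx : ∀ i, x i ∈ M.s (δ i))
    (hgen : M.alg = Algebra.adjoin k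
      (Set.range fun i => (single (δ i) (x i) : AddMonoidAlgebra K ι)))
    (d : Fin t → ι) :
    ∃ m₁ : ℕ, ∀ (q : Ideal M.alg) [q.IsPrime], IntA M a q → ∀ i,
      ∃ w : ℕ, 0 < w ∧ w • (m₁ • a - d i) ∈ M.degs q := by
  classical
  have key : ∀ (J : Set (Fin r)) (i : Fin t), ∃ m : ℕ, ∀ (q : Ideal M.alg) [q.IsPrime],
      IntA M a q → {j | M.el (hx j) ∉ q} = J → ∃ w : ℕ, 0 < w ∧ w • (m • a - d i) ∈ M.degs q := by
    intro J i
    by_cases h : ∃ (q : Ideal M.alg) (_ : q.IsPrime), IntA M a q ∧ {j | M.el (hx j) ∉ q} = J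
    · obtain ⟨q, hq, h1, h2⟩ := h
      obtain ⟨m, hm, w, hw, h3⟩ := h1 (-d i)
      refine ⟨m, fun q' hq' h4 h5 => ⟨w, hw, ?_⟩⟩
      rw [sub_eq_add_neg]
      have h6 : M.degs q' = M.degs q := by
        rw [degs_eq_closure M hx hgen q', degs_eq_closure M hx hgen q]
        congr 1
        ext c
        constructor
        · rintro ⟨j, hj, hj'⟩
          refine ⟨j, hj, ?_⟩
          have : j ∈ J := by rw [← h5]; exact hj'
          rw [← h2] at this
          exact this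
        · rintro ⟨j, hj, hj'⟩
          refine ⟨j, hj, ?_⟩
          have : j ∈ J := by rw [← h2]; exact hj'
          rw [← h5] at this
          exact this
      rw [h6]
      exact h3
    · refine ⟨0, fun q hq h1 h2 => absurd ⟨q, hq, h1, h2⟩ h⟩
  choose m hm using key
  refine ⟨∑ J : Set (Fin r), ∑ i, m J i, fun q hq hint i => ?_⟩
  obtain ⟨w, hw, h1⟩ := hm {j | M.el (hx j) ∉ q} i q hint rfl
  obtain ⟨m2, hm2, w2, hw2, h2⟩ := hint 0
  have h3 : m {j | M.el (hx j) ∉ q} i ≤ ∑ J : Set (Fin r), ∑ i, m J i := by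
    refine le_trans (Finset.single_le_sum (f := fun i => m {j | M.el (hx j) ∉ q} i)
      (fun _ _ => Nat.zero_le _) (Finset.mem_univ i)) ?_
    exact Finset.single_le_sum (f := fun J => ∑ i, m J i)
      (fun _ _ => Nat.zero_le _) (Finset.mem_univ _)
  obtain ⟨e, he⟩ := Nat.exists_eq_add_of_le h3
  refine ⟨w2 * m2 * w, by positivity, ?_⟩
  rw [he]
  have h4 : (w2 * m2 * w) • ((m {j | M.el (hx j) ∉ q} i + e) • a - d i) =
      (w2 * m2) • (w • (m {j | M.el (hx j) ∉ q} i • a - d i)) +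
      (w * e) • (w2 • (m2 • a + 0)) := by
    module
  rw [h4]
  exact add_mem (nsmul_mem h1 _) (nsmul_mem h2 _)

/-- Blueprint 1.1 and 1.2 for a family `M'` over `ι × ℤ` generated by generators of `M`, the
section `1` in degree `(0, -1)` and finitely many elements `f i` in degree `(d i, b i)`. -/
theorem semi_int_rees [Module.Free ℤ ι] [Module.Finite ℤ ι] (M : Fam k K ι) (a : ι)
    {r t : ℕ} {δ : Fin r → ι} {x : Fin r → K} (hx : ∀ i, x i ∈ M.s (δ i))
    (hgen : M.alg = Algebra.adjoin k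
      (Set.range fun i => (single (δ i) (x i) : AddMonoidAlgebra K ι)))
    {d : Fin t → ι} {b : Fin t → ℕ} {f : Fin t → K} (hb : ∀ i, 1 ≤ b i)
    (hf : ∀ i, f i ∈ M.s (d i)) (M' : Fam k K (ι × ℤ))
    (hgen' : M'.alg = Algebra.adjoin k
      ((Set.range fun i => (single (δ i, 0) (x i) : AddMonoidAlgebra K (ι × ℤ))) ∪
        {single (0, -1) 1} ∪
        (Set.range fun i => (single (d i, (b i : ℤ)) (f i) : AddMonoidAlgebra K (ι × ℤ))))) :
    ∃ ρ₀ : ℕ, ∀ ρ : ℕ, ρ₀ ≤ ρ → ∀ (q' : Ideal M'.alg) [q'.IsPrime] (q : Ideal M.alg) [q.IsPrime],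
      Over M M' (inlZ ι) q q' → Semi M' (ρ • a, 1) q' →
      Semi M a q ∧ (∃ (i : Fin t) (h : f i ∈ M'.s (d i, (b i : ℤ))), M'.el h ∉ q') ∧
      (IntA M a q → IntA M' (ρ • a, 1) q') := by
  classical
  -- generators of `M'` indexed by a finite type
  let D : (Fin r ⊕ Fin t) ⊕ Unit → ι × ℤ :=
    Sum.elim (Sum.elim (fun i => (δ i, 0)) (fun i => (d i, (b i : ℤ)))) (fun _ => (0, -1))
  let X : (Fin r ⊕ Fin t) ⊕ Unit → K := Sum.elim (Sum.elim x f) (fun _ => 1)
  have hrange : (Set.range fun i => (single (D i) (X i) : AddMonoidAlgebra K (ι × ℤ))) =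
      ((Set.range fun i => (single (δ i, 0) (x i) : AddMonoidAlgebra K (ι × ℤ))) ∪
        {single (0, -1) 1} ∪
        (Set.range fun i => (single (d i, (b i : ℤ)) (f i) : AddMonoidAlgebra K (ι × ℤ)))) := by
    ext F
    constructor
    · rintro ⟨(i | i) | i, rfl⟩
      · exact Or.inl (Or.inl ⟨i, rfl⟩)
      · exact Or.inr ⟨i, rfl⟩
      · exact Or.inl (Or.inr rfl)
    · rintro ((⟨i, rfl⟩ | hF) | ⟨i, rfl⟩)
      · exact ⟨Sum.inl (Sum.inl i), rfl⟩
      · exact ⟨Sum.inr (), hF.symm⟩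
      · exact ⟨Sum.inl (Sum.inr i), rfl⟩
  rw [← hrange] at hgen'
  have hX : ∀ i, X i ∈ M'.s (D i) := by
    intro i
    rw [← Fam.single_mem_alg, hgen']
    exact Algebra.subset_adjoin ⟨i, rfl⟩
  -- the pieces of `M'` are contained in the pieces of `M`
  have hle' : ∀ c : ι × ℤ, M'.s c ≤ M.s c.1 := by
    intro c y hy
    have h1 : M'.alg ≤ (M.comap (AddMonoidHom.fst ι ℤ)).alg := by
      rw [hgen']
      refine Algebra.adjoin_le ?_
      rintro _ ⟨(i | i) | i, rfl⟩
      · exact Fam.single_mem_alg.2 (hx i)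
      · exact Fam.single_mem_alg.2 (hf i)
      · exact Fam.single_mem_alg.2 M.one'
    exact (Fam.single_mem_alg (M := M.comap (AddMonoidHom.fst ι ℤ))).1
      (h1 (Fam.single_mem_alg.2 hy))
  have hle : ∀ c : ι, M.s c ≤ M'.s (c, 0) := by
    intro c y hy
    have h1 : M.alg ≤ (M'.comap (inlZ ι)).alg := by
      rw [hgen]
      refine Algebra.adjoin_le ?_
      rintro _ ⟨i, rfl⟩
      exact Fam.single_mem_alg.2 (hX (Sum.inl (Sum.inl i)))
    exact (Fam.single_mem_alg (M := M'.comap (inlZ ι))).1 (h1 (Fam.single_mem_alg.2 hy))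
  -- the solutions
  obtain ⟨s, γ, hγ, hγ'⟩ := exists_solution_generators'
    (Sum.elim (Sum.elim δ d) (fun _ => -a) : (Fin r ⊕ Fin t) ⊕ Unit → ι)
  obtain ⟨m₁, hm₁⟩ := exists_uniform M a hx hgen d
  refine ⟨1 + ∑ i, γ i (Sum.inr ()) + m₁, fun ρ hρ q' hq' q hq hover hsemi => ?_⟩
  have hdegs : ∀ c : ι, (c, (0 : ℤ)) ∈ M'.degs q' → c ∈ M.degs q := by
    rintro c ⟨y, hy, hyq⟩
    have hy2 : y ∈ M.s c := hle' _ hy
    exact ⟨y, hy2, fun h => hyq ((hover c y hy2 hy).1 h)⟩
  have hdegs' : ∀ c : ι, c ∈ M.degs q → (c, (0 : ℤ)) ∈ M'.degs q' := by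
    rintro c ⟨y, hy, hyq⟩
    exact ⟨y, hle _ hy, fun h => hyq ((hover c y hy (hle _ hy)).2 h)⟩
  obtain ⟨n, hn, hna⟩ := hsemi
  obtain ⟨α, hα, hα'⟩ := exists_monomial_notMem M' hX hgen' q' hna
  have hα1 : ∑ i, α (Sum.inl (Sum.inl i)) • δ i + ∑ i, α (Sum.inl (Sum.inr i)) • d i =
      n • ρ • a := by
    have := congrArg Prod.fst hα
    rw [Fintype.sum_sum_type, Fintype.sum_sum_type] at this
    simpa [D, Prod.fst_sum] using this
  have hα2 : ∑ i, (α (Sum.inl (Sum.inr i)) : ℤ) * (b i : ℤ) = n + α (Sum.inr ()) := by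
    have := congrArg Prod.snd hα
    rw [Fintype.sum_sum_type, Fintype.sum_sum_type] at this
    simp [D, Prod.snd_sum] at this
    linarith
  have hα3 : ∑ i, α (Sum.inl (Sum.inr i)) * b i = n + α (Sum.inr ()) := by exact_mod_cast hα2
  -- second claim
  obtain ⟨i₀, hi₀⟩ : ∃ i, α (Sum.inl (Sum.inr i)) ≠ 0 := by
    by_contra hcon
    push Not at hcon
    simp only [hcon, zero_mul, Finset.sum_const_zero] at hα3
    omega
  have hfi₀ := hα' _ hi₀
  -- semistability
  have hS : Semi M a q := by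
    by_cases hl : α (Sum.inr ()) = 0
    · rw [hl, add_zero] at hα3
      let β : (Fin r ⊕ Fin t) ⊕ Unit → ℕ := Sum.elim (fun i => α (Sum.inl i)) (fun _ => n * ρ)
      obtain ⟨c, hc⟩ := hγ' β (by
        rw [Fintype.sum_sum_type, Fintype.sum_sum_type]
        simp only [β, Sum.elim_inl, Sum.elim_inr, Finset.univ_unique, Finset.sum_singleton]
        rw [hα1]
        module)
      have hcapp : ∀ j, β j = ∑ i, c i * γ i j := by
        intro j
        have := congrFun hc j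
        simpa [Finset.sum_apply] using this
      -- a generator without `ν`-part and with positive last component
      obtain ⟨i, hci, hmi, hνi⟩ : ∃ i, c i ≠ 0 ∧ γ i (Sum.inr ()) ≠ 0 ∧
          ∀ j, γ i (Sum.inl (Sum.inr j)) = 0 := by
        by_contra hcon
        push Not at hcon
        have h1 : n * ρ = ∑ i, c i * γ i (Sum.inr ()) := hcapp (Sum.inr ())
        have h2 : ∀ i, c i * γ i (Sum.inr ()) ≤
            (∑ j, c i * γ i (Sum.inl (Sum.inr j))) * ∑ i, γ i (Sum.inr ()) := by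
          intro i
          by_cases hc0 : c i = 0
          · rw [hc0, zero_mul]; exact Nat.zero_le _
          by_cases hg0 : γ i (Sum.inr ()) = 0
          · rw [hg0, mul_zero]; exact Nat.zero_le _
          obtain ⟨j, hj⟩ := hcon i hc0 hg0
          refine Nat.mul_le_mul ?_ (Finset.single_le_sum (f := fun i => γ i (Sum.inr ()))
            (fun _ _ => Nat.zero_le _) (Finset.mem_univ i))
          refine le_trans ?_ (Finset.single_le_sum (f := fun j => c i * γ i (Sum.inl (Sum.inr j)))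
            (fun _ _ => Nat.zero_le _) (Finset.mem_univ j))
          exact Nat.le_mul_of_pos_right _ (Nat.pos_of_ne_zero hj)
        have h3 : ∑ i, ∑ j, c i * γ i (Sum.inl (Sum.inr j)) ≤ n := by
          rw [Finset.sum_comm, ← hα3]
          refine Finset.sum_le_sum fun j _ => ?_
          have := hcapp (Sum.inl (Sum.inr j))
          rw [← this]
          exact Nat.le_mul_of_pos_right _ (hb j)
        have h4 : n * ρ ≤ n * ∑ i, γ i (Sum.inr ()) := by
          rw [h1]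
          refine (Finset.sum_le_sum fun i _ => h2 i).trans ?_
          rw [← Finset.sum_mul]
          exact Nat.mul_le_mul_right _ h3
        have h5 : ρ ≤ ∑ i, γ i (Sum.inr ()) := Nat.le_of_mul_le_mul_left h4 hn
        omega
      refine ⟨γ i (Sum.inr ()), Nat.pos_of_ne_zero hmi, ?_⟩
      have h1 := hγ i
      rw [Fintype.sum_sum_type, Fintype.sum_sum_type] at h1
      simp only [Sum.elim_inl, Sum.elim_inr, hνi, zero_smul, Finset.sum_const_zero, add_zero,
        Finset.univ_unique, Finset.sum_singleton, smul_neg] at h1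
      have h2 : γ i (Sum.inr ()) • a = ∑ j, γ i (Sum.inl (Sum.inl j)) • δ j := by
        rw [← sub_eq_add_neg, sub_eq_zero] at h1
        exact h1.symm
      rw [h2]
      refine sum_mem fun j _ => ?_
      by_cases hj : γ i (Sum.inl (Sum.inl j)) = 0
      · rw [hj, zero_smul]; exact zero_mem _
      · refine nsmul_mem ?_ _
        apply hdegs
        refine ⟨x j, hX (Sum.inl (Sum.inl j)), hα' (Sum.inl (Sum.inl j)) ?_⟩
        have h3 : β (Sum.inl (Sum.inl j)) ≠ 0 := by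
          rw [hcapp]
          have h4 : c i * γ i (Sum.inl (Sum.inl j)) ≤ ∑ i, c i * γ i (Sum.inl (Sum.inl j)) :=
            Finset.single_le_sum (f := fun i => c i * γ i (Sum.inl (Sum.inl j)))
              (fun _ _ => Nat.zero_le _) (Finset.mem_univ i)
          have h5 : 0 < c i * γ i (Sum.inl (Sum.inl j)) :=
            Nat.mul_pos (Nat.pos_of_ne_zero hci) (Nat.pos_of_ne_zero hj)
          omega
        exact h3
    · have h1 : ((0 : ι), (-1 : ℤ)) ∈ M'.degs q' := ⟨1, hX (Sum.inr ()), hα' _ hl⟩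
      have h2 := add_mem hna (nsmul_mem h1 n)
      refine ⟨n * ρ, Nat.mul_pos hn (by omega), hdegs _ ?_⟩
      convert h2 using 1
      rw [Prod.ext_iff]
      constructor
      · simp [mul_nsmul']
      · simp
  refine ⟨hS, ⟨i₀, hX (Sum.inl (Sum.inr i₀)), hfi₀⟩, fun hint => ?_⟩
  -- `IntA`
  rintro ⟨e, N⟩
  obtain ⟨n₀, hn₀, hn₀a⟩ := hS
  obtain ⟨w₁, hw₁, h₁⟩ := hm₁ q hint i₀
  obtain ⟨m₂, hm₂, w₂, hw₂, h₂⟩ := hint ((b i₀ : ℤ) • e - N • d i₀)
  have hbi := hb i₀
  have hD : (d i₀, (b i₀ : ℤ)) ∈ M'.degs q' := ⟨f i₀, hX (Sum.inl (Sum.inr i₀)), hfi₀⟩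
  let m : ℕ := m₂ + N.natAbs
  have hm : m₂ ≤ m := Nat.le_add_right _ _
  have hmN : 0 ≤ (m : ℤ) + N := by
    change 0 ≤ ((m₂ + N.natAbs : ℕ) : ℤ) + N
    omega
  obtain ⟨A, hA⟩ : ∃ A : ℕ, (A : ℤ) = m + N := ⟨((m : ℤ) + N).toNat, Int.toNat_of_nonneg hmN⟩
  have hρ1 : m₁ + 1 ≤ ρ := by omega
  obtain ⟨B, hB⟩ : ∃ B : ℕ, m * (b i₀ * ρ) = m * m₁ + m₂ + B := by
    refine Nat.exists_eq_add_of_le ?_
    calc m * m₁ + m₂ ≤ m * m₁ + m := by omega
      _ = m * (m₁ + 1) := by ring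
      _ ≤ m * (b i₀ * ρ) := Nat.mul_le_mul_left _ (hρ1.trans (Nat.le_mul_of_pos_left _ hbi))
  refine ⟨m, by omega, b i₀ * w₁ * w₂ * n₀, by positivity, ?_⟩
  have h3 := nsmul_mem hD (w₁ * w₂ * n₀ * A)
  have h4 := nsmul_mem (hdegs' _ hn₀a) (w₁ * w₂ * B)
  have h5 := nsmul_mem (hdegs' _ h₁) (w₂ * n₀ * m)
  have h6 := nsmul_mem (hdegs' _ h₂) (w₁ * n₀)
  have h7 := add_mem (add_mem (add_mem h3 h4) h5) h6
  convert h7 using 1
  have hB' : (m : ℤ) * ((b i₀ : ℤ) * ρ) = m * m₁ + m₂ + B := by exact_mod_cast hB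
  rw [Prod.ext_iff]
  constructor
  · simp only [Prod.smul_fst, Prod.fst_add]
    simp only [← natCast_zsmul]
    push_cast
    have e1 : (B : ℤ) = (m : ℤ) * ((b i₀ : ℤ) * ρ) - m * m₁ - m₂ := by linarith
    rw [e1, hA]
    module
  · simp only [Prod.smul_snd, Prod.snd_add, smul_zero, add_zero]
    simp only [nsmul_eq_mul]
    push_cast
    rw [hA]
    ring

end Pool.Agent.MP_b525bf_ag_W
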