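import Pool.Agent.Lib.MP_b525bf_ag.StepKey
import Pool.Agent.Lib.MP_b525bf_ag_helper30.FinalC

/-!
# Theorem W: definitions

Blueprint: team-store `b525bf_W_blueprint.md`.
-/

set_option autoImplicit false

namespace Pool.Agent.MP_b525bf_ag_W

open Pool.Agent.MP_b525bf_ag AddMonoidAlgebra

section Families

variable {k K ι ι' : Type} [Field k] [Field K] [Algebra k K] [AddCommGroup ι] [AddCommGroup ι']

/-- The prime `q` is semistable for the ample degree `a`. -/
def Semi (M : Fam k K ι) (a : ι) (q : Ideal M.alg) [q.IsPrime] : Prop :=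
  ∃ n : ℕ, 0 < n ∧ n • a ∈ M.degs q

/-- The ample degree `a` is in the interior of the cone of degrees of elements outside `q`. -/
def IntA (M : Fam k K ι) (a : ι) (q : Ideal M.alg) [q.IsPrime] : Prop :=
  ∀ d : ι, ∃ m : ℕ, 0 < m ∧ ∃ w : ℕ, 0 < w ∧ w • (m • a + d) ∈ M.degs q

/-- The homogeneous localisation of `M` at the prime `q` (blueprint 0). -/
def atP (M : Fam k K ι) (q : Ideal M.alg) [hq : q.IsPrime] : Fam k K ι where
  s d :=
    { carrier := {y | ∃ (c : ι) (f : K) (hf : f ∈ M.s c), M.el hf ∉ q ∧ f * y ∈ M.s (c + d)}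
      add_mem' := by
        rintro y z ⟨c, f, hf, hfq, hy⟩ ⟨c', f', hf', hfq', hz⟩
        refine ⟨c + c', f * f', M.mul' hf hf', ?_, ?_⟩
        · rw [← M.el_mul hf hf']; exact hq.mul_notMem hfq hfq'
        · have h1 := M.mul' hf' hy
          have h2 := M.mul' hf hz
          have e1 : c' + (c + d) = c + c' + d := by abel
          have e2 : c + (c' + d) = c + c' + d := by abel
          rw [e1] at h1
          rw [e2] at h2
          have := Submodule.add_mem _ h1 h2
          convert this using 1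
          ring
      zero_mem' := ⟨0, 1, M.one', by
        rw [M.el_one]; exact (Ideal.ne_top_iff_one q).1 hq.ne_top, by simp⟩
      smul_mem' := by
        rintro r y ⟨c, f, hf, hfq, hy⟩
        refine ⟨c, f, hf, hfq, ?_⟩
        rw [mul_smul_comm]
        exact Submodule.smul_mem _ _ hy }
  one' := ⟨0, 1, M.one', by
    rw [M.el_one]; exact (Ideal.ne_top_iff_one q).1 hq.ne_top, by simpa using M.one'⟩
  mul' := by
    rintro b c y z ⟨d, f, hf, hfq, hy⟩ ⟨d', f', hf', hfq', hz⟩
    refine ⟨d + d', f * f', M.mul' hf hf', ?_, ?_⟩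
    · rw [← M.el_mul hf hf']; exact hq.mul_notMem hfq hfq'
    · have := M.mul' hy hz
      have e1 : d + b + (d' + c) = d + d' + (b + c) := by abel
      rw [e1] at this
      convert this using 1
      ring

/-- `y` is a unit of degree `d` of the family. -/
def IsU (M : Fam k K ι) (d : ι) (y : K) : Prop := y ≠ 0 ∧ y ∈ M.s d ∧ y⁻¹ ∈ M.s (-d)

/-- The prime `q'` of `M'` lies over the prime `q` of `M`, where the pieces of `M` are contained in
pieces of `M'` by `j`. -/
def Over (M : Fam k K ι) (M' : Fam k K ι') (j : ι →+ ι') (q : Ideal M.alg) (q' : Ideal M'.alg) :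
    Prop :=
  ∀ (d : ι) (x : K) (hx : x ∈ M.s d) (hx' : x ∈ M'.s (j d)), M.el hx ∈ q ↔ M'.el hx' ∈ q'

/-- The input of the destackification theorem (blueprint 7). -/
structure GoodM (M : Fam k K ι) (a : ι) : Prop where
  fg : M.alg.FG
  smooth : ∀ (n : ℕ), 0 < n → ∀ (x : K) (hx : x ∈ M.s (n • a)), x ≠ 0 →
    Algebra.FormallySmooth k (M.loc hx).alg
  idx : ∃ w : ℕ, 0 < w ∧ ∀ (q : Ideal M.alg) [q.IsPrime], Semi M a q → ∀ d : ι, w • d ∈ M.grp q
  int : ∀ (q : Ideal M.alg) [q.IsPrime], Semi M a q → IntA M a q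
  neg : ∀ n : ℕ, (1 : K) ∈ M.s (-(n • a))
  nontriv : ∃ n : ℕ, 0 < n ∧ ∃ x ∈ M.s (n • a), x ≠ 0
  gen : ∀ d : ι, ∃ c : ι, (∃ x ∈ M.s c, x ≠ 0) ∧ ∃ x ∈ M.s (c + d), x ≠ 0

end Families

section Linear

variable (k U K : Type) [Field k] [AddCommGroup U] [Module k U] [Field K] [Algebra k K]

/-- `K` is the field of fractions of the symmetric algebra of the space `U` of linear forms. -/
structure Lin where
  lin : U →ₗ[k] K
  indep : ∀ {κ : Type} (b : Module.Basis κ k U), AlgebraicIndependent k fun i => lin (b i)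
  frac : ∀ z : K, ∃ a ∈ Algebra.adjoin k (Set.range lin), ∃ b ∈ Algebra.adjoin k (Set.range lin),
    b ≠ 0 ∧ z * b = a

variable {k U K}

/-- The polynomial ring. -/
def Lin.B (L : Lin k U K) : Subalgebra k K := Algebra.adjoin k (Set.range L.lin)

/-- A decreasing sequence of subspaces from `U` to `0`. -/
structure IsFlag (v : ℕ → Submodule k U) : Prop where
  zero : v 0 = ⊤
  anti : Antitone v
  fin : ∃ m, v m = ⊥

/-- `Fil v m`: the polynomials of value at least `m` for the valuation of the flag `v`. -/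
def Lin.Fil (L : Lin k U K) (v : ℕ → Submodule k U) (m : ℤ) : Submodule k K :=
  Submodule.span k {y | ∃ l : List (ℕ × U), (∀ x ∈ l, x.2 ∈ v x.1) ∧
    m ≤ ((l.map Prod.fst).sum : ℕ) ∧ y = (l.map fun x => L.lin x.2).prod}

open Classical in
/-- The level of a nonzero vector in a flag. -/
noncomputable def lev (v : ℕ → Submodule k U) (z : U) : ℕ := sSup {m | z ∈ v m}

/-- The subspace `W` is spanned by the elements of `β` which it contains. -/
def Adapted (β : Set U) (W : Submodule k U) : Prop := W ≤ Submodule.span k (β ∩ W)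

/-- `β` is a basis of `U`. -/
def IsBasis (k : Type) {U : Type} [Field k] [AddCommGroup U] [Module k U] (β : Set U) : Prop :=
  LinearIndependent k (fun x : β => (x : U)) ∧ ⊤ ≤ Submodule.span k β

/-- The flags `fl E`, `E ∈ S`, have a common adapted basis. -/
def AdaptedTo {Ix : Type} (fl : Ix → ℕ → Submodule k U) (S : Set Ix) : Prop :=
  ∃ β : Set U, IsBasis k β ∧ ∀ E ∈ S, ∀ m, Adapted β (fl E m)

end Linear

section Chart

variable {k U K ι Ix : Type} [Field k] [AddCommGroup U] [Module k U] [Field K] [Algebra k K]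
  [AddCommGroup ι]

/-- The elements `e E` are dual to the homomorphisms `l E`. -/
structure Dual (l : Ix → ι →+ ℤ) (e : Ix → ι) (S : Set Ix) : Prop where
  self : ∀ E ∈ S, l E (e E) = 1
  ne : ∀ E ∈ S, ∀ E' ∈ S, E ≠ E' → l E (e E') = 0

/-- The submodule version of the pieces of `C_S`. -/
def CSs (L : Lin k U K) (fl : Ix → ℕ → Submodule k U) (l : Ix → ι →+ ℤ) (S : Set Ix) (d : ι) :
    Submodule k K :=
  Subalgebra.toSubmodule L.B ⊓ ⨅ E ∈ S, L.Fil (fl E) (l E d)

/-- The pieces of the filtration `F_O`. -/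
def FOs (L : Lin k U K) (fl : Ix → ℕ → Submodule k U) (M : Fam k K ι) (O : Set Ix) (lam : ι →+ ℤ)
    (b : ℕ) (d : ι) : Submodule k K :=
  M.s d ⊓ ⨅ E ∈ O, L.Fil (fl E) (b + lam d)

/-- The generators of the Rees family (blueprint 1). -/
def rgens (L : Lin k U K) (fl : Ix → ℕ → Submodule k U) (M : Fam k K ι) (O : Set Ix)
    (lam : ι →+ ℤ) (bmax : ℕ) : Set (AddMonoidAlgebra K (ι × ℤ)) :=
  {F | ∃ (d : ι), ∃ x ∈ M.s d, F = single (d, 0) x} ∪ {single (0, -1) 1} ∪
    {F | ∃ (d : ι) (b : ℕ), 1 ≤ b ∧ b ≤ bmax ∧ ∃ y ∈ FOs L fl M O lam b d,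
      F = single (d, (b : ℤ)) y}

/-- The ideal `F_E(1)` is contained in the prime `q`. -/
def Cen (L : Lin k U K) (fl : Ix → ℕ → Submodule k U) (M : Fam k K ι) (lam : ι →+ ℤ)
    (q : Ideal M.alg) (E : Ix) : Prop :=
  ∀ (d : ι) (y : K) (hy : y ∈ M.s d), y ∈ L.Fil (fl E) (1 + lam d) → M.el hy ∈ q

/-- The Rees family. -/
noncomputable def rees (L : Lin k U K) (fl : Ix → ℕ → Submodule k U) (M : Fam k K ι) (O : Set Ix)
    (lam : ι →+ ℤ) (bmax : ℕ) : Fam k K (ι × ℤ) :=
  Fam.ofSub (Algebra.adjoin k (rgens L fl M O lam bmax))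

end Chart

section Group

variable {k U K ι G : Type} [Field k] [AddCommGroup U] [Module k U] [Field K] [Algebra k K]
  [AddCommGroup ι] [Group G]

/-- The inertia group of the prime `q`. -/
def inertia [Finite G] (φ : G →* (K ≃ₐ[k] K)) (M : Fam k K ι) (q : Ideal M.alg) :
    Subgroup G where
  carrier := {g | ∀ (d : ι) (x : K), x ∈ M.s d → ∃ h : φ g x - x ∈ M.s d, M.el h ∈ q}
  mul_mem' := by
    intro g g' hg hg' d x hx
    obtain ⟨h1, h1'⟩ := hg' d x hx
    obtain ⟨h2, h2'⟩ := hg d _ h1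
    obtain ⟨h3, h3'⟩ := hg d x hx
    have e : φ (g * g') x - x = (φ g (φ g' x - x) - (φ g' x - x)) + (φ g' x - x) + (φ g x - x) := by
      rw [map_mul, AlgEquiv.mul_apply, map_sub]; ring
    have h4 := Submodule.add_mem _ (Submodule.add_mem _ h2 h1) h3
    rw [← e] at h4
    refine ⟨h4, ?_⟩
    have e2 : M.el h4 = M.el h2 + M.el h1 + M.el h3 := by
      refine Subtype.ext ?_
      change single d _ = single d _ + single d _ + single d _
      rw [← single_add, ← single_add, e]
    rw [e2]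
    exact Ideal.add_mem _ (Ideal.add_mem _ h2' h1') h3'
  one_mem' := by
    intro d x hx
    have e : φ 1 x - x = 0 := by rw [map_one, AlgEquiv.one_apply, sub_self]
    refine ⟨by rw [e]; exact Submodule.zero_mem _, ?_⟩
    have : M.el (show φ 1 x - x ∈ M.s d by rw [e]; exact Submodule.zero_mem _) = 0 :=
      Subtype.ext (by simp)
    rw [this]; exact Ideal.zero_mem _
  inv_mem' := by
    intro g hg
    have key : ∀ n : ℕ, ∀ (d : ι) (x : K), x ∈ M.s d →
        ∃ h : φ (g ^ n) x - x ∈ M.s d, M.el h ∈ q := by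
      intro n
      induction n with
      | zero =>
        intro d x hx
        have e : φ (g ^ 0) x - x = 0 := by rw [pow_zero, map_one, AlgEquiv.one_apply, sub_self]
        refine ⟨by rw [e]; exact Submodule.zero_mem _, ?_⟩
        have : M.el (show φ (g ^ 0) x - x ∈ M.s d by rw [e]; exact Submodule.zero_mem _) = 0 :=
          Subtype.ext (by simp)
        rw [this]; exact Ideal.zero_mem _
      | succ n ih =>
        intro d x hx
        obtain ⟨h1, h1'⟩ := ih d x hx
        obtain ⟨h2, h2'⟩ := hg d _ h1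
        obtain ⟨h3, h3'⟩ := hg d x hx
        have e : φ (g ^ (n + 1)) x - x =
            (φ g (φ (g ^ n) x - x) - (φ (g ^ n) x - x)) + (φ (g ^ n) x - x) + (φ g x - x) := by
          rw [pow_succ', map_mul, AlgEquiv.mul_apply, map_sub]; ring
        have h4 := Submodule.add_mem _ (Submodule.add_mem _ h2 h1) h3
        rw [← e] at h4
        refine ⟨h4, ?_⟩
        have e2 : M.el h4 = M.el h2 + M.el h1 + M.el h3 := by
          refine Subtype.ext ?_
          change single d _ = single d _ + single d _ + single d _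
          rw [← single_add, ← single_add, e]
        rw [e2]
        exact Ideal.add_mem _ (Ideal.add_mem _ h2' h1') h3'
    have h1 : g⁻¹ = g ^ (orderOf g - 1) := by
      have h2 : 0 < orderOf g := orderOf_pos g
      rw [inv_eq_iff_mul_eq_one, ← pow_succ', Nat.sub_add_cancel h2, pow_orderOf_eq_one]
    rw [h1]
    exact key _

/-- Indices of the flags used: `t N` for the flag `U ≥ A_N ≥ 0`, `w P N` for the flag
`U ≥ A_N ≥ D_P A_N ≥ ...`. -/
inductive Idx (G : Type) [Group G]
  | t (N : Subgroup G)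
  | w (P N : Subgroup G)

/-- Conjugation of subgroups. -/
def cj (g : G) (N : Subgroup G) : Subgroup G := N.map (MulAut.conj g).toMonoidHom

/-- Conjugation of indices. -/
def Idx.cj (g : G) : Idx G → Idx G
  | .t N => .t (MP_b525bf_ag_W.cj g N)
  | .w P N => .w (MP_b525bf_ag_W.cj g P) (MP_b525bf_ag_W.cj g N)

/-- The group of the index. -/
def Idx.grp : Idx G → Subgroup G
  | .t N => N
  | .w _ N => N

variable (ρ : Representation k G U)

/-- `A_N`. -/
def AN (N : Subgroup G) : Submodule k U := ⨆ h ∈ N, LinearMap.range (ρ h - 1)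

/-- `D_P X`. -/
def DP (P : Subgroup G) (X : Submodule k U) : Submodule k U := ⨆ h ∈ P, X.map (ρ h - 1)

/-- The flags. -/
def flg : Idx G → ℕ → Submodule k U
  | _, 0 => ⊤
  | .t N, 1 => AN ρ N
  | .t _, _ + 2 => ⊥
  | .w P N, m + 1 => (DP ρ P)^[m] (AN ρ N)

/-- `p`-perfect subgroups: generated by elements of order prime to `p`. -/
def PPerf (p : ℕ) (N : Subgroup G) : Prop := N ≤ Subgroup.closure {x | x ∈ N ∧ ¬ p ∣ orderOf x}

/-- `O^p(H)`. -/
def Op (p : ℕ) (H : Subgroup G) : Subgroup G := Subgroup.closure {x | x ∈ H ∧ ¬ p ∣ orderOf x}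

end Group

end Pool.Agent.MP_b525bf_ag_W
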