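import Pool.Agent.Lib.MP_b525bf_ag_W.Grp_aux2_h41
import Pool.Agent.Lib.MP_b525bf_ag_W.Flag_aux_h41

/-!
# W6 (auxiliary 3): the lift lemma 5.1 and adapted bases 5.4 for the flags of a stage
-/

set_option autoImplicit false

namespace Pool.Agent.MP_b525bf_ag_W.H41

open Module Pool.Agent.MP_b525bf_ag_W

/-- The indices which occur. -/
def IxOK {G : Type} [Group G] (p : ℕ) : Idx G → Prop
  | .t N => PPerf p N
  | .w P N => Nat.card P = p ∧ P ≤ N ∧ (N = P ∨ PPerf p N)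

section Lift

variable {k U G : Type} [Field k] [AddCommGroup U] [Module k U] [Group G]
  {ρ : Representation k G U} {p : ℕ}

theorem not_pPerf_of_card [hp : Fact p.Prime] [Finite G] {P : Subgroup G}
    (hP : Nat.card P = p) : ¬ PPerf p P := by
  intro h
  have h1 : P ≤ ⊥ := by
    refine h.trans ?_
    rw [Subgroup.closure_le]
    rintro x ⟨hx, ho⟩
    by_contra hx1
    exact ho (by rw [orderOf_eq_of_card hP hx (by simpa using hx1)])
  rw [le_bot_iff] at h1
  subst h1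
  rw [Subgroup.card_bot] at hP
  exact hp.out.one_lt.ne hP

theorem cj_of_cj_t {g : G} {N : Subgroup G} (h : (Idx.t N).cj g = .t N) : cj g N = N := by
  simpa [Idx.cj] using h

theorem cj_of_cj_w {g : G} {P N : Subgroup G} (h : (Idx.w P N).cj g = .w P N) :
    cj g P = P ∧ cj g N = N := by
  simpa [Idx.cj] using h

/-- wild or tame -/
theorem wild_or_tame [hp : Fact p.Prime] [Finite G] (hG : ¬ p ^ 2 ∣ Nat.card G)
    {P N : Subgroup G} (hP : Nat.card P = p) (hfix : ∀ g ∈ P, (Idx.t N).cj g = .t N) :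
    P ≤ N ∨ ¬ p ∣ Nat.card N := by
  by_cases h : p ∣ Nat.card N
  · exact Or.inl (le_of_normalizes hG hP (fun g hg => cj_of_cj_t (hfix g hg)) h)
  · exact Or.inr h

theorem dvd_card_of_le {P N : Subgroup G} [Finite G] (hP : Nat.card P = p) (h : P ≤ N) :
    p ∣ Nat.card N := by
  rw [← hP]; exact Subgroup.card_dvd_of_le h

/-- Common part of the two forms of the lift lemma. `V` is the set of the groups `N'` with
`w P N'` in play, `Y` is `U` or `A_N`. -/
theorem exists_lift_aux [hp : Fact p.Prime] [CharP k p] [Finite G]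
    (hG : ¬ p ^ 2 ∣ Nat.card G) {P : Subgroup G} (hP : Nat.card P = p) {s : G} (hs : s ∈ P)
    (hs1 : s ≠ 1) (V : Set (Subgroup G)) (hV : ∀ N' ∈ V, P ≤ N')
    (hVc : ∀ N' ∈ V, ∀ N'' ∈ V, N' ≤ N'' ∨ N'' ≤ N')
    (Tm : Set (Subgroup G)) (hTm : ∀ N1 ∈ Tm, ¬ p ∣ Nat.card N1)
    (hTn : ∀ N1 ∈ Tm, ∀ g ∈ P, cj g N1 = N1)
    (hTc : ∀ N1 ∈ Tm, ∀ N2 ∈ Tm, N1 ≤ N2 ∨ N2 ≤ N1)
    (hTV : ∀ N1 ∈ Tm, ∀ N' ∈ V, N' = P ∨ N1 ≤ N')
    (Y : Submodule k U) (hY : LinearMap.range (ρ s - 1) ≤ Y)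
    (hYV : ∀ N' ∈ V, AN ρ N' ≤ Y ∨ Y ≤ AN ρ N')
    (hYT : ∀ N1 ∈ Tm, AN ρ N1 ≤ Y)
    {z : U} (hz : z ∈ Y.map (ρ s - 1)) :
    ∃ y ∈ Y, ρ s y - y = z ∧
      (∀ N' ∈ V, ∀ m, z ∈ flg ρ (.w P N') (m + 1) → y ∈ flg ρ (.w P N') m) ∧
      (∀ N1 ∈ Tm, z ∈ AN ρ N1 → y ∈ AN ρ N1) := by
  classical
  by_cases hz0 : z = 0
  · subst hz0
    refine ⟨0, Submodule.zero_mem _, by simp, fun _ _ m _ => Submodule.zero_mem _,
      fun _ _ _ => Submodule.zero_mem _⟩
  have hzp : Subgroup.zpowers s = P := zpowers_eq_of_card hP hs hs1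
  have hfl : ∀ N' ∈ V, ∀ m, flg ρ (.w P N') m = ResW.dflag (ρ s - 1) (AN ρ N') m := by
    intro N' hN' m
    rw [← hzp]
    exact flg_w_eq (fun g hg => cj_eq_of_mem (hV N' hN' (by rwa [hzp] at hg))) m
  haveI : Fintype (Subgroup G) := Fintype.ofFinite _
  set T : Finset (Subgroup G) := V.toFinset with hT
  have hmT : ∀ N', N' ∈ T ↔ N' ∈ V := fun N' => Set.mem_toFinset
  -- the level
  have hlev : ∀ N' ∈ V, ∃ m, z ∈ flg ρ (.w P N') m ∧ ∀ m', z ∈ flg ρ (.w P N') m' → m' ≤ m := by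
    intro N' hN'
    have hF : IsFlag (flg ρ (.w P N')) := isFlag_w hP (hV N' hN')
    obtain ⟨r, hr⟩ := hF.fin
    have hb : ∀ m', z ∈ flg ρ (.w P N') m' → m' ≤ r := by
      intro m' hm'
      by_contra hcon
      have := hF.anti (le_of_lt (not_le.1 hcon)) hm'
      rw [hr, Submodule.mem_bot] at this
      exact hz0 this
    have hne : ∃ m, z ∈ flg ρ (.w P N') m := ⟨0, by rw [flg_zero]; trivial⟩
    refine ⟨Nat.findGreatest (fun m => z ∈ flg ρ (.w P N') m) r, ?_, ?_⟩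
    · exact Nat.findGreatest_spec (P := fun m => z ∈ flg ρ (.w P N') m) (Nat.zero_le r)
        (by change z ∈ flg ρ (.w P N') 0; rw [flg_zero]; trivial)
    · intro m' hm'
      exact Nat.le_findGreatest (hb m' hm') hm'
  choose! mm hmm1 hmm2 using hlev
  -- the projection
  obtain ⟨e, heD, heY, heA, hez, heT⟩ : ∃ e : U →ₗ[k] U, (∀ u, e ((ρ s - 1) u) = (ρ s - 1) (e u)) ∧
      Y.map e ≤ Y ∧ (∀ N' ∈ V, (AN ρ N').map e ≤ AN ρ N') ∧ e z = z ∧
      (∀ N1 ∈ Tm, z ∈ AN ρ N1 → LinearMap.range e ≤ AN ρ N1) := by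
    by_cases hne : ∃ N1 ∈ Tm, z ∈ AN ρ N1
    · obtain ⟨N1, hN1, hmin⟩ : ∃ N1, (N1 ∈ Tm ∧ z ∈ AN ρ N1) ∧
          ∀ N2, (N2 ∈ Tm ∧ z ∈ AN ρ N2) → N1 ≤ N2 := by
        obtain ⟨N1, h1, h2⟩ := (Set.toFinite {N1 | N1 ∈ Tm ∧ z ∈ AN ρ N1}).exists_minimal
          (by obtain ⟨N1, h1, h2⟩ := hne; exact ⟨N1, h1, h2⟩)
        refine ⟨N1, h1, fun N2 hN2 => ?_⟩
        rcases hTc N1 h1.1 N2 hN2.1 with h | h
        · exact h
        · exact h2 hN2 h
      haveI : Fintype N1 := Fintype.ofFinite _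
      have hcard : (Fintype.card N1 : k) ≠ 0 := by
        intro h0
        rw [CharP.cast_eq_zero_iff k p, ← Nat.card_eq_fintype_card] at h0
        exact hTm N1 hN1.1 h0
      have hcomm : ∀ u, ResW.eproj ρ N1 (ρ s u) = ρ s (ResW.eproj ρ N1 u) :=
        ResW.eproj_comm N1 (cj_eq_iff_normalizer.1 (hTn N1 hN1.1 s hs))
      have hmem : ∀ u, ResW.eproj ρ N1 u ∈ AN ρ N1 := by
        intro u; rw [AN_eq_aug]; exact ResW.eproj_mem N1 hcard u
      have hD : ∀ u, ResW.eproj ρ N1 ((ρ s - 1) u) = (ρ s - 1) (ResW.eproj ρ N1 u) := by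
        intro u
        simp only [LinearMap.sub_apply, Module.End.one_apply, map_sub, hcomm]
      refine ⟨ResW.eproj ρ N1, hD, ?_, ?_, ?_, ?_⟩
      · rintro _ ⟨u, _, rfl⟩
        exact hYT N1 hN1.1 (hmem u)
      · intro N' hN'
        rcases hTV N1 hN1.1 N' hN' with h | h
        · subst h
          rw [← hzp, AN_zpowers]
          rintro _ ⟨_, ⟨u, rfl⟩, rfl⟩
          exact ⟨ResW.eproj ρ N1 u, (hD u).symm⟩
        · rintro _ ⟨u, _, rfl⟩
          exact AN_mono h (hmem u)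
      · exact ResW.eproj_of_mem N1 (by rw [← AN_eq_aug]; exact hN1.2)
      · intro N2 hN2 hz2
        rintro _ ⟨u, rfl⟩
        exact AN_mono (hmin N2 ⟨hN2, hz2⟩) (hmem u)
    · refine ⟨LinearMap.id, fun _ => rfl, by rw [Submodule.map_id], fun N' _ => by
        rw [Submodule.map_id], rfl, fun N1 hN1 hz1 => absurd ⟨N1, hN1, hz1⟩ hne⟩
  obtain ⟨y, hyY, hyD, hyT, hye⟩ := ResW.lift_lemma (D := ρ s - 1) T (fun N' => AN ρ N') Y
    (fun N' hN' => range_le_AN (hV N' ((hmT N').1 hN') hs)) hY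
    (fun N' hN' N'' hN'' => by
      rcases hVc N' ((hmT N').1 hN') N'' ((hmT N'').1 hN'') with h | h
      · exact Or.inl (AN_mono h)
      · exact Or.inr (AN_mono h))
    (fun N' hN' => hYV N' ((hmT N').1 hN'))
    e heD heY (fun N' hN' => heA N' ((hmT N').1 hN')) hez hz mm
    (fun N' hN' => by
      have := hmm1 N' ((hmT N').1 hN')
      rwa [hfl N' ((hmT N').1 hN')] at this)
  refine ⟨y, hyY, by simpa using hyD, ?_, ?_⟩
  · intro N' hN' m hm
    have h1 := hmm2 N' hN' (m + 1) hm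
    have h2 := hyT N' ((hmT N').2 hN') (by omega)
    rw [hfl N' hN']
    exact ResW.dflag_antitone (range_le_AN (hV N' hN' hs)) (by omega) h2
  · intro N1 hN1 hz1
    exact heT N1 hN1 hz1 hye

/-- The hypotheses on the set `S` of a point with inertia group `P` of order `p`. -/
structure SOK (p : ℕ) (P : Subgroup G) (S : Set (Idx G)) : Prop where
  ok : ∀ E ∈ S, IxOK p E
  fix : ∀ E ∈ S, ∀ g ∈ P, E.cj g = E
  wP : ∀ P' N', Idx.w P' N' ∈ S → P' = P
  cmp : ∀ E ∈ S, ∀ E' ∈ S, PPerf p E.grp → PPerf p E'.grp → E.grp ≤ E'.grp ∨ E'.grp ≤ E.grp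

/-- **Lift lemma 5.1**, `Y = A_N`. -/
theorem exists_lift [hp : Fact p.Prime] [CharP k p] [Finite G]
    (hG : ¬ p ^ 2 ∣ Nat.card G) {P : Subgroup G} (hP : Nat.card P = p) {s : G} (hs : s ∈ P)
    (hs1 : s ≠ 1) {S : Set (Idx G)} (hS : SOK p P S) {N : Subgroup G} (hPN : P ≤ N)
    (hNc : ∀ E ∈ S, PPerf p E.grp → E.grp ≤ N ∨ N ≤ E.grp)
    (hNm : ∀ N1, Idx.t N1 ∈ S → P ≤ N1 → N ≤ N1)
    {z : U} (hz : z ∈ DP ρ P (AN ρ N)) :
    ∃ y ∈ AN ρ N, ρ s y - y = z ∧
      (∀ N', Idx.w P N' ∈ insert (.w P N) S → ∀ m, z ∈ flg ρ (.w P N') (m + 1) →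
        y ∈ flg ρ (.w P N') m) ∧
      (∀ N1, Idx.t N1 ∈ S → ∀ m, z ∈ flg ρ (.t N1) m → y ∈ flg ρ (.t N1) m) := by
  classical
  by_cases hz0 : z = 0
  · subst hz0
    refine ⟨0, Submodule.zero_mem _, by simp, fun _ _ m _ => Submodule.zero_mem _,
      fun _ _ _ _ => Submodule.zero_mem _⟩
  have hzp : Subgroup.zpowers s = P := zpowers_eq_of_card hP hs hs1
  have hpN : p ∣ Nat.card N := dvd_card_of_le hP hPN
  have hV1 : ∀ N', Idx.w P N' ∈ S → P ≤ N' ∧ (N' = P ∨ PPerf p N') := fun N' h => (hS.ok _ h).2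
  have htame : ∀ N1, Idx.t N1 ∈ S → ¬ p ∣ Nat.card N1 → ∀ M : Subgroup G, P ≤ M →
      (M ≤ N1 ∨ N1 ≤ M) → N1 ≤ M := by
    intro N1 h1 h2 M hM h3
    rcases h3 with h3 | h3
    · exact absurd (dvd_card_of_le hP (hM.trans h3)) h2
    · exact h3
  have hzY : z ∈ (AN ρ N).map (ρ s - 1) := by
    rw [← hzp, DP_zpowers] at hz
    · exact hz
    · intro g hg
      exact AN_stable (cj_eq_of_mem (hPN (by rwa [hzp] at hg)))
  obtain ⟨y, hyY, hyD, hyV, hyT⟩ := exists_lift_aux (ρ := ρ) hG hP hs hs1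
    {N' | Idx.w P N' ∈ insert (Idx.w P N) S}
    (by
      intro N' hN'
      rcases Set.mem_insert_iff.1 hN' with h | h
      · have : N' = N := by simpa using h
        rw [this]; exact hPN
      · exact (hV1 N' h).1)
    (by
      have hN : ∀ N', Idx.w P N' ∈ S → N' ≤ N ∨ N ≤ N' := by
        intro N' h
        rcases (hV1 N' h).2 with h1 | h1
        · left; rw [h1]; exact hPN
        · exact hNc _ h h1
      intro N' hN' N'' hN''
      rcases Set.mem_insert_iff.1 hN' with h | h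
      · have e1 : N' = N := by simpa using h
        subst e1
        rcases Set.mem_insert_iff.1 hN'' with h2 | h2
        · have e2 : N'' = N' := by simpa using h2
          left; rw [e2]
        · exact (hN N'' h2).symm
      · rcases Set.mem_insert_iff.1 hN'' with h2 | h2
        · have e2 : N'' = N := by simpa using h2
          subst e2
          exact hN N' h
        · rcases (hV1 N' h).2 with h3 | h3
          · left; rw [h3]; exact (hV1 N'' h2).1
          · rcases (hV1 N'' h2).2 with h4 | h4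
            · right; rw [h4]; exact (hV1 N' h).1
            · exact hS.cmp _ h _ h2 h3 h4)
    {N1 | Idx.t N1 ∈ S ∧ ¬ p ∣ Nat.card N1} (fun N1 h => h.2)
    (fun N1 h g hg => cj_of_cj_t (hS.fix _ h.1 g hg))
    (fun N1 h N2 h' => hS.cmp _ h.1 _ h'.1 (hS.ok _ h.1) (hS.ok _ h'.1))
    (by
      intro N1 h N' hN'
      rcases Set.mem_insert_iff.1 hN' with h2 | h2
      · have e1 : N' = N := by simpa using h2
        subst e1
        right
        exact htame N1 h.1 h.2 N' hPN (hNc _ h.1 (hS.ok _ h.1)).symm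
      · rcases (hV1 N' h2).2 with h3 | h3
        · exact Or.inl h3
        · right
          exact htame N1 h.1 h.2 N' (hV1 N' h2).1 (hS.cmp _ h2 _ h.1 h3 (hS.ok _ h.1)))
    (AN ρ N) (range_le_AN (hPN hs))
    (by
      intro N' hN'
      rcases Set.mem_insert_iff.1 hN' with h | h
      · have e1 : N' = N := by simpa using h
        subst e1; exact Or.inl le_rfl
      · rcases (hV1 N' h).2 with h1 | h1
        · left; rw [h1]; exact AN_mono hPN
        · rcases hNc _ h h1 with h2 | h2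
          · exact Or.inl (AN_mono h2)
          · exact Or.inr (AN_mono h2))
    (fun N1 h => AN_mono (htame N1 h.1 h.2 N hPN (hNc _ h.1 (hS.ok _ h.1)).symm)) hzY
  refine ⟨y, hyY, hyD, hyV, ?_⟩
  intro N1 h1 m hm
  rcases m with _ | _ | m
  · rw [flg_zero]; trivial
  · rw [flg_t_one] at hm ⊢
    rcases wild_or_tame hG hP (fun g hg => hS.fix _ h1 g hg) with h2 | h2
    · exact AN_mono (hNm N1 h1 h2) hyY
    · exact hyT N1 ⟨h1, h2⟩ hm
  · rw [flg_t_two, Submodule.mem_bot] at hm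
    exact absurd hm hz0

/-- **Lift lemma 5.1**, `Y = U` (no wild `t N1` in `S`). -/
theorem exists_lift_top [hp : Fact p.Prime] [CharP k p] [Finite G]
    (hG : ¬ p ^ 2 ∣ Nat.card G) {P : Subgroup G} (hP : Nat.card P = p) {s : G} (hs : s ∈ P)
    (hs1 : s ≠ 1) {S : Set (Idx G)} (hS : SOK p P S)
    (hNm : ∀ N1, Idx.t N1 ∈ S → ¬ P ≤ N1)
    {z : U} (hz : z ∈ AN ρ P) :
    ∃ y, ρ s y - y = z ∧
      (∀ N', Idx.w P N' ∈ insert (.w P P) S → ∀ m, z ∈ flg ρ (.w P N') (m + 1) →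
        y ∈ flg ρ (.w P N') m) ∧
      (∀ N1, Idx.t N1 ∈ S → ∀ m, z ∈ flg ρ (.t N1) m → y ∈ flg ρ (.t N1) m) := by
  classical
  by_cases hz0 : z = 0
  · subst hz0
    refine ⟨0, by simp, fun _ _ m _ => Submodule.zero_mem _,
      fun _ _ _ _ => Submodule.zero_mem _⟩
  have hzp : Subgroup.zpowers s = P := zpowers_eq_of_card hP hs hs1
  have hV1 : ∀ N', Idx.w P N' ∈ S → P ≤ N' ∧ (N' = P ∨ PPerf p N') := fun N' h => (hS.ok _ h).2
  have htame : ∀ N1, Idx.t N1 ∈ S → ¬ p ∣ Nat.card N1 := by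
    intro N1 h1
    rcases wild_or_tame hG hP (fun g hg => hS.fix _ h1 g hg) with h2 | h2
    · exact absurd h2 (hNm N1 h1)
    · exact h2
  have htame2 : ∀ N1, Idx.t N1 ∈ S → ∀ M : Subgroup G, P ≤ M →
      (M ≤ N1 ∨ N1 ≤ M) → N1 ≤ M := by
    intro N1 h1 M hM h3
    rcases h3 with h3 | h3
    · exact absurd (dvd_card_of_le hP (hM.trans h3)) (htame N1 h1)
    · exact h3
  have hzY : z ∈ (⊤ : Submodule k U).map (ρ s - 1) := by
    rw [← hzp, AN_zpowers] at hz
    rwa [Submodule.map_top]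
  obtain ⟨y, _, hyD, hyV, hyT⟩ := exists_lift_aux (ρ := ρ) hG hP hs hs1
    {N' | Idx.w P N' ∈ insert (Idx.w P P) S}
    (by
      intro N' hN'
      rcases Set.mem_insert_iff.1 hN' with h | h
      · have : N' = P := by simpa using h
        rw [this]
      · exact (hV1 N' h).1)
    (by
      intro N' hN' N'' hN''
      rcases Set.mem_insert_iff.1 hN' with h | h
      · have e1 : N' = P := by simpa using h
        left
        rcases Set.mem_insert_iff.1 hN'' with h2 | h2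
        · have e2 : N'' = P := by simpa using h2
          rw [e1, e2]
        · rw [e1]; exact (hV1 N'' h2).1
      · rcases Set.mem_insert_iff.1 hN'' with h2 | h2
        · have e2 : N'' = P := by simpa using h2
          right; rw [e2]; exact (hV1 N' h).1
        · rcases (hV1 N' h).2 with h3 | h3
          · left; rw [h3]; exact (hV1 N'' h2).1
          · rcases (hV1 N'' h2).2 with h4 | h4
            · right; rw [h4]; exact (hV1 N' h).1
            · exact hS.cmp _ h _ h2 h3 h4)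
    {N1 | Idx.t N1 ∈ S} (fun N1 h => htame N1 h)
    (fun N1 h g hg => cj_of_cj_t (hS.fix _ h g hg))
    (fun N1 h N2 h' => hS.cmp _ h _ h' (hS.ok _ h) (hS.ok _ h'))
    (by
      intro N1 h N' hN'
      rcases Set.mem_insert_iff.1 hN' with h2 | h2
      · have e1 : N' = P := by simpa using h2
        exact Or.inl e1
      · rcases (hV1 N' h2).2 with h3 | h3
        · exact Or.inl h3
        · right
          exact htame2 N1 h N' (hV1 N' h2).1 (hS.cmp _ h2 _ h h3 (hS.ok _ h)))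
    ⊤ le_top (fun _ _ => Or.inl le_top) (fun _ _ => le_top) hzY
  refine ⟨y, hyD, hyV, ?_⟩
  intro N1 h1 m hm
  rcases m with _ | _ | m
  · rw [flg_zero]; trivial
  · rw [flg_t_one] at hm ⊢
    exact hyT N1 h1 hm
  · rw [flg_t_two, Submodule.mem_bot] at hm
    exact absurd hm hz0

end Lift

section AdaptedBases

variable {k U G : Type} [Field k] [AddCommGroup U] [Module k U] [Group G]
  {ρ : Representation k G U} {p : ℕ}

/-- Step 1: pairwise comparable groups, all indices `t N`. -/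
theorem adaptedTo_of_t [FiniteDimensional k U] {S : Set (Idx G)}
    (ht : ∀ E ∈ S, ∃ N, E = Idx.t N)
    (hc : ∀ E ∈ S, ∀ E' ∈ S, E.grp ≤ E'.grp ∨ E'.grp ≤ E.grp) :
    AdaptedTo (flg ρ) S := by
  obtain ⟨β, hβ, hβW⟩ := exists_adapted_two_aux (k := k) (U := U)
    (C₁ := {W | ∃ E ∈ S, ∃ m, W = flg ρ E m}) (C₂ := ∅) (by
      rintro _ ⟨E, hE, m, rfl⟩ _ ⟨E', hE', m', rfl⟩ _
      obtain ⟨N, rfl⟩ := ht E hE
      obtain ⟨N', rfl⟩ := ht E' hE'
      rcases m with _ | _ | m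
      · right; rw [flg_zero]; exact le_top
      · rcases m' with _ | _ | m'
        · left; rw [flg_zero]; exact le_top
        · rw [flg_t_one, flg_t_one]
          rcases hc _ hE _ hE' with h | h
          · left; exact AN_mono h
          · right; exact AN_mono h
        · right; rw [flg_t_two]; exact bot_le
      · left; rw [flg_t_two]; exact bot_le) (by simp [IsChain])
  exact ⟨β, hβ, fun E hE m => hβW _ (Or.inl ⟨E, hE, m, rfl⟩)⟩

/-- Step 2 (blueprint 5.4). -/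
theorem SOK.adaptedTo [hp : Fact p.Prime] [FiniteDimensional k U] [Finite G]
    (hG : ¬ p ^ 2 ∣ Nat.card G) {P : Subgroup G} (hP : Nat.card P = p) {S : Set (Idx G)}
    (hS : SOK p P S) : AdaptedTo (flg ρ) S := by
  classical
  obtain ⟨s, hs, hs1, hzp, ho⟩ := exists_gen_of_card hP
  have hV1 : ∀ N', Idx.w P N' ∈ S → P ≤ N' ∧ (N' = P ∨ PPerf p N') := fun N' h => (hS.ok _ h).2
  have hfl : ∀ N', P ≤ N' → ∀ m, flg ρ (.w P N') (m + 1) = (AN ρ N').map ((ρ s - 1) ^ m) := by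
    intro N' hN' m
    rw [← hzp, flg_w_eq (fun g hg => cj_eq_of_mem (hN' (by rwa [hzp] at hg))), ResW.dflag_succ]
  -- the groups of the first chain
  set V : Set (Subgroup G) := {N' | Idx.w P N' ∈ S ∨ (Idx.t N' ∈ S ∧ P ≤ N')} with hV
  have hVP : ∀ N' ∈ V, P ≤ N' := by
    rintro N' (h | h)
    · exact (hV1 N' h).1
    · exact h.2
  have hVp : ∀ N' ∈ V, N' = P ∨ (PPerf p N' ∧ ∃ E ∈ S, E.grp = N') := by
    rintro N' (h | h)
    · rcases (hV1 N' h).2 with h1 | h1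
      · exact Or.inl h1
      · exact Or.inr ⟨h1, _, h, rfl⟩
    · exact Or.inr ⟨(hS.ok _ h.1), _, h.1, rfl⟩
  have hVc : ∀ N' ∈ V, ∀ N'' ∈ V, N' ≤ N'' ∨ N'' ≤ N' := by
    intro N' h' N'' h''
    rcases hVp N' h' with h1 | ⟨h1, E, hE, e1⟩
    · left; rw [h1]; exact hVP N'' h''
    · rcases hVp N'' h'' with h2 | ⟨h2, E', hE', e2⟩
      · right; rw [h2]; exact hVP N' h'
      · have := hS.cmp E hE E' hE' (by rw [e1]; exact h1) (by rw [e2]; exact h2)
        rwa [e1, e2] at this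
  obtain ⟨β, hβ, hβW⟩ := exists_adapted_two_aux (k := k) (U := U)
    (C₁ := insert ⊤ (insert ⊥ {W | ∃ N' ∈ V, ∃ m, W = (AN ρ N').map ((ρ s - 1) ^ m)}))
    (C₂ := {W | ∃ N1, Idx.t N1 ∈ S ∧ ¬ P ≤ N1 ∧ W = AN ρ N1}) (by
      refine IsChain.insert (IsChain.insert ?_ (fun b _ _ => Or.inl bot_le))
        (fun b _ _ => Or.inr le_top)
      rintro _ ⟨N', hN', m, rfl⟩ _ ⟨N'', hN'', m', rfl⟩ _
      refine ResW.pow_comparable (range_le_AN (hVP N' hN' hs)) (range_le_AN (hVP N'' hN'' hs)) ?_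
        m m'
      rcases hVc N' hN' N'' hN'' with h | h
      · exact Or.inl (AN_mono h)
      · exact Or.inr (AN_mono h)) (by
      rintro _ ⟨N1, h1, _, rfl⟩ _ ⟨N2, h2, _, rfl⟩ _
      rcases hS.cmp _ h1 _ h2 (hS.ok _ h1) (hS.ok _ h2) with h | h
      · exact Or.inl (AN_mono h)
      · exact Or.inr (AN_mono h))
  have htop : Adapted β (⊤ : Submodule k U) := hβW _ (Or.inl (Set.mem_insert _ _))
  have hbot : Adapted β (⊥ : Submodule k U) :=
    hβW _ (Or.inl (Set.mem_insert_of_mem _ (Set.mem_insert _ _)))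
  refine ⟨β, hβ, fun E hE m => ?_⟩
  rcases m with _ | m
  · rw [flg_zero]; exact htop
  cases E with
  | t N =>
    rcases m with _ | m
    · rw [flg_t_one]
      by_cases h : P ≤ N
      · refine hβW _ (Or.inl (Set.mem_insert_of_mem _ (Set.mem_insert_of_mem _
          ⟨N, Or.inr ⟨hE, h⟩, 0, ?_⟩)))
        simp [Module.End.one_eq_id]
      · exact hβW _ (Or.inr ⟨N, hE, h, rfl⟩)
    · rw [flg_t_two]; exact hbot
  | w P' N =>
    have e1 := hS.wP P' N hE
    subst e1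
    rw [hfl N (hV1 N hE).1]
    exact hβW _ (Or.inl (Set.mem_insert_of_mem _ (Set.mem_insert_of_mem _
          ⟨N, Or.inl hE, m, rfl⟩)))

/-- `S ∪ {w P N}` satisfies the hypotheses if `S` does. -/
theorem SOK.insert_w {P : Subgroup G} (hP : Nat.card P = p) {S : Set (Idx G)}
    (hS : SOK p P S) {N : Subgroup G} (hPN : P ≤ N) (hN : N = P ∨ PPerf p N)
    (hNc : PPerf p N → ∀ E ∈ S, PPerf p E.grp → E.grp ≤ N ∨ N ≤ E.grp) :
    SOK p P (insert (.w P N) S) where
  ok := by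
    intro E hE
    rcases Set.mem_insert_iff.1 hE with rfl | h
    · exact ⟨hP, hPN, hN⟩
    · exact hS.ok E h
  fix := by
    intro E hE g hg
    rcases Set.mem_insert_iff.1 hE with rfl | h
    · simp only [Idx.cj]
      rw [cj_eq_of_mem hg, cj_eq_of_mem (hPN hg)]
    · exact hS.fix E h g hg
  wP := by
    intro P' N' hE
    rcases Set.mem_insert_iff.1 hE with h | h
    · injection h
    · exact hS.wP P' N' h
  cmp := by
    intro E hE E' hE' h1 h2
    rcases Set.mem_insert_iff.1 hE with rfl | h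
    · rcases Set.mem_insert_iff.1 hE' with rfl | h'
      · exact Or.inl le_rfl
      · exact (hNc h1 E' h' h2).symm
    · rcases Set.mem_insert_iff.1 hE' with rfl | h'
      · exact hNc h2 E h h1
      · exact hS.cmp E h E' h' h1 h2

theorem SOK.mono {P : Subgroup G} {S S' : Set (Idx G)} (hS : SOK p P S) (h : S' ⊆ S) :
    SOK p P S' where
  ok E hE := hS.ok E (h hE)
  fix E hE := hS.fix E (h hE)
  wP P' N' hE := hS.wP P' N' (h hE)
  cmp E hE E' hE' := hS.cmp E (h hE) E' (h hE')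

end AdaptedBases

end Pool.Agent.MP_b525bf_ag_W.H41
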