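import Pool.Agent.Lib.MP_b525bf_ag_W.Flag
import Pool.Agent.Lib.MP_b525bf_ag_W.Grp_aux3_h41

/-!
# W6: groups and linear algebra (blueprint 2, 5.1, 5.4)
-/

set_option autoImplicit false

namespace Pool.Agent.MP_b525bf_ag_W

open Module Pointwise

variable {k U G : Type} [Field k] [AddCommGroup U] [Module k U] [Group G]
  (ρ : Representation k G U)

/-! ### Conjugation -/

theorem cj_one (N : Subgroup G) : cj 1 N = N := H41.cj_one N

theorem cj_mul (g h : G) (N : Subgroup G) : cj (g * h) N = cj g (cj h N) := H41.cj_mul g h N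

theorem cj_mono (g : G) {N N' : Subgroup G} (h : N ≤ N') : cj g N ≤ cj g N' := H41.cj_mono h

theorem cj_eq_self_of_mem {g : G} {N : Subgroup G} (h : g ∈ N) : cj g N = N :=
  H41.cj_eq_of_mem h

theorem card_cj (g : G) (N : Subgroup G) : Nat.card (cj g N) = Nat.card N := H41.card_cj g N

/-- A subgroup contained in a conjugate of itself is equal to it. -/
theorem eq_of_cj_le [Finite G] {g : G} {N : Subgroup G} (h : cj g N ≤ N) : cj g N = N :=
  H41.cj_eq_of_le h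

theorem Idx.cj_one (E : Idx G) : E.cj 1 = E := H41.Idx.cj_one E

theorem Idx.cj_mul (g h : G) (E : Idx G) : E.cj (g * h) = (E.cj h).cj g := H41.Idx.cj_mul g h E

theorem Idx.grp_cj (g : G) (E : Idx G) : (E.cj g).grp = MP_b525bf_ag_W.cj g E.grp := by
  cases E <;> rfl

/-! ### `p`-perfect subgroups -/

theorem pperf_cj {p : ℕ} {N : Subgroup G} (h : PPerf p N) (g : G) : PPerf p (cj g N) :=
  H41.PPerf.cj h g

theorem Op_le (p : ℕ) (H : Subgroup G) : Op p H ≤ H := H41.Op_le p H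

theorem pperf_Op (p : ℕ) (H : Subgroup G) : PPerf p (Op p H) := H41.pPerf_Op p H

theorem le_Op {p : ℕ} {N H : Subgroup G} (hN : PPerf p N) (h : N ≤ H) : N ≤ Op p H :=
  H41.PPerf.le_Op hN h

theorem Op_mono {p : ℕ} {H H' : Subgroup G} (h : H ≤ H') : Op p H ≤ Op p H' := H41.Op_mono h

/-- The group `H` normalises `O^p(H)`. -/
theorem cj_Op {p : ℕ} {H : Subgroup G} {g : G} (hg : g ∈ H) : cj g (Op p H) = Op p H :=
  H41.cj_Op_of_mem hg

theorem card_of_Op_eq_bot [Finite G] {p : ℕ} (hp : p.Prime) (hG : ¬ p ^ 2 ∣ Nat.card G)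
    {H : Subgroup G} (h : Op p H = ⊥) : H = ⊥ ∨ Nat.card H = p :=
  haveI : Fact p.Prime := ⟨hp⟩
  H41.card_of_Op_eq_bot hG h

/-- A subgroup of order `p` which normalises a subgroup of order divisible by `p` is contained in
it. -/
theorem le_of_dvd_card [Finite G] {p : ℕ} (hp : p.Prime) (hG : ¬ p ^ 2 ∣ Nat.card G)
    {P N : Subgroup G} (hP : Nat.card P = p) (hN : ∀ g ∈ P, cj g N = N) (h : p ∣ Nat.card N) :
    P ≤ N :=
  haveI : Fact p.Prime := ⟨hp⟩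
  H41.le_of_normalizes hG hP hN h

/-- Subgroups of order `p` of `N` are conjugate by elements of `N`. -/
theorem exists_cj_eq [Finite G] {p : ℕ} (hp : p.Prime) (hG : ¬ p ^ 2 ∣ Nat.card G)
    {P P' N : Subgroup G} (hP : Nat.card P = p) (hP' : Nat.card P' = p) (h : P ≤ N)
    (h' : P' ≤ N) : ∃ g ∈ N, cj g P = P' := by
  haveI : Fact p.Prime := ⟨hp⟩
  have hfac : (Nat.card N).factorization p = 1 := by
    have h1 : p ∣ Nat.card N := H41.dvd_card_of_le hP h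
    have h2 : ¬ p ^ 2 ∣ Nat.card N := fun h2 => hG (h2.trans (Subgroup.card_subgroup_dvd_card N))
    have h3 : Nat.card N ≠ 0 := Nat.card_pos.ne'
    have h4 := (hp.dvd_iff_one_le_factorization h3).1 h1
    have h5 : ¬ 2 ≤ (Nat.card N).factorization p := fun h5 =>
      h2 ((hp.pow_dvd_iff_le_factorization h3).2 h5)
    omega
  have hc : ∀ Q : Subgroup G, Nat.card Q = p → Q ≤ N →
      Nat.card (Q.subgroupOf N) = p ^ (Nat.card N).factorization p := by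
    intro Q hQ hQN
    rw [hfac, pow_one, ← hQ]
    exact Nat.card_congr (Subgroup.subgroupOfEquivOfLe hQN).toEquiv
  obtain ⟨g, hg⟩ := MulAction.exists_smul_eq N (Sylow.ofCard _ (hc P hP h))
    (Sylow.ofCard _ (hc P' hP' h'))
  have hg2 := congrArg (fun Q : Sylow p N => (Q : Subgroup N)) hg
  simp only [Sylow.coe_subgroup_smul, Sylow.coe_ofCard] at hg2
  refine ⟨g, g.2, ?_⟩
  refine Subgroup.eq_of_le_of_card_ge ?_ (by rw [card_cj, hP, hP'])
  intro x hx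
  rw [H41.mem_cj] at hx
  have hy : (⟨(g : G)⁻¹ * x * g, h hx⟩ : N) ∈ P.subgroupOf N := hx
  have h3 : MulAut.conj g • (⟨(g : G)⁻¹ * x * g, h hx⟩ : N) ∈ MulAut.conj g • P.subgroupOf N :=
    Subgroup.smul_mem_pointwise_smul _ _ _ hy
  rw [hg2, Subgroup.mem_subgroupOf] at h3
  simpa [mul_assoc] using h3

/-! ### The subspaces -/

theorem AN_mono {N N' : Subgroup G} (h : N ≤ N') : AN ρ N ≤ AN ρ N' := H41.AN_mono h

theorem mem_AN {N : Subgroup G} {g : G} (hg : g ∈ N) (u : U) : ρ g u - u ∈ AN ρ N :=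
  H41.sub_mem_AN hg u

/-- `A_N = Σ (h - 1) A_N` for a `p`-perfect group `N`. -/
theorem AN_le_DP {p : ℕ} [CharP k p] {N : Subgroup G} [Finite G] (hN : PPerf p N) :
    AN ρ N ≤ DP ρ N (AN ρ N) :=
  H41.AN_le_DP hN

theorem AN_ne_bot (hρ : Function.Injective ρ) {N : Subgroup G} (hN : N ≠ ⊥) : AN ρ N ≠ ⊥ := by
  intro h
  apply hN
  rw [eq_bot_iff]
  intro x hx
  rw [Subgroup.mem_bot]
  apply hρ
  rw [map_one]
  ext u
  have h1 := mem_AN ρ hx u
  rw [h, Submodule.mem_bot, sub_eq_zero] at h1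
  rw [h1]; rfl

theorem flg_one (E : Idx G) : flg ρ E 1 = AN ρ E.grp := by
  cases E with
  | t N => exact H41.flg_t_one N
  | w P N => exact H41.flg_w_succ P N 0

theorem flg_t_le (P N : Subgroup G) (m : ℕ) : flg ρ (.t N) m ≤ flg ρ (.w P N) m :=
  H41.flg_t_le_flg_w m

/-- Conjugation of the flags. -/
theorem flg_cj (g : G) (E : Idx G) (m : ℕ) {z : U} (hz : z ∈ flg ρ E m) :
    ρ g z ∈ flg ρ (E.cj g) m := H41.mem_flg_cj hz

theorem isFlag_t (N : Subgroup G) : IsFlag (flg ρ (.t N)) := H41.isFlag_t N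

theorem flg_t_two (N : Subgroup G) (m : ℕ) : flg ρ (.t N) (m + 2) = ⊥ := H41.flg_t_two N m

theorem isFlag_w {p : ℕ} (hp : p.Prime) [CharP k p] {P N : Subgroup G} (hP : Nat.card P = p)
    (h : P ≤ N) : IsFlag (flg ρ (.w P N)) :=
  haveI : Fact p.Prime := ⟨hp⟩
  H41.isFlag_w hP h

theorem flg_w_eq_bot {p : ℕ} (hp : p.Prime) [CharP k p] {P N : Subgroup G} (hP : Nat.card P = p)
    (h : P ≤ N) : flg ρ (.w P N) (p + 1) = ⊥ :=
  haveI : Fact p.Prime := ⟨hp⟩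
  H41.flg_w_eq_bot hP h (Nat.lt_succ_self p)

theorem isFlag_cj {E : Idx G} (hE : IsFlag (flg ρ E)) (g : G) : IsFlag (flg ρ (E.cj g)) where
  zero := H41.flg_zero _
  anti := by
    intro m n h
    rw [H41.flg_cj, H41.flg_cj]
    exact Submodule.map_mono (hE.anti h)
  fin := by
    obtain ⟨m, hm⟩ := hE.fin
    exact ⟨m, by rw [H41.flg_cj, hm, Submodule.map_bot]⟩

theorem flg_cj_eq_bot {E : Idx G} {m : ℕ} (hE : flg ρ E m = ⊥) (g : G) :
    flg ρ (E.cj g) m = ⊥ := by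
  rw [H41.flg_cj, hE, Submodule.map_bot]

theorem flg_w_diff {P N : Subgroup G} (h : P ≤ N) {g : G} (hg : g ∈ P) (m : ℕ) {z : U}
    (hz : z ∈ flg ρ (.w P N) m) : ρ g z - z ∈ flg ρ (.w P N) (m + 1) :=
  H41.flg_w_sub h hg hz

/-! ### The configuration at a point with inertia group `P` of order `p` -/

/-- The conditions on the set `S` of divisors at a point with inertia group `P`. -/
structure PtHyp (p : ℕ) (P : Subgroup G) (S : Set (Idx G)) : Prop where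
  t : ∀ N, Idx.t N ∈ S → PPerf p N ∧ ∀ g ∈ P, cj g N = N
  w : ∀ P' N, Idx.w P' N ∈ S → P' = P ∧ (N = P ∨ PPerf p N ∧ P ≤ N)
  comp : ∀ E ∈ S, ∀ E' ∈ S, PPerf p E.grp → PPerf p E'.grp → E.grp ≤ E'.grp ∨ E'.grp ≤ E.grp

theorem PtHyp.sok {p : ℕ} {P : Subgroup G} {S : Set (Idx G)} (hP : Nat.card P = p)
    (hS : PtHyp p P S) : H41.SOK p P S where
  ok := by
    intro E hE
    cases E with
    | t N => exact (hS.t N hE).1
    | w P' N =>
      obtain ⟨rfl, h⟩ := hS.w P' N hE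
      rcases h with rfl | h
      · exact ⟨hP, le_rfl, Or.inl rfl⟩
      · exact ⟨hP, h.2, Or.inr h.1⟩
  fix := by
    intro E hE g hg
    cases E with
    | t N => simp only [Idx.cj]; rw [(hS.t N hE).2 g hg]
    | w P' N =>
      obtain ⟨rfl, h⟩ := hS.w P' N hE
      simp only [Idx.cj]
      rw [cj_eq_self_of_mem hg]
      rcases h with rfl | h
      · rw [cj_eq_self_of_mem hg]
      · rw [cj_eq_self_of_mem (h.2 hg)]
  wP P' N' h := (hS.w P' N' h).1
  cmp := hS.comp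

/-- Blueprint 5.4. -/
theorem adapted_of_ptHyp [Finite G] [FiniteDimensional k U] {p : ℕ} (hp : p.Prime) [CharP k p]
    (hG : ¬ p ^ 2 ∣ Nat.card G) {P : Subgroup G} (hP : Nat.card P = p) {S : Set (Idx G)}
    (hS : PtHyp p P S) : AdaptedTo (flg ρ) S :=
  haveI : Fact p.Prime := ⟨hp⟩
  (hS.sok hP).adaptedTo hG hP

/-- The flags of a chain of groups have a common adapted basis. -/
theorem adapted_of_chain [Finite G] [FiniteDimensional k U] {S : Set (Idx G)}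
    (hS : ∀ E ∈ S, ∃ N, E = Idx.t N)
    (hcomp : ∀ E ∈ S, ∀ E' ∈ S, E.grp ≤ E'.grp ∨ E'.grp ≤ E.grp) : AdaptedTo (flg ρ) S :=
  H41.adaptedTo_of_t hS hcomp

/-- The two kinds of indices: `1` for `w P N`, `0` for `t N`. -/
def Idx.wt : Idx G → ℕ
  | .t _ => 0
  | .w _ _ => 1

/-- Blueprint 5.1 (lift lemma). -/
theorem lift_lemma [Finite G] [FiniteDimensional k U] {p : ℕ} (hp : p.Prime) [CharP k p]
    (hG : ¬ p ^ 2 ∣ Nat.card G) {P : Subgroup G} (hP : Nat.card P = p) {S : Set (Idx G)}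
    (hS : PtHyp p P S) {s : G} (hs : s ∈ P) (hs1 : s ≠ 1) {Y : Submodule k U}
    (hY : (∃ N, Y = AN ρ N ∧ PPerf p N ∧ P ≤ N ∧
        (∀ E ∈ S, PPerf p E.grp → E.grp ≤ N ∨ N ≤ E.grp) ∧
        ∀ N1, Idx.t N1 ∈ S → p ∣ Nat.card N1 → N ≤ N1) ∨
      (Y = ⊤ ∧ ∀ N1, Idx.t N1 ∈ S → ¬ p ∣ Nat.card N1))
    {z : U} (hz : z ∈ DP ρ P Y) (m : Idx G → ℕ) (hm : ∀ E ∈ S, z ∈ flg ρ E (m E)) :
    ∃ y : U, ρ s y - y = z ∧ ∀ E ∈ S, y ∈ flg ρ E (m E - E.wt) := by
  haveI : Fact p.Prime := ⟨hp⟩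
  have hS' := hS.sok hP
  have main : ∃ y : U, ρ s y - y = z ∧
      (∀ N', Idx.w P N' ∈ S → ∀ m, z ∈ flg ρ (.w P N') (m + 1) → y ∈ flg ρ (.w P N') m) ∧
      (∀ N1, Idx.t N1 ∈ S → ∀ m, z ∈ flg ρ (.t N1) m → y ∈ flg ρ (.t N1) m) := by
    rcases hY with ⟨N, rfl, hN, hPN, hNc, hNm⟩ | ⟨rfl, hN⟩
    · obtain ⟨y, _, h1, h2, h3⟩ := H41.exists_lift hG hP hs hs1 hS' hPN hNc
        (fun N1 h1 h2 => hNm N1 h1 (H41.dvd_card_of_le hP h2)) hz
      exact ⟨y, h1, fun N' h => h2 N' (Set.mem_insert_of_mem _ h), h3⟩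
    · obtain ⟨y, h1, h2, h3⟩ := H41.exists_lift_top hG hP hs hs1 hS'
        (fun N1 h1 h2 => hN N1 h1 (H41.dvd_card_of_le hP h2)) (by rwa [H41.DP_top] at hz)
      exact ⟨y, h1, fun N' h => h2 N' (Set.mem_insert_of_mem _ h), h3⟩
  obtain ⟨y, h1, h2, h3⟩ := main
  refine ⟨y, h1, fun E hE => ?_⟩
  have hmE := hm E hE
  cases E with
  | t N => exact h3 N hE _ hmE
  | w P' N =>
    obtain ⟨rfl, _⟩ := hS.w P' N hE
    generalize m (Idx.w P' N) = j at hmE
    rcases j with _ | j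
    · simp only [Idx.wt, Nat.zero_sub]
      rw [H41.flg_zero]; trivial
    · exact h2 N hE j hmE

end Pool.Agent.MP_b525bf_ag_W
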