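import Pool.Agent.Lib.MP_b525bf_ag_W.Grp_aux_h41

/-!
# W6 (auxiliary 2): p-perfect subgroups, flags (blueprint 2)
-/

set_option autoImplicit false

namespace Pool.Agent.MP_b525bf_ag_W.H41

open Module Pool.Agent.MP_b525bf_ag_W

section Perf

variable {G : Type} [Group G] {p : ℕ}

theorem Op_le (p : ℕ) (H : Subgroup G) : Op p H ≤ H := by
  rw [Op, Subgroup.closure_le]
  exact fun x hx => hx.1

theorem mem_Op {H : Subgroup G} {x : G} (hx : x ∈ H) (ho : ¬ p ∣ orderOf x) : x ∈ Op p H :=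
  Subgroup.subset_closure ⟨hx, ho⟩

theorem Op_mono {H K : Subgroup G} (h : H ≤ K) : Op p H ≤ Op p K :=
  Subgroup.closure_mono fun _ hx => ⟨h hx.1, hx.2⟩

theorem PPerf_iff {N : Subgroup G} : PPerf p N ↔ Op p N = N :=
  ⟨fun h => le_antisymm (Op_le p N) h, fun h => h.ge⟩

theorem pPerf_Op (p : ℕ) (H : Subgroup G) : PPerf p (Op p H) := by
  unfold PPerf
  conv_lhs => rw [Op]
  rw [Subgroup.closure_le]
  exact fun x hx => Subgroup.subset_closure ⟨mem_Op hx.1 hx.2, hx.2⟩

theorem Op_Op (p : ℕ) (H : Subgroup G) : Op p (Op p H) = Op p H := PPerf_iff.1 (pPerf_Op p H)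

theorem PPerf.le_Op {N H : Subgroup G} (hN : PPerf p N) (h : N ≤ H) : N ≤ Op p H :=
  hN.trans (Op_mono h)

theorem pPerf_bot : PPerf p (⊥ : Subgroup G) := bot_le

theorem orderOf_conj (g x : G) : orderOf (g * x * g⁻¹) = orderOf x := by
  have : g * x * g⁻¹ = (MulAut.conj g).toMonoidHom x := by simp
  rw [this]
  exact orderOf_injective _ (MulAut.conj g).injective x

theorem cj_Op (g : G) (H : Subgroup G) : cj g (Op p H) = Op p (cj g H) := by
  have key : ∀ (g : G) (H : Subgroup G), cj g (Op p H) ≤ Op p (cj g H) := by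
    intro g H
    unfold cj
    rw [Subgroup.map_le_iff_le_comap, Op, Subgroup.closure_le]
    intro x hx
    have : (MulAut.conj g).toMonoidHom x = g * x * g⁻¹ := by simp
    simp only [Subgroup.coe_comap, Set.mem_preimage, SetLike.mem_coe]
    rw [this]
    exact mem_Op (conj_mem_cj hx.1) (by rw [orderOf_conj]; exact hx.2)
  refine le_antisymm (key g H) ?_
  have h1 := cj_mono (g := g) (key g⁻¹ (cj g H))
  rwa [cj_cj_inv, cj_inv_cj] at h1

theorem PPerf.cj {N : Subgroup G} (hN : PPerf p N) (g : G) :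
    PPerf p (MP_b525bf_ag_W.cj g N) := by
  rw [PPerf_iff] at hN ⊢
  rw [← cj_Op, hN]

/-- `H` normalises `O^p(H)`. -/
theorem cj_Op_of_mem {g : G} {H : Subgroup G} (hg : g ∈ H) : cj g (Op p H) = Op p H := by
  rw [cj_Op]
  congr 1
  rw [cj_eq_iff_normalizer]
  exact Subgroup.le_normalizer hg

theorem le_normalizer_Op (H : Subgroup G) :
    H ≤ Subgroup.normalizer ((Op p H : Subgroup G) : Set G) :=
  fun _ hg => cj_eq_iff_normalizer.1 (cj_Op_of_mem hg)

theorem Op_eq_pperf [hp : Fact p.Prime] (H : Subgroup G) : Op p H = ResW.pperf p H := by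
  unfold Op ResW.pperf
  congr 1
  ext x
  simp only [Set.mem_ofPred_eq]
  rw [Nat.coprime_comm, Nat.Prime.coprime_iff_not_dvd hp.out]

theorem isPGroup_of_Op_eq_bot [hp : Fact p.Prime] [Finite G] {H : Subgroup G}
    (h : Op p H = ⊥) : IsPGroup p H := by
  rw [Op_eq_pperf] at h
  exact ResW.isPGroup_of_pperf_eq_bot h

/-- If `p² ∤ |G|`, a subgroup without `p`-perfect subgroups is trivial or has order `p`. -/
theorem card_of_Op_eq_bot [hp : Fact p.Prime] [Finite G] (hG : ¬ p ^ 2 ∣ Nat.card G)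
    {H : Subgroup G} (h : Op p H = ⊥) : H = ⊥ ∨ Nat.card H = p :=
  ResW.card_of_isPGroup hG (isPGroup_of_Op_eq_bot h)

/-- Blueprint 2(e). -/
theorem le_of_normalizes [hp : Fact p.Prime] [Finite G] (hG : ¬ p ^ 2 ∣ Nat.card G)
    {P N : Subgroup G} (hP : Nat.card P = p) (hPN : ∀ g ∈ P, cj g N = N)
    (hN : p ∣ Nat.card N) : P ≤ N :=
  ResW.le_of_dvd_card hG hP (fun g hg => cj_eq_iff_normalizer.1 (hPN g hg)) hN

/-- a group of order prime to `p` is `p`-perfect -/
theorem pPerf_of_not_dvd [Finite G] {N : Subgroup G} (h : ¬ p ∣ Nat.card N) : PPerf p N := by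
  intro x hx
  refine Subgroup.subset_closure ⟨hx, fun h1 => h (h1.trans ?_)⟩
  have := orderOf_dvd_natCard (⟨x, hx⟩ : N)
  rwa [← Subgroup.orderOf_coe] at this

/-- a subgroup of order `p` is generated by each of its nontrivial elements -/
theorem zpowers_eq_of_card [hp : Fact p.Prime] {P : Subgroup G} (hP : Nat.card P = p)
    {s : G} (hs : s ∈ P) (h1 : s ≠ 1) : Subgroup.zpowers s = P := by
  haveI : Finite P := Nat.finite_of_card_ne_zero (by rw [hP]; exact hp.out.ne_zero)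
  apply Subgroup.eq_of_le_of_card_ge (by rwa [Subgroup.zpowers_le])
  rw [Nat.card_zpowers]
  have h2 : orderOf s ∣ p := by
    rw [← hP]
    have := orderOf_dvd_natCard (⟨s, hs⟩ : P)
    rwa [← Subgroup.orderOf_coe] at this
  rcases (Nat.dvd_prime hp.out).1 h2 with h | h
  · exact absurd (orderOf_eq_one_iff.1 h) h1
  · rw [h, hP]

theorem orderOf_eq_of_card [hp : Fact p.Prime] {P : Subgroup G} (hP : Nat.card P = p)
    {s : G} (hs : s ∈ P) (h1 : s ≠ 1) : orderOf s = p := by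
  rw [← Nat.card_zpowers, zpowers_eq_of_card hP hs h1, hP]

theorem exists_gen_of_card [hp : Fact p.Prime] {P : Subgroup G}
    (hP : Nat.card P = p) : ∃ s ∈ P, s ≠ 1 ∧ Subgroup.zpowers s = P ∧ orderOf s = p := by
  have h1 : P ≠ ⊥ := by
    rintro rfl
    rw [Subgroup.card_bot] at hP
    exact hp.out.one_lt.ne hP
  obtain ⟨s, hs1⟩ := Subgroup.ne_bot_iff_exists_ne_one.1 h1
  have hs : (s : G) ∈ P := s.2
  replace hs1 : (s : G) ≠ 1 := fun h => hs1 (Subtype.ext h)
  exact ⟨s, hs, hs1, zpowers_eq_of_card hP hs hs1, orderOf_eq_of_card hP hs hs1⟩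

/-- a subgroup of a group of order `p` is trivial or everything -/
theorem eq_bot_or_eq_of_le_card [hp : Fact p.Prime] [Finite G] {P Q : Subgroup G}
    (hP : Nat.card P = p) (h : Q ≤ P) : Q = ⊥ ∨ Q = P := by
  by_cases hQ : Q = ⊥
  · exact Or.inl hQ
  · right
    obtain ⟨a, ha⟩ := Subgroup.ne_bot_iff_exists_ne_one.1 hQ
    refine le_antisymm h ?_
    rw [← zpowers_eq_of_card hP (h a.2) (fun h => ha (Subtype.ext h)), Subgroup.zpowers_le]
    exact a.2

end Perf

section Flags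

variable {k U G : Type} [Field k] [AddCommGroup U] [Module k U] [Group G]
  {ρ : Representation k G U} {p : ℕ}

/-- Blueprint 2(c). -/
theorem AN_le_DP [CharP k p] {N : Subgroup G} (hN : PPerf p N) :
    AN ρ N ≤ DP ρ N (AN ρ N) := by
  refine (AN_mono hN).trans ?_
  rw [AN_closure]
  refine iSup₂_le (fun x hx => ?_)
  refine (ResW.range_sub_one_le_of_ne (k := k) ?_).trans ?_
  · intro h0
    rw [CharP.cast_eq_zero_iff k p] at h0
    exact hx.2 h0
  · rintro _ ⟨_, ⟨u, rfl⟩, rfl⟩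
    have h1 : (ρ x - 1) u ∈ AN ρ N := by simpa using sub_mem_AN (ρ := ρ) hx.1 u
    simpa using mem_DP (ρ := ρ) hx.1 h1

theorem AN_eq_DP [CharP k p] {N : Subgroup G} (hN : PPerf p N) :
    AN ρ N = DP ρ N (AN ρ N) :=
  le_antisymm (AN_le_DP hN) (DP_le_AN le_rfl _)

/-- an element of `A_N` is a sum of elements `h z - z`, `h ∈ N`, `z ∈ A_N` -/
theorem exists_of_mem_DP {P : Subgroup G} {X : Submodule k U} {z : U} (hz : z ∈ DP ρ P X) :
    ∃ l : List (G × U), (∀ x ∈ l, x.1 ∈ P ∧ x.2 ∈ X) ∧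
      z = (l.map fun x => ρ x.1 x.2 - x.2).sum := by
  have key : DP ρ P X ≤
      Submodule.span k {y : U | ∃ h ∈ P, ∃ u ∈ X, y = ρ h u - u} := by
    rw [DP_le_iff]
    intro h hh u hu
    exact Submodule.subset_span ⟨h, hh, u, hu, rfl⟩
  have h1 := key hz
  induction h1 using Submodule.span_induction with
  | mem x hx =>
    obtain ⟨h, hh, u, hu, rfl⟩ := hx
    refine ⟨[(h, u)], ?_, by simp⟩
    intro x hx
    rw [List.mem_singleton] at hx
    subst hx
    exact ⟨hh, hu⟩
  | zero => exact ⟨[], by simp, by simp⟩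
  | add x y hx hy ihx ihy =>
    by_cases hx' : x ∈ DP ρ P X
    · have hy' : y ∈ DP ρ P X := by simpa using Submodule.sub_mem _ hz hx'
      obtain ⟨l, hl, rfl⟩ := ihx hx'
      obtain ⟨l', hl', rfl⟩ := ihy hy'
      refine ⟨l ++ l', ?_, by simp⟩
      intro x hx
      rcases List.mem_append.1 hx with h | h
      · exact hl x h
      · exact hl' x h
    · exfalso
      apply hx'
      have hle : Submodule.span k {y : U | ∃ h ∈ P, ∃ u ∈ X, y = ρ h u - u} ≤ DP ρ P X := by
        rw [Submodule.span_le]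
        rintro _ ⟨h, hh, u, hu, rfl⟩
        exact mem_DP hh hu
      exact hle hx
  | smul a x hx ih =>
    have hle : Submodule.span k {y : U | ∃ h ∈ P, ∃ u ∈ X, y = ρ h u - u} ≤ DP ρ P X := by
      rw [Submodule.span_le]
      rintro _ ⟨h, hh, u, hu, rfl⟩
      exact mem_DP hh hu
    obtain ⟨l, hl, rfl⟩ := ih (hle hx)
    refine ⟨l.map fun x => (x.1, a • x.2), ?_, ?_⟩
    · intro x hx
      rw [List.mem_map] at hx
      obtain ⟨y, hy, rfl⟩ := hx
      exact ⟨(hl y hy).1, X.smul_mem _ (hl y hy).2⟩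
    · rw [List.smul_sum, List.map_map, List.map_map]
      congr 1
      refine List.map_congr_left (fun y _ => ?_)
      simp [smul_sub]

/-- For `P = ⟨s⟩` and `X` stable under `P`, `D_P X = (s - 1) X`. -/
theorem DP_zpowers {s : G} {X : Submodule k U} (hX : ∀ g ∈ Subgroup.zpowers s, ∀ u ∈ X, ρ g u ∈ X) :
    DP ρ (Subgroup.zpowers s) X = X.map (ρ s - 1) := by
  apply le_antisymm
  · rw [DP_le_iff]
    intro h hh
    rw [Subgroup.zpowers_eq_closure] at hh
    have hcl : ∀ g ∈ Subgroup.closure ({s} : Set G), ∀ u ∈ X, ρ g u ∈ X := by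
      intro g hg
      rw [← Subgroup.zpowers_eq_closure] at hg
      exact hX g hg
    induction hh using Subgroup.closure_induction with
    | mem x hx =>
      intro u hu
      rw [Set.mem_singleton_iff] at hx
      subst hx
      exact ⟨u, hu, by simp⟩
    | one => intro u _; simp
    | mul x y hx hy ihx ihy =>
      intro u hu
      have h1 := ihx (ρ y u) (hcl y hy u hu)
      have h2 := ihy u hu
      have := Submodule.add_mem _ h1 h2
      simpa [map_mul] using this
    | inv x hx ihx =>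
      intro u hu
      have h1 := ihx (ρ x⁻¹ u) (hcl x⁻¹ (Subgroup.inv_mem _ hx) u hu)
      have h3 : ρ x (ρ x⁻¹ u) = u := by
        rw [← Module.End.mul_apply, ← map_mul]; simp
      rw [h3] at h1
      have := Submodule.neg_mem _ h1
      simpa using this
  · rintro _ ⟨u, hu, rfl⟩
    simpa using mem_DP (ρ := ρ) (Subgroup.mem_zpowers s) hu

/-- `D_P X` is stable under `N_G(P)` if `X` is -/
theorem DP_stable {P : Subgroup G} {X : Submodule k U} {g : G} (hg : cj g P = P)
    (hX : ∀ u ∈ X, ρ g u ∈ X) : ∀ u ∈ DP ρ P X, ρ g u ∈ DP ρ P X := by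
  intro u hu
  have h1 : ρ g u ∈ (DP ρ P X).map (ρ g) := Submodule.mem_map_of_mem hu
  rw [← DP_cj, hg] at h1
  refine DP_mono ?_ h1
  rintro _ ⟨v, hv, rfl⟩
  exact hX v hv

theorem AN_stable {N : Subgroup G} {g : G} (hg : cj g N = N) :
    ∀ u ∈ AN ρ N, ρ g u ∈ AN ρ N := by
  intro u hu
  have h1 : ρ g u ∈ (AN ρ N).map (ρ g) := Submodule.mem_map_of_mem hu
  rwa [← AN_cj, hg] at h1

theorem iterate_DP_stable {P : Subgroup G} {X : Submodule k U} {g : G} (hg : cj g P = P)
    (hX : ∀ u ∈ X, ρ g u ∈ X) (m : ℕ) :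
    ∀ u ∈ (DP ρ P)^[m] X, ρ g u ∈ (DP ρ P)^[m] X := by
  induction m with
  | zero => exact hX
  | succ m ih =>
    rw [Function.iterate_succ_apply']
    exact DP_stable hg ih

theorem cj_eq_of_mem {N : Subgroup G} {g : G} (hg : g ∈ N) : cj g N = N :=
  cj_eq_iff_normalizer.2 (Subgroup.le_normalizer hg)

/-- `(D_P)^m X = (s-1)^m X` for `X` stable under `P = ⟨s⟩`. -/
theorem iterate_DP_zpowers {s : G} {X : Submodule k U}
    (hX : ∀ g ∈ Subgroup.zpowers s, ∀ u ∈ X, ρ g u ∈ X) (m : ℕ) :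
    (DP ρ (Subgroup.zpowers s))^[m] X = X.map ((ρ s - 1) ^ m) := by
  induction m with
  | zero => simp [Module.End.one_eq_id]
  | succ m ih =>
    rw [Function.iterate_succ_apply', DP_zpowers, ih, ResW.map_map_pow]
    intro g hg
    exact iterate_DP_stable (cj_eq_of_mem hg) (hX g hg) m

theorem flg_zero (E : Idx G) : flg ρ E 0 = ⊤ := by cases E <;> simp only [flg]

theorem flg_t_one (N : Subgroup G) : flg ρ (.t N) 1 = AN ρ N := by simp only [flg]

theorem flg_t_two (N : Subgroup G) (m : ℕ) : flg ρ (.t N) (m + 2) = ⊥ := by simp only [flg]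

theorem flg_w_succ (P N : Subgroup G) (m : ℕ) :
    flg ρ (.w P N) (m + 1) = (DP ρ P)^[m] (AN ρ N) := by simp only [flg]

/-- The flags `w P N` in terms of a generator `s` of `P`. -/
theorem flg_w_eq {s : G} {N : Subgroup G} (hs : ∀ g ∈ Subgroup.zpowers s, cj g N = N) (m : ℕ) :
    flg ρ (.w (Subgroup.zpowers s) N) m = ResW.dflag (ρ s - 1) (AN ρ N) m := by
  cases m with
  | zero => rw [flg_zero, ResW.dflag_zero]
  | succ m =>
    rw [flg_w_succ, ResW.dflag_succ]
    exact iterate_DP_zpowers (fun g hg => AN_stable (hs g hg)) m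

theorem range_le_AN {s : G} {N : Subgroup G} (h : s ∈ N) :
    LinearMap.range (ρ s - 1) ≤ AN ρ N := by
  rintro _ ⟨u, rfl⟩
  simpa using sub_mem_AN (ρ := ρ) h u

theorem isFlag_t (N : Subgroup G) : IsFlag (flg ρ (.t N)) where
  zero := flg_zero _
  anti := by
    refine antitone_nat_of_succ_le (fun m => ?_)
    rcases m with _ | _ | m
    · rw [flg_zero]; exact le_top
    · rw [flg_t_two]; exact bot_le
    · rw [flg_t_two]; exact bot_le
  fin := ⟨2, flg_t_two N 0⟩

theorem isFlag_w [hp : Fact p.Prime] [CharP k p] {P N : Subgroup G}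
    (hP : Nat.card P = p) (hPN : P ≤ N) : IsFlag (flg ρ (.w P N)) := by
  obtain ⟨s, hs, hs1, hz, ho⟩ := exists_gen_of_card hP
  have hN : ∀ g ∈ Subgroup.zpowers s, cj g N = N := by
    intro g hg
    rw [hz] at hg
    exact cj_eq_of_mem (hPN hg)
  have hfl : flg ρ (.w P N) = ResW.dflag (ρ s - 1) (AN ρ N) := by
    rw [← hz]; funext m; exact flg_w_eq hN m
  have hpow : (ρ s - 1) ^ p = 0 := ResW.sub_one_pow_eq_zero (by rw [← ho, pow_orderOf_eq_one])
  rw [hfl]
  exact ⟨rfl, ResW.dflag_antitone (range_le_AN (hPN hs)),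
    ⟨p + 1, ResW.dflag_eventually_bot hpow (Nat.lt_succ_self p)⟩⟩

/-- the flag `w P N` has length at most `p + 1` -/
theorem flg_w_eq_bot [hp : Fact p.Prime] [CharP k p] {P N : Subgroup G}
    (hP : Nat.card P = p) (hPN : P ≤ N) {m : ℕ} (hm : p < m) : flg ρ (.w P N) m = ⊥ := by
  obtain ⟨s, hs, hs1, hz, ho⟩ := exists_gen_of_card hP
  have hN : ∀ g ∈ Subgroup.zpowers s, cj g N = N := by
    intro g hg
    rw [hz] at hg
    exact cj_eq_of_mem (hPN hg)
  have hpow : (ρ s - 1) ^ p = 0 := ResW.sub_one_pow_eq_zero (by rw [← ho, pow_orderOf_eq_one])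
  have : flg ρ (.w P N) m = ResW.dflag (ρ s - 1) (AN ρ N) m := by
    rw [← hz]; exact flg_w_eq hN m
  rw [this]
  exact ResW.dflag_eventually_bot hpow hm

/-- `v_N(hy - y) ≥ 1` for `h ∈ N` (on linear forms) -/
theorem flg_t_sub {N : Subgroup G} {h : G} (hh : h ∈ N) (z : U) :
    ρ h z - z ∈ flg ρ (.t N) 1 := by rw [flg_t_one]; exact sub_mem_AN hh z

/-- `D` raises the level in `w P N` by one. -/
theorem flg_w_sub {P N : Subgroup G} (hPN : P ≤ N) {h : G} (hh : h ∈ P) {m : ℕ} {z : U}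
    (hz : z ∈ flg ρ (.w P N) m) : ρ h z - z ∈ flg ρ (.w P N) (m + 1) := by
  cases m with
  | zero => rw [flg_w_succ]; exact sub_mem_AN (hPN hh) z
  | succ m =>
    rw [flg_w_succ] at hz ⊢
    rw [Function.iterate_succ_apply']
    exact mem_DP hh hz

/-- the normaliser of the index preserves the flag -/
theorem flg_stable {E : Idx G} {g : G} (hg : E.cj g = E) {m : ℕ} {z : U} (hz : z ∈ flg ρ E m) :
    ρ g z ∈ flg ρ E m := by
  have := mem_flg_cj (g := g) hz
  rwa [hg] at this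

/-- `v_(P,N) ≥ v_N`: the flag `w P N` contains the flag `t N`. -/
theorem flg_t_le_flg_w {P N : Subgroup G} (m : ℕ) : flg ρ (.t N) m ≤ flg ρ (.w P N) m := by
  rcases m with _ | _ | m
  · rw [flg_zero, flg_zero]
  · rw [flg_t_one, flg_w_succ]; exact le_rfl
  · rw [flg_t_two]; exact bot_le

end Flags

end Pool.Agent.MP_b525bf_ag_W.H41
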