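import Pool.Agent.Lib.MP_b525bf_ag_W.Defs
import Pool.Agent.Lib.MP_b525bf_h41.Lift

/-!
# W6 (auxiliary): groups and linear algebra (blueprint 2, 5.1)
-/

set_option autoImplicit false

namespace Pool.Agent.MP_b525bf_ag_W.H41

open Module Pool.Agent.MP_b525bf_ag_W

section Conv

variable {k U G : Type} [Field k] [AddCommGroup U] [Module k U] [Group G]
  {ρ : Representation k G U}

theorem AN_eq_aug (N : Subgroup G) : AN ρ N = ResW.aug ρ N := by
  unfold AN ResW.aug
  rw [iSup_subtype']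

theorem sub_mem_AN {N : Subgroup G} {h : G} (hh : h ∈ N) (u : U) : ρ h u - u ∈ AN ρ N := by
  rw [AN_eq_aug]; exact ResW.sub_mem_aug hh u

theorem AN_le_iff {N : Subgroup G} {V : Submodule k U} :
    AN ρ N ≤ V ↔ ∀ h ∈ N, ∀ u, ρ h u - u ∈ V := by
  rw [AN_eq_aug]; exact ResW.aug_le_iff

theorem AN_mono {N N' : Subgroup G} (h : N ≤ N') : AN ρ N ≤ AN ρ N' := by
  rw [AN_eq_aug, AN_eq_aug]; exact ResW.aug_mono h

theorem AN_bot : AN ρ (⊥ : Subgroup G) = ⊥ := by
  rw [AN_eq_aug]; exact ResW.aug_bot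

theorem AN_zpowers (s : G) : AN ρ (Subgroup.zpowers s) = LinearMap.range (ρ s - 1) := by
  rw [AN_eq_aug]; exact ResW.aug_zpowers s

theorem AN_closure (X : Set G) :
    AN ρ (Subgroup.closure X) = ⨆ x ∈ X, LinearMap.range (ρ x - 1) := by
  rw [AN_eq_aug, ResW.aug_closure, iSup_subtype']

theorem mem_DP {P : Subgroup G} {X : Submodule k U} {h : G} (hh : h ∈ P) {u : U} (hu : u ∈ X) :
    ρ h u - u ∈ DP ρ P X := by
  have h1 : X.map (ρ h - 1) ≤ DP ρ P X :=
    le_iSup₂ (f := fun (h : G) (_ : h ∈ P) => X.map (ρ h - 1)) h hh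
  exact h1 ⟨u, hu, by simp⟩

theorem DP_le_iff {P : Subgroup G} {X V : Submodule k U} :
    DP ρ P X ≤ V ↔ ∀ h ∈ P, ∀ u ∈ X, ρ h u - u ∈ V := by
  constructor
  · intro h g hg u hu
    exact h (mem_DP hg hu)
  · intro h
    refine iSup₂_le (fun g hg => ?_)
    rintro _ ⟨u, hu, rfl⟩
    simpa using h g hg u hu

theorem DP_mono {P : Subgroup G} {X Y : Submodule k U} (h : X ≤ Y) : DP ρ P X ≤ DP ρ P Y :=
  DP_le_iff.2 fun _ hg _ hu => mem_DP hg (h hu)

theorem DP_mono_left {P P' : Subgroup G} {X : Submodule k U} (h : P ≤ P') :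
    DP ρ P X ≤ DP ρ P' X :=
  DP_le_iff.2 fun _ hg _ hu => mem_DP (h hg) hu

theorem DP_top (P : Subgroup G) : DP ρ P ⊤ = AN ρ P := by
  apply le_antisymm
  · exact DP_le_iff.2 fun _ hg _ _ => sub_mem_AN hg _
  · exact AN_le_iff.2 fun _ hg _ => mem_DP hg trivial

theorem DP_bot (P : Subgroup G) : DP ρ P ⊥ = ⊥ := by
  rw [eq_bot_iff, DP_le_iff]
  intro h _ u hu
  rw [Submodule.mem_bot] at hu
  subst hu
  simp

/-- `D_P X ≤ A_N` for `P ≤ N`. -/
theorem DP_le_AN {P N : Subgroup G} (h : P ≤ N) (X : Submodule k U) : DP ρ P X ≤ AN ρ N :=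
  DP_le_iff.2 fun _ hg _ _ => sub_mem_AN (h hg) _

/-! ### conjugation -/

theorem mem_cj {g x : G} {N : Subgroup G} : x ∈ cj g N ↔ g⁻¹ * x * g ∈ N := by
  unfold cj
  rw [Subgroup.mem_map]
  constructor
  · rintro ⟨y, hy, rfl⟩
    have : g⁻¹ * ((MulAut.conj g).toMonoidHom y) * g = y := by
      simp [mul_assoc]
    rw [this]; exact hy
  · intro h
    exact ⟨_, h, by simp [mul_assoc]⟩

theorem conj_mem_cj {g x : G} {N : Subgroup G} (hx : x ∈ N) : g * x * g⁻¹ ∈ cj g N := by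
  rw [mem_cj]
  simpa [mul_assoc] using hx

theorem cj_one (N : Subgroup G) : cj (1 : G) N = N := by
  ext x; rw [mem_cj]; simp

theorem cj_mul (g g' : G) (N : Subgroup G) : cj (g * g') N = cj g (cj g' N) := by
  ext x; rw [mem_cj, mem_cj, mem_cj]; simp [mul_assoc]

theorem cj_inv_cj (g : G) (N : Subgroup G) : cj g⁻¹ (cj g N) = N := by
  rw [← cj_mul, inv_mul_cancel, cj_one]

theorem cj_cj_inv (g : G) (N : Subgroup G) : cj g (cj g⁻¹ N) = N := by
  rw [← cj_mul, mul_inv_cancel, cj_one]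

theorem cj_mono {g : G} {N N' : Subgroup G} (h : N ≤ N') : cj g N ≤ cj g N' :=
  Subgroup.map_mono h

theorem cj_le_cj {g : G} {N N' : Subgroup G} : cj g N ≤ cj g N' ↔ N ≤ N' := by
  refine ⟨fun h => ?_, cj_mono⟩
  have := cj_mono (g := g⁻¹) h
  rwa [cj_inv_cj, cj_inv_cj] at this

theorem cj_inj {g : G} {N N' : Subgroup G} : cj g N = cj g N' ↔ N = N' := by
  constructor
  · intro h
    rw [← cj_inv_cj g N, h, cj_inv_cj]
  · rintro rfl; rfl

theorem cj_bot (g : G) : cj g (⊥ : Subgroup G) = ⊥ := Subgroup.map_bot _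

theorem card_cj (g : G) (N : Subgroup G) : Nat.card (cj g N) = Nat.card N :=
  (Nat.card_congr (N.equivMapOfInjective _ (MulAut.conj g).injective).toEquiv).symm

theorem cj_eq_iff_normalizer {g : G} {N : Subgroup G} :
    cj g N = N ↔ g ∈ Subgroup.normalizer (N : Set G) := by
  rw [Subgroup.mem_normalizer_iff]
  constructor
  · intro h x
    constructor
    · intro hx
      have := conj_mem_cj (g := g) hx
      rw [h] at this
      exact this
    · intro hx
      have h2 := mem_cj.1 ((h.symm ▸ hx : g * x * g⁻¹ ∈ cj g N))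
      simpa [mul_assoc] using h2
  · intro h
    ext x
    rw [mem_cj, h]
    simp [mul_assoc]

/-- conjugate subgroups of a finite group which are comparable are equal -/
theorem cj_eq_of_le [Finite G] {g : G} {N : Subgroup G} (h : cj g N ≤ N) : cj g N = N :=
  Subgroup.eq_of_le_of_card_ge h (card_cj g N).ge

theorem cj_eq_of_ge [Finite G] {g : G} {N : Subgroup G} (h : N ≤ cj g N) : cj g N = N :=
  (Subgroup.eq_of_le_of_card_ge h (card_cj g N).le).symm

theorem Idx.cj_one (E : Idx G) : E.cj (1 : G) = E := by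
  cases E <;> simp [Idx.cj, H41.cj_one]

theorem Idx.cj_mul (g g' : G) (E : Idx G) : E.cj (g * g') = (E.cj g').cj g := by
  cases E <;> simp [Idx.cj, H41.cj_mul]

theorem Idx.cj_inv_cj (g : G) (E : Idx G) : (E.cj g).cj g⁻¹ = E := by
  rw [← Idx.cj_mul, inv_mul_cancel, Idx.cj_one]

theorem Idx.cj_cj_inv (g : G) (E : Idx G) : (E.cj g⁻¹).cj g = E := by
  rw [← Idx.cj_mul, mul_inv_cancel, Idx.cj_one]

theorem AN_cj (g : G) (N : Subgroup G) : AN ρ (cj g N) = (AN ρ N).map (ρ g) := by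
  have key : ∀ (g : G) (N : Subgroup G), (AN ρ N).map (ρ g) ≤ AN ρ (cj g N) := by
    intro g N
    rw [AN_eq_aug, AN_eq_aug]
    exact ResW.map_aug_le g N _ fun x hx => conj_mem_cj hx
  refine le_antisymm ?_ (key g N)
  have h1 := key g⁻¹ (cj g N)
  rw [cj_inv_cj] at h1
  have h2 := Submodule.map_mono (f := ρ g) h1
  rw [← Submodule.map_comp] at h2
  have h3 : ρ g ∘ₗ ρ g⁻¹ = LinearMap.id := by
    have : ρ g * ρ g⁻¹ = 1 := by rw [← map_mul, mul_inv_cancel, map_one]
    exact this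
  rwa [h3, Submodule.map_id] at h2

theorem DP_cj (g : G) (P : Subgroup G) (X : Submodule k U) :
    DP ρ (cj g P) (X.map (ρ g)) = (DP ρ P X).map (ρ g) := by
  apply le_antisymm
  · rw [DP_le_iff]
    rintro h hh _ ⟨u, hu, rfl⟩
    rw [mem_cj] at hh
    refine ⟨ρ (g⁻¹ * h * g) u - u, mem_DP hh hu, ?_⟩
    rw [map_sub]
    congr 1
    rw [← Module.End.mul_apply, ← Module.End.mul_apply, ← map_mul, ← map_mul]
    congr 2
    group
  · rw [Submodule.map_le_iff_le_comap, DP_le_iff]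
    intro h hh u hu
    rw [Submodule.mem_comap, map_sub]
    have h1 := mem_DP (ρ := ρ) (conj_mem_cj (g := g) hh) (Submodule.mem_map_of_mem (f := ρ g) hu)
    have h2 : ρ (g * h * g⁻¹) (ρ g u) = ρ g (ρ h u) := by
      rw [← Module.End.mul_apply, ← Module.End.mul_apply, ← map_mul, ← map_mul]
      congr 2
      group
    rwa [h2] at h1

theorem iterate_DP_cj (g : G) (P : Subgroup G) (X : Submodule k U) (m : ℕ) :
    (DP ρ (cj g P))^[m] (X.map (ρ g)) = ((DP ρ P)^[m] X).map (ρ g) := by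
  induction m with
  | zero => rfl
  | succ m ih => rw [Function.iterate_succ_apply', Function.iterate_succ_apply', ih, DP_cj]

/-- The flags are permuted by `G`. -/
theorem flg_cj (g : G) (E : Idx G) (m : ℕ) : flg ρ (E.cj g) m = (flg ρ E m).map (ρ g) := by
  have htop : (⊤ : Submodule k U).map (ρ g) = ⊤ := by
    rw [Submodule.map_top, LinearMap.range_eq_top]
    intro u
    refine ⟨ρ g⁻¹ u, ?_⟩
    rw [← Module.End.mul_apply, ← map_mul, mul_inv_cancel, map_one]; rfl
  cases E with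
  | t N =>
    rcases m with _ | _ | m
    · simp only [flg, Idx.cj]; exact htop.symm
    · simp only [flg, Idx.cj]; exact AN_cj g N
    · simp only [flg, Idx.cj]; exact (Submodule.map_bot _).symm
  | w P N =>
    rcases m with _ | m
    · simp only [flg, Idx.cj]; exact htop.symm
    · simp only [flg, Idx.cj]
      rw [AN_cj]; exact iterate_DP_cj g P _ m

theorem mem_flg_cj {g : G} {E : Idx G} {m : ℕ} {z : U} (hz : z ∈ flg ρ E m) :
    ρ g z ∈ flg ρ (E.cj g) m := by
  rw [flg_cj]; exact Submodule.mem_map_of_mem hz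

end Conv

end Pool.Agent.MP_b525bf_ag_W.H41
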