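import Pool.Agent.Lib.MP_b525bf_ag_W.Step1

/-!
# W9a: Step 2, good points, key lemma, centres (blueprint 5.1-5.4)
-/

set_option autoImplicit false
set_option linter.unusedSectionVars false

namespace Pool.Agent.MP_b525bf_ag_W

open Pool.Agent.MP_b525bf_ag Module AddMonoidAlgebra

variable {k U K G ι : Type} [Field k] [AddCommGroup U] [Module k U] [Field K] [Algebra k K]
  [Group G] [Finite G] [AddCommGroup ι]

instance : Finite (Idx G) := by
  refine Finite.of_injective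
    (fun E : Idx G => (match E with
      | .t N => (false, N, N)
      | .w P N => (true, P, N) : Bool × Subgroup G × Subgroup G)) ?_
  rintro (N | ⟨P, N⟩) (N' | ⟨P', N'⟩) h <;> simp_all

/-- The degree `eps` of the equations of the wild ramification. -/
noncomputable def epsS (e : Idx G → ι) (S : Set (Idx G)) : ι :=
  ∑ᶠ E ∈ {E | E ∈ S ∧ E.wt = 1}, e E

/-- The point `q` is good: every nontrivial element of its inertia group has a principal
augmentation ideal at `q`. -/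
def Good (φ : G →* (K ≃ₐ[k] K)) (M : Fam k K ι) (e : Idx G → ι) (q : Ideal M.alg) [q.IsPrime]
    (S : Set (Idx G)) : Prop :=
  ∀ s ∈ inertia φ M q, s ≠ 1 → ∃ (d : ι) (y : K), y ∈ (atP M q).s d ∧
    IsU (atP M q) (d + epsS e S) (φ s y - y)

variable {L : Lin k U K} {ρ : Representation k G U} {φ : G →* (K ≃ₐ[k] K)} {p : ℕ}
  {M : Fam k K ι} {a : ι} {l : Idx G → ι →+ ℤ} {e : Idx G → ι} {EE : Set (Idx G)}
  {q : Ideal M.alg} [q.IsPrime] {S : Set (Idx G)}

/-! ### Auxiliary lemmas -/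

theorem finite_idx_set (S : Set (Idx G)) : S.Finite := Set.toFinite S

/-- The elements `e E`, `E ∈ S`, are dual to the `l E`. -/
theorem dual_of_loc (hG : Glob L ρ φ M a EE l e) (hS : Loc L ρ φ p M EE l e q S) :
    Dual l e S where
  self := fun E hE => hG.self E (hS.sub hE)
  ne := fun E hE E' hE' hne => hG.dual E (hS.sub hE) E' (hS.sub hE') fun g hg =>
    hne ((hS.inj E hE g (by rw [hg]; exact hE')).symm.trans hg)

theorem l_finsum_mem {l : Idx G → ι →+ ℤ} {e : Idx G → ι} {S : Set (Idx G)} (hd : Dual l e S)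
    {E : Idx G} (hE : E ∈ S) (n : Idx G → ℕ) :
    l E (∑ᶠ E' ∈ S, n E' • e E') = n E := by
  classical
  have hf : S.Finite := finite_idx_set S
  rw [finsum_mem_eq_finite_toFinset_sum _ hf, map_sum, Finset.sum_eq_single E]
  · rw [map_nsmul, hd.self E hE, nsmul_eq_mul, mul_one]
  · intro E' hE' hne
    rw [map_nsmul, hd.ne E hE E' (hf.mem_toFinset.1 hE') hne.symm, smul_zero]
  · intro h
    exact absurd (hf.mem_toFinset.2 hE) h

theorem l_epsS {l : Idx G → ι →+ ℤ} {e : Idx G → ι} {S : Set (Idx G)} (hd : Dual l e S)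
    {E : Idx G} (hE : E ∈ S) : l E (epsS e S) = E.wt := by
  classical
  have hf : {E | E ∈ S ∧ E.wt = 1}.Finite := finite_idx_set _
  rw [epsS, finsum_mem_eq_finite_toFinset_sum _ hf, map_sum]
  by_cases h1 : E.wt = 1
  · rw [Finset.sum_eq_single E]
    · rw [hd.self E hE, h1, Nat.cast_one]
    · intro E' hE' hne
      exact hd.ne E hE E' (hf.mem_toFinset.1 hE').1 hne.symm
    · intro h
      exact absurd (hf.mem_toFinset.2 ⟨hE, h1⟩) h
  · have h0 : E.wt = 0 := by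
      cases E with
      | t N => rfl
      | w P N => exact absurd rfl h1
    rw [Finset.sum_eq_zero, h0, Nat.cast_zero]
    intro E' hE'
    have h2 := hf.mem_toFinset.1 hE'
    refine hd.ne E hE E' h2.1 ?_
    rintro rfl
    exact h1 h2.2

theorem prod_lin_mem_B (t : List U) : (t.map L.lin).prod ∈ L.B := by
  induction t with
  | nil => exact L.B.one_mem
  | cons b t ih =>
    rw [List.map_cons, List.prod_cons]
    exact L.B.mul_mem (Algebra.subset_adjoin ⟨b, rfl⟩) ih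

/-- A monomial in a chart. -/
theorem monomial_mem_CSs {l : Idx G → ι →+ ℤ} {S : Set (Idx G)} {β : Set U} (hβ : IsBasis k β)
    (hfl : ∀ E ∈ S, IsFlag (flg ρ E)) {t : List U} (ht : ∀ b ∈ t, b ∈ β) {d : ι}
    (h : ∀ E ∈ S, l E d ≤ ((t.map (lev (flg ρ E))).sum : ℕ)) :
    (t.map L.lin).prod ∈ CSs L (flg ρ) l S d := by
  rw [mem_CSs]
  exact ⟨prod_lin_mem_B t, fun E hE => fil_anti L _ (h E hE) (monomial_mem_fil L hβ (hfl E hE) t ht)⟩

/-- A factor of a unit monomial is a unit. -/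
theorem isU_factor {l : Idx G → ι →+ ℤ} {e : Idx G → ι} {S : Set (Idx G)} (hd : Dual l e S)
    (hch : ∀ d, CSs L (flg ρ) l S d ≤ (atP M q).s d) {β : Set U} (hβ : IsBasis k β)
    (hfl : ∀ E ∈ S, IsFlag (flg ρ E)) {t : List U} (ht : ∀ b ∈ t, b ∈ β) {d : ι}
    (h : ∀ E ∈ S, l E d ≤ ((t.map (lev (flg ρ E))).sum : ℕ))
    (hU : IsU (atP M q) d (t.map L.lin).prod) {z : U} (hz : z ∈ t) :
    IsU (atP M q) (∑ᶠ E ∈ S, lev (flg ρ E) z • e E) (L.lin z) := by
  classical
  set dz : ι := ∑ᶠ E ∈ S, lev (flg ρ E) z • e E with hdz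
  have hp := List.perm_cons_erase hz
  have h1 : (t.map L.lin).prod = L.lin z * ((t.erase z).map L.lin).prod := by
    rw [(hp.map L.lin).prod_eq, List.map_cons, List.prod_cons]
  have h2 : ∀ E : Idx G, (t.map (lev (flg ρ E))).sum
      = lev (flg ρ E) z + ((t.erase z).map (lev (flg ρ E))).sum := by
    intro E
    rw [(hp.map _).sum_eq, List.map_cons, List.sum_cons]
  have h3 : L.lin z ∈ (atP M q).s dz := by
    apply hch
    have h4 := monomial_mem_CSs (L := L) (ρ := ρ) (l := l) (S := S) hβ hfl (t := [z])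
      (by intro b hb; rw [List.mem_singleton] at hb; rw [hb]; exact ht z hz) (d := dz) (by
        intro E hE
        rw [hdz, l_finsum_mem hd hE, List.map_singleton, List.sum_singleton])
    rwa [List.map_singleton, List.prod_singleton] at h4
  have h5 : ((t.erase z).map L.lin).prod ∈ (atP M q).s (d - dz) := by
    apply hch
    apply monomial_mem_CSs hβ hfl (fun b hb => ht b (List.mem_of_mem_erase hb))
    intro E hE
    have h6 := h E hE
    rw [h2 E] at h6
    rw [map_sub, hdz, l_finsum_mem hd hE]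
    push_cast at h6 ⊢
    linarith
  have h7 : IsU (atP M q) (dz + (d - dz)) (L.lin z * ((t.erase z).map L.lin).prod) := by
    rw [← h1, add_sub_cancel]
    exact hU
  exact IsU.of_mul_left h3 h5 h7

theorem ptHyp_mono {P : Subgroup G} {S S' : Set (Idx G)} (h : PtHyp p P S') (hs : S ⊆ S') :
    PtHyp p P S where
  t := fun N hN => h.t N (hs hN)
  w := fun P' N hN => h.w P' N (hs hN)
  comp := fun E hE E' hE' => h.comp E (hs hE) E' (hs hE')

/-- A unit linear form in `D_P Y` makes the point good. -/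
theorem good_of_unit [FiniteDimensional k U] [CharP k p] (hc : Ctx L ρ φ p)
    (hG : Glob L ρ φ M a EE l e) (hS : Loc L ρ φ p M EE l e q S)
    (hcard : Nat.card (inertia φ M q) = p) (hpt : PtHyp p (inertia φ M q) S)
    {Y : Submodule k U}
    (hY : (∃ N, Y = AN ρ N ∧ PPerf p N ∧ inertia φ M q ≤ N ∧
        (∀ E ∈ S, PPerf p E.grp → E.grp ≤ N ∨ N ≤ E.grp) ∧
        ∀ N1, Idx.t N1 ∈ S → p ∣ Nat.card N1 → N ≤ N1) ∨
      (Y = ⊤ ∧ ∀ N1, Idx.t N1 ∈ S → ¬ p ∣ Nat.card N1))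
    {z : U} (hz : z ∈ DP ρ (inertia φ M q) Y) (hz0 : z ≠ 0)
    (hzu : IsU (atP M q) (∑ᶠ E ∈ S, lev (flg ρ E) z • e E) (L.lin z)) : Good φ M e q S := by
  intro s hs hs1
  have hd := dual_of_loc hG hS
  obtain ⟨y, hy, hyE⟩ := lift_lemma ρ hc.hp hc.hG hcard hpt hs hs1 hY hz
    (fun E => lev (flg ρ E) z) (fun E hE =>
      (mem_iff_le_lev (hG.flag E (hS.sub hE)) hz0).2 le_rfl)
  refine ⟨(∑ᶠ E ∈ S, lev (flg ρ E) z • e E) - epsS e S, L.lin y, ?_, ?_⟩
  · apply hS.chart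
    rw [mem_CSs]
    refine ⟨Algebra.subset_adjoin ⟨y, rfl⟩, fun E hE => ?_⟩
    refine fil_anti L _ ?_ (lin_mem_fil L (hyE E hE))
    rw [map_sub, l_finsum_mem hd hE, l_epsS hd hE]
    omega
  · rw [sub_add_cancel, hc.hφ, ← map_sub, hy]
    exact hzu

/-- Blueprint 5.2, wild case. -/
theorem key_wild [FiniteDimensional k U] [CharP k p] (hc : Ctx L ρ φ p)
    (hG : Glob L ρ φ M a EE l e) (hS : Loc L ρ φ p M EE l e q S)
    (hcard : Nat.card (inertia φ M q) = p) {N : Subgroup G}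
    (hpt : PtHyp p (inertia φ M q) (insert (Idx.w (inertia φ M q) N) S)) (hN : PPerf p N)
    (hPN : inertia φ M q ≤ N) (ht : Idx.t N ∈ S)
    (hmin : ∀ N1, Idx.t N1 ∈ S → p ∣ Nat.card N1 → N ≤ N1)
    {d : ι} {y : K} (hy : y ∈ M.s d) (hyq : M.el hy ∉ q)
    (hyv : y ∈ L.Fil (flg ρ (.w (inertia φ M q) N)) (1 + l (.t N) d)) : Good φ M e q S := by
  have hd := dual_of_loc hG hS
  have hfl : ∀ E ∈ S, IsFlag (flg ρ E) := fun E hE => hG.flag E (hS.sub hE)
  obtain ⟨β, hβ, had⟩ := adapted_of_ptHyp ρ hc.hp hc.hG hcard hpt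
  have hyC : y ∈ CSs L (flg ρ) l S d := by
    rw [mem_CSs]
    exact ⟨hG.leB d hy, fun E hE => hG.val E (hS.sub hE) d hy⟩
  have hv : IsFlag (flg ρ (.w (inertia φ M q) N)) := isFlag_w ρ hc.hp hcard hPN
  have hspan := chart_span hfl hv hβ (fun E hE => had E (Set.mem_insert_of_mem _ hE))
    (had _ (Set.mem_insert _ _)) hyC hyv
  obtain ⟨y1, ⟨t, htβ, htS, htv, rfl⟩, hyU⟩ := exists_isU_of_span M q (by
    rintro y1 ⟨t, ht, htS, -, rfl⟩
    exact hS.chart d (monomial_mem_CSs hβ hfl ht htS)) hspan ((isU_atP_iff M q hy).2 hyq)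
  -- the value for `t N` is exact
  have h1 : ((t.map (lev (flg ρ (.t N)))).sum : ℤ) ≤ l (.t N) d := by
    by_contra hlt
    push Not at hlt
    have h2 : (t.map L.lin).prod ∈ (atP M q).s (d + e (.t N)) := by
      apply hS.chart
      apply monomial_mem_CSs hβ hfl htβ
      intro E hE
      rw [map_add]
      by_cases hEN : E = .t N
      · rw [hEN, hd.self _ ht]
        omega
      · rw [hd.ne E hE (.t N) ht hEN, add_zero]
        exact htS E hE
    have h3 : (1 : K) ∈ (atP M q).s (-(e (.t N))) := le_atP M q _ (hG.sec _ (hS.sub ht))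
    have h4 : IsU (atP M q) (-(e (.t N)) + (d + e (.t N))) (1 * (t.map L.lin).prod) := by
      rw [one_mul, show -(e (.t N)) + (d + e (.t N)) = d by abel]
      exact hyU
    have h5 := (IsU.of_mul_left h3 h2 h4).2.2
    rw [neg_neg, inv_one] at h5
    exact hS.non _ ht h5
  have h2 : (t.map (lev (flg ρ (.t N)))).sum
      < (t.map (lev (flg ρ (.w (inertia φ M q) N)))).sum := by
    have : ((t.map (lev (flg ρ (.t N)))).sum : ℤ)
        < ((t.map (lev (flg ρ (.w (inertia φ M q) N)))).sum : ℕ) := by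
      linarith
    exact_mod_cast this
  obtain ⟨z, hz, hlt⟩ := List.exists_lt_of_sum_lt _ _ h2
  have hz0 : z ≠ 0 := by
    have := hβ.1.ne_zero (⟨z, htβ z hz⟩ : β)
    exact this
  have hz1 : z ∈ flg ρ (.w (inertia φ M q) N) 1 :=
    (mem_iff_le_lev hv hz0).2 (by omega)
  have hz2 : 1 ≤ lev (flg ρ (.t N)) z := by
    rw [← mem_iff_le_lev (hfl _ ht) hz0]
    rw [flg_one] at hz1 ⊢
    exact hz1
  have hz3 : z ∈ flg ρ (.w (inertia φ M q) N) 2 :=
    (mem_iff_le_lev hv hz0).2 (by omega)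
  have hz4 : z ∈ DP ρ (inertia φ M q) (AN ρ N) := hz3
  refine good_of_unit hc hG hS hcard (ptHyp_mono hpt (Set.subset_insert _ _)) (Y := AN ρ N)
    (Or.inl ⟨N, rfl, hN, hPN, fun E hE hE' => hS.comp E hE _ ht hE' hN, hmin⟩) hz4 hz0
    (isU_factor hd hS.chart hβ hfl htβ htS hyU hz)

/-- Blueprint 5.2, tame case. -/
theorem key_tame [FiniteDimensional k U] [CharP k p] (hc : Ctx L ρ φ p)
    (hG : Glob L ρ φ M a EE l e) (hS : Loc L ρ φ p M EE l e q S)
    (hcard : Nat.card (inertia φ M q) = p)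
    (hpt : PtHyp p (inertia φ M q) (insert (Idx.w (inertia φ M q) (inertia φ M q)) S))
    (hno : ∀ N1, Idx.t N1 ∈ S → ¬ p ∣ Nat.card N1)
    {d : ι} {y : K} (hy : y ∈ M.s d) (hyq : M.el hy ∉ q)
    (hyv : y ∈ L.Fil (flg ρ (.w (inertia φ M q) (inertia φ M q))) 1) : Good φ M e q S := by
  have hd := dual_of_loc hG hS
  have hfl : ∀ E ∈ S, IsFlag (flg ρ E) := fun E hE => hG.flag E (hS.sub hE)
  obtain ⟨β, hβ, had⟩ := adapted_of_ptHyp ρ hc.hp hc.hG hcard hpt
  have hyC : y ∈ CSs L (flg ρ) l S d := by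
    rw [mem_CSs]
    exact ⟨hG.leB d hy, fun E hE => hG.val E (hS.sub hE) d hy⟩
  have hv : IsFlag (flg ρ (.w (inertia φ M q) (inertia φ M q))) :=
    isFlag_w ρ hc.hp hcard le_rfl
  have hspan := chart_span hfl hv hβ (fun E hE => had E (Set.mem_insert_of_mem _ hE))
    (had _ (Set.mem_insert _ _)) hyC hyv
  obtain ⟨y1, ⟨t, htβ, htS, htv, rfl⟩, hyU⟩ := exists_isU_of_span M q (by
    rintro y1 ⟨t, ht, htS, -, rfl⟩
    exact hS.chart d (monomial_mem_CSs hβ hfl ht htS)) hspan ((isU_atP_iff M q hy).2 hyq)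
  have h2 : (t.map (fun _ : U => 0)).sum
      < (t.map (lev (flg ρ (.w (inertia φ M q) (inertia φ M q))))).sum := by
    have h3 : (t.map (fun _ : U => 0)).sum = 0 := by simp
    rw [h3]
    have : (1 : ℤ) ≤ ((t.map (lev (flg ρ (.w (inertia φ M q) (inertia φ M q))))).sum : ℕ) := htv
    have h4 : 1 ≤ (t.map (lev (flg ρ (.w (inertia φ M q) (inertia φ M q))))).sum := by
      exact_mod_cast this
    omega
  obtain ⟨z, hz, hlt⟩ := List.exists_lt_of_sum_lt _ _ h2
  have hz0 : z ≠ 0 := by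
    have := hβ.1.ne_zero (⟨z, htβ z hz⟩ : β)
    exact this
  have hz1 : z ∈ flg ρ (.w (inertia φ M q) (inertia φ M q)) 1 :=
    (mem_iff_le_lev hv hz0).2 (by omega)
  have hz4 : z ∈ DP ρ (inertia φ M q) ⊤ := by
    rw [flg_one] at hz1
    simpa only [DP, Submodule.map_top, AN, Idx.grp] using hz1
  exact good_of_unit hc hG hS hcard (ptHyp_mono hpt (Set.subset_insert _ _)) (Y := ⊤)
    (Or.inr ⟨rfl, hno⟩) hz4 hz0
    (isU_factor hd hS.chart hβ hfl htβ htS hyU hz)

/-! ### Stages of Step 2 -/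

/-- The divisors of Step 2. -/
def EE2 (p : ℕ) (PP : Set (Subgroup G)) : Set (Idx G) :=
  {E | (∃ N, E = Idx.t N ∧ PPerf p N ∧ N ≠ ⊥) ∨
    ∃ P N, E = Idx.w P N ∧ N ∈ PP ∧ P ≤ N ∧ Nat.card P = p}

/-- The wild `p`-perfect groups. -/
def WW (G : Type) [Group G] (p : ℕ) : Set (Subgroup G) := {N | PPerf p N ∧ p ∣ Nat.card N}

/-- The stages of Step 2: `PP` is the set of processed wild groups. -/
structure St2 (L : Lin k U K) (ρ : Representation k G U) (φ : G →* (K ≃ₐ[k] K)) (p : ℕ)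
    (M : Fam k K ι) (a : ι) (l : Idx G → ι →+ ℤ) (e : Idx G → ι) (PP : Set (Subgroup G)) :
    Prop where
  glob : Glob L ρ φ M a (EE2 p PP) l e
  loc : ∀ (q : Ideal M.alg) [q.IsPrime], Semi M a q → ∃ S, Loc L ρ φ p M (EE2 p PP) l e q S ∧
    (inertia φ M q = ⊥ ∨ Nat.card (inertia φ M q) = p) ∧
    (¬ Good φ M e q S → ∀ N, Idx.t N ∈ S → p ∣ Nat.card N → N ∉ PP)

/-- There is a stage of Step 2 with processed groups `PP`. -/
def HasSt2 (L : Lin k U K) (ρ : Representation k G U) (φ : G →* (K ≃ₐ[k] K)) (p : ℕ)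
    (PP : Set (Subgroup G)) : Prop :=
  ∃ (ι : Type) (_ : AddCommGroup ι) (_ : Module.Free ℤ ι) (_ : Module.Finite ℤ ι)
    (M : Fam k K ι) (a : ι) (l : Idx G → ι →+ ℤ) (e : Idx G → ι), St2 L ρ φ p M a l e PP

variable {PP : Set (Subgroup G)}

theorem pperf_of_t_mem {N : Subgroup G} (h : Idx.t N ∈ EE2 p PP) : PPerf p N ∧ N ≠ ⊥ := by
  rcases h with ⟨N', h1, h2, h3⟩ | ⟨P', N', h1, -⟩
  · cases h1
    exact ⟨h2, h3⟩
  · cases h1

theorem of_w_mem {P N : Subgroup G} (h : Idx.w P N ∈ EE2 p PP) :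
    N ∈ PP ∧ P ≤ N ∧ Nat.card P = p := by
  rcases h with ⟨N', h1, -⟩ | ⟨P', N', h1, h2, h3, h4⟩
  · cases h1
  · cases h1
    exact ⟨h2, h3, h4⟩

theorem eq_of_le_of_card {P P' : Subgroup G} (h : Nat.card P = p)
    (h' : Nat.card P' = p) (hle : P ≤ P') : P = P' :=
  Subgroup.eq_of_le_of_card_ge hle (by rw [h, h'])

theorem key_not_pperf (hp : p.Prime) {P : Subgroup G} (h : Nat.card P = p) :
    ¬ PPerf p P := by
  intro hP
  have h1 : P = ⊥ := by
    rw [eq_bot_iff]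
    refine hP.trans ((Subgroup.closure_le _).2 ?_)
    rintro x ⟨hx, hxp⟩
    rw [SetLike.mem_coe, Subgroup.mem_bot]
    have h2 : orderOf x ∣ p := by
      rw [← h]
      exact Subgroup.orderOf_dvd_natCard P hx
    rcases (Nat.dvd_prime hp).1 h2 with h3 | h3
    · exact orderOf_eq_one_iff.1 h3
    · exact absurd (h3 ▸ dvd_rfl) hxp
  rw [h1, Subgroup.card_bot] at h
  exact hp.one_lt.ne h

theorem ptHyp_of_loc (hc : Ctx L ρ φ p) (hPP : PP ⊆ WW G p)
    (hS : Loc L ρ φ p M (EE2 p PP) l e q S) (hcard : Nat.card (inertia φ M q) = p) :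
    PtHyp p (inertia φ M q) S where
  t := fun N hN => ⟨(pperf_of_t_mem (hS.sub hN)).1, fun g hg => by
    have := hS.fix g hg _ hN
    simpa [Idx.cj] using this⟩
  w := fun P' N hN => by
    obtain ⟨h1, h2, h3⟩ := of_w_mem (hS.sub hN)
    have h4 := eq_of_le_of_card hcard h3 (hS.wle _ _ hN)
    exact ⟨h4.symm, Or.inr ⟨(hPP h1).1, h4 ▸ h2⟩⟩
  comp := hS.comp

/-- The extended configuration for the centre. -/
theorem ptHyp_insert (hc : Ctx L ρ φ p) (hPP : PP ⊆ WW G p)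
    (hS : Loc L ρ φ p M (EE2 p PP) l e q S) (hcard : Nat.card (inertia φ M q) = p)
    {N : Subgroup G} (hN : N = inertia φ M q ∨ PPerf p N ∧ inertia φ M q ≤ N ∧ Idx.t N ∈ S) :
    PtHyp p (inertia φ M q) (insert (Idx.w (inertia φ M q) N) S) := by
  have h := ptHyp_of_loc hc hPP hS hcard
  refine ⟨?_, ?_, ?_⟩
  · rintro N' (hN' | hN')
    · cases hN'
    · exact h.t N' hN'
  · rintro P' N' (hN' | hN')
    · cases hN'
      refine ⟨rfl, ?_⟩
      rcases hN with h1 | h1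
      · exact Or.inl h1
      · exact Or.inr ⟨h1.1, h1.2.1⟩
    · exact h.w P' N' hN'
  · -- comparability
    have key : ∀ E' ∈ S, PPerf p N → PPerf p E'.grp → E'.grp ≤ N ∨ N ≤ E'.grp := by
      intro E' hE' h1 h2
      rcases hN with h3 | h3
      · rw [h3] at h1
        exact absurd h1 (key_not_pperf hc.hp hcard)
      · exact h.comp E' hE' _ h3.2.2 h2 h1
    rintro E (hE | hE) E' (hE' | hE') h1 h2
    · rw [hE, hE']
      exact Or.inl le_rfl
    · rw [hE] at h1 ⊢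
      exact (key E' hE' h1 h2).symm
    · rw [hE'] at h2 ⊢
      exact key E hE h2 h1
    · exact h.comp E hE E' hE' h1 h2

/-- Blueprint 5.3 (i), (ii): a point in the centre has inertia group `P` and is bad. -/
theorem bad_of_cen [FiniteDimensional k U] [CharP k p] (hc : Ctx L ρ φ p)
    (hG : Glob L ρ φ M a EE l e) (hS : Loc L ρ φ p M EE l e q S)
    (hin : inertia φ M q = ⊥ ∨ Nat.card (inertia φ M q) = p)
    {P N : Subgroup G} (hP : Nat.card P = p) (hPN : P ≤ N) {lam : ι →+ ℤ}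
    (hr0 : ∀ d, M.s d ≤ L.Fil (flg ρ (.w P N)) (lam d))
    (hlam : ∀ P' N', Idx.w P' N' ∈ S → lam (e (.w P' N')) = 0)
    (hcen : Cen L (flg ρ) M lam q (.w P N)) :
    inertia φ M q = P ∧ ¬ Good φ M e q S := by
  have hv : IsFlag (flg ρ (.w P N)) := isFlag_w ρ hc.hp hP hPN
  have hdiff : ∀ g ∈ P, ∀ (m : ℤ) (y : K), y ∈ L.Fil (flg ρ (.w P N)) m →
      φ g y - y ∈ L.Fil (flg ρ (.w P N)) (m + 1) := fun g hg m y hy =>
    fil_diff L hv (φ g) (ρ g) (hc.hφ g) (fun m z hz => flg_w_diff ρ hPN hg m hz) hy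
  have hPi : P ≤ inertia φ M q := by
    intro g hg d x hx
    have h1 : φ g x - x ∈ M.s d := Submodule.sub_mem _ (hG.stable g d x hx) hx
    refine ⟨h1, hcen d _ h1 ?_⟩
    rw [add_comm]
    exact hdiff g hg _ x (hr0 d hx)
  have hcard : Nat.card (inertia φ M q) = p := by
    rcases hin with h1 | h1
    · exfalso
      rw [h1, le_bot_iff] at hPi
      rw [hPi, Subgroup.card_bot] at hP
      exact hc.hp.one_lt.ne hP
    · exact h1
  have hinP : inertia φ M q = P := (eq_of_le_of_card hP hcard hPi).symm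
  refine ⟨hinP, fun hgood => ?_⟩
  -- a nontrivial element
  obtain ⟨s, hsP, hs1⟩ : ∃ s ∈ P, s ≠ 1 := by
    by_contra hno
    push Not at hno
    have : P = ⊥ := by
      rw [Subgroup.eq_bot_iff_forall]
      exact hno
    rw [this, Subgroup.card_bot] at hP
    exact hc.hp.one_lt.ne hP
  obtain ⟨d, y, hy, hyU⟩ := hgood s (hPi hsP) hs1
  obtain ⟨c, f, hf, hfq, hf0, hfy⟩ := exists_frac M q hy
  -- `s f` is a unit
  have hsf : φ s f ∈ M.s c := hG.stable s c f hf
  have hfU : IsU (atP M q) c f := (isU_atP_iff M q hf).2 hfq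
  have hsfU : IsU (atP M q) c (φ s f) := by
    have h2 : IsU (atP M q) c (φ s f) ∨ IsU (atP M q) c (-(φ s f - f)) := by
      apply isU_add M q (le_atP M q c hsf) (Submodule.neg_mem _ (le_atP M q c
        (Submodule.sub_mem _ hsf hf)))
      rw [show φ s f + -(φ s f - f) = f by ring]
      exact hfU
    rcases h2 with h2 | h2
    · exact h2
    · exfalso
      apply inertia_not_isU φ M q (hPi hsP) (le_atP M q c hf)
      refine ⟨fun h0 => h2.1 (by rw [h0, neg_zero]), le_atP M q c (Submodule.sub_mem _ hsf hf), ?_⟩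
      have h3 := Submodule.neg_mem _ h2.2.2
      rwa [inv_neg, neg_neg] at h3
  -- the numerator
  set g0 : K := f * y with hg0
  set h0 : K := f * (φ s g0 - g0) - g0 * (φ s f - f) with hh0
  have hh : h0 = φ s f * f * (φ s y - y) := by
    rw [hh0, hg0, map_mul]; ring
  have hhU : IsU (atP M q) (c + c + (d + epsS e S)) h0 := by
    rw [hh]
    exact (hsfU.mul hfU).mul hyU
  obtain ⟨c', f', hf', hfq', hf0', hfh⟩ := exists_frac M q hhU.2.1
  have hU' : IsU (atP M q) (c' + (c + c + (d + epsS e S))) (f' * h0) :=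
    ((isU_atP_iff M q hf').2 hfq').mul hhU
  have hnot := (isU_atP_iff M q hfh).1 hU'
  apply hnot
  apply hcen
  -- the value
  have heps : lam (epsS e S) = 0 := by
    have hfin : {E | E ∈ S ∧ E.wt = 1}.Finite := finite_idx_set _
    rw [epsS, finsum_mem_eq_finite_toFinset_sum _ hfin, map_sum]
    refine Finset.sum_eq_zero fun E hE => ?_
    obtain ⟨h1, h2⟩ := hfin.mem_toFinset.1 hE
    cases E with
    | t N => exact absurd h2 (by simp [Idx.wt])
    | w P' N' => exact hlam P' N' h1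
  have v1 : f * (φ s g0 - g0) ∈ L.Fil (flg ρ (.w P N)) (lam c + (lam (c + d) + 1)) :=
    fil_mul L (hr0 c hf) (hdiff s hsP _ _ (hr0 _ hfy))
  have v2 : g0 * (φ s f - f) ∈ L.Fil (flg ρ (.w P N)) (lam (c + d) + (lam c + 1)) :=
    fil_mul L (hr0 _ hfy) (hdiff s hsP _ _ (hr0 _ hf))
  have v3 : h0 ∈ L.Fil (flg ρ (.w P N)) (lam c + (lam (c + d) + 1)) := by
    refine Submodule.sub_mem _ v1 ?_
    rw [show lam c + (lam (c + d) + 1) = lam (c + d) + (lam c + 1) by ring]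
    exact v2
  have v4 := fil_mul L (hr0 _ hf') v3
  refine fil_anti L _ (le_of_eq ?_) v4
  simp only [map_add, heps]
  ring

/-- Blueprint 5.3 (iii), (iv). -/
theorem t_mem_of_cen [FiniteDimensional k U] [CharP k p] (hc : Ctx L ρ φ p)
    (hPP : PP ⊆ WW G p) (hG : Glob L ρ φ M a (EE2 p PP) l e)
    (hS : Loc L ρ φ p M (EE2 p PP) l e q S)
    (hbad : ∀ N, Idx.t N ∈ S → p ∣ Nat.card N → N ∉ PP)
    {N : Subgroup G} (hN : N ∈ WW G p) (hNP : N ∉ PP) (hmin : ∀ N1 ∈ WW G p, N1 < N → N1 ∈ PP)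
    {P : Subgroup G} (hP : Nat.card P = p) (hPN : P ≤ N) (hin : inertia φ M q = P)
    (hcen : Cen L (flg ρ) M (l (.t N)) q (.w P N)) :
    Idx.t N ∈ S ∧ ∀ N1, Idx.t N1 ∈ S → p ∣ Nat.card N1 → N ≤ N1 := by
  have hNE : Idx.t N ∈ EE2 p PP := Or.inl ⟨N, rfl, hN.1, by
    rintro rfl
    have h1 := hN.2
    rw [Subgroup.card_bot] at h1
    exact hc.hp.one_lt.ne' (Nat.dvd_one.1 h1)⟩
  have h1 : ∃ g, (Idx.t N).cj g ∈ S := by
    by_contra hno
    push Not at hno
    obtain ⟨c, f, hf, hfq, -, hfe⟩ := exists_frac M q (hS.uni _ hNE hno)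
    rw [mul_one] at hfe
    apply hfq
    apply hcen c f hf
    have h2 := fil_mono L (flg_t_le ρ P N) _ (hG.val _ hNE _ hfe)
    refine fil_anti L _ (le_of_eq ?_) h2
    rw [map_add, hG.self _ hNE, add_comm]
  have htN : Idx.t N ∈ S := by
    obtain ⟨g, hg⟩ := h1
    by_cases hgN : (Idx.t N).cj g = Idx.t N
    · rwa [hgN] at hg
    · exfalso
      have hg' : Idx.t (cj g N) ∈ S := hg
      have h2 : cj g⁻¹ (cj g N) = N := by
        rw [← cj_mul, inv_mul_cancel, cj_one]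
      have h3 : cj g⁻¹ (cj g N) ≠ cj g N := by
        rw [h2]
        intro h4
        apply hgN
        show Idx.t (cj g N) = Idx.t N
        rw [← h4]
      obtain ⟨d, y, hy, hyq, hyv, hyl⟩ := hS.sep _ hg' g⁻¹ h3
      apply hyq
      apply hcen d y hy
      rw [h2] at hyv
      have h5 : l (Idx.t (cj g N)) = l (Idx.t N) := hG.lcj g _ hNE
      rw [h5] at hyl
      rw [hyl, add_zero]
      exact fil_mono L (flg_t_le ρ P N) _ hyv
  refine ⟨htN, fun N1 h2 h3 => ?_⟩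
  have h4 := (pperf_of_t_mem (hS.sub h2)).1
  rcases hS.comp _ h2 _ htN h4 hN.1 with h5 | h5
  · rcases eq_or_lt_of_le h5 with h6 | h6
    · exact le_of_eq h6.symm
    · exact absurd (hmin N1 ⟨h4, h3⟩ h6) (hbad N1 h2 h3)
  · exact h5

/-- Converse of 5.3, wild case. -/
theorem cen_of_bad_wild [FiniteDimensional k U] [CharP k p] (hc : Ctx L ρ φ p)
    (hPP : PP ⊆ WW G p)
    (hG : Glob L ρ φ M a (EE2 p PP) l e) (hS : Loc L ρ φ p M (EE2 p PP) l e q S)
    (hcard : Nat.card (inertia φ M q) = p) (hngood : ¬ Good φ M e q S)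
    (hbad : ∀ N, Idx.t N ∈ S → p ∣ Nat.card N → N ∉ PP)
    {N : Subgroup G} (ht : Idx.t N ∈ S) (hN : N ∈ WW G p)
    (hmin : ∀ N1 ∈ WW G p, N1 < N → N1 ∈ PP) :
    inertia φ M q ≤ N ∧ Cen L (flg ρ) M (l (.t N)) q (.w (inertia φ M q) N) := by
  have hpt := ptHyp_of_loc hc hPP hS hcard
  have hPN : inertia φ M q ≤ N := le_of_dvd_card hc.hp hc.hG hcard (hpt.t N ht).2 hN.2
  refine ⟨hPN, ?_⟩
  by_contra hcen
  apply hngood
  unfold Cen at hcen
  push Not at hcen
  obtain ⟨d, y, hy, hyv, hyq⟩ := hcen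
  refine key_wild hc hG hS hcard (ptHyp_insert hc hPP hS hcard (Or.inr ⟨hN.1, hPN, ht⟩)) hN.1 hPN ht
    (fun N1 h2 h3 => ?_) hy hyq hyv
  have h4 := (pperf_of_t_mem (hS.sub h2)).1
  rcases hS.comp _ h2 _ ht h4 hN.1 with h5 | h5
  · rcases eq_or_lt_of_le h5 with h6 | h6
    · exact le_of_eq h6.symm
    · exact absurd (hmin N1 ⟨h4, h3⟩ h6) (hbad N1 h2 h3)
  · exact h5

/-- Converse of 5.3, tame case. -/
theorem cen_of_bad_tame [FiniteDimensional k U] [CharP k p] (hc : Ctx L ρ φ p)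
    (hG : Glob L ρ φ M a (EE2 p (WW G p)) l e)
    (hS : Loc L ρ φ p M (EE2 p (WW G p)) l e q S)
    (hcard : Nat.card (inertia φ M q) = p) (hngood : ¬ Good φ M e q S)
    (hbad : ∀ N, Idx.t N ∈ S → p ∣ Nat.card N → N ∉ WW G p) :
    Cen L (flg ρ) M 0 q (.w (inertia φ M q) (inertia φ M q)) := by
  by_contra hcen
  apply hngood
  unfold Cen at hcen
  push Not at hcen
  obtain ⟨d, y, hy, hyv, hyq⟩ := hcen
  refine key_tame hc hG hS hcard (ptHyp_insert hc subset_rfl hS hcard (Or.inl rfl))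
    (fun N1 h1 h2 => hbad N1 h1 h2 ⟨(pperf_of_t_mem (hS.sub h1)).1, h2⟩) hy hyq ?_
  simpa using hyv

end Pool.Agent.MP_b525bf_ag_W
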