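import Pool.Agent.Lib.MP_b525bf_ag_W.Rees_formal

set_option autoImplicit false

namespace Pool.Agent.MP_b525bf_ag_W

open Pool.Agent.MP_b525bf_ag Module AddMonoidAlgebra

variable {k U K ι Ix : Type} [Field k] [AddCommGroup U] [Module k U] [Field K] [Algebra k K]
  [AddCommGroup ι] {L : Lin k U K} {fl : Ix → ℕ → Submodule k U} {M : Fam k K ι} {O : Set Ix}
  {lam : ι →+ ℤ} {bmax : ℕ}

section

variable {q' : Ideal (rees L fl M O lam bmax).alg} [q'.IsPrime] {q : Ideal M.alg} [q.IsPrime]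

theorem fil_pow' {v : ℕ → Submodule k U} {m : ℤ} {x : K} (hx : x ∈ L.Fil v m) (n : ℕ) :
    x ^ n ∈ L.Fil v (n * m) := by
  induction n with
  | zero => simpa using one_mem_fil L v (m := 0) le_rfl
  | succ n ih =>
    have := fil_mul L ih hx
    rw [pow_succ]
    refine fil_anti L _ (le_of_eq ?_) this
    push_cast
    ring

/-- An element of `F_E'(b)` outside `q`, for all `E' ≠ E` in `O`. -/
theorem exists_notMem_fil (h : RHyp L fl M O lam bmax) {E : Ix}
    (huniq : ∀ E' ∈ O, E' ≠ E → ¬ Cen L fl M lam q E') {b : ℕ} (hb : 1 ≤ b) :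
    ∃ (c : ι) (f : K) (hf : f ∈ M.s c), M.el hf ∉ q ∧
      ∀ E' ∈ O, E' ≠ E → f ∈ L.Fil (fl E') (b + lam c) := by
  classical
  have key : ∀ R : Finset Ix, (∀ E' ∈ R, E' ∈ O ∧ E' ≠ E) → ∃ (c : ι) (f : K) (hf : f ∈ M.s c),
      M.el hf ∉ q ∧ ∀ E' ∈ R, f ∈ L.Fil (fl E') (b + lam c) := by
    intro R
    induction R using Finset.induction_on with
    | empty =>
      intro _
      exact ⟨0, 1, M.one', by
        rw [M.el_one]; exact (Ideal.ne_top_iff_one q).1 (Ideal.IsPrime.ne_top inferInstance),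
        by simp⟩
    | insert E1 R hE1 ih =>
      intro hR
      obtain ⟨c, f, hf, hfq, hfR⟩ := ih fun E' hE' => hR E' (Finset.mem_insert_of_mem hE')
      obtain ⟨hE1O, hE1E⟩ := hR E1 (Finset.mem_insert_self _ _)
      have h1 := huniq E1 hE1O hE1E
      rw [Cen] at h1
      push Not at h1
      obtain ⟨d, y, hy, hyv, hyq⟩ := h1
      have hyb : y ^ b ∈ M.s (b • d) := M.pow' hy b
      have hyb' : M.el hyb ∉ q := by
        rw [← M.el_pow hy b]
        intro h2
        exact hyq (Ideal.IsPrime.mem_of_pow_mem inferInstance b h2)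
      have hybv : y ^ b ∈ L.Fil (fl E1) (b + lam (b • d)) := by
        have h2 := fil_pow' hyv b
        refine fil_anti L _ (le_of_eq ?_) h2
        rw [map_nsmul, nsmul_eq_mul]
        ring
      refine ⟨b • d + c, y ^ b * f, M.mul' hyb hf, ?_, ?_⟩
      · rw [← M.el_mul hyb hf]
        exact Ideal.IsPrime.mul_notMem inferInstance hyb' hfq
      · intro E' hE'
        rcases Finset.mem_insert.1 hE' with rfl | hE'
        · have h2 := fil_mul L hybv (h.r0 E' hE1O c hf)
          refine fil_anti L _ (le_of_eq ?_) h2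
          rw [map_add]
          ring
        · have h2 := fil_mul L (h.r0 E' (hR E' (Finset.mem_insert_of_mem hE')).1 _ hyb)
            (hfR E' hE')
          refine fil_anti L _ (le_of_eq ?_) h2
          rw [map_add]
          ring
  obtain ⟨c, f, hf, hfq, hfR⟩ := key (h.fin.toFinset.filter (· ≠ E)) (by
    intro E' hE'
    simpa using hE')
  exact ⟨c, f, hf, hfq, fun E' hE' hne => hfR E' (by simp [hE', hne])⟩

/-- Blueprint 1.4 (*). -/
theorem mem_atP_rees (h : RHyp L fl M O lam bmax)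
    (hov : Over M (rees L fl M O lam bmax) (inlZ ι) q q') {E : Ix}
    (huniq : ∀ E' ∈ O, E' ≠ E → ¬ Cen L fl M lam q E') {d : ι} {y : K} (hy : y ∈ (atP M q).s d)
    {b : ℕ} (hb : b ≤ bmax) (hyv : y ∈ L.Fil (fl E) (b + lam d)) :
    y ∈ (atP (rees L fl M O lam bmax) q').s (d, (b : ℤ)) := by
  rcases Nat.eq_zero_or_pos b with rfl | hb0
  · have := Over.atP (j := inlZ ι) (fun d => le_rees d) hov d hy
    simpa using this
  obtain ⟨c, f, hf, hfq, hfy⟩ := hy
  obtain ⟨c', f', hf', hfq', hfv'⟩ := exists_notMem_fil h huniq (b := b) hb0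
  have hff : f' * f ∈ M.s (c' + c) := M.mul' hf' hf
  have hffq : M.el hff ∉ q := by
    rw [← M.el_mul hf' hf]
    exact Ideal.IsPrime.mul_notMem inferInstance hfq' hfq
  have hff' : f' * f ∈ (rees L fl M O lam bmax).s (inlZ ι (c' + c)) := le_rees _ hff
  refine ⟨inlZ ι (c' + c), f' * f, hff', ?_, ?_⟩
  · rw [← hov (c' + c) (f' * f) hff hff']
    exact hffq
  · have e : f' * f * y = f' * (f * y) := by ring
    have h1 : f' * (f * y) ∈ FOs L fl M O lam b (c' + (c + d)) := by
      refine ⟨M.mul' hf' hfy, ?_⟩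
      simp only [Submodule.mem_iInf, SetLike.mem_coe]
      intro E' hE'
      by_cases hE : E' = E
      · subst hE
        have h2 := fil_mul L (h.r0 E' hE' _ hf') (fil_mul L (h.r0 E' hE' _ hf) hyv)
        refine fil_anti L _ (le_of_eq ?_) h2
        rw [map_add, map_add]
        ring
      · have h2 := fil_mul L (hfv' E' hE' hE) (h.r0 E' hE' _ hfy)
        refine fil_anti L _ (le_of_eq ?_) h2
        rw [map_add]
        ring
    have h3 := FOs_le_rees (bmax := bmax) hb0 hb _ h1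
    rw [e]
    convert h3 using 2
    rw [inlZ_apply]
    ext
    · simp [add_assoc]
    · simp

theorem atP_le_fil [FiniteDimensional k U] (h : RHyp L fl M O lam bmax) {E : Ix} (hE : E ∈ O)
    (hcen : Cen L fl M lam q E) {d : ι} {y : K} (hy : y ∈ (atP M q).s d) (hyB : y ∈ L.B) :
    y ∈ L.Fil (fl E) (lam d) := by
  obtain ⟨c, f, hf, hfq, hfy⟩ := hy
  have h1 : f ∉ L.Fil (fl E) (lam c + 1) := by
    intro h2
    rw [add_comm] at h2
    exact hfq (hcen c f hf h2)
  refine fil_cancel L (h.flag E hE) (h.leB _ hf) h1 hyB ?_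
  have := h.r0 E hE _ hfy
  rwa [map_add] at this

theorem atP_mul_list {N : Fam k K ι} (t : List U) (d : U → ι) (x : U → K)
    (hx : ∀ b ∈ t, x b ∈ N.s (d b)) : (t.map x).prod ∈ N.s ((t.map d).sum) := by
  induction t with
  | nil => simpa using N.one'
  | cons b t ih =>
    simp only [List.map_cons, List.prod_cons, List.sum_cons]
    exact N.mul' (hx b List.mem_cons_self) (ih fun b' hb' => hx b' (List.mem_cons_of_mem _ hb'))

theorem one_finset_sum {N : Fam k K ι} (R : Finset Ix) (m : Ix → ℕ) (e : Ix → ι)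
    (he : ∀ E ∈ R, (1 : K) ∈ N.s (e E)) : (1 : K) ∈ N.s (∑ E ∈ R, m E • e E) := by
  classical
  induction R using Finset.induction_on with
  | empty => simpa using N.one'
  | insert E R hE ih =>
    rw [Finset.sum_insert hE]
    have h1 := N.pow' (he E (Finset.mem_insert_self _ _)) (m E)
    rw [one_pow] at h1
    have := N.mul' h1 (ih fun E' hE' => he E' (Finset.mem_insert_of_mem hE'))
    rwa [mul_one] at this

/-- Blueprint 1.4. -/
theorem chart_rees [FiniteDimensional k U] (h : RHyp L fl M O lam bmax)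
    (hov : Over M (rees L fl M O lam bmax) (inlZ ι) q q') {E : Ix} (hE : E ∈ O)
    (hcen : Cen L fl M lam q E) (huniq : ∀ E' ∈ O, E' ≠ E → ¬ Cen L fl M lam q E')
    {S : Set Ix} {l : Ix → ι →+ ℤ} {e : Ix → ι} (hS : S.Finite) (hES : E ∉ S)
    (hflS : ∀ E' ∈ S, IsFlag (fl E')) (had : AdaptedTo fl (insert E S)) (hdual : Dual l e S)
    (hch : ∀ d, CSs L fl l S d ≤ (atP M q).s d)
    (hker : ∀ z, (∀ E' ∈ S, l E' z = 0) → lam z = 0)
    (hlam : ∀ E' ∈ S, 0 ≤ lam (e E') ∧ lam (e E') ≤ bmax)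
    {l' : Ix → ι × ℤ →+ ℤ} (hl' : ∀ E' ∈ S, ∀ (d : ι) (n : ℤ), l' E' (d, n) = l E' d)
    (hl'E : ∀ (d : ι) (n : ℤ), l' E (d, n) = n + lam d) (d : ι × ℤ) :
    CSs L fl l' (insert E S) d ≤ (atP (rees L fl M O lam bmax) q').s d := by
  classical
  obtain ⟨d, n⟩ := d
  intro y hy
  rw [mem_CSs] at hy
  obtain ⟨hyB, hyS⟩ := hy
  obtain ⟨β, hβ, hadβ⟩ := had
  have hE1 := h.flag E hE
  have hyE : y ∈ L.Fil (fl E) (n + lam d) := by
    rw [← hl'E]
    exact hyS E (Set.mem_insert _ _)
  have hyC : y ∈ CSs L fl l S d := by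
    rw [mem_CSs]
    refine ⟨hyB, fun E' hE' => ?_⟩
    rw [← hl' E' hE' d n]
    exact hyS E' (Set.mem_insert_of_mem _ hE')
  have hspan := chart_span hflS hE1 hβ (fun E' hE' => hadβ E' (Set.mem_insert_of_mem _ hE'))
    (hadβ E (Set.mem_insert _ _)) hyC hyE
  refine Submodule.span_le.2 ?_ hspan
  rintro y1 ⟨t, htβ, htS, htE, rfl⟩
  set N := atP (rees L fl M O lam bmax) q' with hN
  -- the degree of a basis vector
  set R := hS.toFinset with hR
  have hRS : ∀ E', E' ∈ R ↔ E' ∈ S := fun E' => by rw [hR, Set.Finite.mem_toFinset]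
  set db : U → ι := fun b => ∑ E' ∈ R, lev (fl E') b • e E' with hdb
  have hldb : ∀ E' ∈ S, ∀ m : Ix → ℕ, l E' (∑ E'' ∈ R, m E'' • e E'') = m E' := by
    intro E' hE' m
    rw [map_sum, Finset.sum_eq_single_of_mem E' ((hRS E').2 hE')]
    · rw [map_nsmul, hdual.self E' hE']
      simp
    · intro x hx hne
      rw [map_nsmul, hdual.ne E' hE' x ((hRS x).1 hx) (Ne.symm hne), smul_zero]
  have hlamsum : ∀ m : Ix → ℕ, lam (∑ E'' ∈ R, m E'' • e E'') = ∑ E'' ∈ R, m E'' * lam (e E'') := by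
    intro m
    rw [map_sum]
    exact Finset.sum_congr rfl fun x _ => by rw [map_nsmul, nsmul_eq_mul]
  have hlam0 : ∀ m : Ix → ℕ, 0 ≤ lam (∑ E'' ∈ R, m E'' • e E'') := by
    intro m
    rw [hlamsum]
    refine Finset.sum_nonneg ?_
    intro x hx
    exact mul_nonneg (by positivity) (hlam x ((hRS x).1 hx)).1
  -- basis vectors
  have hb : ∀ b ∈ t, L.lin b ∈ N.s (db b, (lev (fl E) b : ℤ) - lam (db b)) := by
    intro b hb
    have hb0 : b ≠ 0 := hβ.ne_zero (htβ b hb)
    have h1 : L.lin b ∈ CSs L fl l S (db b) := by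
      rw [mem_CSs]
      refine ⟨lin_mem_B L b, fun E' hE' => ?_⟩
      rw [hldb E' hE']
      exact lin_mem_fil L ((mem_iff_le_lev (hflS E' hE') hb0).2 le_rfl)
    have h2 := hch _ h1
    have h3 : L.lin b ∈ L.Fil (fl E) (lev (fl E) b : ℕ) :=
      lin_mem_fil L ((mem_iff_le_lev hE1 hb0).2 le_rfl)
    have h4 : lam (db b) ≤ lev (fl E) b := by
      have h5 := atP_le_fil h hE hcen h2 (lin_mem_B L b)
      have h6 := le_of_monomial_mem_fil L hβ hE1 (hadβ E (Set.mem_insert _ _)) [b]
        (by simpa using htβ b hb) (m := lam (db b)) (by simpa using h5)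
      simpa using h6
    have h5 : lev (fl E) b ≤ bmax := by
      by_contra h6
      push Not at h6
      have h7 := (mem_iff_le_lev hE1 hb0).2 (Nat.succ_le_of_lt h6)
      rw [Nat.succ_eq_add_one, h.len E hE] at h7
      exact hb0 ((Submodule.mem_bot k).1 h7)
    have h6 : (((lev (fl E) b : ℤ) - lam (db b)).toNat : ℤ) = (lev (fl E) b : ℤ) - lam (db b) :=
      Int.toNat_of_nonneg (by omega)
    have h7 := mem_atP_rees h hov huniq h2 (b := ((lev (fl E) b : ℤ) - lam (db b)).toNat)
      (by have := hlam0 (fun E' => lev (fl E') b); simp only [hdb] at *; omega) (by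
        rw [h6, sub_add_cancel]
        exact h3)
    rw [h6] at h7
    exact h7
  -- the sections of the old divisors
  have he : ∀ E' ∈ R, (1 : K) ∈ N.s (-(e E'), lam (e E')) := by
    intro E' hE'
    have hE'' := (hRS E').1 hE'
    obtain ⟨h0, h1⟩ := hlam E' hE''
    have h2 : (1 : K) ∈ (atP M q).s (-(e E')) := by
      refine hch _ ?_
      rw [mem_CSs]
      refine ⟨L.B.one_mem, fun E2 hE2 => one_mem_fil L _ ?_⟩
      rw [map_neg]
      by_cases h3 : E2 = E'
      · subst h3
        rw [hdual.self E2 hE2]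
        omega
      · rw [hdual.ne E2 hE2 E' hE'' h3]
        simp
    have h6 : ((lam (e E')).toNat : ℤ) = lam (e E') := Int.toNat_of_nonneg h0
    have h7 := mem_atP_rees h hov huniq h2 (b := (lam (e E')).toNat) (by omega) (by
        rw [h6, map_neg, add_neg_cancel]
        exact one_mem_fil L _ le_rfl)
    rw [h6] at h7
    exact h7
  -- exponents
  set be : Ix → ℕ := fun E' => (((t.map (lev (fl E'))).sum : ℕ) - l E' d).toNat with hbe
  have hbe' : ∀ E' ∈ S, (be E' : ℤ) = ((t.map (lev (fl E'))).sum : ℕ) - l E' d := by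
    intro E' hE'
    exact Int.toNat_of_nonneg (by have := htS E' hE'; omega)
  -- the sum of the degrees of the basis vectors
  have hsum : (t.map db).sum = ∑ E' ∈ R, (t.map (lev (fl E'))).sum • e E' := by
    clear hb htβ htS htE hbe hbe'
    induction t with
    | nil => simp
    | cons b t ih =>
      rw [List.map_cons, List.sum_cons, ih, hdb, ← Finset.sum_add_distrib]
      refine Finset.sum_congr rfl fun x _ => ?_
      rw [List.map_cons, List.sum_cons, add_smul]
  set ζ : ι := d - (t.map db).sum + ∑ E' ∈ R, be E' • e E' with hζ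
  have hζ0 : ∀ E' ∈ S, l E' ζ = 0 := by
    intro E' hE'
    rw [hζ, map_add, map_sub, hsum, hldb E' hE', hldb E' hE', hbe' E' hE']
    ring
  have hlamζ : lam ζ = 0 := hker ζ hζ0
  have hζ1 : (1 : K) ∈ N.s (ζ, 0) := by
    have h2 : (1 : K) ∈ (atP M q).s ζ := by
      refine hch _ ?_
      rw [mem_CSs]
      refine ⟨L.B.one_mem, fun E2 hE2 => one_mem_fil L _ ?_⟩
      rw [hζ0 E2 hE2]
    exact Over.atP (j := inlZ ι) (fun d => le_rees d) hov ζ h2
  have hs : ∀ m : ℕ, (1 : K) ∈ N.s (0, -(m : ℤ)) := by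
    intro m
    have h1 : (1 : K) ∈ N.s (0, -1) := le_atP _ _ _ one_rees
    have h2 := N.pow' h1 m
    rw [one_pow] at h2
    convert h2 using 2
    ext <;> simp
  have h1 := atP_mul_list t (fun b => (db b, (lev (fl E) b : ℤ) - lam (db b))) L.lin hb
  have h2 := one_finset_sum R be (fun E' => (-(e E'), lam (e E'))) he
  have h3 := N.mul' (N.mul' h1 h2) (N.mul' hζ1
    (hs ((((t.map (lev (fl E))).sum : ℕ) - (n + lam d)).toNat)))
  rw [mul_one, mul_one, mul_one] at h3
  refine (congrArg (fun z => (t.map L.lin).prod ∈ N.s z) ?_).mp h3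
  have hfst : ∀ t : List U, (t.map fun b => (db b, (lev (fl E) b : ℤ) - lam (db b))).sum =
      ((t.map db).sum, ((t.map (lev (fl E))).sum : ℕ) - lam ((t.map db).sum)) := by
    intro t
    induction t with
    | nil => simp; rfl
    | cons b t ih =>
      rw [List.map_cons, List.sum_cons, ih]
      simp only [List.map_cons, List.sum_cons, map_add, Prod.mk_add_mk, Nat.cast_add,
        Prod.mk.injEq, true_and]
      ring
  have hsnd : ∑ E' ∈ R, be E' • ((-(e E'), lam (e E')) : ι × ℤ) =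
      (-∑ E' ∈ R, be E' • e E', lam (∑ E' ∈ R, be E' • e E')) := by
    ext
    · simp [Prod.fst_sum]
    · simp [Prod.snd_sum, hlamsum]
  have hex : (((((t.map (lev (fl E))).sum : ℕ) - (n + lam d)).toNat : ℕ) : ℤ) =
      ((t.map (lev (fl E))).sum : ℕ) - (n + lam d) := Int.toNat_of_nonneg (by omega)
  rw [hfst, hsnd]
  have hl2 : lam ζ = lam d - lam (t.map db).sum + lam (∑ E' ∈ R, be E' • e E') := by
    rw [hζ, map_add, map_sub]
  rw [hlamζ] at hl2
  ext
  · simp only [Prod.fst_add]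
    rw [hζ]
    abel
  · simp only [Prod.snd_add]
    rw [hex]
    linarith

end

end Pool.Agent.MP_b525bf_ag_W
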