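import Pool.Agent.Lib.MP_b525bf_ag_W.Rees_formal
import Pool.Agent.Lib.MP_b525bf_ag_helper53.FamLoc

/-!
# W5: explicit generators of the Rees family and semistability
-/

set_option autoImplicit false

namespace Pool.Agent.MP_b525bf_ag_W

open Pool.Agent.MP_b525bf_ag Module AddMonoidAlgebra

variable {k U K ι Ix : Type} [Field k] [AddCommGroup U] [Module k U] [Field K] [Algebra k K]
  [AddCommGroup ι] {L : Lin k U K} {fl : Ix → ℕ → Submodule k U} {M : Fam k K ι} {O : Set Ix}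
  {lam : ι →+ ℤ} {bmax : ℕ}

/-- The homogeneous generators of the ideal `F_O(b)`. -/
def fgens (L : Lin k U K) (fl : Ix → ℕ → Submodule k U) (M : Fam k K ι) (O : Set Ix)
    (lam : ι →+ ℤ) (b : ℕ) : Set M.alg :=
  {z | ∃ (d : ι) (y : K) (hy : y ∈ M.s d), y ∈ FOs L fl M O lam b d ∧ z = M.el hy}

theorem alg_noeth (hfg : M.alg.FG) : IsNoetherianRing M.alg := by
  have : Algebra.FiniteType k M.alg := (Subalgebra.fg_iff_finiteType _).1 hfg
  exact Algebra.FiniteType.isNoetherianRing k M.alg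

theorem exists_fgens (hfg : M.alg.FG) (b : ℕ) :
    ∃ (t : ℕ) (d : Fin t → ι) (f : Fin t → K) (hf : ∀ i, f i ∈ M.s (d i)),
      (∀ i, f i ∈ FOs L fl M O lam b (d i)) ∧
      Ideal.span (fgens L fl M O lam b) ≤ Ideal.span (Set.range fun i => M.el (hf i)) := by
  classical
  have := alg_noeth hfg
  have h1 : (Ideal.span (fgens L fl M O lam b)).FG := IsNoetherian.noetherian _
  obtain ⟨T, hT, hT'⟩ := (Submodule.fg_span_iff_fg_span_finset_subset _).1 h1
  choose! d f hf hf' hz using fun (z : M.alg) (hz : z ∈ T) => hT (Finset.mem_coe.2 hz)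
  let e := T.equivFin
  refine ⟨T.card, fun i => d (e.symm i).1, fun i => f (e.symm i).1,
    fun i => hf _ (e.symm i).2, fun i => hf' _ (e.symm i).2, ?_⟩
  refine le_trans (le_of_eq hT') (Ideal.span_mono ?_)
  intro z hzT
  refine ⟨e ⟨z, hzT⟩, ?_⟩
  have := hz z hzT
  simp only [Equiv.symm_apply_apply]
  exact this.symm

/-- A homogeneous element of an ideal generated by homogeneous elements is a homogeneous
combination. -/
theorem hom_comb {t : ℕ} {d : Fin t → ι} {f : Fin t → K} (hf : ∀ i, f i ∈ M.s (d i)) {c : ι}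
    {y : K} (hy : y ∈ M.s c) (h : M.el hy ∈ Ideal.span (Set.range fun i => M.el (hf i))) :
    ∃ g : Fin t → K, (∀ i, g i ∈ M.s (c - d i)) ∧ y = ∑ i, g i * f i := by
  classical
  obtain ⟨a, ha⟩ := (Ideal.mem_span_range_iff_exists_fun).1 h
  refine ⟨fun i => (a i).1.coeff (c - d i), fun i => (a i).2 (c - d i), ?_⟩
  have h1 : (∑ i, (a i).1 * (single (d i) (f i) : AddMonoidAlgebra K ι)) = single c y := by
    have h2 := congrArg Subtype.val ha
    rw [AddSubmonoidClass.coe_finsetSum] at h2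
    exact h2
  have h3 := congrArg (fun z : AddMonoidAlgebra K ι => z.coeff c) h1
  simp only [AddMonoidAlgebra.coeff_sum, Finsupp.finsetSum_apply] at h3
  rw [show (single c y : AddMonoidAlgebra K ι).coeff c = y by simp] at h3
  rw [← h3]
  refine Finset.sum_congr rfl fun i _ => ?_
  rw [coeff_mul_single_eq_coeff_mul (c - d i) (by
    intro m _
    exact ⟨fun h => eq_sub_of_add_eq h, fun h => by rw [h]; abel⟩)]

theorem exists_rees_gens (h : RHyp L fl M O lam bmax) :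
    ∃ (r t : ℕ) (δ : Fin r → ι) (x : Fin r → K) (d : Fin t → ι) (b : Fin t → ℕ) (f : Fin t → K),
      (∀ i, x i ∈ M.s (δ i)) ∧ (∀ i, 1 ≤ b i ∧ b i ≤ bmax) ∧
      (∀ i, f i ∈ FOs L fl M O lam (b i) (d i)) ∧
      M.alg = Algebra.adjoin k
        (Set.range fun i => (single (δ i) (x i) : AddMonoidAlgebra K ι)) ∧
      (rees L fl M O lam bmax).alg = Algebra.adjoin k
        ((Set.range fun i => (single (δ i, 0) (x i) : AddMonoidAlgebra K (ι × ℤ))) ∪
        {single (0, -1) 1} ∪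
        (Set.range fun i => (single (d i, (b i : ℤ)) (f i) : AddMonoidAlgebra K (ι × ℤ)))) := by
  classical
  obtain ⟨r, δ, x, hx, hgen⟩ := M.exists_generators h.fg
  choose t d f hf hf' hspan using
    fun b : ℕ => exists_fgens (L := L) (fl := fl) (O := O) (lam := lam) h.fg b
  let σ := Σ b : Fin bmax, Fin (t (b.1 + 1))
  let e : σ ≃ Fin (Fintype.card σ) := Fintype.equivFin σ
  refine ⟨r, Fintype.card σ, δ, x, fun i => d _ (e.symm i).2, fun i => (e.symm i).1.1 + 1,
    fun i => f _ (e.symm i).2, hx, fun i => ⟨Nat.succ_pos _, ?_⟩, fun i => hf' _ (e.symm i).2,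
    hgen, ?_⟩
  · exact Nat.succ_le_of_lt (e.symm i).1.2
  · have hS : (rees L fl M O lam bmax).alg = Algebra.adjoin k (rgens L fl M O lam bmax) := by
      refine H53.alg_ofSub_adjoin _ ?_
      rintro F ((⟨d, x, _, rfl⟩ | hF) | ⟨d, b, _, _, y, _, rfl⟩)
      · exact ⟨_, _, rfl⟩
      · exact ⟨_, _, hF⟩
      · exact ⟨_, _, rfl⟩
    rw [hS]
    set R := Algebra.adjoin k
        ((Set.range fun i => (single (δ i, 0) (x i) : AddMonoidAlgebra K (ι × ℤ))) ∪
        {single (0, -1) 1} ∪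
        (Set.range fun i => (single (d _ (e.symm i).2, (((e.symm i).1.1 + 1 : ℕ) : ℤ))
          (f _ (e.symm i).2) : AddMonoidAlgebra K (ι × ℤ)))) with hR
    have hM : ∀ (c : ι) (y : K), y ∈ M.s c → (single (c, 0) y : AddMonoidAlgebra K (ι × ℤ)) ∈ R := by
      intro c y hy
      have h1 : M.alg ≤ ((Fam.ofSub R).comap (inlZ ι)).alg := by
        rw [hgen]
        refine Algebra.adjoin_le ?_
        rintro _ ⟨i, rfl⟩
        refine Fam.single_mem_alg.2 ?_
        change single (δ i, 0) (x i) ∈ R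
        exact Algebra.subset_adjoin (Or.inl (Or.inl ⟨i, rfl⟩))
      exact (Fam.single_mem_alg (M := (Fam.ofSub R).comap (inlZ ι))).1
        (h1 (Fam.single_mem_alg.2 hy))
    refine le_antisymm (Algebra.adjoin_le ?_) (Algebra.adjoin_mono ?_)
    · rintro F ((⟨c, y, hy, rfl⟩ | hF) | ⟨c, b, hb, hb', y, hy, rfl⟩)
      · exact hM c y hy
      · exact Algebra.subset_adjoin (Or.inl (Or.inr hF))
      · obtain ⟨b, rfl⟩ : ∃ b₁, b = b₁ + 1 := ⟨b - 1, by omega⟩
        have hyM : y ∈ M.s c := hy.1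
        have h1 : M.el hyM ∈ Ideal.span (Set.range fun i => M.el (hf (b + 1) i)) :=
          hspan (b + 1) (Ideal.subset_span ⟨c, y, hyM, hy, rfl⟩)
        obtain ⟨g, hg, hgy⟩ := hom_comb (hf (b + 1)) hyM h1
        have h2 : (single (c, ((b + 1 : ℕ) : ℤ)) y : AddMonoidAlgebra K (ι × ℤ)) =
            ∑ i, single (c - d (b + 1) i, 0) (g i) *
              single (d (b + 1) i, ((b + 1 : ℕ) : ℤ)) (f (b + 1) i) := by
          rw [hgy]
          simp only [single_mul_single, Prod.mk_add_mk, sub_add_cancel, zero_add]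
          exact map_sum (singleAddHom _) _ _
        rw [SetLike.mem_coe, h2]
        refine Subalgebra.sum_mem _ fun i _ => R.mul_mem (hM _ _ (hg i)) ?_
        have hbl : b < bmax := hb'
        refine Algebra.subset_adjoin (Or.inr ⟨e ⟨⟨b, hbl⟩, i⟩, ?_⟩)
        have e1 : e.symm (e ⟨⟨b, hbl⟩, i⟩) = ⟨⟨b, hbl⟩, i⟩ := e.symm_apply_apply _
        change (fun s : σ => (single (d _ s.2, ((s.1.1 + 1 : ℕ) : ℤ)) (f _ s.2) :
          AddMonoidAlgebra K (ι × ℤ))) (e.symm (e ⟨⟨b, hbl⟩, i⟩)) = _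
        rw [e1]
    · rintro F ((⟨i, rfl⟩ | hF) | ⟨i, rfl⟩)
      · exact Or.inl (Or.inl ⟨δ i, x i, hx i, rfl⟩)
      · exact Or.inl (Or.inr hF)
      · refine Or.inr ⟨_, (e.symm i).1.1 + 1, by omega, ?_, _, hf' _ (e.symm i).2, rfl⟩
        have := (e.symm i).1.2
        omega

theorem fg_rees (h : RHyp L fl M O lam bmax) : (rees L fl M O lam bmax).alg.FG := by
  classical
  obtain ⟨r, t, δ, x, d, b, f, -, -, -, -, hgen⟩ := exists_rees_gens h
  rw [hgen]
  exact Subalgebra.fg_def.2 ⟨_, ((Set.finite_range _).union (Set.finite_singleton _)).union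
    (Set.finite_range _), rfl⟩

/-- Blueprint 1.1 and 1.2. -/
theorem rees_semi [Module.Free ℤ ι] [Module.Finite ℤ ι] (h : RHyp L fl M O lam bmax) (a : ι) :
    ∃ r₀ : ℕ, ∀ r : ℕ, r₀ ≤ r → ∀ (q' : Ideal (rees L fl M O lam bmax).alg) [q'.IsPrime]
      (q : Ideal M.alg) [q.IsPrime], Over M (rees L fl M O lam bmax) (inlZ ι) q q' →
      Semi (rees L fl M O lam bmax) (r • a, 1) q' →
      Semi M a q ∧
      (∃ (d : ι) (b : ℕ) (y : K) (_ : y ∈ FOs L fl M O lam b d)
        (h : y ∈ (rees L fl M O lam bmax).s (d, (b : ℤ))), 1 ≤ b ∧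
          (rees L fl M O lam bmax).el h ∉ q') ∧
      (IntA M a q → IntA (rees L fl M O lam bmax) (r • a, 1) q') := by
  obtain ⟨r, t, δ, x, d, b, f, hx, hb, hf, hM, hgen⟩ := exists_rees_gens h
  obtain ⟨ρ₀, hρ₀⟩ := semi_int_rees M a hx hM (fun i => (hb i).1) (fun i => (hf i).1)
    (rees L fl M O lam bmax) hgen
  refine ⟨ρ₀, fun ρ hρ q' hq' q hq hov hs => ?_⟩
  obtain ⟨h1, ⟨i, hi, hi'⟩, h3⟩ := hρ₀ ρ hρ q' q hov hs
  exact ⟨h1, ⟨d i, b i, f i, hf i, hi, (hb i).1, hi'⟩, h3⟩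

end Pool.Agent.MP_b525bf_ag_W
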