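import Pool.Agent.Lib.MP_b525bf_ag_W.Rees
import Pool.Agent.Lib.MP_b525bf_ag_W.Grp

/-!
# W7: stages (blueprint 3) and one Rees step on stages (blueprint 1.5)
-/

set_option autoImplicit false
set_option linter.unusedSectionVars false

namespace Pool.Agent.MP_b525bf_ag_W

open Pool.Agent.MP_b525bf_ag Module AddMonoidAlgebra

variable {k U K G ι : Type} [Field k] [AddCommGroup U] [Module k U] [Field K] [Algebra k K]
  [Group G] [Finite G] [AddCommGroup ι]

/-- The global conditions on a stage (blueprint 3). `EE` is the set of processed divisors. -/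
structure Glob (L : Lin k U K) (ρ : Representation k G U) (φ : G →* (K ≃ₐ[k] K)) (M : Fam k K ι)
    (a : ι) (EE : Set (Idx G)) (l : Idx G → ι →+ ℤ) (e : Idx G → ι) : Prop where
  fg : M.alg.FG
  zero : M.s 0 = Subalgebra.toSubmodule L.B
  leB : ∀ d, M.s d ≤ Subalgebra.toSubmodule L.B
  stable : ∀ g d x, x ∈ M.s d → φ g x ∈ M.s d
  neg : ∀ n : ℕ, (1 : K) ∈ M.s (-(n • a))
  gen : ∀ d : ι, ∃ c : ι, (1 : K) ∈ M.s c ∧ (1 : K) ∈ M.s (c + d)
  nontriv : ∃ n : ℕ, 0 < n ∧ ∃ x ∈ M.s (n • a), x ≠ 0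
  EEcj : ∀ g, ∀ E ∈ EE, E.cj g ∈ EE
  lcj : ∀ g, ∀ E ∈ EE, l (E.cj g) = l E
  ecj : ∀ g, ∀ E ∈ EE, e (E.cj g) = e E
  self : ∀ E ∈ EE, l E (e E) = 1
  dual : ∀ E ∈ EE, ∀ E' ∈ EE, (∀ g, E.cj g ≠ E') → l E (e E') = 0
  flag : ∀ E ∈ EE, IsFlag (flg ρ E)
  val : ∀ E ∈ EE, ∀ d, M.s d ≤ L.Fil (flg ρ E) (l E d)
  sec : ∀ E ∈ EE, (1 : K) ∈ M.s (-(e E))
  int : ∀ (q : Ideal M.alg) [q.IsPrime], Semi M a q → IntA M a q

/-- The local conditions on a stage at the prime `q` (blueprint 3); `S` is the set of divisors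
through `q`. -/
structure Loc (L : Lin k U K) (ρ : Representation k G U) (φ : G →* (K ≃ₐ[k] K)) (p : ℕ)
    (M : Fam k K ι) (EE : Set (Idx G)) (l : Idx G → ι →+ ℤ) (e : Idx G → ι) (q : Ideal M.alg)
    [q.IsPrime] (S : Set (Idx G)) : Prop where
  sub : S ⊆ EE
  inj : ∀ E ∈ S, ∀ g, E.cj g ∈ S → E.cj g = E
  chart : ∀ d, CSs L (flg ρ) l S d ≤ (atP M q).s d
  adapt : AdaptedTo (flg ρ) S
  non : ∀ E ∈ S, (1 : K) ∉ (atP M q).s (e E)
  uni : ∀ E ∈ EE, (∀ g, E.cj g ∉ S) → (1 : K) ∈ (atP M q).s (e E)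
  fix : ∀ g ∈ inertia φ M q, ∀ E ∈ S, E.cj g = E
  wle : ∀ P N, Idx.w P N ∈ S → inertia φ M q ≤ P
  comp : ∀ E ∈ S, ∀ E' ∈ S, PPerf p E.grp → PPerf p E'.grp → E.grp ≤ E'.grp ∨ E'.grp ≤ E.grp
  sep : ∀ N, Idx.t N ∈ S → ∀ g, cj g N ≠ N → ∃ (d : ι) (y : K) (hy : y ∈ M.s d),
    M.el hy ∉ q ∧ y ∈ L.Fil (flg ρ (.t (cj g N))) 1 ∧ l (.t N) d = 0

/-- The class of an index under conjugation. -/
def Orb (E0 : Idx G) : Set (Idx G) := {E | ∃ g, E = E0.cj g}

open Classical in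
/-- The new homomorphisms. -/
noncomputable def lnew (O : Set (Idx G)) (lam : ι →+ ℤ) (l : Idx G → ι →+ ℤ) (E : Idx G) :
    ι × ℤ →+ ℤ :=
  if E ∈ O then lam.comp (AddMonoidHom.fst ι ℤ) + AddMonoidHom.snd ι ℤ
  else (l E).comp (AddMonoidHom.fst ι ℤ)

open Classical in
/-- The new degrees. -/
noncomputable def enew (O : Set (Idx G)) (lam : ι →+ ℤ) (e : Idx G → ι) (E : Idx G) : ι × ℤ :=
  if E ∈ O then (0, 1) else (e E, -lam (e E))

section

variable {L : Lin k U K} {ρ : Representation k G U} {φ : G →* (K ≃ₐ[k] K)} {p : ℕ}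
  {M : Fam k K ι} {a : ι} {EE : Set (Idx G)} {l : Idx G → ι →+ ℤ} {e : Idx G → ι}
  {E0 : Idx G} {lam : ι →+ ℤ}

/-- The hypotheses on the centre of a Rees step for a stage. -/
structure StepHyp (L : Lin k U K) (ρ : Representation k G U) (p : ℕ) (M : Fam k K ι)
    (EE : Set (Idx G)) (e : Idx G → ι) (E0 : Idx G) (lam : ι →+ ℤ) : Prop where
  disj : ∀ g, E0.cj g ∉ EE
  flag : IsFlag (flg ρ E0)
  len : flg ρ E0 (p + 1) = ⊥
  ne : AN ρ E0.grp ≠ ⊥
  r0 : ∀ g d, M.s d ≤ L.Fil (flg ρ (E0.cj g)) (lam d)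
  lam01 : ∀ E ∈ EE, lam (e E) = 0 ∨ lam (e E) = 1

/-! ### Auxiliary lemmas -/

omit [Finite G] in
theorem mem_orb_self (E0 : Idx G) : E0 ∈ Orb E0 := ⟨1, (Idx.cj_one E0).symm⟩

omit [Finite G] in
theorem mem_orb_cj (g : G) (E0 : Idx G) : E0.cj g ∈ Orb E0 := ⟨g, rfl⟩

omit [Finite G] in
theorem orb_cj {E0 E : Idx G} (hE : E ∈ Orb E0) (g : G) : E.cj g ∈ Orb E0 := by
  obtain ⟨h, rfl⟩ := hE
  exact ⟨g * h, (Idx.cj_mul g h E0).symm⟩

omit [Finite G] in
theorem st_cj_inv_cj (g : G) (E : Idx G) : (E.cj g).cj g⁻¹ = E := by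
  rw [← Idx.cj_mul, inv_mul_cancel, Idx.cj_one]

omit [Finite G] in
theorem st_cj_cj_inv (g : G) (E : Idx G) : (E.cj g⁻¹).cj g = E := by
  rw [← Idx.cj_mul, mul_inv_cancel, Idx.cj_one]

omit [Finite G] in
theorem orb_cj_iff {E0 E : Idx G} (g : G) : E.cj g ∈ Orb E0 ↔ E ∈ Orb E0 := by
  refine ⟨fun h => ?_, fun h => orb_cj h g⟩
  have := orb_cj h g⁻¹
  rwa [st_cj_inv_cj] at this

omit [Finite G] in
theorem exists_cj_of_orb {E0 E E' : Idx G} (hE : E ∈ Orb E0) (hE' : E' ∈ Orb E0) :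
    ∃ g, E.cj g = E' := by
  obtain ⟨h, rfl⟩ := hE
  obtain ⟨h', rfl⟩ := hE'
  exact ⟨h' * h⁻¹, by rw [Idx.cj_mul, st_cj_inv_cj]⟩

omit [Finite G] in
theorem StepHyp.not_orb (h : StepHyp L ρ p M EE e E0 lam) {E : Idx G} (hE : E ∈ EE) :
    E ∉ Orb E0 := by
  rintro ⟨g, rfl⟩
  exact h.disj g hE

omit [Finite G] in
theorem lnew_orb {E : Idx G} (hE : E ∈ Orb E0) (d : ι) (n : ℤ) :
    lnew (Orb E0) lam l E (d, n) = n + lam d := by
  rw [lnew, if_pos hE, AddMonoidHom.add_apply, AddMonoidHom.comp_apply, add_comm]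
  rfl

omit [Finite G] in
theorem lnew_not_orb {E : Idx G} (hE : E ∉ Orb E0) (d : ι) (n : ℤ) :
    lnew (Orb E0) lam l E (d, n) = l E d := by
  rw [lnew, if_neg hE]
  rfl

omit [Finite G] in
theorem enew_orb {E : Idx G} (hE : E ∈ Orb E0) : enew (Orb E0) lam e E = (0, 1) := by
  rw [enew, if_pos hE]

omit [Finite G] in
theorem enew_not_orb {E : Idx G} (hE : E ∉ Orb E0) :
    enew (Orb E0) lam e E = (e E, -lam (e E)) := by
  rw [enew, if_neg hE]

theorem st_lin_ne_zero (L : Lin k U K) {u : U} (hu : u ≠ 0) : L.lin u ≠ 0 := by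
  intro h
  let b := Module.Basis.ofVectorSpace k U
  have h1 : LinearIndependent k fun i => L.lin (b i) := (L.indep b).linearIndependent
  have h2 : Finsupp.linearCombination k (fun i => L.lin (b i)) (b.repr u) =
      Finsupp.linearCombination k (fun i => L.lin (b i)) 0 := by
    rw [map_zero, ← h]
    conv_rhs => rw [← b.linearCombination_repr u]
    rw [Finsupp.apply_linearCombination]
    rfl
  have h3 := h1 h2
  exact hu (b.repr.map_eq_zero_iff.1 h3)

theorem StepHyp.rHyp (hp : 0 < p) (hG : Glob L ρ φ M a EE l e) (h : StepHyp L ρ p M EE e E0 lam) :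
    RHyp L (flg ρ) M (Orb E0) lam p where
  fg := hG.fg
  leB := hG.leB
  fin := by
    have h1 : Orb E0 = Set.range fun g => E0.cj g := by
      ext E
      exact ⟨fun ⟨g, hg⟩ => ⟨g, hg.symm⟩, fun ⟨g, hg⟩ => ⟨g, hg.symm⟩⟩
    rw [h1]
    exact Set.finite_range _
  flag := by
    rintro _ ⟨g, rfl⟩
    exact isFlag_cj ρ h.flag g
  len := by
    rintro _ ⟨g, rfl⟩
    exact flg_cj_eq_bot ρ h.len g
  pos := hp
  r0 := by
    rintro _ ⟨g, rfl⟩ d
    exact h.r0 g d

theorem fil_cj (hφ : ∀ g u, φ g (L.lin u) = L.lin (ρ g u)) (g : G) (E : Idx G) {m : ℤ} {y : K}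
    (hy : y ∈ L.Fil (flg ρ E) m) : φ g y ∈ L.Fil (flg ρ (E.cj g)) m :=
  fil_map L (φ g) (ρ g) (hφ g) (fun _ _ hz => flg_cj ρ g E _ hz) hy

theorem FOs_cj (hφ : ∀ g u, φ g (L.lin u) = L.lin (ρ g u)) (hG : Glob L ρ φ M a EE l e) (g : G)
    {b : ℕ} {d : ι} {y : K} (hy : y ∈ FOs L (flg ρ) M (Orb E0) lam b d) :
    φ g y ∈ FOs L (flg ρ) M (Orb E0) lam b d := by
  obtain ⟨hy1, hy2⟩ := hy
  refine ⟨hG.stable g d y hy1, ?_⟩
  simp only [Submodule.mem_iInf, SetLike.mem_coe] at hy2 ⊢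
  intro E hE
  have h1 := fil_cj hφ g _ (hy2 (E.cj g⁻¹) (orb_cj hE _))
  rwa [st_cj_cj_inv] at h1

theorem one_mem_rees_of_nonpos {d : ι} {n : ℤ} (hn : n ≤ 0) (h : (1 : K) ∈ M.s d) :
    (1 : K) ∈ (rees L (flg ρ) M (Orb E0) lam p).s (d, n) := by
  rw [rees_nonpos hn]; exact h

/-- The product of linear forms which is in the first step of the filtration. -/
theorem exists_mem_FOs_one (hG : Glob L ρ φ M a EE l e) (h : StepHyp L ρ p M EE e E0 lam)
    (hR : RHyp L (flg ρ) M (Orb E0) lam p) :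
    ∃ z : K, z ≠ 0 ∧ z ∈ FOs L (flg ρ) M (Orb E0) lam 1 0 := by
  classical
  have h1 : ∀ E ∈ Orb E0, ∃ u : U, u ≠ 0 ∧ u ∈ flg ρ E 1 := by
    rintro _ ⟨g, rfl⟩
    obtain ⟨u, hu, hu0⟩ := Submodule.exists_mem_ne_zero_of_ne_bot h.ne
    refine ⟨ρ g u, ?_, flg_cj ρ g E0 1 (by rw [flg_one]; exact hu)⟩
    intro h0
    have h2 : ρ g⁻¹ (ρ g u) = u := by
      rw [← Module.End.mul_apply, ← map_mul, inv_mul_cancel, map_one, Module.End.one_apply]
    rw [h0, map_zero] at h2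
    exact hu0 h2.symm
  choose! u hu0 hu using h1
  have hfin := hR.fin
  have hlin : ∀ E, L.lin (u E) ∈ L.B := fun E => Algebra.subset_adjoin ⟨u E, rfl⟩
  refine ⟨∏ E ∈ hfin.toFinset, L.lin (u E), ?_, ?_, ?_⟩
  · exact Finset.prod_ne_zero_iff.2 fun E hE => st_lin_ne_zero L (hu0 E (hfin.mem_toFinset.1 hE))
  · change _ ∈ M.s 0
    rw [hG.zero]
    exact Subalgebra.prod_mem _ fun E _ => hlin E
  · simp only [Submodule.mem_iInf, SetLike.mem_coe]
    intro E hE
    rw [← Finset.mul_prod_erase _ _ (hfin.mem_toFinset.2 hE)]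
    have h2 : L.lin (u E) ∈ L.Fil (flg ρ E) ((1 : ℕ) : ℤ) := lin_mem_fil L (hu E hE)
    have h3 : (∏ x ∈ hfin.toFinset.erase E, L.lin (u x)) ∈ L.Fil (flg ρ E) 0 := by
      rw [fil_of_nonpos L (hR.flag E hE) le_rfl]
      exact Subalgebra.prod_mem _ fun E _ => hlin E
    have h4 := fil_mul L h2 h3
    rw [map_zero]
    exact h4

/-- A Rees step preserves the global conditions. -/
theorem glob_step [FiniteDimensional k U] [Module.Free ℤ ι] [Module.Finite ℤ ι] (hp : 0 < p)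
    (hφ : ∀ g u, φ g (L.lin u) = L.lin (ρ g u))
    (hG : Glob L ρ φ M a EE l e) (h : StepHyp L ρ p M EE e E0 lam) :
    ∃ a' : ι × ℤ,
      Glob L ρ φ (rees L (flg ρ) M (Orb E0) lam p) a' (EE ∪ Orb E0) (lnew (Orb E0) lam l)
        (enew (Orb E0) lam e) ∧
      ∀ (q' : Ideal (rees L (flg ρ) M (Orb E0) lam p).alg) [q'.IsPrime]
        (q : Ideal M.alg) [q.IsPrime], Over M (rees L (flg ρ) M (Orb E0) lam p) (inlZ ι) q q' →
        Semi (rees L (flg ρ) M (Orb E0) lam p) a' q' →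
        Semi M a q ∧
        (∃ (d : ι) (b : ℕ) (y : K) (_ : y ∈ FOs L (flg ρ) M (Orb E0) lam b d)
          (h : y ∈ (rees L (flg ρ) M (Orb E0) lam p).s (d, (b : ℤ))), 1 ≤ b ∧
            (rees L (flg ρ) M (Orb E0) lam p).el h ∉ q') := by
  classical
  have hR := h.rHyp hp hG
  obtain ⟨r, hr⟩ := rees_semi hR a
  specialize hr r le_rfl
  have hcjEE : ∀ g, ∀ E ∈ EE ∪ Orb E0, E.cj g ∈ EE ∪ Orb E0 := by
    rintro g E (hE | hE)
    · exact Or.inl (hG.EEcj g E hE)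
    · exact Or.inr (orb_cj hE g)
  refine ⟨(r • a, 1), ⟨fg_rees hR, ?_, ?_, ?_, ?_, ?_, ?_, hcjEE, ?_, ?_, ?_, ?_, ?_, ?_, ?_, ?_⟩,
    ?_⟩
  · -- zero
    change (rees L (flg ρ) M (Orb E0) lam p).s (0, 0) = _
    rw [rees_nonpos le_rfl, hG.zero]
  · -- leB
    rintro ⟨d, n⟩
    exact (rees_le d n).trans (hG.leB d)
  · -- stable
    intro g d x hx
    exact rees_stable (φ g) (hG.stable g) (fun b d x hx => FOs_cj hφ hG g hx) d x hx
  · -- neg
    intro n
    have e1 : -(n • ((r • a, 1) : ι × ℤ)) = (-((n * r) • a), -(n : ℤ)) := by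
      refine Prod.ext ?_ ?_
      · change -(n • (r • a)) = _
        rw [mul_nsmul']
      · change -(n • (1 : ℤ)) = _
        simp
    rw [e1]
    exact one_mem_rees_of_nonpos (by omega) (hG.neg _)
  · -- gen
    rintro ⟨d, n⟩
    obtain ⟨c, hc, hcd⟩ := hG.gen d
    refine ⟨(c, -|n|), one_mem_rees_of_nonpos (by simp) hc, ?_⟩
    change (1 : K) ∈ (rees L (flg ρ) M (Orb E0) lam p).s (c + d, -|n| + n)
    exact one_mem_rees_of_nonpos (by linarith [le_abs_self n]) hcd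
  · -- nontriv
    obtain ⟨m, hm, x, hx, hx0⟩ := hG.nontriv
    obtain ⟨z, hz0, hz⟩ := exists_mem_FOs_one hG h hR
    have h1 : x ∈ (rees L (flg ρ) M (Orb E0) lam p).s (m • a, 0) := le_rees _ hx
    have h2 : z ∈ (rees L (flg ρ) M (Orb E0) lam p).s (0, ((1 : ℕ) : ℤ)) :=
      FOs_le_rees le_rfl hp _ hz
    have h3 := Fam.mul' _ (Fam.pow' _ h1 r) (Fam.pow' _ h2 m)
    have e1 : r • ((m • a, 0) : ι × ℤ) + m • ((0, ((1 : ℕ) : ℤ)) : ι × ℤ) =
        m • ((r • a, 1) : ι × ℤ) := by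
      refine Prod.ext ?_ ?_
      · change r • (m • a) + m • (0 : ι) = m • (r • a)
        rw [smul_zero, add_zero, smul_smul, smul_smul, mul_comm]
      · change r • (0 : ℤ) + m • ((1 : ℕ) : ℤ) = m • (1 : ℤ)
        simp
    rw [e1] at h3
    exact ⟨m, hm, _, h3, mul_ne_zero (pow_ne_zero _ hx0) (pow_ne_zero _ hz0)⟩
  · -- lcj
    rintro g E (hE | hE)
    · have h1 := h.not_orb hE
      have h2 := h.not_orb (hG.EEcj g E hE)
      refine AddMonoidHom.ext ?_
      rintro ⟨d, n⟩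
      rw [lnew_not_orb h1, lnew_not_orb h2, hG.lcj g E hE]
    · refine AddMonoidHom.ext ?_
      rintro ⟨d, n⟩
      rw [lnew_orb hE, lnew_orb (orb_cj hE g)]
  · -- ecj
    rintro g E (hE | hE)
    · have h1 := h.not_orb hE
      have h2 := h.not_orb (hG.EEcj g E hE)
      rw [enew_not_orb h1, enew_not_orb h2, hG.ecj g E hE]
    · rw [enew_orb hE, enew_orb (orb_cj hE g)]
  · -- self
    rintro E (hE | hE)
    · have h1 := h.not_orb hE
      rw [enew_not_orb h1, lnew_not_orb h1, hG.self E hE]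
    · rw [enew_orb hE, lnew_orb hE, map_zero, add_zero]
  · -- dual
    rintro E (hE | hE) E' (hE' | hE') hne
    · have h1 := h.not_orb hE
      have h2 := h.not_orb hE'
      rw [enew_not_orb h2, lnew_not_orb h1, hG.dual E hE E' hE' hne]
    · have h1 := h.not_orb hE
      rw [enew_orb hE', lnew_not_orb h1, map_zero]
    · have h2 := h.not_orb hE'
      rw [enew_not_orb h2, lnew_orb hE, neg_add_cancel]
    · obtain ⟨g, hg⟩ := exists_cj_of_orb hE hE'
      exact absurd hg (hne g)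
  · -- flag
    rintro E (hE | hE)
    · exact hG.flag E hE
    · exact hR.flag E hE
  · -- val
    rintro E (hE | hE) ⟨d, n⟩
    · have h1 := h.not_orb hE
      rw [lnew_not_orb h1]
      exact (rees_le d n).trans (hG.val E hE d)
    · rw [lnew_orb hE]
      exact rees_le_fil hR hE d n
  · -- sec
    rintro E (hE | hE)
    · have h1 := h.not_orb hE
      rw [enew_not_orb h1]
      change (1 : K) ∈ (rees L (flg ρ) M (Orb E0) lam p).s (-(e E), - -lam (e E))
      rw [neg_neg]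
      rcases h.lam01 E hE with h2 | h2
      · exact one_mem_rees_of_nonpos h2.le (hG.sec E hE)
      · rw [h2]
        have h3 : (1 : K) ∈ FOs L (flg ρ) M (Orb E0) lam 1 (-(e E)) := by
          refine ⟨hG.sec E hE, ?_⟩
          simp only [Submodule.mem_iInf, SetLike.mem_coe]
          intro E' _
          exact one_mem_fil L _ (by rw [map_neg, h2]; simp)
        exact FOs_le_rees le_rfl hp _ h3
    · rw [enew_orb hE]
      change (1 : K) ∈ (rees L (flg ρ) M (Orb E0) lam p).s (-0, -1)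
      rw [neg_zero]
      exact one_rees
  · -- int
    intro q' hq' hsemi
    obtain ⟨q, hq, hov⟩ := exists_over (j := inlZ ι)
      (fun x y hxy => congrArg Prod.fst hxy) (fun d => le_rees d) q'
    obtain ⟨h1, _, h3⟩ := hr q' q hov hsemi
    exact h3 (hG.int q h1)
  · intro q' hq' q hq hov hsemi
    obtain ⟨h1, h2, _⟩ := hr q' q hov hsemi
    exact ⟨h1, h2⟩

variable {q' : Ideal (rees L (flg ρ) M (Orb E0) lam p).alg} [q'.IsPrime] {q : Ideal M.alg}
  [q.IsPrime] {S : Set (Idx G)}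

theorem st_finite_idx : Finite (Idx G) := by
  refine Finite.of_injective
    (fun E : Idx G => (match E with
      | .t N => (false, N, N)
      | .w P N => (true, P, N) : Bool × Subgroup G × Subgroup G)) ?_
  rintro (N | ⟨P, N⟩) (N' | ⟨P', N'⟩) h <;> simp_all

theorem st_inlZ_injective : Function.Injective (inlZ ι) := fun _ _ hxy => congrArg Prod.fst hxy

theorem rees_stable_glob (hφ : ∀ g u, φ g (L.lin u) = L.lin (ρ g u))
    (hG : Glob L ρ φ M a EE l e) (g : G) (d : ι × ℤ) (x : K)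
    (hx : x ∈ (rees L (flg ρ) M (Orb E0) lam p).s d) :
    φ g x ∈ (rees L (flg ρ) M (Orb E0) lam p).s d :=
  rees_stable (φ g) (hG.stable g) (fun _ _ _ hx => FOs_cj hφ hG g hx) d x hx

theorem mem_CSs' {l : Idx G → ι →+ ℤ} {S : Set (Idx G)} {d : ι} {y : K} :
    y ∈ CSs L (flg ρ) l S d ↔ y ∈ L.B ∧ ∀ E ∈ S, y ∈ L.Fil (flg ρ E) (l E d) :=
  mem_CSs L (flg ρ) l S

/-- The separating elements for the new point. -/
theorem sep_new (hov : Over M (rees L (flg ρ) M (Orb E0) lam p) (inlZ ι) q q') {N : Subgroup G}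
    {g : G}
    (h : ∃ (d : ι) (y : K) (hy : y ∈ M.s d),
      M.el hy ∉ q ∧ y ∈ L.Fil (flg ρ (.t (cj g N))) 1 ∧ lnew (Orb E0) lam l (.t N) (d, 0) = 0) :
    ∃ (d : ι × ℤ) (y : K) (hy : y ∈ (rees L (flg ρ) M (Orb E0) lam p).s d),
      (rees L (flg ρ) M (Orb E0) lam p).el hy ∉ q' ∧ y ∈ L.Fil (flg ρ (.t (cj g N))) 1 ∧
        lnew (Orb E0) lam l (.t N) d = 0 := by
  obtain ⟨d, y, hy, h1, h2, h3⟩ := h
  have h4 : y ∈ (rees L (flg ρ) M (Orb E0) lam p).s (inlZ ι d) := le_rees d hy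
  exact ⟨(d, 0), y, h4, fun h5 => h1 ((hov d y hy h4).2 h5), h2, h3⟩

/-- The local conditions away from the centre. -/
theorem loc_empty [FiniteDimensional k U] (hp : 0 < p)
    (hφ : ∀ g u, φ g (L.lin u) = L.lin (ρ g u))
    (hG : Glob L ρ φ M a EE l e) (h : StepHyp L ρ p M EE e E0 lam)
    (hov : Over M (rees L (flg ρ) M (Orb E0) lam p) (inlZ ι) q q')
    (hS : Loc L ρ φ p M EE l e q S)
    (hemp : ∀ E ∈ Orb E0, ¬ Cen L (flg ρ) M lam q E) :
    Loc L ρ φ p (rees L (flg ρ) M (Orb E0) lam p) (EE ∪ Orb E0) (lnew (Orb E0) lam l)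
      (enew (Orb E0) lam e) q' S ∧
    inertia φ (rees L (flg ρ) M (Orb E0) lam p) q' = inertia φ M q ∧
    ∀ d n, (atP (rees L (flg ρ) M (Orb E0) lam p) q').s (d, n) = (atP M q).s d := by
  classical
  have hR := h.rHyp hp hG
  have hat := fun d n => atP_rees_of_empty hR hov hemp d n
  have hin : inertia φ (rees L (flg ρ) M (Orb E0) lam p) q' = inertia φ M q :=
    inertia_rees_of_empty φ hG.stable (fun g d x hx => rees_stable_glob hφ hG g d x hx) hR hov hemp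
  refine ⟨⟨hS.sub.trans Set.subset_union_left, hS.inj, ?_, hS.adapt, ?_, ?_, ?_, ?_, hS.comp, ?_⟩,
    hin, hat⟩
  · rintro ⟨d, n⟩ y hy
    rw [hat]
    refine hS.chart d ?_
    rw [mem_CSs'] at hy ⊢
    refine ⟨hy.1, fun E hE => ?_⟩
    have h1 := hy.2 E hE
    rwa [lnew_not_orb (h.not_orb (hS.sub hE))] at h1
  · intro E hE
    rw [enew_not_orb (h.not_orb (hS.sub hE)), hat]
    exact hS.non E hE
  · rintro E (hE | hE) hno
    · rw [enew_not_orb (h.not_orb hE), hat]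
      exact hS.uni E hE hno
    · rw [enew_orb hE, hat]
      exact (atP M q).one'
  · intro g hg
    rw [hin] at hg
    exact hS.fix g hg
  · intro P N hPN
    rw [hin]
    exact hS.wle P N hPN
  · intro N hN g hg
    refine sep_new hov ?_
    obtain ⟨d, y, hy, h1, h2, h3⟩ := hS.sep N hN g hg
    exact ⟨d, y, hy, h1, h2, by rw [lnew_not_orb (h.not_orb (hS.sub hN)), h3]⟩

/-- The divisors through a point over the centre. -/
def Snew (L : Lin k U K) (ρ : Representation k G U) (p : ℕ) (M : Fam k K ι) (e : Idx G → ι)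
    (E0 : Idx G) (lam : ι →+ ℤ) (q' : Ideal (rees L (flg ρ) M (Orb E0) lam p).alg) [q'.IsPrime]
    (S : Set (Idx G)) (E : Idx G) : Set (Idx G) :=
  {E' | E' ∈ insert E S ∧
    (1 : K) ∉ (atP (rees L (flg ρ) M (Orb E0) lam p) q').s (enew (Orb E0) lam e E')}

/-- The local conditions over the centre. -/
theorem loc_centre [FiniteDimensional k U] (hp : 0 < p)
    (hφ : ∀ g u, φ g (L.lin u) = L.lin (ρ g u))
    (hG : Glob L ρ φ M a EE l e) (h : StepHyp L ρ p M EE e E0 lam)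
    (hov : Over M (rees L (flg ρ) M (Orb E0) lam p) (inlZ ι) q q')
    (hS : Loc L ρ φ p M EE l e q S) {E : Idx G} (hE : E ∈ Orb E0)
    (hcen : Cen L (flg ρ) M lam q E) (huniq : ∀ E' ∈ Orb E0, E' ≠ E → ¬ Cen L (flg ρ) M lam q E')
    (had : AdaptedTo (flg ρ) (insert E S))
    (hker : ∀ z, (∀ E' ∈ S, l E' z = 0) → lam z = 0)
    (hfix : ∀ g ∈ inertia φ M q, E.cj g = E)
    (hwle : ∀ P N, E = Idx.w P N → inertia φ M q ≤ P)
    (hcomp : PPerf p E.grp → ∀ E' ∈ S, PPerf p E'.grp → E.grp ≤ E'.grp ∨ E'.grp ≤ E.grp)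
    (hsep : ∀ N, E = Idx.t N → ∀ g, cj g N ≠ N → ∃ (d : ι) (y : K) (hy : y ∈ M.s d),
      M.el hy ∉ q ∧ y ∈ L.Fil (flg ρ (.t (cj g N))) 1 ∧ lam d = 0) :
    Loc L ρ φ p (rees L (flg ρ) M (Orb E0) lam p) (EE ∪ Orb E0) (lnew (Orb E0) lam l)
      (enew (Orb E0) lam e) q' (Snew L ρ p M e E0 lam q' S E) ∧
    inertia φ (rees L (flg ρ) M (Orb E0) lam p) q' ≤ inertia φ M q := by
  classical
  have hR := h.rHyp hp hG
  have hst' : ∀ g d x, x ∈ (rees L (flg ρ) M (Orb E0) lam p).s d →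
      φ g x ∈ (rees L (flg ρ) M (Orb E0) lam p).s d := fun g d x hx =>
    rees_stable_glob hφ hG g d x hx
  have hin : inertia φ (rees L (flg ρ) M (Orb E0) lam p) q' ≤ inertia φ M q :=
    Over.inertia_le φ hG.stable (fun d => le_rees d) hov
  have hnS : ∀ E' ∈ S, E' ∉ Orb E0 := fun E' hE' => h.not_orb (hS.sub hE')
  have hES : E ∉ S := fun h1 => hnS E h1 hE
  have := st_finite_idx (G := G)
  have hSfin : S.Finite := Set.toFinite S
  have hdual : Dual l e S := by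
    refine ⟨fun E' hE' => hG.self E' (hS.sub hE'), fun E1 h1 E2 h2 hne => ?_⟩
    refine hG.dual E1 (hS.sub h1) E2 (hS.sub h2) fun g hg => hne ?_
    rw [← hg] at h2
    rw [← hS.inj E1 h1 g h2, hg]
  have hdual' : Dual (lnew (Orb E0) lam l) (enew (Orb E0) lam e) (insert E S) := by
    constructor
    · rintro E1 (rfl | h1)
      · rw [enew_orb hE, lnew_orb hE, map_zero, add_zero]
      · rw [enew_not_orb (hnS E1 h1), lnew_not_orb (hnS E1 h1), hdual.self E1 h1]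
    · rintro E1 (rfl | h1) E2 (rfl | h2) hne
      · exact absurd rfl hne
      · rw [enew_not_orb (hnS E2 h2), lnew_orb hE, neg_add_cancel]
      · rw [enew_orb hE, lnew_not_orb (hnS E1 h1), map_zero]
      · rw [enew_not_orb (hnS E2 h2), lnew_not_orb (hnS E1 h1), hdual.ne E1 h1 E2 h2 hne]
  have hfl : ∀ E' ∈ insert E S, IsFlag (flg ρ E') := by
    rintro E1 (rfl | h1)
    · exact hR.flag _ hE
    · exact hG.flag E1 (hS.sub h1)
  have hchart : ∀ d, CSs L (flg ρ) (lnew (Orb E0) lam l) (insert E S) d ≤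
      (atP (rees L (flg ρ) M (Orb E0) lam p) q').s d := by
    refine chart_rees hR hov hE hcen huniq hSfin hES (fun E' hE' => hG.flag E' (hS.sub hE')) had
      hdual hS.chart hker ?_ ?_ ?_
    · intro E' hE'
      rcases h.lam01 E' (hS.sub hE') with h1 | h1 <;> rw [h1]
      · exact ⟨le_rfl, by omega⟩
      · exact ⟨by omega, by omega⟩
    · intro E' hE' d n
      exact lnew_not_orb (hnS E' hE') d n
    · intro d n
      exact lnew_orb hE d n
  have hsub : Snew L ρ p M e E0 lam q' S E ⊆ insert E S := fun E' hE' => hE'.1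
  have hSnew : Snew L ρ p M e E0 lam q' S E = insert E S ∩
      {E' | (1 : K) ∉ (atP (rees L (flg ρ) M (Orb E0) lam p) q').s (enew (Orb E0) lam e E')} :=
    rfl
  refine ⟨⟨?_, ?_, ?_, ?_, ?_, ?_, ?_, ?_, ?_, ?_⟩, hin⟩
  · intro E' hE'
    rcases hsub hE' with rfl | h1
    · exact Or.inr hE
    · exact Or.inl (hS.sub h1)
  · intro E1 h1 g h2
    rcases hsub h1 with rfl | h1 <;> rcases hsub h2 with h2 | h2
    · exact h2
    · exact absurd (orb_cj hE g) (hnS _ h2)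
    · refine absurd ?_ (hnS _ h1)
      rw [← orb_cj_iff g, h2]
      exact hE
    · exact hS.inj E1 h1 g h2
  · intro d
    rw [hSnew]
    refine chart_drop hfl hdual' hchart _ ?_ (hSfin.insert E) d
    intro E' _ h1
    by_contra h2
    exact h1 h2
  · obtain ⟨β, hβ, h1⟩ := had
    exact ⟨β, hβ, fun E' hE' => h1 E' (hsub hE')⟩
  · intro E' hE'
    exact hE'.2
  · rintro E1 (h1 | h1) hno
    · by_cases h2 : ∀ g, E1.cj g ∉ S
      · have h3 := hS.uni E1 h1 h2
        have h4 : (1 : K) ∈ (atP (rees L (flg ρ) M (Orb E0) lam p) q').s (e E1, 0) :=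
          Over.atP (fun d => le_rees d) hov _ h3
        rw [enew_not_orb (h.not_orb h1)]
        rcases h.lam01 E1 h1 with h5 | h5 <;> rw [h5]
        · rwa [neg_zero]
        · have h6 : (1 : K) ∈ (atP (rees L (flg ρ) M (Orb E0) lam p) q').s (0, -1) :=
            le_atP _ _ _ one_rees
          have h7 := Fam.mul' _ h4 h6
          rw [mul_one, Prod.mk_add_mk, add_zero, zero_add] at h7
          exact h7
      · obtain ⟨g, hg⟩ := not_forall_not.1 h2
        have h3 := hno g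
        have h4 : (1 : K) ∈ (atP (rees L (flg ρ) M (Orb E0) lam p) q').s
            (enew (Orb E0) lam e (E1.cj g)) := by
          by_contra h5
          exact h3 ⟨Or.inr hg, h5⟩
        rw [enew_not_orb (hnS _ hg), hG.ecj g E1 h1] at h4
        rwa [enew_not_orb (h.not_orb h1)]
    · obtain ⟨g, hg⟩ := exists_cj_of_orb h1 hE
      have h3 := hno g
      rw [hg] at h3
      have h4 : (1 : K) ∈ (atP (rees L (flg ρ) M (Orb E0) lam p) q').s
          (enew (Orb E0) lam e E) := by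
        by_contra h5
        exact h3 ⟨Or.inl rfl, h5⟩
      rw [enew_orb hE] at h4
      rwa [enew_orb h1]
  · intro g hg E1 h1
    rcases hsub h1 with rfl | h1
    · exact hfix g (hin hg)
    · exact hS.fix g (hin hg) E1 h1
  · intro P N hPN
    rcases hsub hPN with h1 | h1
    · exact hin.trans (hwle P N h1.symm)
    · exact hin.trans (hS.wle P N h1)
  · intro E1 h1 E2 h2 hp1 hp2
    rcases hsub h1 with h3 | h3 <;> rcases hsub h2 with h4 | h4
    · rw [h3, h4]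
      exact Or.inl le_rfl
    · rw [h3] at hp1 ⊢
      exact hcomp hp1 E2 h4 hp2
    · rw [h4] at hp2 ⊢
      exact (hcomp hp2 E1 h3 hp1).symm
    · exact hS.comp E1 h3 E2 h4 hp1 hp2
  · intro N hN g hg
    refine sep_new hov ?_
    rcases hsub hN with h1 | h1
    · obtain ⟨d, y, hy, h2, h3, h4⟩ := hsep N h1.symm g hg
      refine ⟨d, y, hy, h2, h3, ?_⟩
      rw [h1, lnew_orb hE, h4, zero_add]
    · obtain ⟨d, y, hy, h2, h3, h4⟩ := hS.sep N h1 g hg
      exact ⟨d, y, hy, h2, h3, by rw [lnew_not_orb (hnS _ h1), h4]⟩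

/-- If the section of the new divisor is a unit at the new point, then the old point is not in the
centre. -/
theorem one_notMem_of_centre (hp : 0 < p) (hG : Glob L ρ φ M a EE l e)
    (h : StepHyp L ρ p M EE e E0 lam)
    (hov : Over M (rees L (flg ρ) M (Orb E0) lam p) (inlZ ι) q q') {E : Idx G} (hE : E ∈ Orb E0)
    (hcen : Cen L (flg ρ) M lam q E)
    (hgen : ∃ (d : ι) (b : ℕ) (y : K) (_ : y ∈ FOs L (flg ρ) M (Orb E0) lam b d)
          (h : y ∈ (rees L (flg ρ) M (Orb E0) lam p).s (d, (b : ℤ))), 1 ≤ b ∧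
            (rees L (flg ρ) M (Orb E0) lam p).el h ∉ q') :
    E ∈ Snew L ρ p M e E0 lam q' S E := by
  classical
  refine ⟨Or.inl rfl, ?_⟩
  rw [enew_orb hE]
  intro h1
  obtain ⟨d, b, y, hy, hyR, hb, hyq⟩ := hgen
  have h2 : IsU (atP (rees L (flg ρ) M (Orb E0) lam p) q') (0, -1) (1 : K) := by
    refine ⟨one_ne_zero, le_atP _ _ _ one_rees, ?_⟩
    rw [inv_one]
    have e1 : -((0, -1) : ι × ℤ) = (0, 1) := by
      refine Prod.ext ?_ ?_
      · exact neg_zero
      · exact neg_neg _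
    rw [e1]
    exact h1
  have h3 := (isU_atP_iff _ q' one_rees).1 h2
  have h4 : y ∈ M.s d := hy.1
  have h5 : y ∈ (rees L (flg ρ) M (Orb E0) lam p).s (inlZ ι d) := le_rees d h4
  refine absurd ((hov d y h4 h5).1 (hcen d y h4 ?_)) ?_
  · have h6 := hy.2
    simp only [Submodule.mem_iInf, SetLike.mem_coe] at h6
    refine fil_anti L _ ?_ (h6 E hE)
    have : (1 : ℤ) ≤ b := by exact_mod_cast hb
    linarith
  · intro h6
    have h7 : (rees L (flg ρ) M (Orb E0) lam p).el h5 =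
        (rees L (flg ρ) M (Orb E0) lam p).el (one_rees (L := L) (fl := flg ρ) (M := M)
          (O := Orb E0) (lam := lam) (bmax := p)) ^ b *
          (rees L (flg ρ) M (Orb E0) lam p).el hyR := by
      rw [Fam.el_pow, Fam.el_mul]
      refine Fam.el_eq _ _ _ ?_ ?_
      · refine Prod.ext ?_ ?_
        · change d = b • (0 : ι) + d
          rw [smul_zero, zero_add]
        · change (0 : ℤ) = b • (-1 : ℤ) + b
          simp
      · rw [one_pow, one_mul]
    rw [h7] at h6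
    rcases ‹q'.IsPrime›.mem_or_mem h6 with h8 | h8
    · exact h3 (‹q'.IsPrime›.mem_of_pow_mem _ h8)
    · exact hyq h8

end

end Pool.Agent.MP_b525bf_ag_W
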