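import Pool.Agent.Lib.MP_b525bf_ag_W.Stage

/-!
# W8: Step 1, `p`-perfect inertia (blueprint 4)
-/

set_option autoImplicit false

namespace Pool.Agent.MP_b525bf_ag_W

open Pool.Agent.MP_b525bf_ag Module AddMonoidAlgebra

variable {k U K G ι : Type} [Field k] [AddCommGroup U] [Module k U] [Field K] [Algebra k K]
  [Group G] [Finite G] [AddCommGroup ι]

/-- The standing hypotheses. -/
structure Ctx (L : Lin k U K) (ρ : Representation k G U) (φ : G →* (K ≃ₐ[k] K)) (p : ℕ) :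
    Prop where
  hp : p.Prime
  hG : ¬ p ^ 2 ∣ Nat.card G
  hφ : ∀ g u, φ g (L.lin u) = L.lin (ρ g u)
  hρ : Function.Injective ρ

/-- The divisors of Step 1. -/
def EE1 (DD : Set (Subgroup G)) : Set (Idx G) := {E | ∃ N ∈ DD, E = Idx.t N}

/-- The stages of Step 1: `DD` is the set of processed `p`-perfect groups. -/
structure St1 (L : Lin k U K) (ρ : Representation k G U) (φ : G →* (K ≃ₐ[k] K)) (p : ℕ)
    (M : Fam k K ι) (a : ι) (l : Idx G → ι →+ ℤ) (e : Idx G → ι) (DD : Set (Subgroup G)) :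
    Prop where
  glob : Glob L ρ φ M a (EE1 DD) l e
  loc : ∀ (q : Ideal M.alg) [q.IsPrime], Semi M a q → ∃ S, Loc L ρ φ p M (EE1 DD) l e q S ∧
    Op p (inertia φ M q) ∉ DD ∧ ∀ N, Idx.t N ∈ S → Op p (inertia φ M q) ≤ N

/-- There is a stage of Step 1 with processed groups `DD`. -/
def HasSt1 (L : Lin k U K) (ρ : Representation k G U) (φ : G →* (K ≃ₐ[k] K)) (p : ℕ)
    (DD : Set (Subgroup G)) : Prop :=
  ∃ (ι : Type) (_ : AddCommGroup ι) (_ : Module.Free ℤ ι) (_ : Module.Finite ℤ ι)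
    (M : Fam k K ι) (a : ι) (l : Idx G → ι →+ ℤ) (e : Idx G → ι), St1 L ρ φ p M a l e DD

variable {L : Lin k U K} {ρ : Representation k G U} {φ : G →* (K ≃ₐ[k] K)} {p : ℕ}
  {M : Fam k K ι} {a : ι} {l : Idx G → ι →+ ℤ} {e : Idx G → ι} {DD : Set (Subgroup G)}

omit [Finite G] in
theorem AdaptedTo.mono_s1 {S T : Set (Idx G)} (h : AdaptedTo (flg ρ) S) (hT : T ⊆ S) :
    AdaptedTo (flg ρ) T := by
  obtain ⟨β, hβ, h'⟩ := h
  exact ⟨β, hβ, fun E hE => h' E (hT hE)⟩

theorem exists_isBasis_s1 [FiniteDimensional k U] : ∃ β : Set U, IsBasis k β := by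
  let b := Module.finBasis k U
  refine ⟨Set.range b, ?_, b.span_eq.ge⟩
  exact b.linearIndependent.linearIndepOn_id

theorem fg_B_s1 [FiniteDimensional k U] (L : Lin k U K) : L.B.FG := by
  classical
  let b := Module.finBasis k U
  refine ⟨Finset.univ.image fun i => L.lin (b i), ?_⟩
  apply le_antisymm
  · apply Algebra.adjoin_le
    intro x hx
    rw [Finset.mem_coe, Finset.mem_image] at hx
    obtain ⟨i, -, rfl⟩ := hx
    exact Algebra.subset_adjoin ⟨_, rfl⟩
  · apply Algebra.adjoin_le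
    rintro _ ⟨u, rfl⟩
    rw [← b.sum_repr u, map_sum]
    refine Subalgebra.sum_mem _ fun i _ => ?_
    rw [map_smul]
    refine Subalgebra.smul_mem _ (Algebra.subset_adjoin ?_) _
    rw [Finset.mem_coe, Finset.mem_image]
    exact ⟨i, Finset.mem_univ i, rfl⟩

theorem lin_mem_B_s1 (L : Lin k U K) (u : U) : L.lin u ∈ L.B := Algebra.subset_adjoin ⟨u, rfl⟩

theorem prod_mem_B_s1 (L : Lin k U K) (t : List U) : (t.map L.lin).prod ∈ L.B := by
  refine L.B.list_prod_mem fun x hx => ?_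
  rw [List.mem_map] at hx
  obtain ⟨u, -, rfl⟩ := hx
  exact lin_mem_B_s1 L u

/-- The family of stage 0. -/
def M0 (L : Lin k U K) : Fam k K PUnit where
  s _ := Subalgebra.toSubmodule L.B
  one' := L.B.one_mem
  mul' hx hy := L.B.mul_mem hx hy

theorem M0_fg [FiniteDimensional k U] (L : Lin k U K) : (M0 L).alg.FG := by
  have h1 : (M0 L).alg = L.B.map
      (AddMonoidAlgebra.singleZeroAlgHom : K →ₐ[k] AddMonoidAlgebra K PUnit) := by
    ext F
    rw [Subalgebra.mem_map]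
    constructor
    · intro hF
      refine ⟨F.coeff 0, hF 0, ?_⟩
      change single 0 (F.coeff 0) = F
      ext
      rw [coeff_single]
      exact Finsupp.single_eq_same
    · rintro ⟨x, hx, rfl⟩
      exact Fam.single_mem_alg.2 hx
  rw [h1]
  exact (fg_B_s1 L).map _

/-- Stage 0. -/
theorem hasSt1_empty [FiniteDimensional k U] (hc : Ctx L ρ φ p) : HasSt1 L ρ φ p ∅ := by
  have hEE : ∀ E : Idx G, E ∉ EE1 (∅ : Set (Subgroup G)) := by
    rintro E ⟨N, hN, -⟩
    exact hN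
  refine ⟨PUnit, inferInstance, inferInstance, inferInstance, M0 L, 0, 0, 0, ?_, ?_⟩
  · refine ⟨M0_fg L, rfl, fun _ => le_rfl, ?_, fun _ => L.B.one_mem, fun _ => ⟨0, L.B.one_mem,
      L.B.one_mem⟩, ⟨1, one_pos, 1, L.B.one_mem, one_ne_zero⟩, fun _ E hE => absurd hE (hEE E),
      fun _ E hE => absurd hE (hEE E), fun _ E hE => absurd hE (hEE E),
      fun E hE => absurd hE (hEE E), fun E hE => absurd hE (hEE E), fun E hE => absurd hE (hEE E),
      fun E hE => absurd hE (hEE E), fun E hE => absurd hE (hEE E), ?_⟩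
    · intro g _ x hx
      exact map_mem_B L (φ g) (ρ g) (hc.hφ g) hx
    · intro q hq _ d
      refine ⟨1, one_pos, 1, one_pos, 1, L.B.one_mem, ?_⟩
      have h1 : (M0 L).el (show (1 : K) ∈ (M0 L).s (1 • ((1 : ℕ) • (0 : PUnit) + d)) from
          L.B.one_mem) = 1 := Subtype.ext rfl
      rw [h1]
      exact (Ideal.ne_top_iff_one q).1 hq.ne_top
  · intro q hq _
    refine ⟨∅, ⟨Set.empty_subset _, fun E hE => absurd hE (Set.notMem_empty E), ?_, ?_,
      fun E hE => absurd hE (Set.notMem_empty E), fun E hE => absurd hE (hEE E),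
      fun _ _ E hE => absurd hE (Set.notMem_empty E), fun _ _ hE => absurd hE (Set.notMem_empty _),
      fun E hE => absurd hE (Set.notMem_empty E), fun _ hE => absurd hE (Set.notMem_empty _)⟩,
      Set.notMem_empty _, fun _ hE => absurd hE (Set.notMem_empty _)⟩
    · intro d y hy
      exact le_atP (M0 L) q d ((mem_CSs L _ _ _).1 hy).1
    · obtain ⟨β, hβ⟩ := exists_isBasis_s1 (k := k) (U := U)
      exact ⟨β, hβ, fun E hE => absurd hE (Set.notMem_empty E)⟩

/-- In Step 1 the set `S` is a chain. -/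
theorem adapted_st1 [FiniteDimensional k U] (hDD : ∀ N ∈ DD, PPerf p N ∧ N ≠ ⊥)
    {q : Ideal M.alg} [q.IsPrime] {S : Set (Idx G)}
    (hS : Loc L ρ φ p M (EE1 DD) l e q S) {N : Subgroup G} (hN : PPerf p N)
    (hNS : ∀ N', Idx.t N' ∈ S → N ≤ N') : AdaptedTo (flg ρ) (insert (Idx.t N) S) := by
  have hSt : ∀ E ∈ S, ∃ N' ∈ DD, E = Idx.t N' := fun E hE => hS.sub hE
  apply adapted_of_chain
  · rintro E (rfl | hE)
    · exact ⟨N, rfl⟩
    · obtain ⟨N', -, h'⟩ := hSt E hE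
      exact ⟨N', h'⟩
  · rintro E (rfl | hE) E' (rfl | hE')
    · exact Or.inl le_rfl
    · obtain ⟨N', -, rfl⟩ := hSt E' hE'
      exact Or.inl (hNS N' hE')
    · obtain ⟨N', -, rfl⟩ := hSt E hE
      exact Or.inr (hNS N' hE)
    · obtain ⟨N1, h1, rfl⟩ := hSt E hE
      obtain ⟨N2, h2, rfl⟩ := hSt E' hE'
      exact hS.comp _ hE _ hE' (hDD N1 h1).1 (hDD N2 h2).1

/-- The dual elements in a chart. -/
theorem dual_of_loc1 {EE : Set (Idx G)} (hG : Glob L ρ φ M a EE l e) {q : Ideal M.alg} [q.IsPrime]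
    {S : Set (Idx G)} (hS : Loc L ρ φ p M EE l e q S) : Dual l e S := by
  refine ⟨fun E hE => hG.self E (hS.sub hE), fun E hE E' hE' hne => ?_⟩
  refine hG.dual E (hS.sub hE) E' (hS.sub hE') fun g hg => hne ?_
  rw [← hg] at hE' ⊢
  exact (hS.inj E hE g hE').symm

/-- Blueprint 4.2: over the centre the inertia group drops. -/
theorem drop1 [FiniteDimensional k U] [CharP k p] (hc : Ctx L ρ φ p)
    {EE : Set (Idx G)} (hG : Glob L ρ φ M a EE l e)
    {q : Ideal M.alg} [q.IsPrime] {S : Set (Idx G)} (hS : Loc L ρ φ p M EE l e q S)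
    {N : Subgroup G} (hN : PPerf p N) (hNS : ∀ E ∈ S, ∃ N', E = Idx.t N' ∧ N ≤ N')
    (had : AdaptedTo (flg ρ) (insert (Idx.t N) S))
    {d : ι} {y : K} (hy : y ∈ M.s d) (hyq : M.el hy ∉ q) (hyv : y ∈ L.Fil (flg ρ (.t N)) 1) :
    ¬ N ≤ inertia φ M q := by
  classical
  intro hNI
  obtain ⟨β, hβ, had⟩ := had
  have hfin : S.Finite := Set.Finite.subset (Set.finite_range Idx.t) fun E hE => by
    obtain ⟨N', rfl, -⟩ := hNS E hE
    exact ⟨N', rfl⟩
  have hflS : ∀ E ∈ S, IsFlag (flg ρ E) := fun E hE => hG.flag E (hS.sub hE)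
  have hv : IsFlag (flg ρ (.t N)) := isFlag_t ρ N
  have hyS : y ∈ CSs L (flg ρ) l S d :=
    (mem_CSs L _ _ _).2 ⟨hG.leB d hy, fun E hE => hG.val E (hS.sub hE) d hy⟩
  have hspan := chart_span hflS hv hβ (fun E hE m => had E (Set.mem_insert_of_mem _ hE) m)
    (had (.t N) (Set.mem_insert _ _)) hyS hyv
  have hmono : ∀ (r : List U) (d : ι), (∀ b ∈ r, b ∈ β) →
      (∀ E ∈ S, l E d ≤ ((r.map (lev (flg ρ E))).sum : ℕ)) →
      (r.map L.lin).prod ∈ (atP M q).s d := by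
    intro r d hr hrE
    refine hS.chart d ((mem_CSs L _ _ _).2 ⟨prod_mem_B_s1 L r, fun E hE => ?_⟩)
    exact fil_anti L _ (hrE E hE) (monomial_mem_fil L hβ (hflS E hE) r hr)
  obtain ⟨y1, ⟨t, htβ, htE, ht1, rfl⟩, hU⟩ := exists_isU_of_span M q (by
    rintro _ ⟨t, htβ, htE, -, rfl⟩
    exact hmono t d htβ htE) hspan ((isU_atP_iff M q hy).2 hyq)
  obtain ⟨b, hbt, hb1⟩ : ∃ b ∈ t, lev (flg ρ (.t N)) b ≠ 0 := by
    by_contra hcon
    push Not at hcon
    have h0 : (t.map (lev (flg ρ (.t N)))).sum = 0 := by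
      rw [List.sum_eq_zero_iff]
      intro x hx
      rw [List.mem_map] at hx
      obtain ⟨u, hu, rfl⟩ := hx
      exact hcon u hu
    rw [h0] at ht1
    norm_num at ht1
  obtain ⟨t1, t2, rfl⟩ := List.append_of_mem hbt
  have hb0 : b ≠ 0 := by
    have := hβ.1.ne_zero (⟨b, htβ b hbt⟩ : β)
    exact this
  have hbN : b ∈ AN ρ N := by
    have := (mem_iff_le_lev hv hb0 (m := 1)).2 (Nat.one_le_iff_ne_zero.2 hb1)
    rwa [flg_one] at this
  have hlev : ∀ E ∈ S, lev (flg ρ E) b = 1 := by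
    intro E hE
    obtain ⟨N', rfl, hNN'⟩ := hNS E hE
    have h1 : b ∈ flg ρ (.t N') 1 := by
      rw [flg_one]
      exact AN_mono ρ hNN' hbN
    have h2 : b ∉ flg ρ (.t N') 2 := by
      rw [flg_t_two ρ N' 0]
      exact hb0
    rw [mem_iff_le_lev (hflS _ hE) hb0] at h1 h2
    omega
  obtain ⟨hdual1, hdual2⟩ := dual_of_loc1 hG hS
  let eS : ι := ∑ E ∈ hfin.toFinset, e E
  have hleS : ∀ E ∈ S, l E eS = 1 := by
    intro E hE
    change l E (∑ E ∈ hfin.toFinset, e E) = 1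
    rw [map_sum, Finset.sum_eq_single E]
    · exact hdual1 E hE
    · intro E' hE' hne
      exact hdual2 E hE E' (hfin.mem_toFinset.1 hE') hne.symm
    · intro h
      exact absurd (hfin.mem_toFinset.2 hE) h
  have hlin : ∀ w ∈ AN ρ N, L.lin w ∈ (atP M q).s eS := by
    intro w hw
    refine hS.chart eS ((mem_CSs L _ _ _).2 ⟨lin_mem_B_s1 L w, fun E hE => ?_⟩)
    rw [hleS E hE]
    refine lin_mem_fil L (m := 1) ?_
    rw [flg_one]
    obtain ⟨N', rfl, hNN'⟩ := hNS E hE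
    exact AN_mono ρ hNN' hw
  have hrest : ((t1 ++ t2).map L.lin).prod ∈ (atP M q).s (d - eS) := by
    refine hmono _ _ (fun u hu => htβ u ?_) fun E hE => ?_
    · rw [List.mem_append] at hu ⊢
      rcases hu with hu | hu
      · exact Or.inl hu
      · exact Or.inr (List.mem_cons_of_mem _ hu)
    · have h1 := htE E hE
      rw [map_sub, hleS E hE]
      rw [List.map_append, List.map_cons, List.sum_append, List.sum_cons, hlev E hE] at h1
      rw [List.map_append, List.sum_append]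
      push_cast at h1 ⊢
      linarith
  have hprod : ((t1 ++ b :: t2).map L.lin).prod = L.lin b * ((t1 ++ t2).map L.lin).prod := by
    rw [List.map_append, List.map_cons, List.prod_append, List.prod_cons, List.map_append,
      List.prod_append]
    ring
  have hUb : IsU (atP M q) eS (L.lin b) := by
    refine IsU.of_mul_left (hlin b hbN) hrest ?_
    rw [← hprod, add_sub_cancel]
    exact hU
  have hbspan : L.lin b ∈ Submodule.span k
      {x | ∃ h ∈ N, ∃ w ∈ AN ρ N, x = φ h (L.lin w) - L.lin w} := by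
    have h1 : DP ρ N (AN ρ N) ≤ (Submodule.span k
        {x | ∃ h ∈ N, ∃ w ∈ AN ρ N, x = φ h (L.lin w) - L.lin w}).comap L.lin := by
      refine iSup₂_le fun h hh => ?_
      rw [Submodule.map_le_iff_le_comap]
      intro w hw
      refine Submodule.subset_span ⟨h, hh, w, hw, ?_⟩
      rw [hc.hφ]
      simp
    exact h1 (AN_le_DP ρ hN hbN)
  obtain ⟨_, ⟨h, hh, w, hw, rfl⟩, hUx⟩ := exists_isU_of_span M q (by
    rintro _ ⟨h, hh, w, hw, rfl⟩
    exact Submodule.sub_mem _ (inertia_mem φ M q (hNI hh) (hlin w hw)) (hlin w hw)) hbspan hUb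
  exact inertia_not_isU φ M q (hNI hh) (hlin w hw) hUx

/-- Blueprint 4.1: the centre. -/
theorem cen1_iff [FiniteDimensional k U] [CharP k p] (hc : Ctx L ρ φ p)
    (hG : Glob L ρ φ M a (EE1 DD) l e) (hDD : ∀ N ∈ DD, PPerf p N ∧ N ≠ ⊥)
    {q : Ideal M.alg} [q.IsPrime] {S : Set (Idx G)} (hS : Loc L ρ φ p M (EE1 DD) l e q S)
    (h1 : Op p (inertia φ M q) ∉ DD) (h2 : ∀ N, Idx.t N ∈ S → Op p (inertia φ M q) ≤ N)
    {N : Subgroup G} (hN : PPerf p N) (hND : N ∉ DD)
    (hmax : ∀ N1, PPerf p N1 → N < N1 → N1 ∈ DD) :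
    Cen L (flg ρ) M 0 q (Idx.t N) ↔ N = Op p (inertia φ M q) := by
  have hpp := pperf_Op p (inertia φ M q)
  constructor
  · intro hcen
    have hle : N ≤ inertia φ M q := by
      intro h hh d x hx
      have h1 : φ h x - x ∈ M.s d := Submodule.sub_mem _ (hG.stable h d x hx) hx
      refine ⟨h1, hcen d _ h1 ?_⟩
      have h2 := fil_diff_one L (isFlag_t ρ N) (φ h) (ρ h) (hc.hφ h) (fun z => by
        rw [flg_one]
        exact mem_AN ρ hh z) (hG.leB d hx)
      simpa using h2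
    have hle' : N ≤ Op p (inertia φ M q) := le_Op hN hle
    by_contra hne
    exact h1 (hmax _ hpp (lt_of_le_of_ne hle' hne))
  · intro hNe d y hy hyv
    by_contra hyq
    have hNS : ∀ N', Idx.t N' ∈ S → N ≤ N' := fun N' hN' => hNe ▸ h2 N' hN'
    refine drop1 hc hG hS hN ?_ (adapted_st1 hDD hS hN hNS) hy hyq ?_ ?_
    · intro E hE
      obtain ⟨N', -, rfl⟩ := hS.sub hE
      exact ⟨N', rfl, hNS N' hE⟩
    · simpa using hyv
    · rw [hNe]
      exact Op_le p _

omit [Finite G] in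
theorem cj_inv_cj_s1 (g : G) (N : Subgroup G) : cj g⁻¹ (cj g N) = N := by
  rw [← cj_mul, inv_mul_cancel, cj_one]

omit [Finite G] in
theorem cj_cj_inv_s1 (g : G) (N : Subgroup G) : cj g (cj g⁻¹ N) = N := by
  rw [← cj_mul, mul_inv_cancel, cj_one]

/-- One step. -/
theorem hasSt1_step [FiniteDimensional k U] [CharP k p] (hc : Ctx L ρ φ p)
    (hDD : ∀ N ∈ DD, PPerf p N ∧ N ≠ ⊥) (hcj : ∀ g, ∀ N ∈ DD, cj g N ∈ DD)
    (hup : ∀ N ∈ DD, ∀ N1, PPerf p N1 → N ≤ N1 → N1 ∈ DD)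
    (h : HasSt1 L ρ φ p DD) {N : Subgroup G} (hN : PPerf p N) (hN1 : N ≠ ⊥) (hND : N ∉ DD)
    (hmax : ∀ N1, PPerf p N1 → N < N1 → N1 ∈ DD) :
    HasSt1 L ρ φ p (DD ∪ {N' | ∃ g, N' = cj g N}) := by
  obtain ⟨ι, i1, i2, i3, M, a, l, e, hst⟩ := h
  have hEE : EE1 (DD ∪ {N' | ∃ g, N' = cj g N}) = EE1 DD ∪ Orb (Idx.t N) := by
    ext E
    constructor
    · rintro ⟨N', hN' | ⟨g, rfl⟩, rfl⟩
      · exact Or.inl ⟨N', hN', rfl⟩
      · exact Or.inr ⟨g, rfl⟩
    · rintro (⟨N', hN', rfl⟩ | ⟨g, rfl⟩)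
      · exact ⟨N', Or.inl hN', rfl⟩
      · exact ⟨cj g N, Or.inr ⟨g, rfl⟩, rfl⟩
  have hcjND : ∀ g, cj g N ∉ DD := fun g hg => hND (by
    have := hcj g⁻¹ _ hg
    rwa [cj_inv_cj_s1] at this)
  have hmaxg : ∀ g N1, PPerf p N1 → cj g N < N1 → N1 ∈ DD := by
    intro g N1 hN1 hlt
    have h1 : N < cj g⁻¹ N1 := by
      refine lt_of_le_of_ne ?_ ?_
      · have := cj_mono g⁻¹ hlt.le
        rwa [cj_inv_cj_s1] at this
      · intro heq
        apply hlt.ne
        rw [heq, cj_cj_inv_s1]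
    have h2 := hcj g _ (hmax _ (pperf_cj hN1 g⁻¹) h1)
    rwa [cj_cj_inv_s1] at h2
  have hstep : StepHyp L ρ p M (EE1 DD) e (Idx.t N) 0 :=
    { disj := by
        rintro g ⟨N', hN', h⟩
        have h' : cj g N = N' := Idx.t.inj h
        exact hcjND g (h' ▸ hN')
      flag := isFlag_t ρ N
      len := by
        obtain ⟨m, rfl⟩ : ∃ m, p = m + 1 := ⟨p - 1, by have := hc.hp.pos; omega⟩
        exact flg_t_two ρ N m
      ne := AN_ne_bot ρ hc.hρ hN1
      r0 := by
        intro g d x hx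
        change x ∈ L.Fil (flg ρ (Idx.t (cj g N))) ((0 : ι →+ ℤ) d)
        rw [fil_of_nonpos L (isFlag_t ρ (cj g N)) (m := (0 : ι →+ ℤ) d) (by simp)]
        exact hst.glob.leB d hx
      lam01 := fun _ _ => Or.inl rfl }
  obtain ⟨a', hG', hsemi⟩ := glob_step hc.hp.pos hc.hφ hst.glob hstep
  refine ⟨ι × ℤ, inferInstance, inferInstance, inferInstance,
    rees L (flg ρ) M (Orb (Idx.t N)) 0 p, a', lnew (Orb (Idx.t N)) 0 l, enew (Orb (Idx.t N)) 0 e,
    ?_, ?_⟩
  · rw [hEE]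
    exact hG'
  intro q' hq' hq's
  obtain ⟨q, hq, hov⟩ := exists_over (M := M) (j := inlZ ι)
    (fun x y hxy => (Prod.mk.inj hxy).1) (fun d => le_rees d) q'
  obtain ⟨hqs, hgen⟩ := hsemi q' q hov hq's
  obtain ⟨S, hS, h1, h2⟩ := hst.loc q hqs
  have hcen : ∀ g, Cen L (flg ρ) M 0 q (Idx.t (cj g N)) ↔ cj g N = Op p (inertia φ M q) := fun g =>
    cen1_iff hc hst.glob hDD hS h1 h2 (pperf_cj hN g) (hcjND g) (hmaxg g)
  rw [hEE]
  by_cases hex : ∃ E ∈ Orb (Idx.t N), Cen L (flg ρ) M 0 q E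
  swap
  · obtain ⟨hL, hI, -⟩ := loc_empty hc.hp.pos hc.hφ hst.glob hstep hov hS
      (fun E hE hcenE => hex ⟨E, hE, hcenE⟩)
    refine ⟨S, hL, ?_, ?_⟩
    · rw [hI]
      rintro (h | ⟨g, hg⟩)
      · exact h1 h
      · exact hex ⟨Idx.t (cj g N), ⟨g, rfl⟩, (hcen g).2 hg.symm⟩
    · rw [hI]
      exact h2
  obtain ⟨E, hE, hcenE⟩ := hex
  obtain ⟨g, rfl⟩ := id hE
  have hN' : cj g N = Op p (inertia φ M q) := (hcen g).1 hcenE
  have huniq : ∀ E' ∈ Orb (Idx.t N), E' ≠ (Idx.t N).cj g → ¬ Cen L (flg ρ) M 0 q E' := by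
    rintro _ ⟨g', rfl⟩ hne hc'
    apply hne
    have h3 : cj g' N = cj g N := ((hcen g').1 hc').trans hN'.symm
    change Idx.t (cj g' N) = Idx.t (cj g N)
    rw [h3]
  have hNS : ∀ N', Idx.t N' ∈ S → cj g N ≤ N' := fun N' hN'S => hN' ▸ h2 N' hN'S
  have had : AdaptedTo (flg ρ) (insert ((Idx.t N).cj g) S) :=
    adapted_st1 hDD hS (pperf_cj hN g) hNS
  obtain ⟨hL, hI⟩ := loc_centre hc.hp.pos hc.hφ hst.glob hstep hov hS hE hcenE huniq had
    (fun _ _ => rfl)
    (by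
      intro h hh
      change Idx.t (cj h (cj g N)) = Idx.t (cj g N)
      rw [hN', cj_Op hh])
    (by
      intro P N' h
      exact absurd h (by rintro ⟨⟩))
    (by
      intro _ E' hE' _
      obtain ⟨N', -, rfl⟩ := hS.sub hE'
      exact Or.inl (hNS N' hE'))
    (by
      intro N₁ hN₁ g' hg'
      obtain rfl : cj g N = N₁ := Idx.t.inj hN₁
      have h3 := huniq (Idx.t (cj g' (cj g N))) ⟨g' * g, by
        change _ = Idx.t (cj (g' * g) N)
        rw [cj_mul]⟩ (by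
          intro h4
          exact hg' (Idx.t.inj h4))
      by_contra hcon
      push Not at hcon
      apply h3
      intro d y hy hyv
      by_contra hyq
      exact hcon d y hy hyq (by simpa using hyv) rfl)
  have hsub : ∀ E ∈ Snew L ρ p M e (Idx.t N) 0 q' S ((Idx.t N).cj g),
      ∃ N', E = Idx.t N' ∧ cj g N ≤ N' := by
    rintro E ⟨rfl | hE, -⟩
    · exact ⟨cj g N, rfl, le_rfl⟩
    · obtain ⟨N', -, rfl⟩ := hS.sub hE
      exact ⟨N', rfl, hNS N' hE⟩
  have hOple := Op_mono (p := p) hI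
  refine ⟨_, hL, ?_, ?_⟩
  · rintro (h3 | ⟨g', hg'⟩)
    · exact h1 (hup _ h3 _ (pperf_Op p _) hOple)
    · have h4 : cj g' N = cj g N := by
        rw [hg', ← hN'] at hOple
        have h5 : cj (g' * g⁻¹) (cj g N) = cj g' N := by
          rw [← cj_mul, inv_mul_cancel_right]
        rw [← h5] at hOple ⊢
        exact eq_of_cj_le hOple
      obtain ⟨d, b, y, hyF, hy, hb, hyq⟩ := hgen
      have hyF' : y ∈ L.Fil (flg ρ (.t (cj g N))) 1 := by
        have h6 := hyF.2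
        simp only [Submodule.mem_iInf, SetLike.mem_coe] at h6
        have h7 := h6 _ hE
        refine fil_anti L _ ?_ h7
        simp only [AddMonoidHom.zero_apply, add_zero]
        exact_mod_cast hb
      refine drop1 hc hG' hL (pperf_cj hN g) hsub ?_ hy hyq hyF' ?_
      · refine had.mono_s1 ?_
        rintro E (rfl | hE')
        · exact Set.mem_insert _ _
        · exact hE'.1
      · rw [← h4, ← hg']
        exact Op_le p _
  · intro N' hN'S
    obtain ⟨N'', h3, h4⟩ := hsub _ hN'S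
    obtain rfl : N' = N'' := Idx.t.inj h3
    exact hOple.trans (hN' ▸ h4)

/-- The result of Step 1. -/
theorem hasSt1_final [FiniteDimensional k U] [CharP k p] (hc : Ctx L ρ φ p) :
    HasSt1 L ρ φ p {N | PPerf p N ∧ N ≠ ⊥} := by
  classical
  have key : ∀ n : ℕ, ∀ DD : Set (Subgroup G), (∀ N ∈ DD, PPerf p N ∧ N ≠ ⊥) →
      (∀ g, ∀ N ∈ DD, cj g N ∈ DD) →
      (∀ N ∈ DD, ∀ N1, PPerf p N1 → N ≤ N1 → N1 ∈ DD) → HasSt1 L ρ φ p DD →
      Set.ncard ({N | PPerf p N ∧ N ≠ ⊥} \ DD) ≤ n → HasSt1 L ρ φ p {N | PPerf p N ∧ N ≠ ⊥} := by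
    intro n
    induction n with
    | zero =>
      intro DD hDD _ _ h hn
      have h1 : ({N | PPerf p N ∧ N ≠ ⊥} \ DD) = ∅ := by
        rw [← Set.ncard_eq_zero (Set.toFinite _)]
        omega
      have h2 : DD = {N | PPerf p N ∧ N ≠ ⊥} :=
        Set.Subset.antisymm hDD (Set.sdiff_eq_empty.1 h1)
      rw [← h2]
      exact h
    | succ n ih =>
      intro DD hDD hcj hup h hn
      rcases Set.eq_empty_or_nonempty ({N | PPerf p N ∧ N ≠ ⊥} \ DD) with h1 | h1
      · have h2 : DD = {N | PPerf p N ∧ N ≠ ⊥} :=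
          Set.Subset.antisymm hDD (Set.sdiff_eq_empty.1 h1)
        rw [← h2]
        exact h
      obtain ⟨N, hN⟩ := (Set.toFinite _).exists_maximal h1
      have hN0 := hN.1
      have hmax : ∀ N1, PPerf p N1 → N < N1 → N1 ∈ DD := by
        intro N1 h2 h3
        by_contra h4
        have h5 : N1 ∈ ({N | PPerf p N ∧ N ≠ ⊥} \ DD) :=
          ⟨⟨h2, fun h6 => by
            rw [h6] at h3
            exact not_lt_bot h3⟩, h4⟩
        exact absurd (hN.2 h5 h3.le) (not_le_of_gt h3)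
      refine ih (DD ∪ {N' | ∃ g, N' = cj g N}) ?_ ?_ ?_
        (hasSt1_step hc hDD hcj hup h hN0.1.1 hN0.1.2 hN0.2 hmax) ?_
      · rintro N' (hN' | ⟨g, rfl⟩)
        · exact hDD N' hN'
        · refine ⟨pperf_cj hN0.1.1 g, fun h2 => hN0.1.2 ?_⟩
          have h3 := cj_inv_cj_s1 g N
          rw [h2] at h3
          rw [← h3]
          exact Subgroup.map_bot _
      · rintro g N' (hN' | ⟨g', rfl⟩)
        · exact Or.inl (hcj g N' hN')
        · exact Or.inr ⟨g * g', (cj_mul g g' N).symm⟩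
      · rintro N' (hN' | ⟨g, rfl⟩) N1 hN1 hle
        · exact Or.inl (hup N' hN' N1 hN1 hle)
        · rcases eq_or_lt_of_le hle with h2 | h2
          · exact Or.inr ⟨g, h2.symm⟩
          · left
            have h3 : N < cj g⁻¹ N1 := by
              refine lt_of_le_of_ne ?_ ?_
              · have := cj_mono g⁻¹ h2.le
                rwa [cj_inv_cj_s1] at this
              · intro heq
                apply h2.ne
                rw [heq, cj_cj_inv_s1]
            have h4 := hcj g _ (hmax _ (pperf_cj hN1 g⁻¹) h3)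
            rwa [cj_cj_inv_s1] at h4
      · have h2 : ({N | PPerf p N ∧ N ≠ ⊥} \ (DD ∪ {N' | ∃ g, N' = cj g N})) ⊂
            ({N | PPerf p N ∧ N ≠ ⊥} \ DD) := by
          refine ⟨fun x hx => ⟨hx.1, fun h => hx.2 (Or.inl h)⟩, fun hcon => ?_⟩
          exact (hcon hN0).2 (Or.inr ⟨1, (cj_one N).symm⟩)
        have h3 := Set.ncard_lt_ncard h2 (Set.toFinite _)
        omega
  refine key _ ∅ (fun N hN => absurd hN (Set.notMem_empty N))
    (fun _ N hN => absurd hN (Set.notMem_empty N)) (fun N hN => absurd hN (Set.notMem_empty N))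
    (hasSt1_empty hc) le_rfl

end Pool.Agent.MP_b525bf_ag_W
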