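import Mathlib

/-!
# W10, part A: generic elements and interpolation (blueprint 6 (1)-(3))
-/

set_option autoImplicit false

open Polynomial

namespace Pool.Agent.MP_b525bf_ag_W

/-- Divided differences along an automorphism. -/
theorem interp_iter {B : Type*} [CommRing B] [IsDomain B] (σ : B →+* B) (p : ℕ) (s x : B)
    (hs : s ≠ 0) (hdiv : ∀ b, s ∣ σ b - b)
    (hunit : ∀ i, 0 < i → i < p → ∃ v w : B, v * w = 1 ∧ σ^[i] x - x = s * v) (b : B) :
    ∀ n, n < p → ∃ G : B[X], G.degree < (n + 1 : ℕ) ∧ ∀ j ≤ n, G.eval (σ^[j] x) = σ^[j] b := by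
  intro n
  induction n with
  | zero =>
    intro _
    refine ⟨C b, ?_, ?_⟩
    · exact lt_of_le_of_lt degree_C_le (by norm_num)
    · intro j hj
      obtain rfl : j = 0 := by omega
      simp
  | succ n ih =>
    intro hn
    obtain ⟨G, hGd, hG⟩ := ih (by omega)
    obtain ⟨v, w, hvw, hu⟩ := hunit (n + 1) (by omega) hn
    -- `σ G - G = s H`
    have hdiv' : ∀ i, ∃ c, σ (G.coeff i) - G.coeff i = s * c := fun i => hdiv _
    choose c hc using hdiv'
    let H : B[X] := ∑ i ∈ Finset.range (n + 1), C (c i) * X ^ i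
    have hGsum : G = ∑ i ∈ Finset.range (n + 1), C (G.coeff i) * X ^ i := by
      have := G.as_sum_range' (n + 1) (by
        by_cases hG0 : G = 0
        · rw [hG0]; simp
        · exact (natDegree_lt_iff_degree_lt hG0).2 hGd)
      conv_lhs => rw [this]
      simp only [← C_mul_X_pow_eq_monomial]
    have hH : C s * H = G.map σ - G := by
      have e1 : G.map σ = ∑ i ∈ Finset.range (n + 1), C (σ (G.coeff i)) * X ^ i := by
        conv_lhs => rw [hGsum]
        simp [Polynomial.map_sum]
      rw [e1]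
      conv_rhs => rw [hGsum]
      rw [← Finset.sum_sub_distrib, Finset.mul_sum]
      apply Finset.sum_congr rfl
      intro i _
      have hcoef : (∑ i ∈ Finset.range (n + 1), C (G.coeff i) * X ^ i : B[X]) = G := hGsum.symm
      rw [hcoef, ← sub_mul, ← C_sub, hc i, C_mul]
      ring
    have hHd : H.degree < (n + 1 : ℕ) := by
      apply lt_of_le_of_lt (degree_sum_le _ _)
      rw [Finset.sup_lt_iff (by exact WithBot.bot_lt_coe _)]
      intro i hi
      exact lt_of_le_of_lt (degree_C_mul_X_pow_le _ _) (by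
        exact_mod_cast Finset.mem_range.1 hi)
    refine ⟨G + C w * (X - C x) * H, ?_, ?_⟩
    · apply lt_of_le_of_lt (degree_add_le _ _)
      apply max_lt
      · exact hGd.trans (by exact_mod_cast Nat.lt_succ_self _)
      · have h1 : H.natDegree ≤ n := by
          by_cases hH0 : H = 0
          · rw [hH0]; simp
          · exact Nat.lt_succ_iff.1 ((natDegree_lt_iff_degree_lt hH0).2 hHd)
        have h2 : (C w * (X - C x)).natDegree ≤ 1 := by
          apply (natDegree_C_mul_le _ _).trans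
          exact natDegree_X_sub_C_le x
        have h3 : (C w * (X - C x) * H).natDegree ≤ 1 + n :=
          natDegree_mul_le.trans (add_le_add h2 h1)
        refine lt_of_le_of_lt degree_le_natDegree ?_
        exact_mod_cast (by omega : (C w * (X - C x) * H).natDegree < n + 1 + 1)
    · intro j hj
      have hev : ∀ y, s * H.eval y = (G.map σ).eval y - G.eval y := by
        intro y
        rw [← eval_sub, ← hH, eval_mul, eval_C]
      have hσ : ∀ i ≤ n, (G.map σ).eval (σ^[i + 1] x) = σ^[i + 1] b := by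
        intro i hi
        rw [Function.iterate_succ_apply', Function.iterate_succ_apply', ← hG i hi]
        exact (Polynomial.eval_map_apply σ _)
      rcases Nat.eq_zero_or_pos j with rfl | hj0
      · have := hG 0 (Nat.zero_le _)
        simp only [Function.iterate_zero, id] at this ⊢
        simp [this]
      · obtain ⟨i, rfl⟩ : ∃ i, j = i + 1 := ⟨j - 1, by omega⟩
        have e2 := hev (σ^[i + 1] x)
        rw [hσ i (by omega)] at e2
        rcases Nat.lt_or_ge (i + 1) (n + 1) with h1 | h1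
        · rw [hG (i + 1) (by omega), sub_self] at e2
          have e3 : H.eval (σ^[i + 1] x) = 0 := (mul_eq_zero.1 e2).resolve_left hs
          rw [eval_add, eval_mul, e3, hG (i + 1) (by omega)]; ring
        · obtain rfl : i = n := by omega
          rw [eval_add, eval_mul, eval_mul, eval_C, eval_sub, eval_X, eval_C, hu]
          linear_combination (w * v) * e2 + (σ^[i + 1] b - G.eval (σ^[i + 1] x)) * hvw

/-- Chinese remainder theorem for interpolation: the nodes of different blocks differ by units. -/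
theorem interp_blocks {B ι κ : Type} [CommRing B] [Fintype ι] (blk : ι → κ)
    (nd : ι → B) (val : ι → B)
    (hu : ∀ i j, blk i ≠ blk j → IsUnit (nd i - nd j))
    (hblk : ∀ c : κ, ∃ H : B[X], ∀ i, blk i = c → H.eval (nd i) = val i) :
    ∃ H : B[X], H.degree < Fintype.card ι ∧ ∀ i, H.eval (nd i) = val i := by
  classical
  rcases subsingleton_or_nontrivial B with hB | hB
  · refine ⟨0, ?_, fun i => Subsingleton.elim _ _⟩
    rw [degree_zero]
    exact WithBot.bot_lt_coe _
  have : Finite (Set.range blk) := Set.finite_range blk |>.to_subtype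
  have : Fintype (Set.range blk) := Fintype.ofFinite _
  choose H hH using fun c : Set.range blk => hblk c.1
  let Φ : Set.range blk → B[X] := fun c => ∏ i ∈ Finset.univ.filter (fun i => blk i = c.1),
    (X - C (nd i))
  have hcop : Pairwise (Function.onFun IsCoprime (fun c : Set.range blk => Ideal.span {Φ c})) := by
    intro c c' hcc'
    change IsCoprime (Ideal.span {Φ c}) (Ideal.span {Φ c'})
    rw [Ideal.isCoprime_span_singleton_iff]
    refine IsCoprime.prod_left fun i hi => IsCoprime.prod_right fun j hj => ?_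
    have hi' := (Finset.mem_filter.1 hi).2
    have hj' := (Finset.mem_filter.1 hj).2
    obtain ⟨u, hu'⟩ := hu i j (by
      rw [hi', hj']
      exact fun h => hcc' (Subtype.ext h))
    refine ⟨-C (↑u⁻¹ : B), C (↑u⁻¹ : B), ?_⟩
    have : C (↑u⁻¹ : B) * C (nd i - nd j) = 1 := by
      rw [← C_mul, ← hu', Units.inv_mul, C_1]
    rw [C_sub] at this
    linear_combination this
  obtain ⟨F, hF⟩ := Ideal.exists_forall_sub_mem_ideal hcop H
  have hFe : ∀ i, F.eval (nd i) = val i := by
    intro i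
    have h1 := hF ⟨blk i, i, rfl⟩
    rw [Ideal.mem_span_singleton] at h1
    obtain ⟨Q, hQ⟩ := h1
    have h2 : (Φ ⟨blk i, i, rfl⟩).eval (nd i) = 0 := by
      change (∏ j ∈ Finset.univ.filter (fun j => blk j = blk i), (X - C (nd j))).eval (nd i) = 0
      rw [eval_prod]
      exact Finset.prod_eq_zero (Finset.mem_filter.2 ⟨Finset.mem_univ i, rfl⟩) (by simp)
    have h3 : (F - H ⟨blk i, i, rfl⟩).eval (nd i) = 0 := by
      rw [hQ, eval_mul, h2, zero_mul]
    rw [eval_sub, hH ⟨blk i, i, rfl⟩ i rfl] at h3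
    exact sub_eq_zero.1 h3
  let Ψ : B[X] := ∏ i : ι, (X - C (nd i))
  have hΨ : Ψ.Monic := monic_prod_of_monic _ _ fun i _ => monic_X_sub_C _
  have hΨd : Ψ.degree = Fintype.card ι := by
    rw [degree_eq_natDegree hΨ.ne_zero, natDegree_prod_of_monic _ _ fun i _ => monic_X_sub_C _]
    simp
  refine ⟨F %ₘ Ψ, ?_, ?_⟩
  · rw [← hΨd]
    exact degree_modByMonic_lt F hΨ
  · intro i
    rw [← hFe i]
    conv_rhs => rw [← modByMonic_add_div F Ψ]
    have : Ψ.eval (nd i) = 0 := by
      rw [eval_prod]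
      exact Finset.prod_eq_zero (Finset.mem_univ i) (by simp)
    rw [eval_add, eval_mul, this, zero_mul, add_zero]

/-- Clearing denominators. -/
theorem clear_denominators {A : Type} [CommRing A] [IsDomain A] (q : Ideal A) [q.IsPrime]
    {ι : Type} (nd : ι → A) (val : ι → A) (n : ℕ)
    (h : ∃ H : (Localization.AtPrime q)[X], H.degree < n ∧
      ∀ i, H.eval (algebraMap A _ (nd i)) = algebraMap A _ (val i)) :
    ∃ f ∉ q, ∃ H : A[X], H.degree < n ∧ ∀ i, H.eval (nd i) = f * val i := by
  classical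
  obtain ⟨H, hHd, hH⟩ := h
  obtain ⟨f, hf⟩ := IsLocalization.exist_integer_multiples q.primeCompl (Finset.range n) H.coeff
  choose! a ha using hf
  refine ⟨f, f.2, ∑ i ∈ Finset.range n, C (a i) * X ^ i, ?_, ?_⟩
  · rcases Nat.eq_zero_or_pos n with rfl | hn
    · simp
    apply lt_of_le_of_lt (degree_sum_le _ _)
    rw [Finset.sup_lt_iff (by exact WithBot.bot_lt_coe _)]
    intro i hi
    exact lt_of_le_of_lt (degree_C_mul_X_pow_le _ _) (by
      exact_mod_cast Finset.mem_range.1 hi)
  · intro i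
    have hinj : Function.Injective (algebraMap A (Localization.AtPrime q)) :=
      IsLocalization.injective _ (Ideal.primeCompl_le_nonZeroDivisors q)
    apply hinj
    have hHs : H = ∑ i ∈ Finset.range n, C (H.coeff i) * X ^ i := by
      by_cases hH0 : H = 0
      · rw [hH0]; simp
      have := H.as_sum_range' n ((natDegree_lt_iff_degree_lt hH0).2 hHd)
      conv_lhs => rw [this]
      simp only [← C_mul_X_pow_eq_monomial]
    rw [_root_.map_mul, ← hH i]
    conv_rhs => rw [hHs]
    simp only [eval_finsetSum, eval_mul, eval_C, eval_pow, eval_X]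
    rw [_root_.map_sum, Finset.mul_sum]
    refine Finset.sum_congr rfl fun j hj => ?_
    rw [_root_.map_mul, _root_.map_pow, ha j hj, Algebra.smul_def]
    ring

section

variable {k A G : Type} [Field k] [CommRing A] [Algebra k A] [Group G]
  (ψ : G →* (A ≃ₐ[k] A))

theorem ψ_mul (g h : G) (x : A) : ψ (g * h) x = ψ g (ψ h x) := by
  rw [_root_.map_mul, AlgEquiv.mul_apply]

theorem ψ_one (x : A) : ψ 1 x = x := by
  rw [_root_.map_one, AlgEquiv.one_apply]

/-- The inertia group of a prime. -/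
def inertA (Q : Ideal A) : Subgroup G where
  carrier := {g | ∀ x, ψ g x - x ∈ Q}
  mul_mem' := by
    intro g g' hg hg' x
    have e : ψ (g * g') x - x = (ψ g (ψ g' x) - ψ g' x) + (ψ g' x - x) := by rw [ψ_mul]; ring
    rw [e]
    exact Q.add_mem (hg _) (hg' _)
  one_mem' := by
    intro x
    rw [ψ_one, sub_self]
    exact Q.zero_mem
  inv_mem' := by
    intro g hg x
    have h1 := hg (ψ g⁻¹ x)
    rw [← ψ_mul, mul_inv_cancel, ψ_one] at h1
    have h2 := Q.neg_mem h1
    rwa [neg_sub] at h2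

theorem mem_inertA {Q : Ideal A} {g : G} : g ∈ inertA ψ Q ↔ ∀ x, ψ g x - x ∈ Q := Iff.rfl

/-- Divisibility for powers. -/
theorem dvd_pow_sub (B : Type) [CommRing B] [Algebra A B] (D : B) (t : G)
    (hD : ∀ x : A, D ∣ algebraMap A B (ψ t x - x)) (m : ℕ) (x : A) :
    D ∣ algebraMap A B (ψ (t ^ m) x - x) := by
  induction m with
  | zero => rw [pow_zero, ψ_one, sub_self, _root_.map_zero]; exact dvd_zero _
  | succ m ih =>
    have e : ψ (t ^ (m + 1)) x - x = (ψ t (ψ (t ^ m) x) - ψ (t ^ m) x) + (ψ (t ^ m) x - x) := by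
      rw [pow_succ', ψ_mul]; ring
    rw [e, _root_.map_add]
    exact dvd_add (hD _) ih

/-- Interpolation on one coset of the inertia group. -/
theorem interp_coset [IsDomain A] (Q : Ideal A) [Q.IsPrime] (s : G) (hsQ : ∀ x, ψ s x - x ∈ Q)
    (hp : (orderOf s).Prime) (y : A)
    (hdiv : ∀ i, 0 < i → i < orderOf s →
      ∀ x, ∃ f ∉ Q, ∃ z, f * (ψ (s ^ i) x - x) = z * (ψ (s ^ i) y - y))
    (hy : ψ s y ≠ y) (x : A) :
    ∃ H : (Localization.AtPrime Q)[X], ∀ j : ℕ,
      H.eval (algebraMap A _ (ψ (s ^ j) y)) = algebraMap A _ (ψ (s ^ j) x) := by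
  have hinj : Function.Injective (algebraMap A (Localization.AtPrime Q)) :=
    IsLocalization.injective _ (Ideal.primeCompl_le_nonZeroDivisors Q)
  have : IsDomain (Localization.AtPrime Q) :=
    IsLocalization.isDomain_localization (Ideal.primeCompl_le_nonZeroDivisors Q)
  have hcomap : Q = Q.comap (ψ s : A →+* A) := by
    ext a
    rw [Ideal.mem_comap]
    constructor
    · intro ha
      have := Q.add_mem (hsQ a) ha
      rwa [sub_add_cancel] at this
    · intro ha
      have := Q.sub_mem (show ψ s a ∈ Q from ha) (hsQ a)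
      rwa [sub_sub_cancel] at this
  set B := Localization.AtPrime Q with hB
  let σ : B →+* B := Localization.localRingHom Q Q (ψ s : A →+* A) hcomap
  have hσ : ∀ a : A, σ (algebraMap A B a) = algebraMap A B (ψ s a) := fun a =>
    Localization.localRingHom_to_map Q Q (ψ s : A →+* A) hcomap a
  have hσi : ∀ (j : ℕ) (a : A), σ^[j] (algebraMap A B a) = algebraMap A B (ψ (s ^ j) a) := by
    intro j
    induction j with
    | zero => intro a; rw [Function.iterate_zero, id, pow_zero, ψ_one]
    | succ j ih => intro a; rw [Function.iterate_succ_apply', ih, hσ, pow_succ', ψ_mul]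
  have hunitA : ∀ f : A, f ∉ Q → IsUnit (algebraMap A B f) := fun f hf =>
    IsLocalization.map_units B (⟨f, hf⟩ : Q.primeCompl)
  have hdivA : ∀ i, 0 < i → i < orderOf s → ∀ x : A,
      algebraMap A B (ψ (s ^ i) y - y) ∣ algebraMap A B (ψ (s ^ i) x - x) := by
    intro i hi hip x
    obtain ⟨f, hf, z, hz⟩ := hdiv i hi hip x
    have h1 := congrArg (algebraMap A B) hz
    rw [_root_.map_mul, _root_.map_mul] at h1
    rw [← (hunitA f hf).dvd_mul_left, h1]
    exact dvd_mul_left _ _
  have h1s : ∀ x : A, algebraMap A B (ψ s y - y) ∣ algebraMap A B (ψ s x - x) := by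
    intro x
    have := hdivA 1 one_pos hp.one_lt x
    rwa [pow_one] at this
  have hs0 : algebraMap A B (ψ s y - y) ≠ 0 := by
    intro h0
    rw [← _root_.map_zero (algebraMap A B)] at h0
    exact hy (sub_eq_zero.1 (hinj h0))
  have hdivB : ∀ b : B, algebraMap A B (ψ s y - y) ∣ σ b - b := by
    intro b
    obtain ⟨a, f, rfl⟩ := IsLocalization.exists_mk'_eq Q.primeCompl b
    have hf := hunitA f f.2
    have hsf : ψ s (f : A) ∉ Q := by
      intro h
      have h' : (f : A) ∈ Q.comap (ψ s : A →+* A) := h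
      rw [← hcomap] at h'
      exact f.2 h'
    have hf' := hunitA _ hsf
    have e0 : IsLocalization.mk' B a f * algebraMap A B f = algebraMap A B a :=
      IsLocalization.mk'_spec B a f
    have e1 := congrArg σ e0
    rw [_root_.map_mul, hσ, hσ] at e1
    have e2 : algebraMap A B (f : A) * (algebraMap A B (ψ s (f : A)) *
        (σ (IsLocalization.mk' B a f) - IsLocalization.mk' B a f)) =
        algebraMap A B f * algebraMap A B (ψ s a - a)
          - algebraMap A B a * algebraMap A B (ψ s (f : A) - f) := by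
      rw [_root_.map_sub, _root_.map_sub]
      linear_combination (algebraMap A B (f : A)) * e1 - (algebraMap A B (ψ s (f : A))) * e0
    rw [← hf'.dvd_mul_left, ← hf.dvd_mul_left, e2]
    exact dvd_sub (dvd_mul_of_dvd_right (h1s a) _) (dvd_mul_of_dvd_right (h1s _) _)
  have hunit : ∀ i, 0 < i → i < orderOf s → ∃ v w : B, v * w = 1 ∧
      σ^[i] (algebraMap A B y) - algebraMap A B y = algebraMap A B (ψ s y - y) * v := by
    intro i hi hip
    obtain ⟨v, hv⟩ := dvd_pow_sub ψ B _ s h1s i y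
    have hcop : i.Coprime (orderOf s) := by
      rw [Nat.coprime_comm]
      exact (Nat.Prime.coprime_iff_not_dvd hp).2 fun hd => absurd (Nat.le_of_dvd hi hd) (by omega)
    obtain ⟨m, hm⟩ := exists_pow_eq_self_of_coprime hcop
    obtain ⟨w, hw⟩ := dvd_pow_sub ψ B _ (s ^ i) (hdivA i hi hip) m y
    rw [hm] at hw
    refine ⟨v, w, ?_, ?_⟩
    · have : algebraMap A B (ψ s y - y) * (v * w) = algebraMap A B (ψ s y - y) * 1 := by
        rw [mul_one]
        conv_rhs => rw [hw, hv]
        ring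
      exact mul_left_cancel₀ hs0 this
    · rw [hσi, ← _root_.map_sub, hv]
  obtain ⟨H, -, hH⟩ := interp_iter σ (orderOf s) _ (algebraMap A B y) hs0 hdivB hunit
    (algebraMap A B x) (orderOf s - 1) (by have := hp.pos; omega)
  refine ⟨H, fun j => ?_⟩
  have h2 := hH (j % orderOf s) (by have := Nat.mod_lt j hp.pos; omega)
  rw [hσi, hσi, pow_mod_orderOf] at h2
  exact h2

end

/-- Generic elements (blueprint 6 (1)). -/
theorem exists_generic {k A G : Type} [Field k] [Infinite k] [CommRing A] [IsDomain A]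
    [Algebra k A] [Group G] [Finite G] (ψ : G →* (A ≃ₐ[k] A)) (hfaith : Function.Injective ψ)
    (h : ∀ q : Ideal A, q.IsPrime → ∀ s : G, s ≠ 1 → (∀ x, ψ s x - x ∈ q) →
      ∃ y : A, ∀ x : A, ∃ f ∉ q, ∃ z : A, f * (ψ s x - x) = z * (ψ s y - y))
    (ι : Type) [Finite ι] (q : ι → Ideal A) (hq : ∀ i, (q i).IsPrime) :
    ∃ y : A, ∀ (i : ι) (s : G),
      ((¬ ∀ x, ψ s x - x ∈ q i) → ψ s y - y ∉ q i) ∧
      (s ≠ 1 → (∀ x, ψ s x - x ∈ q i) →
        ∀ x : A, ∃ f ∉ q i, ∃ z : A, f * (ψ s x - x) = z * (ψ s y - y)) := by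
  classical
  have hprop : ∀ (i : ι) (s : G), ∃ W : Submodule k A, W ≠ ⊤ ∧ ∀ y, y ∉ W →
      ((¬ ∀ x, ψ s x - x ∈ q i) → ψ s y - y ∉ q i) ∧
      (s ≠ 1 → (∀ x, ψ s x - x ∈ q i) →
        ∀ x : A, ∃ f ∉ q i, ∃ z : A, f * (ψ s x - x) = z * (ψ s y - y)) := by
    intro i s
    have hqi := hq i
    by_cases hin : ∀ x, ψ s x - x ∈ q i
    · by_cases hs : s = 1
      · refine ⟨⊥, bot_ne_top, fun y _ => ⟨fun h => absurd hin h, fun h => absurd hs h⟩⟩
      obtain ⟨y₀, hy₀⟩ := h (q i) hqi s hs hin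
      have hy₀' : ψ s y₀ - y₀ ≠ 0 := by
        intro h0
        apply hs
        apply hfaith
        rw [_root_.map_one]
        ext x
        obtain ⟨f, hf, z, hz⟩ := hy₀ x
        rw [h0, mul_zero] at hz
        rcases mul_eq_zero.1 hz with h1 | h1
        · exact absurd (h1 ▸ (q i).zero_mem) hf
        · exact sub_eq_zero.1 h1
      let W : Submodule k A :=
        { carrier := {y | ∃ f ∉ q i, ∃ z ∈ q i, f * (ψ s y - y) = z * (ψ s y₀ - y₀)}
          add_mem' := by
            rintro y y' ⟨f, hf, z, hz, e⟩ ⟨f', hf', z', hz', e'⟩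
            refine ⟨f * f', hqi.mul_notMem hf hf', f' * z + f * z',
              (q i).add_mem ((q i).mul_mem_left _ hz) ((q i).mul_mem_left _ hz'), ?_⟩
            rw [_root_.map_add]
            linear_combination f' * e + f * e'
          zero_mem' := ⟨1, (Ideal.ne_top_iff_one _).1 hqi.ne_top, 0, (q i).zero_mem, by simp⟩
          smul_mem' := by
            rintro r y ⟨f, hf, z, hz, e⟩
            refine ⟨f, hf, r • z, ?_, ?_⟩
            · rw [Algebra.smul_def]; exact (q i).mul_mem_left _ hz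
            · rw [map_smul, ← smul_sub, mul_smul_comm, e, smul_mul_assoc] }
      refine ⟨W, ?_, ?_⟩
      · intro htop
        have h1 : y₀ ∈ W := by rw [htop]; trivial
        obtain ⟨f, hf, z, hz, e⟩ := h1
        have := mul_right_cancel₀ hy₀' e
        exact hf (this ▸ hz)
      · intro y hy
        refine ⟨fun h => absurd hin h, fun _ _ x => ?_⟩
        obtain ⟨f₁, hf₁, z₁, e₁⟩ := hy₀ y
        obtain ⟨f₂, hf₂, z₂, e₂⟩ := hy₀ x
        have hz₁ : z₁ ∉ q i := fun hz₁ => hy ⟨f₁, hf₁, z₁, hz₁, e₁⟩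
        refine ⟨z₁ * f₂, hqi.mul_notMem hz₁ hf₂, z₂ * f₁, ?_⟩
        linear_combination z₁ * e₂ - z₂ * e₁
    · let W : Submodule k A :=
        { carrier := {y | ψ s y - y ∈ q i}
          add_mem' := by
            intro y y' hy hy'
            have e : ψ s (y + y') - (y + y') = (ψ s y - y) + (ψ s y' - y') := by
              rw [_root_.map_add]; ring
            change ψ s (y + y') - (y + y') ∈ q i
            rw [e]
            exact (q i).add_mem hy hy'
          zero_mem' := by
            change ψ s 0 - 0 ∈ q i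
            simp
          smul_mem' := by
            intro r y hy
            change ψ s (r • y) - r • y ∈ q i
            rw [map_smul, ← smul_sub, Algebra.smul_def]
            exact (q i).mul_mem_left _ hy }
      refine ⟨W, ?_, ?_⟩
      · intro htop
        apply hin
        intro x
        have h1 : x ∈ W := by rw [htop]; trivial
        exact h1
      · intro y hy
        exact ⟨fun _ => hy, fun _ h => absurd h hin⟩
  choose W hW hW' using hprop
  by_contra hcon
  have hcov : ⋃ j : ι × G, (W j.1 j.2 : Set A) = Set.univ := by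
    rw [Set.eq_univ_iff_forall]
    intro y
    by_contra hy
    rw [Set.mem_iUnion] at hy
    push Not at hy
    exact hcon ⟨y, fun i s => hW' i s y (hy (i, s))⟩
  obtain ⟨j, hj⟩ := Subspace.exists_eq_top_of_iUnion_eq_univ hcov
  exact hW j.1 j.2 hj

/-- PART A of Theorem E: generic elements and interpolation. -/
theorem exists_gen_interp {k A G : Type} [Field k] [Infinite k] [CommRing A] [IsDomain A]
    [Algebra k A] [Group G] [Finite G] (ψ : G →* (A ≃ₐ[k] A)) (hfaith : Function.Injective ψ)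
    (h : ∀ q : Ideal A, q.IsPrime → ∀ s : G, s ≠ 1 → (∀ x, ψ s x - x ∈ q) →
      (∀ g : G, (∀ x, ψ g x - x ∈ q) → g ∈ Subgroup.zpowers s) ∧ (orderOf s).Prime ∧
      ∃ y : A, ∀ x : A, ∃ f ∉ q, ∃ z : A, f * (ψ s x - x) = z * (ψ s y - y))
    (q : Ideal A) (hq : q.IsPrime) :
    ∃ y : A, (∀ g : G, ψ g y = y → g = 1) ∧ ∀ g : G, ∀ x : A,
      ∃ f ∉ q.comap (ψ g : A →+* A), ∃ H : A[X], H.degree < Nat.card G ∧
        ∀ g' : G, H.eval (ψ g' y) = f * ψ g' x := by
  classical
  have hqc : ∀ g : G, (q.comap (ψ g : A →+* A)).IsPrime := fun g => Ideal.comap_isPrime _ _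
  obtain ⟨y, hy⟩ := exists_generic ψ hfaith (fun q hq s hs hs' => (h q hq s hs hs').2.2) G
    (fun g => q.comap (ψ g : A →+* A)) hqc
  have hmem : ∀ (g : G) (a : A), a ∈ q.comap (ψ g : A →+* A) ↔ ψ g a ∈ q := fun g a => Iff.rfl
  have hfree : ∀ (g : G) (s : G), ψ s y = y → s = 1 := by
    intro g s hs
    by_contra hs1
    have hyg := hy g s
    by_cases hin : ∀ x, ψ s x - x ∈ q.comap (ψ g : A →+* A)
    · have h2 : ψ s = 1 := by
        ext x
        obtain ⟨f, hf, z, hz⟩ := hyg.2 hs1 hin x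
        rw [hs, sub_self, mul_zero] at hz
        rcases mul_eq_zero.1 hz with h1 | h1
        · exact absurd (h1 ▸ Ideal.zero_mem _) hf
        · exact sub_eq_zero.1 h1
      exact hs1 (hfaith (by rw [h2, _root_.map_one]))
    · refine hyg.1 hin ?_
      rw [hs, sub_self]
      exact Ideal.zero_mem _
  refine ⟨y, hfree 1, ?_⟩
  intro g x
  have hQ := hqc g
  set Q := q.comap (ψ g : A →+* A) with hQdef
  -- transport along the group
  have hb : ∀ g₁ g₂ : G, ψ g₁ y - ψ g₂ y ∈ Q → g₁ * g₂⁻¹ ∈ inertA ψ Q := by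
    intro g₁ g₂ h12
    have h1 : ψ (g₂⁻¹ * g₁) y - y ∈ q.comap (ψ (g * g₂) : A →+* A) := by
      rw [hmem, _root_.map_sub, ← ψ_mul]
      have e : g * g₂ * (g₂⁻¹ * g₁) = g * g₁ := by group
      rw [e, ψ_mul, ψ_mul, ← _root_.map_sub]
      exact h12
    have h2 : ∀ x, ψ (g₂⁻¹ * g₁) x - x ∈ q.comap (ψ (g * g₂) : A →+* A) := by
      by_contra hcon
      exact (hy (g * g₂) (g₂⁻¹ * g₁)).1 hcon h1
    intro x
    have h3 := h2 (ψ g₂⁻¹ x)
    rw [hmem, _root_.map_sub, ← ψ_mul, ← ψ_mul, ← ψ_mul] at h3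
    have e1 : g * g₂ * (g₂⁻¹ * g₁) * g₂⁻¹ = g * (g₁ * g₂⁻¹) := by group
    have e2 : g * g₂ * g₂⁻¹ = g := by group
    rw [e1, e2] at h3
    rw [hQdef, hmem, _root_.map_sub, ← ψ_mul]
    exact h3
  have hc : ∀ (s : G), s ≠ 1 → s ∈ inertA ψ Q → ∀ (g₁ : G) (x : A),
      ∃ f ∉ Q, ∃ z : A, f * (ψ s x - x) = z * (ψ s (ψ g₁ y) - ψ g₁ y) := by
    intro s hs hsQ g₁ x
    have hs' : g₁⁻¹ * s * g₁ ≠ 1 := by
      intro h1
      apply hs
      have : s = g₁ * (g₁⁻¹ * s * g₁) * g₁⁻¹ := by group
      rw [this, h1]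
      group
    have hsQ' : ∀ x, ψ (g₁⁻¹ * s * g₁) x - x ∈ q.comap (ψ (g * g₁) : A →+* A) := by
      intro x
      have h1 := hsQ (ψ g₁ x)
      rw [hQdef, hmem, _root_.map_sub, ← ψ_mul, ← ψ_mul, ← ψ_mul] at h1
      rw [hmem, _root_.map_sub, ← ψ_mul]
      have e : g * g₁ * (g₁⁻¹ * s * g₁) = g * s * g₁ := by group
      rw [e]
      exact h1
    obtain ⟨f, hf, z, hz⟩ := (hy (g * g₁) (g₁⁻¹ * s * g₁)).2 hs' hsQ' (ψ g₁⁻¹ x)
    refine ⟨ψ g₁ f, ?_, ψ g₁ z, ?_⟩
    · intro h1
      apply hf
      rw [hmem, ψ_mul]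
      exact h1
    · have h1 := congrArg (ψ g₁) hz
      rw [_root_.map_mul (ψ g₁) f, _root_.map_mul (ψ g₁) z, _root_.map_sub, _root_.map_sub,
        ← ψ_mul, ← ψ_mul, ← ψ_mul, ← ψ_mul] at h1
      have e1 : g₁ * (g₁⁻¹ * s * g₁) * g₁⁻¹ = s := by group
      have e2 : g₁ * g₁⁻¹ = 1 := by group
      have e3 : g₁ * (g₁⁻¹ * s * g₁) = s * g₁ := by group
      rw [e1, e2, e3, ψ_one, ψ_mul] at h1
      exact h1
  have : Fintype G := Fintype.ofFinite G
  apply clear_denominators Q (fun g' => ψ g' y) (fun g' => ψ g' x) (Nat.card G)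
  rw [Nat.card_eq_fintype_card]
  apply interp_blocks (fun g' : G => (Quotient.mk (QuotientGroup.rightRel (inertA ψ Q)) g'))
    (fun g' => algebraMap A (Localization.AtPrime Q) (ψ g' y))
    (fun g' => algebraMap A (Localization.AtPrime Q) (ψ g' x))
  · intro i j hij
    rw [← _root_.map_sub]
    apply IsLocalization.map_units (Localization.AtPrime Q) (⟨ψ i y - ψ j y, ?_⟩ : Q.primeCompl)
    intro h1
    apply hij
    apply Quotient.sound
    have h2 := hb i j h1
    change QuotientGroup.rightRel (inertA ψ Q) i j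
    rw [QuotientGroup.rightRel_apply]
    have := (inertA ψ Q).inv_mem h2
    rwa [mul_inv_rev, inv_inv] at this
  · intro c
    obtain ⟨g₀, rfl⟩ := Quotient.exists_rep c
    have hrel : ∀ i : G, (Quotient.mk (QuotientGroup.rightRel (inertA ψ Q)) i) =
        Quotient.mk (QuotientGroup.rightRel (inertA ψ Q)) g₀ → ∃ u ∈ inertA ψ Q, i = u * g₀ := by
      intro i hi
      have h1 : QuotientGroup.rightRel (inertA ψ Q) i g₀ := Quotient.exact hi
      rw [QuotientGroup.rightRel_apply] at h1
      refine ⟨(g₀ * i⁻¹)⁻¹, (inertA ψ Q).inv_mem h1, by group⟩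
    by_cases htriv : ∀ u ∈ inertA ψ Q, u = 1
    · refine ⟨C (algebraMap A _ (ψ g₀ x)), fun i hi => ?_⟩
      obtain ⟨u, hu, rfl⟩ := hrel i hi
      rw [htriv u hu, one_mul, eval_C]
    · push Not at htriv
      obtain ⟨s, hsQ, hs1⟩ := htriv
      obtain ⟨hz, hp, -⟩ := h Q hQ s hs1 hsQ
      obtain ⟨H, hH⟩ := interp_coset ψ Q s hsQ hp (ψ g₀ y) (fun i hi hip x => by
        refine hc (s ^ i) ?_ ((inertA ψ Q).pow_mem hsQ i) g₀ x
        intro h1
        have := Nat.le_of_dvd hi (orderOf_dvd_of_pow_eq_one h1)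
        omega) (fun h1 => by
          have h2 : ψ (g₀⁻¹ * s * g₀) y = y := by
            rw [ψ_mul, ψ_mul, h1, ← ψ_mul, inv_mul_cancel, ψ_one]
          have h3 := hfree 1 _ h2
          apply hs1
          have : s = g₀ * (g₀⁻¹ * s * g₀) * g₀⁻¹ := by group
          rw [this, h3]
          group) (ψ g₀ x)
      refine ⟨H, fun i hi => ?_⟩
      obtain ⟨u, hu, rfl⟩ := hrel i hi
      have h1 := hz u hu
      rw [← mem_powers_iff_mem_zpowers] at h1
      obtain ⟨j, rfl⟩ := h1
      have h2 := hH j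
      rw [ψ_mul, ψ_mul]
      exact h2

end Pool.Agent.MP_b525bf_ag_W
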