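import Pool.Agent.Lib.MP_b525bf_ag.FamLoc

/-!
# W10: finiteness of invariants, covering (blueprint 6 (4))
-/

set_option autoImplicit false

namespace Pool.Agent.MP_b525bf_ag_W

theorem finiteType_fixed {k A G : Type} [Field k] [CommRing A] [Algebra k A]
    [hA : Algebra.FiniteType k A] [Group G] [Finite G] (ψ : G →* (A ≃ₐ[k] A)) (A0 : Subalgebra k A)
    (hA0 : ∀ x, x ∈ A0 ↔ ∀ g, ψ g x = x) : Module.Finite A0 A ∧ Algebra.FiniteType k A0 := by
  have hfin : Finite ψ.range := by
    have : Finite (Set.range ψ) := (Set.finite_range ψ).to_subtype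
    exact this
  have hinv : Algebra.IsInvariant A0 A ψ.range := by
    refine ⟨fun b hb => ⟨⟨b, (hA0 b).2 fun g => ?_⟩, rfl⟩⟩
    exact hb ⟨ψ g, g, rfl⟩
  have hcomm : SMulCommClass ψ.range A0 A := by
    refine ⟨fun g a b => ?_⟩
    obtain ⟨_, g, rfl⟩ := g
    have h1 : ψ g (a : A) = a := (hA0 (a : A)).1 a.2 g
    change ψ g ((a : A) * b) = (a : A) * ψ g b
    rw [_root_.map_mul, h1]
  have h1 : Algebra.IsIntegral A0 A := Algebra.IsInvariant.isIntegral A0 A ψ.range
  have h2 : Algebra.FiniteType A0 A := Algebra.FiniteType.of_restrictScalars_finiteType k _ _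
  have h3 : Module.Finite A0 A := Algebra.IsIntegral.finite
  exact ⟨h3, ⟨fg_of_fg_of_fg k A0 A hA.1 h3.1 Subtype.val_injective⟩⟩

theorem formallySmooth_of_cover {k R : Type} [Field k] [CommRing R] [Algebra k R]
    [hR : Algebra.FiniteType k R]
    (h : ∀ q0 : Ideal R, q0.IsPrime →
      ∃ h : R, h ∉ q0 ∧ Algebra.FormallySmooth k (Localization.Away h)) :
    Algebra.FormallySmooth k R :=
  Pool.Agent.MP_b525bf_ag.formallySmooth_of_cover hR fun q hq => h q hq

end Pool.Agent.MP_b525bf_ag_W
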